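import Pool.Agent.Helper884.IC.Compl

set_option linter.unusedSectionVars false
set_option linter.style.haveILetI false

open scoped BigOperators Classical MonoidAlgebra
open Representation

noncomputable section

namespace Pool.Agent.Helper884.IC

variable {G : Type} [Group G] [Fintype G]

/-- extension by zero of a linear character of a subgroup -/
def lamExt (C : Subgroup G) (lam : C →* ℂˣ) (g : G) : ℂ :=
  if h : g ∈ C then ((lam ⟨g, h⟩ : ℂˣ) : ℂ) else 0

/-- the induced character -/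
def indChar (C : Subgroup G) (lam : C →* ℂˣ) (g : G) : ℂ :=
  (Nat.card C : ℂ)⁻¹ * ∑ y : G, lamExt C lam (y⁻¹ * g * y)

/-- the additive group generated by the principal character and the induced cyclic characters -/
def indSpan (G : Type) [Group G] [Fintype G] : AddSubgroup (G → ℂ) :=
  AddSubgroup.closure ({1} ∪ {f | ∃ C : Subgroup G, IsCyclic C ∧ ∃ lam : C →* ℂˣ, f = indChar C lam})

/-- property (IC) -/
def HasIC (G : Type) [Group G] [Fintype G] : Prop :=
  ∀ chi : G → ℂ, IsIrrChar chi → chi ∈ indSpan G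

lemma cardC_ne (C : Subgroup G) : (Nat.card C : ℂ) ≠ 0 := by
  exact_mod_cast Nat.card_pos.ne'

lemma isClass_indChar (C : Subgroup G) (lam : C →* ℂˣ) : IsClass (indChar C lam) := by
  intro g y
  unfold indChar
  congr 1
  refine Fintype.sum_equiv (Equiv.mulLeft y⁻¹) _ _ fun z => ?_
  simp only [Equiv.coe_mulLeft]
  congr 1
  group

lemma isClass_one : IsClass (1 : G → ℂ) := fun _ _ => rfl

lemma sum_conj (f : G → ℂ) (y : G) : ∑ g : G, f (y * g * y⁻¹) = ∑ g : G, f g := by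
  refine Fintype.sum_equiv (MulAut.conj y).toEquiv _ _ fun z => ?_
  simp

lemma frob (C : Subgroup G) (lam : C →* ℂˣ) (f : G → ℂ) (hf : IsClass f) :
    B (indChar C lam) f = (Nat.card C : ℂ)⁻¹ * ∑ g : G, lamExt C lam g * f g⁻¹ := by
  unfold B indChar
  simp only [Finset.mul_sum, Finset.sum_mul]
  rw [Finset.sum_comm]
  have h1 : ∀ y : G, ∑ g : G, (Nat.card G : ℂ)⁻¹ * ((Nat.card C : ℂ)⁻¹ * lamExt C lam (y⁻¹ * g * y) * f g⁻¹)
      = ∑ g : G, (Nat.card G : ℂ)⁻¹ * ((Nat.card C : ℂ)⁻¹ * (lamExt C lam g * f g⁻¹)) := by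
    intro y
    rw [← sum_conj _ y]
    refine Finset.sum_congr rfl fun g _ => ?_
    have e1 : y⁻¹ * (y * g * y⁻¹) * y = g := by group
    have e2 : (y * g * y⁻¹)⁻¹ = y * g⁻¹ * y⁻¹ := by group
    rw [e1, e2, hf]
    ring
  simp only [h1]
  rw [Finset.sum_const, Finset.card_univ, ← Nat.card_eq_fintype_card, nsmul_eq_mul]
  rw [Finset.mul_sum]
  refine Finset.sum_congr rfl fun g _ => ?_
  field_simp [cardG_ne (G := G)]

/-- one-dimensional representation -/
def oneRep {H : Type} [Group H] (lam : H →* ℂˣ) : Representation ℂ H ℂ where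
  toFun h := ((lam h : ℂˣ) : ℂ) • LinearMap.id
  map_one' := by simp; rfl
  map_mul' a b := by
    ext
    simp [mul_comm]

lemma oneRep_char {H : Type} [Group H] (lam : H →* ℂˣ) (h : H) :
    (oneRep lam).character h = ((lam h : ℂˣ) : ℂ) := by
  simp [oneRep, Representation.character]

lemma sum_lamExt (C : Subgroup G) (lam : C →* ℂˣ) (f : G → ℂ) :
    ∑ g : G, lamExt C lam g * f g = ∑ c : C, ((lam c : ℂˣ) : ℂ) * f c := by
  have h1 : ∑ g : G, lamExt C lam g * f g = ∑ g ∈ Finset.univ.filter (· ∈ C), lamExt C lam g * f g := by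
    rw [Finset.sum_filter]
    refine Finset.sum_congr rfl fun g _ => ?_
    by_cases h : g ∈ C
    · simp [h]
    · simp [h, lamExt]
  rw [h1]
  rw [Finset.sum_subtype (p := fun g => g ∈ C) (F := inferInstance) _ (by simp)]
  refine Finset.sum_congr rfl fun g _ => ?_
  simp [lamExt]

lemma mult_nat (C : Subgroup G) (lam : C →* ℂˣ) {chi : G → ℂ} (h : IsIrrChar chi) :
    ∃ n : ℕ, B (indChar C lam) chi = n := by
  have hcl := h.isClass
  obtain ⟨V, _, _, _, rho, hr, rfl⟩ := h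
  rw [frob _ _ _ hcl]
  haveI : Invertible (Nat.card C : ℂ) := invertibleOfNonzero (cardC_ne C)
  let rhoC : Representation ℂ C V := rho.comp C.subtype
  have h1 := Representation.card_inv_mul_sum_char_mul_char_eq_finrank (G := C) rhoC (oneRep lam)
  refine ⟨Module.finrank ℂ (rhoC.IntertwiningMap (oneRep lam)), ?_⟩
  rw [← h1]
  congr 1
  rw [sum_lamExt C lam (fun g => rho.character g⁻¹)]
  refine Finset.sum_congr rfl fun c _ => ?_
  rw [oneRep_char]
  rfl

/-- the ring of algebraic integers localised at `p` -/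
def OL (p : ℕ) [hp : Fact p.Prime] : Subring ℂ where
  carrier := {z | ∃ m : ℕ, ¬ p ∣ m ∧ IsIntegral ℤ ((m : ℂ) * z)}
  mul_mem' := by
    rintro a b ⟨m, hm, ha⟩ ⟨n, hn, hb⟩
    refine ⟨m * n, fun h => ?_, ?_⟩
    · rcases (hp.out.dvd_mul).mp h with h | h
      · exact hm h
      · exact hn h
    · have : ((m * n : ℕ) : ℂ) * (a * b) = (m * a) * (n * b) := by push_cast; ring
      rw [this]
      exact ha.mul hb
  one_mem' := ⟨1, fun h => hp.out.one_lt.ne' (Nat.dvd_one.mp h), by simpa using isIntegral_one⟩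
  add_mem' := by
    rintro a b ⟨m, hm, ha⟩ ⟨n, hn, hb⟩
    refine ⟨m * n, fun h => ?_, ?_⟩
    · rcases (hp.out.dvd_mul).mp h with h | h
      · exact hm h
      · exact hn h
    · have : ((m * n : ℕ) : ℂ) * (a + b) = n * (m * a) + m * (n * b) := by push_cast; ring
      rw [this]
      exact ((isIntegral_algebraMap (x := (n : ℤ))).mul ha).add
        ((isIntegral_algebraMap (x := (m : ℤ))).mul hb)
  zero_mem' := ⟨1, fun h => hp.out.one_lt.ne' (Nat.dvd_one.mp h), by simpa using isIntegral_zero⟩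
  neg_mem' := by
    rintro a ⟨m, hm, ha⟩
    exact ⟨m, hm, by simpa using ha.neg⟩

section OL
variable (p : ℕ) [hp : Fact p.Prime]

lemma OL_of_int {z : ℂ} (h : IsIntegral ℤ z) : z ∈ OL p :=
  ⟨1, fun h => hp.out.one_lt.ne' (Nat.dvd_one.mp h), by simpa using h⟩

lemma OL_inv {m : ℕ} (h : ¬ p ∣ m) : (m : ℂ)⁻¹ ∈ OL p := by
  refine ⟨m, h, ?_⟩
  have : (m : ℂ) ≠ 0 := by
    intro h0
    apply h
    have : m = 0 := by exact_mod_cast h0
    simp [this]
  rw [mul_inv_cancel₀ this]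
  exact isIntegral_one

lemma int_of_integral_rat {a b : ℤ} (hb : b ≠ 0) (h : IsIntegral ℤ ((a : ℂ) / b)) : b ∣ a := by
  have h1 : IsIntegral ℤ ((a : ℚ) / b) := by
    have h2 : (algebraMap ℚ ℂ) ((a : ℚ) / b) = (a : ℂ) / b := by simp
    rw [← h2] at h
    exact (isIntegral_algebraMap_iff (algebraMap ℚ ℂ).injective).mp h
  obtain ⟨c, hc⟩ := IsIntegrallyClosed.isIntegral_iff.mp h1
  refine ⟨c, ?_⟩
  have hb' : (b : ℚ) ≠ 0 := by exact_mod_cast hb
  have h3 : (c : ℚ) * b = a := by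
    have : (algebraMap ℤ ℚ) c = (c : ℚ) := rfl
    rw [this] at hc
    rw [hc]
    field_simp
  have h4 : c * b = a := by exact_mod_cast h3
  rw [← h4]; ring

/-- the only way to lose: `a / p` in `OL p` forces `p ∣ a` -/
lemma OL_div {a : ℤ} (h : (a : ℂ) / p ∈ OL p) : (p : ℤ) ∣ a := by
  obtain ⟨m, hm, h1⟩ := h
  have h2 : (m : ℂ) * ((a : ℂ) / p) = ((m * a : ℤ) : ℂ) / ((p : ℤ) : ℂ) := by
    push_cast; ring
  rw [h2] at h1
  have h3 := int_of_integral_rat (by exact_mod_cast hp.out.ne_zero) h1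
  have hpp : Prime (p : ℤ) := Nat.prime_iff_prime_int.mp hp.out
  rcases hpp.dvd_mul.mp h3 with h | h
  · exact absurd (by exact_mod_cast h) hm
  · exact h

lemma OL_nat (n : ℕ) : (n : ℂ) ∈ OL p := by
  exact natCast_mem _ n

lemma OL_natdiv {a b : ℕ} (k : ℕ) (ha : p ^ k ∣ a) (hb : ∃ t, b = p ^ k * t ∧ ¬ p ∣ t) :
    (a : ℂ) / b ∈ OL p := by
  obtain ⟨c, rfl⟩ := ha
  obtain ⟨t, rfl, ht⟩ := hb
  have hp0 : (p : ℂ) ^ k ≠ 0 := pow_ne_zero _ (by exact_mod_cast hp.out.ne_zero)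
  have : ((p ^ k * c : ℕ) : ℂ) / ((p ^ k * t : ℕ) : ℂ) = (c : ℂ) * (t : ℂ)⁻¹ := by
    push_cast
    rw [mul_div_mul_left _ _ hp0, div_eq_mul_inv]
  rw [this]
  exact (OL p).mul_mem (OL_nat p c) (OL_inv p ht)

end OL

lemma lam_integral {H : Type} [Group H] [Finite H] (lam : H →* ℂˣ) (h : H) :
    IsIntegral ℤ ((lam h : ℂˣ) : ℂ) := by
  have h1 : ((lam h : ℂˣ) : ℂ) ^ (Nat.card H) = 1 := by
    rw [← Units.val_pow_eq_pow_val, ← map_pow, pow_card_eq_one', map_one, Units.val_one]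
  exact IsIntegral.of_pow Nat.card_pos (by rw [h1]; exact isIntegral_one)

lemma lamExt_integral (C : Subgroup G) (lam : C →* ℂˣ) (g : G) : IsIntegral ℤ (lamExt C lam g) := by
  unfold lamExt
  split_ifs
  · exact lam_integral _ _
  · exact isIntegral_zero

end Pool.Agent.Helper884.IC
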