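import Pool.Agent.Helper884.IC.Nec9

set_option linter.unusedSectionVars false
set_option linter.style.haveILetI false
set_option linter.unusedVariables false

open scoped BigOperators Classical MonoidAlgebra TensorProduct
open Representation

noncomputable section

namespace Pool.Agent.Helper884.IC

variable {G : Type} [Group G] [Fintype G]

section lin
variable {V : Type} [AddCommGroup V] [Module ℂ V] [FiniteDimensional ℂ V]

/-- the swap on the tensor square -/
def swp (V : Type) [AddCommGroup V] [Module ℂ V] : V ⊗[ℂ] V →ₗ[ℂ] V ⊗[ℂ] V :=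
  (TensorProduct.comm ℂ V V).toLinearMap

lemma comp_sum' {W : Type} [AddCommGroup W] [Module ℂ W] {ι : Type} (s : Finset ι) (f : W →ₗ[ℂ] W)
    (g : ι → W →ₗ[ℂ] W) : f ∘ₗ (∑ i ∈ s, g i) = ∑ i ∈ s, f ∘ₗ g i := by
  apply LinearMap.ext
  intro v
  simp only [LinearMap.comp_apply, LinearMap.sum_apply, map_sum]

lemma sum_comp' {W : Type} [AddCommGroup W] [Module ℂ W] {ι : Type} (s : Finset ι) (f : W →ₗ[ℂ] W)
    (g : ι → W →ₗ[ℂ] W) : (∑ i ∈ s, g i) ∘ₗ f = ∑ i ∈ s, g i ∘ₗ f := by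
  apply LinearMap.ext
  intro v
  simp only [LinearMap.comp_apply, LinearMap.sum_apply]

lemma swp_swp : swp V ∘ₗ swp V = LinearMap.id := by
  ext a b
  simp [swp]

lemma swp_map (f : V →ₗ[ℂ] V) : swp V ∘ₗ TensorProduct.map f f = TensorProduct.map f f ∘ₗ swp V := by
  ext a b
  simp [swp]

lemma trace_swp (f : V →ₗ[ℂ] V) :
    LinearMap.trace ℂ (V ⊗[ℂ] V) (TensorProduct.map f f ∘ₗ swp V) = LinearMap.trace ℂ V (f ∘ₗ f) := by
  set b := Module.finBasis ℂ V with hb
  rw [LinearMap.trace_eq_matrix_trace ℂ (b.tensorProduct b), LinearMap.trace_eq_matrix_trace ℂ b,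
    LinearMap.toMatrix_comp b b b]
  simp only [Matrix.trace, Matrix.diag_apply, Matrix.mul_apply]
  rw [Fintype.sum_prod_type]
  refine Finset.sum_congr rfl fun i _ => Finset.sum_congr rfl fun j _ => ?_
  rw [LinearMap.toMatrix_apply, LinearMap.toMatrix_apply, LinearMap.toMatrix_apply]
  rw [Module.Basis.tensorProduct_apply]
  simp only [swp, LinearMap.comp_apply, LinearEquiv.coe_coe, TensorProduct.comm_tmul,
    TensorProduct.map_tmul]
  rw [Module.Basis.tensorProduct_repr_tmul_apply]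
  simp only [smul_eq_mul]
  ring

lemma trace_idem (f : V →ₗ[ℂ] V) (h : f ∘ₗ f = f) : ∃ n : ℕ, LinearMap.trace ℂ V f = n := by
  have h1 : IsIdempotentElem f := h
  have h2 := (LinearMap.isProj_range_iff_isIdempotentElem f).mpr h1
  exact ⟨_, h2.trace⟩

end lin

/-- parity of the Frobenius-Schur defect -/
theorem fs_parity {chi : G → ℂ} (h : IsIrrChar chi) :
    ∃ k : ℤ, (Nat.card G : ℂ)⁻¹ * ∑ g : G, chi g * chi g - (Nat.card G : ℂ)⁻¹ * ∑ g : G, chi (g ^ 2)
      = 2 * k := by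
  obtain ⟨V, _, _, _, rho, hr, rfl⟩ := h
  set A : G → (V ⊗[ℂ] V →ₗ[ℂ] V ⊗[ℂ] V) := fun g => TensorProduct.map (rho g) (rho g) with hA
  have hAmul : ∀ g h : G, A g ∘ₗ A h = A (g * h) := by
    intro g h
    simp only [hA]
    rw [← TensorProduct.map_comp]
    simp [map_mul, Module.End.mul_eq_comp]
  set P : V ⊗[ℂ] V →ₗ[ℂ] V ⊗[ℂ] V := (Nat.card G : ℂ)⁻¹ • ∑ g : G, A g with hP
  have hAP : ∀ g : G, A g ∘ₗ P = P := by
    intro g
    rw [hP, LinearMap.comp_smul, comp_sum']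
    congr 1
    simp only [hAmul]
    exact Fintype.sum_equiv (Equiv.mulLeft g) _ _ fun _ => rfl
  have hPP : P ∘ₗ P = P := by
    have h1 : P ∘ₗ P = (Nat.card G : ℂ)⁻¹ • ∑ g : G, (A g ∘ₗ P) := by
      conv_lhs => rw [hP]
      rw [LinearMap.smul_comp, sum_comp']
    rw [h1]
    simp only [hAP]
    rw [Finset.sum_const, Finset.card_univ, ← Nat.card_eq_fintype_card, ← Nat.cast_smul_eq_nsmul ℂ,
      smul_smul, inv_mul_cancel₀ cardG_ne, one_smul]
  have hPs : P ∘ₗ swp V = swp V ∘ₗ P := by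
    rw [hP, LinearMap.smul_comp, sum_comp', LinearMap.comp_smul, comp_sum']
    congr 1
    refine Finset.sum_congr rfl fun g _ => ?_
    exact (swp_map (rho g)).symm
  set E : V ⊗[ℂ] V →ₗ[ℂ] V ⊗[ℂ] V := (2 : ℂ)⁻¹ • (P + P ∘ₗ swp V) with hE
  have hEE : E ∘ₗ E = E := by
    have h1 : (P ∘ₗ swp V) ∘ₗ P = P ∘ₗ swp V := by
      rw [LinearMap.comp_assoc, ← hPs, ← LinearMap.comp_assoc, hPP]
    have h2 : P ∘ₗ (P ∘ₗ swp V) = P ∘ₗ swp V := by
      rw [← LinearMap.comp_assoc, hPP]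
    have h3 : (P ∘ₗ swp V) ∘ₗ (P ∘ₗ swp V) = P := by
      have h4 : swp V ∘ₗ (P ∘ₗ swp V) = P := by
        rw [← LinearMap.comp_assoc, ← hPs, LinearMap.comp_assoc, swp_swp, LinearMap.comp_id]
      rw [LinearMap.comp_assoc, h4, hPP]
    rw [hE, LinearMap.smul_comp, LinearMap.comp_smul, LinearMap.add_comp, LinearMap.comp_add,
      LinearMap.comp_add, hPP, h1, h2, h3]
    module
  obtain ⟨n1, hn1⟩ := trace_idem P hPP
  obtain ⟨n2, hn2⟩ := trace_idem E hEE
  have htP : LinearMap.trace ℂ _ P = (Nat.card G : ℂ)⁻¹ * ∑ g : G, rho.character g * rho.character g := by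
    rw [hP, map_smul, map_sum, smul_eq_mul]
    congr 1
    refine Finset.sum_congr rfl fun g _ => ?_
    simp only [hA]
    rw [LinearMap.trace_tensorProduct']
    rfl
  have htS : LinearMap.trace ℂ _ (P ∘ₗ swp V) = (Nat.card G : ℂ)⁻¹ * ∑ g : G, rho.character (g ^ 2) := by
    rw [hP, LinearMap.smul_comp, sum_comp', map_smul, map_sum, smul_eq_mul]
    congr 1
    refine Finset.sum_congr rfl fun g _ => ?_
    simp only [hA]
    rw [trace_swp]
    have : rho (g ^ 2) = rho g ∘ₗ rho g := by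
      rw [pow_two, map_mul]
      rfl
    rw [Representation.character, this]
  have htE : LinearMap.trace ℂ _ E = (2 : ℂ)⁻¹ * (LinearMap.trace ℂ _ P + LinearMap.trace ℂ _ (P ∘ₗ swp V)) := by
    rw [hE, map_smul, map_add, smul_eq_mul]
  rw [← htP, ← htS]
  refine ⟨(n1 : ℤ) - n2, ?_⟩
  rw [hn2, hn1] at htE
  rw [hn1]
  push_cast
  linear_combination 2 * htE

end Pool.Agent.Helper884.IC
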