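import Pool.Agent.Helper884.IC.Basic

set_option linter.unusedSectionVars false
set_option linter.style.haveILetI false

open scoped BigOperators Classical MonoidAlgebra
open Representation

noncomputable section

namespace Pool.Agent.Helper884.IC

variable {G : Type} [Group G] [Fintype G]

lemma card_fiber (s g : G) (hg : IsConj s g) :
    (Finset.univ.filter (fun y : G => y⁻¹ * s * y = g)).card
      = Nat.card (Subgroup.centralizer ({s} : Set G)) := by
  obtain ⟨c, hc⟩ := isConj_iff.mp hg
  rw [Nat.card_eq_fintype_card, ← Finset.card_univ]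
  symm
  refine Finset.card_bij (fun z _ => (z : G) * c⁻¹) ?_ ?_ ?_
  · intro z _
    simp only [Finset.mem_filter, Finset.mem_univ, true_and]
    have hz := Subgroup.mem_centralizer_singleton_iff.mp z.2
    rw [← hc, mul_inv_rev, inv_inv]
    have : (c * (z : G)⁻¹) * s * (z * c⁻¹) = c * ((z : G)⁻¹ * (s * z)) * c⁻¹ := by group
    rw [this, ← hz]
    group
  · intro a _ b _ h
    exact Subtype.ext (mul_right_cancel h)
  · intro y hy
    simp only [Finset.mem_filter, Finset.mem_univ, true_and] at hy
    refine ⟨⟨y * c, ?_⟩, Finset.mem_univ _, by simp⟩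
    rw [Subgroup.mem_centralizer_singleton_iff]
    have h1 : y⁻¹ * s * y = c * s * c⁻¹ := by rw [hy, hc]
    have h2 : s * y = y * (c * s * c⁻¹) := by rw [← h1]; group
    calc y * c * s = y * (c * s * c⁻¹) * c := by group
      _ = s * (y * c) := by rw [← h2]; group

lemma sum_conj_fiber (phi : G → ℂ) (s : G) :
    ∑ y : G, phi (y⁻¹ * s * y) = (Nat.card (Subgroup.centralizer ({s} : Set G)) : ℂ)
      * ∑ g ∈ Finset.univ.filter (fun g : G => IsConj s g), phi g := by
  rw [← Finset.sum_fiberwise (s := Finset.univ) (g := fun y : G => y⁻¹ * s * y)]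
  rw [Finset.mul_sum, Finset.sum_filter]
  refine Finset.sum_congr rfl fun g _ => ?_
  by_cases h : IsConj s g
  · rw [if_pos h, ← card_fiber s g h]
    rw [Finset.sum_congr rfl (g := fun _ => phi g)]
    · rw [Finset.sum_const, nsmul_eq_mul]
    · intro y hy
      rw [(Finset.mem_filter.mp hy).2]
  · rw [if_neg h]
    apply Finset.sum_eq_zero
    intro y hy
    exfalso
    apply h
    rw [isConj_iff]
    refine ⟨y⁻¹, ?_⟩
    rw [inv_inv]
    exact (Finset.mem_filter.mp hy).2

lemma all_cyclic_of_one {p : ℕ} [hp : Fact p.Prime] {K : Type} [Group K] [Finite K]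
    (P : Sylow p K) (hP : IsCyclic P) : ∀ Q : Sylow p K, IsCyclic Q := by
  intro Q
  exact (Sylow.equiv Q P).isCyclic.mpr hP

lemma dvd_of_not_cyc (p : ℕ) [hp : Fact p.Prime] {K : Type} [Group K] [Finite K]
    (hnc : ¬ ∀ Q : Sylow p K, IsCyclic Q) (C : Subgroup K) (hC : IsCyclic C) :
    p ^ ((Nat.card C).factorization p + 1) ∣ Nat.card K := by
  by_contra hnd
  apply hnc
  set a := (Nat.card C).factorization p with ha
  have hcC : Nat.card C ≠ 0 := Nat.card_pos.ne'
  have hcK : Nat.card K ≠ 0 := Nat.card_pos.ne'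
  have h1 : p ^ a ∣ Nat.card K := (Nat.ordProj_dvd (Nat.card C) p).trans (Subgroup.card_subgroup_dvd_card C)
  have h2 : (Nat.card K).factorization p = a := by
    apply le_antisymm
    · by_contra hlt
      push Not at hlt
      exact hnd ((pow_dvd_pow p hlt).trans (Nat.ordProj_dvd (Nat.card K) p))
    · exact (hp.out.pow_dvd_iff_le_factorization hcK).mp h1
  let P : Sylow p C := default
  have hcardP : Nat.card P = p ^ a := P.card_eq_multiplicity
  let P' : Subgroup K := (P : Subgroup C).map C.subtype
  have hcardP' : Nat.card P' = p ^ a := by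
    rw [← hcardP]
    exact Nat.card_congr ((P : Subgroup C).equivMapOfInjective C.subtype C.subtype_injective).toEquiv.symm
  let Q : Sylow p K := Sylow.ofCard P' (by rw [hcardP', h2])
  apply all_cyclic_of_one Q
  have h3 : IsCyclic (P : Subgroup C) := inferInstance
  have h4 : IsCyclic P' :=
    ((P : Subgroup C).equivMapOfInjective C.subtype C.subtype_injective).isCyclic.mp h3
  exact h4

lemma OL_index (p : ℕ) [hp : Fact p.Prime] {K : Type} [Group K] [Finite K]
    (hnc : ¬ ∀ Q : Sylow p K, IsCyclic Q) (C : Subgroup K) (hC : IsCyclic C) :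
    (Nat.card K : ℂ) / (Nat.card C * p) ∈ OL p := by
  have h1 := dvd_of_not_cyc p hnc C hC
  have h2 : ((Nat.card C * p : ℕ) : ℂ) = (Nat.card C : ℂ) * p := by push_cast; ring
  rw [← h2]
  refine OL_natdiv p _ h1 ⟨ordCompl[p] (Nat.card C), ?_, ?_⟩
  · conv_lhs => rw [← Nat.ordProj_mul_ordCompl_eq_self (Nat.card C) p]
    ring
  · exact Nat.not_dvd_ordCompl hp.out Nat.card_pos.ne'

/-- conjugate of a subgroup containing a conjugate of `s` inside the centralizer of `s` -/
lemma conj_le_centralizer {s g : G} (C : Subgroup G) (hC : IsCyclic C) (hg : g ∈ C)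
    (hsg : IsConj s g) :
    ∃ C' : Subgroup (Subgroup.centralizer ({s} : Set G)), IsCyclic C' ∧ Nat.card C' = Nat.card C := by
  obtain ⟨c, hc⟩ := isConj_iff.mp hsg
  let f : C →* Subgroup.centralizer ({s} : Set G) :=
    { toFun := fun z => ⟨c⁻¹ * z * c, by
        rw [Subgroup.mem_centralizer_singleton_iff]
        have hcomm : (z : G) * g = g * z := by
          have := hC.commGroup.mul_comm z ⟨g, hg⟩
          exact congrArg Subtype.val this
        calc c⁻¹ * z * c * s = c⁻¹ * (z * (c * s * c⁻¹)) * c := by group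
          _ = c⁻¹ * ((c * s * c⁻¹) * z) * c := by rw [hc, hcomm]
          _ = s * (c⁻¹ * z * c) := by group⟩
      map_one' := by
        apply Subtype.ext
        simp
      map_mul' := by
        intro a b
        apply Subtype.ext
        simp only [Subgroup.coe_mul]
        group }
  have hf : Function.Injective f := by
    intro a b hab
    have h1 := congrArg Subtype.val hab
    have h2 : c⁻¹ * (a : G) * c = c⁻¹ * b * c := h1
    exact Subtype.ext (mul_left_cancel (mul_right_cancel h2))
  refine ⟨f.range, ?_, ?_⟩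
  · exact (f.ofInjective hf).isCyclic.mp hC
  · exact (Nat.card_congr (f.ofInjective hf).toEquiv).symm

/-- values of induced cyclic characters are divisible by `p` when the centralizer has noncyclic
Sylow `p`-subgroups -/
lemma ind_div (p : ℕ) [hp : Fact p.Prime] (s : G)
    (hnc : ¬ ∀ Q : Sylow p (Subgroup.centralizer ({s} : Set G)), IsCyclic Q)
    (C : Subgroup G) (hC : IsCyclic C) (lam : C →* ℂˣ) :
    indChar C lam s / p ∈ OL p := by
  unfold indChar
  rw [sum_conj_fiber]
  by_cases h : ∃ g ∈ C, IsConj s g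
  · obtain ⟨g, hg, hsg⟩ := h
    obtain ⟨C', hC', hcard⟩ := conj_le_centralizer C hC hg hsg
    have h1 := OL_index p hnc C' hC'
    rw [hcard] at h1
    have h2 : ∑ g ∈ Finset.univ.filter (fun g : G => IsConj s g), lamExt C lam g ∈ OL p :=
      (OL p).sum_mem fun g _ => OL_of_int p (lamExt_integral C lam g)
    have h3 := (OL p).mul_mem h1 h2
    convert h3 using 1
    have : (p : ℂ) ≠ 0 := by exact_mod_cast hp.out.ne_zero
    field_simp [cardC_ne C]
  · push Not at h
    rw [Finset.sum_eq_zero]
    · simpa using (OL p).zero_mem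
    · intro g hg
      unfold lamExt
      rw [dif_neg]
      intro hgC
      exact h g hgC (Finset.mem_filter.mp hg).2

lemma ind_one (C : Subgroup G) (lam : C →* ℂˣ) :
    indChar C lam 1 = (Nat.card G : ℂ) / Nat.card C := by
  unfold indChar
  have : ∀ y : G, lamExt C lam (y⁻¹ * 1 * y) = 1 := by
    intro y
    have : y⁻¹ * 1 * y = 1 := by group
    rw [this]
    unfold lamExt
    rw [dif_pos C.one_mem]
    have h1 : (⟨1, C.one_mem⟩ : C) = 1 := rfl
    rw [h1, map_one, Units.val_one]
  simp only [this]
  rw [Finset.sum_const, Finset.card_univ, ← Nat.card_eq_fintype_card, nsmul_eq_mul]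
  field_simp

/-- induction principle for `indSpan` with values in `OL p` -/
lemma span_ind (p : ℕ) [hp : Fact p.Prime] (T : (G → ℂ) →+ ℂ) (h1 : T 1 ∈ OL p)
    (h2 : ∀ (C : Subgroup G) (lam : C →* ℂˣ), IsCyclic C → T (indChar C lam) ∈ OL p)
    {h : G → ℂ} (hh : h ∈ indSpan G) : T h ∈ OL p := by
  unfold indSpan at hh
  induction hh using AddSubgroup.closure_induction with
  | mem x hx =>
    rcases hx with hx | ⟨C, hC, lam, rfl⟩
    · rw [Set.mem_singleton_iff.mp hx]; exact h1
    · exact h2 C lam hC
  | zero => rw [map_zero]; exact (OL p).zero_mem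
  | add x y _ _ hx hy => rw [map_add]; exact (OL p).add_mem hx hy
  | neg x _ hx => rw [map_neg]; exact (OL p).neg_mem hx

theorem nec_a (hIC : HasIC G) (p : ℕ) [hp : Fact p.Prime]
    (hnc : ¬ ∀ P : Sylow p G, IsCyclic P) (s : G) (hs : s ≠ 1) (hps : ¬ p ∣ orderOf s) :
    ∀ Q : Sylow p (Subgroup.centralizer ({s} : Set G)), IsCyclic Q := by
  by_contra hncs
  let T : (G → ℂ) →+ ℂ :=
    { toFun := fun h => (h s - h 1) / p
      map_zero' := by simp
      map_add' := by intro a b; simp; ring }
  have hT : ∀ chi : G → ℂ, IsIrrChar chi → T chi ∈ OL p := by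
    intro chi hchi
    refine span_ind p T ?_ ?_ (hIC chi hchi)
    · show ((1 : G → ℂ) s - (1 : G → ℂ) 1) / p ∈ OL p
      simpa using (OL p).zero_mem
    · intro C lam hC
      show (indChar C lam s - indChar C lam 1) / p ∈ OL p
      rw [sub_div]
      refine (OL p).sub_mem (ind_div p s hncs C hC lam) ?_
      rw [ind_one, div_div]
      exact OL_index p hnc C hC
  let P : Sylow p G := default
  have h1 := expand (indChar (P : Subgroup G) 1) (isClass_indChar _ _)
  have h2 : T (indChar (P : Subgroup G) 1) ∈ OL p := by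
    rw [h1, map_sum]
    refine (OL p).sum_mem fun chi hchi => ?_
    obtain ⟨n, hn⟩ := mult_nat (P : Subgroup G) 1 (mem_Irr.mp hchi)
    rw [hn]
    have : T ((n : ℂ) • chi) = n * T chi := by
      show (((n : ℂ) • chi) s - ((n : ℂ) • chi) 1) / p = n * ((chi s - chi 1) / p)
      simp only [Pi.smul_apply, smul_eq_mul]
      ring
    rw [this]
    exact (OL p).mul_mem (OL_nat p n) (hT chi (mem_Irr.mp hchi))
  have h3 : indChar (P : Subgroup G) 1 s = 0 := by
    unfold indChar
    rw [Finset.sum_eq_zero, mul_zero]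
    intro y _
    unfold lamExt
    rw [dif_neg]
    intro hy
    apply hs
    have h4 : orderOf (y⁻¹ * s * y) = orderOf s := by
      have h5 := (MulAut.conj y⁻¹).orderOf_eq s
      rwa [MulAut.conj_apply, inv_inv] at h5
    obtain ⟨k, hk⟩ := (IsPGroup.iff_orderOf.mp P.2) ⟨_, hy⟩
    rw [Subgroup.orderOf_mk, h4] at hk
    rcases Nat.eq_zero_or_pos k with h0 | h0
    · rw [h0, pow_zero] at hk
      exact orderOf_eq_one_iff.mp hk
    · exfalso
      apply hps
      rw [hk]
      exact dvd_pow_self p h0.ne'
  have h4 : T (indChar (P : Subgroup G) 1) = ((-((P : Subgroup G).index : ℤ) : ℤ) : ℂ) / p := by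
    show (indChar (P : Subgroup G) 1 s - indChar (P : Subgroup G) 1 1) / p = _
    rw [h3, ind_one]
    have h5 : (Nat.card G : ℂ) = Nat.card (P : Subgroup G) * (P : Subgroup G).index := by
      rw [← Subgroup.card_mul_index (P : Subgroup G)]
      push_cast
      ring
    rw [h5]
    have h6 := cardC_ne (P : Subgroup G)
    push_cast
    field_simp
    ring
  rw [h4] at h2
  have h5 := OL_div p h2
  rw [dvd_neg] at h5
  exact P.not_dvd_index (by exact_mod_cast h5)

end Pool.Agent.Helper884.IC
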