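import Pool.Agent.Helper884.IC.Nec1

set_option linter.unusedSectionVars false
set_option linter.style.haveILetI false

open scoped BigOperators Classical MonoidAlgebra
open Representation

noncomputable section

namespace Pool.Agent.Helper884.IC

variable {G : Type} [Group G] [Fintype G]

section
variable (p : ℕ) [hp : Fact p.Prime] (x : G)

/-- elements acting on `x` by a power congruent to one -/
def stabS : Subgroup G :=
  let S0 : Submonoid G :=
    { carrier := {z | ∃ l : ℕ, l ≡ 1 [MOD p] ∧ z * x * z⁻¹ = x ^ l}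
      one_mem' := ⟨1, rfl, by simp⟩
      mul_mem' := by
        rintro a b ⟨l, hl, hla⟩ ⟨m, hm, hmb⟩
        refine ⟨l * m, ?_, ?_⟩
        · simpa using hl.mul hm
        · have h1 : a * b * x * (a * b)⁻¹ = a * (b * x * b⁻¹) * a⁻¹ := by group
          rw [h1, hmb, pow_mul, ← hla, conj_pow] }
  { S0 with
    inv_mem' := by
      intro a ha
      have h1 : a⁻¹ = a ^ (orderOf a - 1) := by
        rw [inv_eq_iff_mul_eq_one, ← pow_succ', Nat.sub_add_cancel (orderOf_pos a), pow_orderOf_eq_one]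
      rw [h1]
      exact S0.pow_mem ha _ }

lemma mem_stabS {z : G} : z ∈ stabS p x ↔ ∃ l : ℕ, l ≡ 1 [MOD p] ∧ z * x * z⁻¹ = x ^ l := Iff.rfl

end

lemma lamExt_pow (C : Subgroup G) (lam : C →* ℂˣ) (g : G) (hg : g ∈ C) (l : ℕ) :
    lamExt C lam (g ^ l) = lamExt C lam g ^ l := by
  unfold lamExt
  rw [dif_pos hg, dif_pos (C.pow_mem hg l)]
  have : (⟨g ^ l, C.pow_mem hg l⟩ : C) = ⟨g, hg⟩ ^ l := rfl
  rw [this, map_pow, Units.val_pow_eq_pow_val]

lemma lamExt_ne {C : Subgroup G} {lam : C →* ℂˣ} {g : G} : lamExt C lam g ≠ 0 ↔ g ∈ C := by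
  unfold lamExt
  split_ifs with h
  · simp [h]
  · simp [h]

/-- the set of `y` carrying `x` to an element with prescribed value -/
def Yset (C : Subgroup G) (lam : C →* ℂˣ) (x : G) (w : ℂ) : Set G :=
  {y | lamExt C lam (y * x * y⁻¹) = w}

lemma Yset_dvd (p : ℕ) [hp : Fact p.Prime] (x : G) (C : Subgroup G) (lam : C →* ℂˣ) (w : ℂ)
    (hw : w ^ p = 1) : ∃ t : ℕ, Nat.card (Yset C lam x w) = Nat.card (stabS p x) * t := by
  have hw0 : w ≠ 0 := by
    rintro rfl
    rw [zero_pow hp.out.ne_zero] at hw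
    exact zero_ne_one hw
  have h1 : Yset C lam x w = (QuotientGroup.mk : G → G ⧸ stabS p x) ⁻¹'
      ((QuotientGroup.mk : G → G ⧸ stabS p x) '' Yset C lam x w) := by
    apply Set.Subset.antisymm
    · exact Set.subset_preimage_image _ _
    · rintro y' ⟨y, hy, hyy⟩
      have h2 : y⁻¹ * y' ∈ stabS p x := QuotientGroup.eq.mp hyy
      obtain ⟨l, hl, hz⟩ := (mem_stabS p x).mp h2
      have hy' : lamExt C lam (y * x * y⁻¹) = w := hy
      have hmem : y * x * y⁻¹ ∈ C := lamExt_ne.mp (by rw [hy']; exact hw0)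
      show lamExt C lam (y' * x * y'⁻¹) = w
      have h3 : y' * x * y'⁻¹ = (y * x * y⁻¹) ^ l := by
        rw [conj_pow, ← hz]
        group
      rw [h3, lamExt_pow _ _ _ hmem, hy']
      have h4 : l % p = 1 % p := hl
      rw [← Nat.div_add_mod l p, h4, Nat.mod_eq_of_lt hp.out.one_lt, pow_add, pow_mul, hw, one_pow,
        one_mul, pow_one]
  rw [h1, QuotientGroup.card_preimage_mk]
  exact ⟨_, rfl⟩

lemma sum_lamExt' (C : Subgroup G) (lam : C →* ℂˣ) (f : G → ℂ) :
    ∑ g : G, f g * lamExt C lam g⁻¹ = ∑ c : C, f c * ((lam c⁻¹ : ℂˣ) : ℂ) := by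
  have h1 : ∑ g : G, f g * lamExt C lam g⁻¹ = ∑ g : G, lamExt C lam g * f g⁻¹ := by
    refine Fintype.sum_equiv (Equiv.inv G) _ _ fun g => ?_
    simp [mul_comm]
  rw [h1, sum_lamExt C lam (fun g => f g⁻¹)]
  refine Fintype.sum_equiv (Equiv.inv C) _ _ fun g => ?_
  simp [mul_comm]

lemma gen_x (x : G) : ∀ y : Subgroup.zpowers x, y ∈ Subgroup.zpowers (⟨x, Subgroup.mem_zpowers x⟩ : Subgroup.zpowers x) := by
  rintro ⟨y, k, hk⟩
  exact ⟨k, Subtype.ext hk⟩

lemma hom_ext_x (x : G) (f g : Subgroup.zpowers x →* ℂˣ)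
    (h : f ⟨x, Subgroup.mem_zpowers x⟩ = g ⟨x, Subgroup.mem_zpowers x⟩) : f = g := by
  ext y
  obtain ⟨k, hk⟩ := gen_x x y
  simp only at hk
  rw [← hk, map_zpow, map_zpow, h]

lemma one_sum (x y : G) (C : Subgroup G) (lam : C →* ℂˣ) (mu : Subgroup.zpowers x →* ℂˣ)
    (hy : y * x * y⁻¹ ∈ C) :
    ∑ d : G, lamExt C lam (y * d * y⁻¹) * lamExt (Subgroup.zpowers x) mu d⁻¹ =
      (Nat.card (Subgroup.zpowers x) : ℂ) *
        (if lamExt C lam (y * x * y⁻¹) = ((mu ⟨x, Subgroup.mem_zpowers x⟩ : ℂˣ) : ℂ) then 1 else 0) := by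
  have hmem : ∀ d : Subgroup.zpowers x, y * (d : G) * y⁻¹ ∈ C := by
    rintro ⟨d, k, hk⟩
    simp only at hk
    have : y * d * y⁻¹ = (y * x * y⁻¹) ^ k := by rw [conj_zpow, hk]
    simp only [this]
    exact C.zpow_mem hy k
  let psi : Subgroup.zpowers x →* ℂˣ :=
    { toFun := fun d => lam ⟨y * (d : G) * y⁻¹, hmem d⟩
      map_one' := by
        have : (⟨y * ((1 : Subgroup.zpowers x) : G) * y⁻¹, hmem 1⟩ : C) = 1 := by
          apply Subtype.ext; simp
        rw [this, map_one]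
      map_mul' := by
        intro a b
        rw [← map_mul]
        congr 1
        apply Subtype.ext
        simp only [Subgroup.coe_mul]
        group }
  rw [sum_lamExt' (Subgroup.zpowers x) mu (fun d => lamExt C lam (y * d * y⁻¹))]
  have h1 : ∀ d : Subgroup.zpowers x, lamExt C lam (y * (d : G) * y⁻¹) * ((mu d⁻¹ : ℂˣ) : ℂ)
      = ((Units.coeHom ℂ).comp (psi * mu⁻¹)) d := by
    intro d
    unfold lamExt
    rw [dif_pos (hmem d)]
    simp [psi]
  simp only [h1]
  rw [sum_hom_units]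
  have h2 : lamExt C lam (y * x * y⁻¹) = ((psi ⟨x, Subgroup.mem_zpowers x⟩ : ℂˣ) : ℂ) := by
    unfold lamExt
    rw [dif_pos hy]
    rfl
  rw [h2, Nat.card_eq_fintype_card]
  by_cases h : psi = mu
  · rw [if_pos, if_pos (by rw [h]), mul_one]
    ext d
    simp [h]
  · rw [if_neg, if_neg]
    · simp
    · intro h3
      apply h
      exact hom_ext_x x psi mu (Units.ext h3)
    · intro h3
      apply h
      apply hom_ext_x x psi mu
      have h4 := congrArg (fun F : Subgroup.zpowers x →* ℂ => F ⟨x, Subgroup.mem_zpowers x⟩) h3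
      simp only [MonoidHom.comp_apply, Units.coeHom_apply, MonoidHom.mul_apply, MonoidHom.inv_apply,
        MonoidHom.one_apply] at h4
      have h5 : psi ⟨x, Subgroup.mem_zpowers x⟩ * (mu ⟨x, Subgroup.mem_zpowers x⟩)⁻¹ = 1 :=
        Units.ext h4
      exact mul_inv_eq_one.mp h5

lemma B_sub_right (f g h : G → ℂ) : B f (g - h) = B f g - B f h := by
  rw [B_comm f (g - h), B_sub_left, B_comm g f, B_comm h f]

lemma B_main (x : G) (C : Subgroup G) (lam : C →* ℂˣ) (mu nu : Subgroup.zpowers x →* ℂˣ)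
    (H : ∀ d : Subgroup.zpowers x, mu d ≠ nu d → x ∈ Subgroup.zpowers (d : G)) :
    B (indChar C lam) (indChar (Subgroup.zpowers x) mu - indChar (Subgroup.zpowers x) nu) =
      (Nat.card C : ℂ)⁻¹ *
      ((Nat.card (Yset C lam x (mu ⟨x, Subgroup.mem_zpowers x⟩ : ℂˣ)) : ℂ) -
        Nat.card (Yset C lam x (nu ⟨x, Subgroup.mem_zpowers x⟩ : ℂˣ))) := by
  have hcl : IsClass (indChar (Subgroup.zpowers x) mu - indChar (Subgroup.zpowers x) nu) := by
    intro g y
    simp only [Pi.sub_apply]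
    rw [isClass_indChar _ _ g y, isClass_indChar _ _ g y]
  rw [frob _ _ _ hcl]
  congr 1
  set th : G → ℂ := fun g => lamExt (Subgroup.zpowers x) mu g - lamExt (Subgroup.zpowers x) nu g with hth
  have h1 : ∀ g : G, (indChar (Subgroup.zpowers x) mu - indChar (Subgroup.zpowers x) nu) g
      = (Nat.card (Subgroup.zpowers x) : ℂ)⁻¹ * ∑ y : G, th (y⁻¹ * g * y) := by
    intro g
    simp only [Pi.sub_apply, indChar, hth, Finset.sum_sub_distrib]
    ring
  simp only [h1]
  have h2 : ∑ g : G, lamExt C lam g * ((Nat.card (Subgroup.zpowers x) : ℂ)⁻¹ * ∑ y : G, th (y⁻¹ * g⁻¹ * y))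
      = ∑ y : G, (Nat.card (Subgroup.zpowers x) : ℂ)⁻¹ *
        ∑ d : G, lamExt C lam (y * d * y⁻¹) * th d⁻¹ := by
    simp only [Finset.mul_sum]
    rw [Finset.sum_comm]
    refine Finset.sum_congr rfl fun y _ => ?_
    rw [← sum_conj _ y]
    refine Finset.sum_congr rfl fun d _ => ?_
    have e1 : y⁻¹ * (y * d * y⁻¹)⁻¹ * y = d⁻¹ := by group
    rw [e1]
    ring
  rw [h2]
  have h3 : ∀ y : G, (Nat.card (Subgroup.zpowers x) : ℂ)⁻¹ *
        ∑ d : G, lamExt C lam (y * d * y⁻¹) * th d⁻¹ =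
      (if lamExt C lam (y * x * y⁻¹) = ((mu ⟨x, Subgroup.mem_zpowers x⟩ : ℂˣ) : ℂ) then 1 else 0) -
      (if lamExt C lam (y * x * y⁻¹) = ((nu ⟨x, Subgroup.mem_zpowers x⟩ : ℂˣ) : ℂ) then 1 else 0) := by
    intro y
    by_cases hy : y * x * y⁻¹ ∈ C
    · simp only [hth, mul_sub, Finset.sum_sub_distrib]
      rw [one_sum x y C lam mu hy, one_sum x y C lam nu hy]
      have := cardC_ne (Subgroup.zpowers x)
      field_simp
    · have h4 : lamExt C lam (y * x * y⁻¹) = 0 := by
        by_contra hne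
        exact hy (lamExt_ne.mp hne)
      rw [h4, if_neg (Units.ne_zero _).symm, if_neg (Units.ne_zero _).symm, sub_zero]
      rw [Finset.sum_eq_zero, mul_zero]
      intro d _
      by_contra hne
      have h5 := left_ne_zero_of_mul hne
      have h6 := right_ne_zero_of_mul hne
      have h7 := lamExt_ne.mp h5
      have h8 : d⁻¹ ∈ Subgroup.zpowers x := by
        by_contra hd
        apply h6
        simp [hth, lamExt, hd]
      have h9 : mu ⟨d⁻¹, h8⟩ ≠ nu ⟨d⁻¹, h8⟩ := by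
        intro he
        apply h6
        simp [hth, lamExt, h8, he]
      obtain ⟨k, hk⟩ := H _ h9
      apply hy
      have h10 : y * x * y⁻¹ = (y * d * y⁻¹) ^ (-k) := by
        rw [conj_zpow]
        congr 2
        simp only at hk
        rw [← hk]
        simp
      rw [h10]
      exact C.zpow_mem h7 _
  simp only [h3, Finset.sum_sub_distrib]
  congr 1
  · rw [Finset.sum_boole]
    congr 1
    rw [Nat.card_eq_fintype_card, Fintype.card_subtype]
    rfl
  · rw [Finset.sum_boole]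
    congr 1
    rw [Nat.card_eq_fintype_card, Fintype.card_subtype]
    rfl

end Pool.Agent.Helper884.IC
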