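import Pool.Agent.Helper884.IC.Nec2

set_option linter.unusedSectionVars false
set_option linter.style.haveILetI false

open scoped BigOperators Classical MonoidAlgebra
open Representation

noncomputable section

namespace Pool.Agent.Helper884.IC

variable {G : Type} [Group G] [Fintype G]

lemma fermat_pow (p : ℕ) [hp : Fact p.Prime] (l r : ℕ) : l ^ (p ^ r) ≡ l [MOD p] := by
  rw [← ZMod.natCast_eq_natCast_iff]
  push_cast
  induction r with
  | zero => simp
  | succ r ih => rw [pow_succ, pow_mul, ih, ZMod.pow_card]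

lemma conj_iter (z x : G) (l : ℕ) (h : z * x * z⁻¹ = x ^ l) (r : ℕ) :
    z ^ r * x * (z ^ r)⁻¹ = x ^ (l ^ r) := by
  induction r with
  | zero => simp
  | succ r ih =>
    have : z ^ (r + 1) * x * (z ^ (r + 1))⁻¹ = z ^ r * (z * x * z⁻¹) * (z ^ r)⁻¹ := by
      rw [pow_succ]; group
    rw [this, h, ← conj_pow, ih, ← pow_mul, pow_succ]

lemma nat_pow_of_mem {x g : G} (h : g ∈ Subgroup.zpowers x) : ∃ l : ℕ, g = x ^ l := by
  rw [← mem_powers_iff_mem_zpowers] at h
  obtain ⟨l, hl⟩ := h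
  exact ⟨l, hl.symm⟩

lemma dvd_stabS (p : ℕ) [hp : Fact p.Prime] (hnc : ¬ ∀ P : Sylow p G, IsCyclic P) (x : G)
    (n : ℕ) (hn : n ≠ 0) (hxn : orderOf x = p ^ n) : p ^ (n + 1) ∣ Nat.card (stabS p x) := by
  have hD : Nat.card (Subgroup.zpowers x) = p ^ n := by rw [Nat.card_zpowers, hxn]
  have h1 : p ^ (n + 1) ∣ Nat.card G := by
    have h2 := dvd_of_not_cyc p hnc (Subgroup.zpowers x) inferInstance
    rwa [hD, Nat.Prime.factorization_pow hp.out, Finsupp.single_eq_same] at h2
  have h2 := Sylow.prime_pow_dvd_card_normalizer h1 hD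
  set N := Subgroup.normalizer (Subgroup.zpowers x : Set G) with hN
  let K : Sylow p N := default
  have h3 : p ^ (n + 1) ∣ Nat.card K := by
    rw [K.card_eq_multiplicity]
    exact pow_dvd_pow p ((hp.out.pow_dvd_iff_le_factorization Nat.card_pos.ne').mp h2)
  have h4 : (K : Subgroup N).map N.subtype ≤ stabS p x := by
    rintro z ⟨⟨z', hz'⟩, hzK, rfl⟩
    rw [Subgroup.coe_subtype]
    obtain ⟨r, hr⟩ := (IsPGroup.iff_orderOf.mp K.2) ⟨_, hzK⟩
    have hzr : z' ^ (p ^ r) = 1 := by
      have h5 := pow_orderOf_eq_one (⟨⟨z', hz'⟩, hzK⟩ : (K : Subgroup N))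
      rw [hr] at h5
      have h6 := congrArg (fun w : (K : Subgroup N) => ((w : N) : G)) h5
      simpa using h6
    have h5 : z' * x * z'⁻¹ ∈ Subgroup.zpowers x := by
      have := (Subgroup.mem_normalizer_iff.mp hz' x).mp (Subgroup.mem_zpowers x)
      exact this
    obtain ⟨l, hl⟩ := nat_pow_of_mem h5
    refine ⟨l, ?_, hl⟩
    have h6 := conj_iter z' x l hl (p ^ r)
    rw [hzr] at h6
    simp only [one_mul, inv_one, mul_one] at h6
    have h7 : x ^ 1 = x ^ (l ^ p ^ r) := by rw [pow_one]; exact h6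
    rw [pow_eq_pow_iff_modEq, hxn] at h7
    have h8 : 1 ≡ l ^ p ^ r [MOD p] := h7.of_dvd (dvd_pow_self p hn)
    exact ((fermat_pow p l r).symm.trans h8.symm)
  have h5 : Nat.card ((K : Subgroup N).map N.subtype) = Nat.card K :=
    Nat.card_congr ((K : Subgroup N).equivMapOfInjective N.subtype N.subtype_injective).toEquiv.symm
  exact (h3.trans (by rw [h5])).trans (Subgroup.card_dvd_of_le h4)

end Pool.Agent.Helper884.IC
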