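import Pool.Agent.Helper884.IC.Nec3

set_option linter.unusedSectionVars false
set_option linter.style.haveILetI false

open scoped BigOperators Classical MonoidAlgebra
open Representation

noncomputable section

namespace Pool.Agent.Helper884.IC

variable {G : Type} [Group G] [Fintype G]

lemma exists_unit_root (p : ℕ) [hp : Fact p.Prime] : ∃ z : ℂˣ, orderOf z = p := by
  have h := Complex.isPrimitiveRoot_exp p hp.out.ne_zero
  exact ⟨_, (h.isUnit_unit hp.out.ne_zero).eq_orderOf.symm⟩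

/-- a `p`-element of a cyclic group generates the whole `p`-part together with a generator of the
`p`-part -/
lemma mem_ppart (p : ℕ) [hp : Fact p.Prime] (C : Subgroup G) (hC : IsCyclic C) :
    ∃ c ∈ C, orderOf c = p ^ ((Nat.card C).factorization p) ∧
      ∀ u ∈ C, (∃ r : ℕ, orderOf u = p ^ r) → u ∈ Subgroup.zpowers c := by
  obtain ⟨g, hg⟩ := hC.exists_ofOrder_eq_natCard
  have hcard : Nat.card C ≠ 0 := Nat.card_pos.ne'
  set m := ordCompl[p] (Nat.card C) with hm
  have hmul : p ^ ((Nat.card C).factorization p) * m = Nat.card C := Nat.ordProj_mul_ordCompl_eq_self _ p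
  have hm0 : m ≠ 0 := (Nat.ordCompl_pos p hcard).ne'
  have hgg : ∀ u : C, u ∈ Subgroup.zpowers g := by
    intro u
    have : Subgroup.zpowers g = ⊤ := by
      apply Subgroup.eq_top_of_card_eq
      rw [Nat.card_zpowers, hg]
    rw [this]; trivial
  refine ⟨(g : G) ^ m, C.pow_mem g.2 m, ?_, ?_⟩
  · rw [orderOf_pow' _ hm0, Subgroup.orderOf_coe, hg]
    have h1 : (Nat.card C).gcd m = m := Nat.gcd_eq_right (Nat.ordCompl_dvd _ p)
    rw [h1]
    conv_lhs => rw [← hmul]
    rw [Nat.mul_div_cancel _ (Nat.pos_of_ne_zero hm0)]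
  · rintro u hu ⟨r, hr⟩
    obtain ⟨j, hj⟩ := nat_pow_of_mem (hgg ⟨u, hu⟩)
    have hju : u = (g : G) ^ j := by
      have := congrArg Subtype.val hj
      simpa using this
    -- g^(j p^r) = 1
    have h1 : (g : G) ^ (j * p ^ r) = 1 := by
      rw [pow_mul, ← hju, ← hr, pow_orderOf_eq_one]
    have h2 : Nat.card C ∣ j * p ^ r := by
      rw [← hg, ← Subgroup.orderOf_coe]
      exact orderOf_dvd_of_pow_eq_one h1
    have h3 : m ∣ j := by
      have h4 : m ∣ j * p ^ r := (Nat.ordCompl_dvd _ p).trans h2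
      have h5 : Nat.Coprime m (p ^ r) :=
        (Nat.Coprime.pow_left r (Nat.coprime_ordCompl hp.out hcard)).symm
      exact h5.dvd_of_dvd_mul_right h4
    obtain ⟨t, ht⟩ := h3
    rw [hju, ht, pow_mul]
    exact Subgroup.pow_mem _ (Subgroup.mem_zpowers _) t

theorem nec_b (hIC : HasIC G) (p : ℕ) [hp : Fact p.Prime] (hp2 : p ≠ 2)
    (hnc : ¬ ∀ P : Sylow p G, IsCyclic P) (x : G) (n : ℕ) (hn : n ≠ 0) (hxn : orderOf x = p ^ n)
    (hmax : ∀ y : G, (∃ r : ℕ, orderOf y = p ^ r) → x ∈ Subgroup.zpowers y →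
      y ∈ Subgroup.zpowers x) (k : ℕ) (hk : ¬ p ∣ k) :
    ∃ l : ℕ, l ≡ k [MOD p] ∧ IsConj x (x ^ l) := by
  by_contra hcon
  push Not at hcon
  obtain ⟨z, hz⟩ := exists_unit_root p
  set D := Subgroup.zpowers x with hD
  set gx : D := ⟨x, Subgroup.mem_zpowers x⟩ with hgx
  have hgo : orderOf gx = p ^ n := by rw [hgx, Subgroup.orderOf_mk, hxn]
  set mu : D →* ℂˣ := monoidHomOfForallMemZpowers (gen_x x) (g' := z)
    (by rw [hz, hgo]; exact dvd_pow_self p hn) with hmu
  have hmux : mu gx = z := monoidHomOfForallMemZpowers_apply_gen (gen_x x) _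
  set nu : D →* ℂˣ := mu ^ k with hnu
  have hnux : nu gx = z ^ k := by rw [hnu, MonoidHom.pow_apply, hmux]
  have hcop : ∀ j : ℕ, ¬ p ∣ j → x ∈ Subgroup.zpowers (x ^ j) := by
    intro j hj
    have h1 : j.Coprime (orderOf x) := by
      rw [hxn]
      exact (Nat.Coprime.pow_left n ((Nat.Prime.coprime_iff_not_dvd hp.out).mpr hj)).symm
    obtain ⟨m, hm⟩ := exists_pow_eq_self_of_coprime h1
    rw [← hm]
    exact Subgroup.pow_mem _ (by rw [hm]; exact Subgroup.mem_zpowers _) m
  have H : ∀ d : D, mu d ≠ nu d → x ∈ Subgroup.zpowers (d : G) := by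
    intro d hd
    obtain ⟨j, hj⟩ := nat_pow_of_mem d.2
    rw [hj]
    apply hcop
    rintro ⟨t, ht⟩
    apply hd
    have hdd : d = gx ^ j := Subtype.ext (by rw [hj]; rfl)
    rw [hnu, MonoidHom.pow_apply, hdd, map_pow, hmux, ht, pow_mul, ← hz, pow_orderOf_eq_one]
    simp
  set F := indChar D mu - indChar D nu with hF
  have hFcl : IsClass F := by
    intro g y
    rw [hF]
    simp only [Pi.sub_apply]
    rw [isClass_indChar _ _ g y, isClass_indChar _ _ g y]
  have hzk : z ^ k ≠ 1 := by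
    intro h
    apply hk
    rw [← hz]
    exact orderOf_dvd_of_pow_eq_one h
  have hz1 : z ≠ 1 := by
    rintro rfl
    rw [orderOf_one] at hz
    exact hp.out.one_lt.ne hz
  -- orthogonality to one
  have hB1 : B (1 : G → ℂ) F = 0 := by
    rw [hF, B_sub_right, B_comm, B_comm 1, frob _ _ _ isClass_one, frob _ _ _ isClass_one]
    have h1 : ∀ lam : D →* ℂˣ, lam gx ≠ 1 →
        ∑ g : G, lamExt D lam g * (1 : G → ℂ) g⁻¹ = 0 := by
      intro lam hlam
      rw [sum_lamExt D lam (fun g => (1 : G → ℂ) g⁻¹)]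
      have h2 := sum_hom_units_eq_zero (R := ℂ) ((Units.coeHom ℂ).comp lam) (by
        intro h3
        apply hlam
        have h4 := congrArg (fun F : D →* ℂ => F gx) h3
        simp only [MonoidHom.comp_apply, Units.coeHom_apply, MonoidHom.one_apply] at h4
        exact Units.ext h4)
      simpa using h2
    rw [h1 mu (by rw [hmux]; exact hz1), h1 nu (by rw [hnux]; exact hzk)]
    simp
  -- the subgroup S
  have hDS : D ≤ stabS p x := by
    rw [hD, Subgroup.zpowers_le]
    exact (mem_stabS p x).mpr ⟨1, rfl, by simp⟩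
  obtain ⟨q, hq⟩ := Subgroup.card_dvd_of_le hDS
  have hDc : Nat.card D = p ^ n := by rw [hD, Nat.card_zpowers, hxn]
  have hpn0 : p ^ n ≠ 0 := pow_ne_zero _ hp.out.ne_zero
  have hpq : p ∣ q := by
    have h1 := dvd_stabS p hnc x n hn hxn
    rw [hq, hDc, pow_succ] at h1
    exact Nat.dvd_of_mul_dvd_mul_left (Nat.pos_of_ne_zero hpn0) h1
  have hq0 : (q : ℂ) ≠ 0 := by
    intro h
    have h0 : q = 0 := by exact_mod_cast h
    rw [h0, mul_zero] at hq
    exact Nat.card_pos.ne' hq
  have hzp : ∀ j : ℕ, (((z ^ j : ℂˣ) : ℂ)) ^ p = 1 := by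
    intro j
    rw [← Units.val_pow_eq_pow_val, ← pow_mul, mul_comm, pow_mul, ← hz, pow_orderOf_eq_one, one_pow,
      Units.val_one]
  -- values on cyclic induced
  have hcyc : ∀ (C : Subgroup G) (lam : C →* ℂˣ), IsCyclic C →
      B (indChar C lam) F / q ∈ OL p := by
    intro C lam hC
    rw [hF, B_main x C lam mu nu H]
    have hmuz : (mu ⟨x, Subgroup.mem_zpowers x⟩ : ℂˣ) = z ^ 1 := by
      rw [pow_one]; exact hmux
    have hnuz : (nu ⟨x, Subgroup.mem_zpowers x⟩ : ℂˣ) = z ^ k := hnux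
    rw [hmuz, hnuz]
    obtain ⟨a, ha⟩ := Yset_dvd p x C lam ((z ^ 1 : ℂˣ) : ℂ) (hzp 1)
    obtain ⟨b, hb⟩ := Yset_dvd p x C lam ((z ^ k : ℂˣ) : ℂ) (hzp k)
    by_cases hy : ∃ y : G, y * x * y⁻¹ ∈ C
    · obtain ⟨y, hy⟩ := hy
      obtain ⟨c, hcC, hco, hcp⟩ := mem_ppart p C hC
      have h1 : y * x * y⁻¹ ∈ Subgroup.zpowers c := by
        apply hcp _ hy
        refine ⟨n, ?_⟩
        have h5 := (MulAut.conj y).orderOf_eq x
        rw [MulAut.conj_apply] at h5
        rw [h5, hxn]
      have hco' : orderOf (y⁻¹ * c * y) = p ^ ((Nat.card C).factorization p) := by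
        have h5 := (MulAut.conj y⁻¹).orderOf_eq c
        rw [MulAut.conj_apply, inv_inv] at h5
        rw [h5, hco]
      have h2 : y⁻¹ * c * y ∈ Subgroup.zpowers x := by
        apply hmax _ ⟨_, hco'⟩
        obtain ⟨j, hj⟩ := h1
        refine ⟨j, ?_⟩
        simp only at hj ⊢
        have h6 : (y⁻¹ * c * y) ^ j = y⁻¹ * c ^ j * y := by
          have := conj_zpow (i := j) (a := y⁻¹) (b := c)
          rwa [inv_inv] at this
        rw [h6, hj]
        group
      have h3 : p ^ ((Nat.card C).factorization p) ∣ p ^ n := by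
        rw [← hco', ← hxn]
        exact orderOf_dvd_of_mem_zpowers h2
      have h4 : p ^ n ∣ p ^ ((Nat.card C).factorization p) := by
        rw [← hco, ← hxn]
        have h5 := (MulAut.conj y).orderOf_eq x
        rw [MulAut.conj_apply] at h5
        rw [← h5]
        exact orderOf_dvd_of_mem_zpowers h1
      have h5 : p ^ ((Nat.card C).factorization p) = p ^ n := Nat.dvd_antisymm h3 h4
      have h6 : Nat.card C = p ^ n * ordCompl[p] (Nat.card C) := by
        conv_lhs => rw [← Nat.ordProj_mul_ordCompl_eq_self (Nat.card C) p]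
        rw [h5]
      have h7 : ¬ p ∣ ordCompl[p] (Nat.card C) := Nat.not_dvd_ordCompl hp.out Nat.card_pos.ne'
      set c' := ordCompl[p] (Nat.card C) with hc'
      rw [ha, hb, hq, hDc, h6]
      have h8 : ((p ^ n * c' : ℕ) : ℂ)⁻¹ * (((p ^ n * q * a : ℕ) : ℂ) - ((p ^ n * q * b : ℕ) : ℂ)) / q
          = (c' : ℂ)⁻¹ * ((a : ℂ) - b) := by
        have hpc : (p : ℂ) ≠ 0 := by exact_mod_cast hp.out.ne_zero
        have hcc : (c' : ℂ) ≠ 0 := by
          intro h
          have h0 : c' = 0 := by exact_mod_cast h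
          rw [h0] at h7
          exact h7 (dvd_zero p)
        push_cast
        field_simp
      rw [h8]
      exact (OL p).mul_mem (OL_inv p h7) ((OL p).sub_mem (OL_nat p a) (OL_nat p b))
    · push Not at hy
      have h0 : ∀ w : ℂˣ, Yset C lam x (w : ℂ) = ∅ := by
        intro w
        apply Set.eq_empty_of_forall_notMem
        intro y hyy
        have h1 : lamExt C lam (y * x * y⁻¹) = (w : ℂ) := hyy
        apply hy y
        apply lamExt_ne.mp
        rw [h1]
        exact Units.ne_zero w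
      rw [h0, h0]
      simp
  -- T
  let T : (G → ℂ) →+ ℂ :=
    { toFun := fun h => B h F / q
      map_zero' := by simp [B]
      map_add' := by intro a b; rw [B_add_left]; ring }
  have hT : ∀ chi : G → ℂ, IsIrrChar chi → B chi F / q ∈ OL p := by
    intro chi hchi
    refine span_ind p T ?_ ?_ (hIC chi hchi)
    · show B 1 F / q ∈ OL p
      rw [hB1, zero_div]
      exact (OL p).zero_mem
    · intro C lam hC
      exact hcyc C lam hC
  have hBFF : B F F = 2 * q := by
    have hval : ∀ (lam : D →* ℂˣ) (j : ℕ), lamExt D lam (x ^ j) = ((lam gx ^ j : ℂˣ) : ℂ) := by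
      intro lam j
      rw [lamExt_pow _ _ _ (Subgroup.mem_zpowers x), Units.val_pow_eq_pow_val]
      congr 1
      unfold lamExt
      rw [dif_pos (Subgroup.mem_zpowers x)]
    have hYS : ∀ (i : ℕ), ¬ p ∣ i → ∀ lam : D →* ℂˣ, lam gx = z ^ i →
        Yset D lam x ((z ^ i : ℂˣ) : ℂ) = (stabS p x : Set G) := by
      intro i hi lam hlam
      ext y
      constructor
      · intro hy
        have h1 : lamExt D lam (y * x * y⁻¹) = ((z ^ i : ℂˣ) : ℂ) := hy
        have h2 : y * x * y⁻¹ ∈ D := lamExt_ne.mp (by rw [h1]; exact Units.ne_zero _)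
        obtain ⟨l, hl⟩ := nat_pow_of_mem h2
        refine ⟨l, ?_, hl⟩
        rw [hl, hval, hlam] at h1
        have h3 : (z ^ i) ^ l = z ^ i := Units.ext h1
        rw [← pow_mul, pow_eq_pow_iff_modEq, hz] at h3
        have h4 : i * l ≡ i * 1 [MOD p] := by rw [mul_one]; exact h3
        exact Nat.ModEq.cancel_left_of_coprime ((Nat.Prime.coprime_iff_not_dvd hp.out).mpr hi) h4
      · rintro ⟨l, hl, hyl⟩
        show lamExt D lam (y * x * y⁻¹) = ((z ^ i : ℂˣ) : ℂ)
        rw [hyl, hval, hlam]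
        congr 1
        rw [← pow_mul, pow_eq_pow_iff_modEq, hz]
        simpa using (Nat.ModEq.refl i).mul hl
    have hY1 : Yset D mu x ((z ^ k : ℂˣ) : ℂ) = ∅ := by
      apply Set.eq_empty_of_forall_notMem
      intro y hy
      have h1 : lamExt D mu (y * x * y⁻¹) = ((z ^ k : ℂˣ) : ℂ) := hy
      have h2 : y * x * y⁻¹ ∈ D := lamExt_ne.mp (by rw [h1]; exact Units.ne_zero _)
      obtain ⟨l, hl⟩ := nat_pow_of_mem h2
      rw [hl, hval, hmux] at h1
      have h3 : z ^ l = z ^ k := Units.ext h1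
      rw [pow_eq_pow_iff_modEq, hz] at h3
      exact hcon l h3 (isConj_iff.mpr ⟨y, hl⟩)
    have hY2 : Yset D nu x ((z ^ 1 : ℂˣ) : ℂ) = ∅ := by
      apply Set.eq_empty_of_forall_notMem
      intro y hy
      have h1 : lamExt D nu (y * x * y⁻¹) = ((z ^ 1 : ℂˣ) : ℂ) := hy
      have h2 : y * x * y⁻¹ ∈ D := lamExt_ne.mp (by rw [h1]; exact Units.ne_zero _)
      obtain ⟨l, hl⟩ := nat_pow_of_mem h2
      rw [hl, hval, hnux] at h1
      have h3 : (z ^ k) ^ l = z ^ 1 := Units.ext h1
      rw [← pow_mul, pow_eq_pow_iff_modEq, hz] at h3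
      have h4 := conj_iter y x l hl (p - 2)
      refine hcon (l ^ (p - 2)) ?_ (isConj_iff.mpr ⟨_, h4⟩)
      -- l^(p-2) ≡ k
      rw [← ZMod.natCast_eq_natCast_iff] at h3 ⊢
      push_cast at h3 ⊢
      have hl0 : (l : ZMod p) ≠ 0 := by
        intro h0
        rw [h0, mul_zero] at h3
        exact zero_ne_one h3
      have h5 : (l : ZMod p) ^ (p - 1) = 1 := ZMod.pow_card_sub_one_eq_one hl0
      have h6 : p - 1 = (p - 2) + 1 := by
        have := hp.out.two_le
        omega
      rw [h6, pow_succ] at h5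
      have h7 : (l : ZMod p) ^ (p - 2) * l = (k : ZMod p) * l := by rw [h5, h3]
      exact mul_right_cancel₀ hl0 h7
    have e1 : B F F = B (indChar D mu) F - B (indChar D nu) F := by
      conv_lhs => rw [hF, B_sub_left]
    rw [e1, hF, B_main x D mu mu nu H, B_main x D nu mu nu H]
    have hmuz : (mu ⟨x, Subgroup.mem_zpowers x⟩ : ℂˣ) = z ^ 1 := by
      rw [pow_one]; exact hmux
    have hnuz : (nu ⟨x, Subgroup.mem_zpowers x⟩ : ℂˣ) = z ^ k := hnux
    rw [hmuz, hnuz, hY1, hY2, hYS 1 (fun h => hp.out.one_lt.ne' (Nat.dvd_one.mp h)) mu hmuz,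
      hYS k hk nu hnuz]
    have hS : (Nat.card (stabS p x : Set G) : ℂ) = (p ^ n * q : ℕ) := by
      have : Nat.card (stabS p x : Set G) = Nat.card (stabS p x) := rfl
      rw [this, hq, hDc]
    rw [hS, hDc]
    have hpc : (p : ℂ) ≠ 0 := by exact_mod_cast hp.out.ne_zero
    have hempty : Nat.card (∅ : Set G) = 0 := by simp
    rw [hempty]
    push_cast
    field_simp
    ring
  have hfin : (2 : ℂ) / q ∈ OL p := by
    have h1 : (2 : ℂ) / q = ∑ chi ∈ Irr G, (B chi F / q) * (B chi F / q) := by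
      have h2 := B_expand F F hFcl
      rw [hBFF] at h2
      have h3 : (2 : ℂ) / q = (2 * q) / (q * q) := by field_simp
      rw [h3, h2, Finset.sum_div]
      refine Finset.sum_congr rfl fun chi _ => ?_
      rw [B_comm F chi]
      field_simp
    rw [h1]
    exact (OL p).sum_mem fun chi hchi =>
      (OL p).mul_mem (hT chi (mem_Irr.mp hchi)) (hT chi (mem_Irr.mp hchi))
  obtain ⟨q', hq'⟩ := hpq
  have h9 : (((2 : ℤ) : ℂ)) / p ∈ OL p := by
    have h2 : (((2 : ℤ) : ℂ)) / p = (q' : ℂ) * (2 / q) := by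
      have hpc : (p : ℂ) ≠ 0 := by exact_mod_cast hp.out.ne_zero
      rw [hq'] at hq0 ⊢
      push_cast at hq0 ⊢
      have : (q' : ℂ) ≠ 0 := right_ne_zero_of_mul hq0
      field_simp
    rw [h2]
    exact (OL p).mul_mem (OL_nat p q') hfin
  have h10 := OL_div p h9
  have h11 : p ∣ 2 := by exact_mod_cast h10
  exact hp2 ((Nat.prime_dvd_prime_iff_eq hp.out Nat.prime_two).mp h11)

end Pool.Agent.Helper884.IC
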