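import Pool.Agent.Helper884.IC.Suf7

set_option linter.unusedSectionVars false
set_option linter.style.haveILetI false
set_option linter.unusedVariables false

open scoped BigOperators Classical MonoidAlgebra
open Representation

noncomputable section

namespace Pool.Agent.Helper884.IC

variable {G : Type} [Group G] [Fintype G]

/-- test functions: pairing with all generators is integral -/
def Test (p : ℕ) [Fact p.Prime] (f : G → ℂ) : Prop :=
  IsClass f ∧ (∀ (C : Subgroup G) (lam : C →* ℂˣ), IsCyclic C → B (indChar C lam) f ∈ OL p)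

lemma B_add_right (f g h : G → ℂ) : B f (g + h) = B f g + B f h := by
  rw [B_comm f (g + h), B_add_left, B_comm g f, B_comm h f]

lemma B_smul_right (c : ℂ) (f h : G → ℂ) : B f (c • h) = c * B f h := by
  rw [B_comm f (c • h), B_smul_left, B_comm h f]

lemma Test.add {p : ℕ} [Fact p.Prime] {f g : G → ℂ} (hf : Test p f) (hg : Test p g) :
    Test p (f + g) := by
  refine ⟨?_, ?_⟩
  · intro x y
    simp only [Pi.add_apply]
    rw [hf.1 x y, hg.1 x y]
  · intro C lam hC
    rw [B_add_right]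
    exact (OL p).add_mem (hf.2 C lam hC) (hg.2 C lam hC)

lemma Test.smul {p : ℕ} [Fact p.Prime] {f : G → ℂ} (hf : Test p f) {c : ℂ} (hc : c ∈ OL p) :
    Test p (c • f) := by
  refine ⟨?_, ?_⟩
  · intro x y
    simp only [Pi.smul_apply]
    rw [hf.1 x y]
  · intro C lam hC
    rw [B_smul_right]
    exact (OL p).mul_mem hc (hf.2 C lam hC)

/-- the necessary condition extracted from (IC) -/
theorem NC (hIC : HasIC G) (p : ℕ) [hp : Fact p.Prime] (f g : G → ℂ) (hf : Test p f)
    (hg : Test p g) (hf1 : B 1 f ∈ OL p) (hg1 : B 1 g ∈ OL p) : B f g ∈ OL p := by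
  have key : ∀ f : G → ℂ, Test p f → B 1 f ∈ OL p → ∀ chi : G → ℂ, IsIrrChar chi → B chi f ∈ OL p := by
    intro f hf hf1 chi hchi
    let T : (G → ℂ) →+ ℂ :=
      { toFun := fun h => B h f
        map_zero' := by simp [B]
        map_add' := by intro a b; rw [B_add_left] }
    exact span_ind p T hf1 hf.2 (hIC chi hchi)
  rw [B_expand f g hf.1]
  refine (OL p).sum_mem fun chi hchi => ?_
  rw [B_comm f chi]
  exact (OL p).mul_mem (key f hf hf1 chi (mem_Irr.mp hchi)) (key g hg hg1 chi (mem_Irr.mp hchi))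

/-- indicator of the identity -/
def dl : G → ℂ := fun g => if g = 1 then 1 else 0

lemma dl_class : IsClass (dl : G → ℂ) := by
  intro g y
  unfold dl
  have e1 : (y * g * y⁻¹ = 1) ↔ (g = 1) := by
    constructor
    · intro h
      have : g = y⁻¹ * (y * g * y⁻¹) * y := by group
      rw [this, h]; group
    · intro h; rw [h]; group
  simp only [e1]

lemma B_ind_dl (C : Subgroup G) (lam : C →* ℂˣ) : B (indChar C lam) dl = (Nat.card C : ℂ)⁻¹ := by
  rw [frob _ _ _ dl_class]
  have h1 : ∑ g : G, lamExt C lam g * dl g⁻¹ = 1 := by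
    rw [Finset.sum_eq_single (1 : G)]
    · unfold dl lamExt
      rw [dif_pos C.one_mem, inv_one, if_pos rfl]
      have : (⟨1, C.one_mem⟩ : C) = 1 := rfl
      rw [this, map_one, Units.val_one, mul_one]
    · intro b _ hb
      unfold dl
      rw [if_neg (by simpa using hb), mul_zero]
    · intro h
      exact absurd (Finset.mem_univ _) h
  rw [h1, mul_one]

lemma B_one_dl : B (1 : G → ℂ) dl = (Nat.card G : ℂ)⁻¹ := by
  rw [← indChar_top, B_ind_dl, Subgroup.card_top]

lemma B_dl_left (f : G → ℂ) : B dl f = (Nat.card G : ℂ)⁻¹ * f 1 := by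
  unfold B
  congr 1
  rw [Finset.sum_eq_single (1 : G)]
  · unfold dl
    rw [if_pos rfl, inv_one, one_mul]
  · intro b _ hb
    unfold dl
    rw [if_neg hb, zero_mul]
  · intro h
    exact absurd (Finset.mem_univ _) h

/-- indicator of the set of `p`-elements above the class of `w` -/
def abv (p : ℕ) (w : G) : G → ℂ := fun u => if IsPE p u ∧ ∃ j : ℕ, IsConj w (u ^ (p ^ j)) then 1 else 0

lemma IsPE.conj {p : ℕ} {u : G} (y : G) : IsPE p (y * u * y⁻¹) ↔ IsPE p u := by
  have h5 := (MulAut.conj y).orderOf_eq u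
  rw [MulAut.conj_apply] at h5
  unfold IsPE
  rw [h5]

lemma abv_class (p : ℕ) (w : G) : IsClass (abv p w) := by
  intro u y
  unfold abv
  have h1 : (∃ j : ℕ, IsConj w ((y * u * y⁻¹) ^ (p ^ j))) ↔ (∃ j : ℕ, IsConj w (u ^ (p ^ j))) := by
    constructor
    · rintro ⟨j, hj⟩
      refine ⟨j, ?_⟩
      rw [conj_pow] at hj
      exact hj.trans (isConj_iff.mpr ⟨y, rfl⟩ : IsConj (u ^ (p ^ j)) _).symm
    · rintro ⟨j, hj⟩
      refine ⟨j, ?_⟩
      rw [conj_pow]
      exact hj.trans (isConj_iff.mpr ⟨y, rfl⟩ : IsConj (u ^ (p ^ j)) _)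
  rw [h1, IsPE.conj]

lemma IsPE.inv {p : ℕ} {u : G} : IsPE p u⁻¹ ↔ IsPE p u := by
  unfold IsPE
  rw [orderOf_inv]

lemma conj_inv_of_B (p : ℕ) [hp : Fact p.Prime] (hB : CondB p G) {u : G} (hu : IsPE p u) :
    IsConj u u⁻¹ := by
  obtain ⟨k, hk⟩ := hu
  by_cases hk0 : k = 0
  · rw [hk0, pow_zero] at hk
    rw [orderOf_eq_one_iff.mp hk, inv_one]
  · have h1 : u⁻¹ = u ^ (p ^ k - 1) := by
      rw [← hk, inv_eq_iff_mul_eq_one, ← pow_succ', Nat.sub_add_cancel (orderOf_pos u), pow_orderOf_eq_one]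
    rw [h1]
    apply hB u ⟨k, hk⟩
    intro h
    have h2 : p ∣ p ^ k := dvd_pow_self p hk0
    have h3 : 1 ≤ p ^ k := Nat.one_le_pow _ _ hp.out.pos
    have h4 := (Nat.dvd_sub h2 h)
    rw [Nat.sub_sub_self h3] at h4
    exact hp.out.one_lt.ne' (Nat.dvd_one.mp h4)

lemma abv_inv (p : ℕ) [hp : Fact p.Prime] (hB : CondB p G) (w u : G) : abv p w u⁻¹ = abv p w u := by
  unfold abv
  rw [IsPE.inv]
  by_cases hu : IsPE p u
  · have h1 : (∃ j : ℕ, IsConj w (u⁻¹ ^ (p ^ j))) ↔ (∃ j : ℕ, IsConj w (u ^ (p ^ j))) := by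
      have h2 : ∀ j : ℕ, IsConj (u ^ (p ^ j)) (u⁻¹ ^ (p ^ j)) := by
        intro j
        rw [inv_pow]
        exact conj_inv_of_B p hB (hu.pow _)
      constructor
      · rintro ⟨j, hj⟩; exact ⟨j, hj.trans (h2 j).symm⟩
      · rintro ⟨j, hj⟩; exact ⟨j, hj.trans (h2 j)⟩
    rw [h1]
  · simp [hu]

lemma orderOf_conj {w u : G} (h : IsConj w u) : orderOf w = orderOf u := by
  obtain ⟨y, hy⟩ := isConj_iff.mp h
  rw [← hy]
  have h5 := (MulAut.conj y).orderOf_eq w
  rw [MulAut.conj_apply] at h5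
  exact h5.symm

lemma abv_one (p : ℕ) (w : G) (hw : w ≠ 1) : abv p w 1 = 0 := by
  unfold abv
  rw [if_neg]
  rintro ⟨_, j, hj⟩
  rw [one_pow, isConj_comm, isConj_one_right] at hj
  exact hw hj

lemma abv_delta (p : ℕ) [hp : Fact p.Prime] (w u : G) (hw : w ≠ 1) (hu1 : u ≠ 1) (hu : IsPE p u) :
    abv p w (u ^ p) - abv p w u = if IsConj w u then -1 else 0 := by
  have hup : IsPE p (u ^ p) := hu.pow p
  by_cases h1 : IsConj w u
  · rw [if_pos h1]
    have h2 : abv p w u = 1 := by
      unfold abv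
      rw [if_pos ⟨hu, 0, by rw [pow_zero, pow_one]; exact h1⟩]
    have h3 : abv p w (u ^ p) = 0 := by
      unfold abv
      rw [if_neg]
      rintro ⟨_, j, hj⟩
      have h4 := orderOf_conj hj
      have h5 := orderOf_conj h1
      have h6 : orderOf ((u ^ p) ^ p ^ j) ∣ orderOf (u ^ p) := orderOf_pow_dvd _
      rw [← h4, h5, orderOf_pow_p p hu1 hu] at h6
      have h7 := Nat.le_of_dvd (orderOf_pos _) h6
      have h8 : 0 < orderOf (u ^ p) := orderOf_pos _
      have h9 := hp.out.two_le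
      nlinarith
    rw [h2, h3]; ring
  · rw [if_neg h1]
    have h2 : (IsPE p (u ^ p) ∧ ∃ j : ℕ, IsConj w ((u ^ p) ^ (p ^ j))) ↔
        (IsPE p u ∧ ∃ j : ℕ, IsConj w (u ^ (p ^ j))) := by
      constructor
      · rintro ⟨_, j, hj⟩
        refine ⟨hu, j + 1, ?_⟩
        rw [pow_succ', pow_mul]
        exact hj
      · rintro ⟨_, j, hj⟩
        refine ⟨hup, ?_⟩
        rcases Nat.eq_zero_or_pos j with h0 | h0
        · exfalso
          rw [h0, pow_zero, pow_one] at hj
          exact h1 hj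
        · refine ⟨j - 1, ?_⟩
          rw [← pow_mul, ← pow_succ', Nat.sub_add_cancel h0]
          exact hj
    unfold abv
    rw [if_congr h2 rfl rfl, sub_self]

lemma sum_abv (p : ℕ) [hp : Fact p.Prime] (w : G) (hw : w ≠ 1) (hwp : IsPE p w) :
    (Nat.card G : ℂ)⁻¹ * ∑ u : G, abv p w u
      = (rr p w : ℂ) / Nat.card (Subgroup.centralizer ({w} : Set G)) := by
  have h1 : ∑ u : G, abv p w u = ∑ u ∈ Finset.univ.filter (fun u : G => IsPE p u), abv p w u := by
    rw [Finset.sum_filter]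
    refine Finset.sum_congr rfl fun u _ => ?_
    unfold abv
    by_cases h : IsPE p u
    · simp [h]
    · simp [h]
  have h2 := T_zero p (abv p w) (abv_one p w hw)
  unfold T at h2
  rw [← h1] at h2
  rw [← div_eq_inv_mul, h2]
  have h3 : ∑ u : G, (rr p u : ℂ) * (abv p w (u ^ p) - abv p w u)
      = - ∑ u ∈ Finset.univ.filter (fun u : G => IsConj w u), (rr p u : ℂ) := by
    rw [Finset.sum_filter, ← Finset.sum_neg_distrib]
    refine Finset.sum_congr rfl fun u _ => ?_
    by_cases hu : u ≠ 1 ∧ IsPE p u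
    · rw [abv_delta p w u hw hu.1 hu.2]
      split_ifs <;> ring
    · have h4 : rr p u = 0 := by
        apply rr_zero
        by_cases h5 : u = 1
        · left; exact h5
        · right; intro h6; exact hu ⟨h5, h6⟩
      rw [h4]
      simp
  rw [h3, neg_div, neg_neg]
  have h4 := sum_conj_fiber (fun u : G => (rr p u : ℂ)) w
  have h5 : ∀ y : G, (rr p (y⁻¹ * w * y) : ℂ) = rr p w := by
    intro y
    have := rr_class p w y⁻¹
    rw [inv_inv] at this
    rw [this]
  simp only [h5] at h4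
  rw [Finset.sum_const, Finset.card_univ, ← Nat.card_eq_fintype_card, nsmul_eq_mul] at h4
  rw [div_eq_div_iff cardG_ne (cardC_ne _), mul_comm, ← h4]
  ring

lemma B_one_abv (p : ℕ) [hp : Fact p.Prime] (w : G) (hw : w ≠ 1) (hwp : IsPE p w) :
    B (1 : G → ℂ) (abv p w) = (rr p w : ℂ) / Nat.card (Subgroup.centralizer ({w} : Set G)) := by
  rw [← sum_abv p w hw hwp]
  unfold B
  congr 1
  refine Fintype.sum_equiv (Equiv.inv G) _ _ fun g => ?_
  simp

lemma B_abv_abv (p : ℕ) [hp : Fact p.Prime] (hB : CondB p G) (w : G) (hw : w ≠ 1) (hwp : IsPE p w) :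
    B (abv p w) (abv p w) = (rr p w : ℂ) / Nat.card (Subgroup.centralizer ({w} : Set G)) := by
  rw [← sum_abv p w hw hwp]
  unfold B
  congr 1
  refine Finset.sum_congr rfl fun u _ => ?_
  rw [abv_inv p hB]
  unfold abv
  split_ifs <;> ring

/-- two classes of elements of order `p` -/
lemma abv_disj (p : ℕ) [hp : Fact p.Prime] (w w' : G) (hw : w ≠ 1) (hw' : w' ≠ 1)
    (hwp : w ^ p = 1) (hw'p : w' ^ p = 1) (hn : ¬ IsConj w w') (u : G) :
    abv p w u * abv p w' u = 0 := by
  unfold abv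
  by_cases h1 : IsPE p u ∧ ∃ j : ℕ, IsConj w (u ^ (p ^ j))
  · by_cases h2 : IsPE p u ∧ ∃ j : ℕ, IsConj w' (u ^ (p ^ j))
    · exfalso
      obtain ⟨hu, j, hj⟩ := h1
      obtain ⟨_, j', hj'⟩ := h2
      have o1 : orderOf w = p := orderOf_eq_prime hwp hw
      have o2 : orderOf w' = p := orderOf_eq_prime hw'p hw'
      have e1 := orderOf_conj hj
      have e2 := orderOf_conj hj'
      obtain ⟨k, hk⟩ := hu
      have key : ∀ j : ℕ, orderOf (u ^ (p ^ j)) = p → j + 1 = k := by
        intro j h3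
        have hjk : j ≤ k := by
          by_contra h4
          push Not at h4
          have h5 : u ^ (p ^ j) = 1 := by
            rw [← orderOf_dvd_iff_pow_eq_one, hk]
            exact pow_dvd_pow p h4.le
          rw [h5, orderOf_one] at h3
          exact hp.out.one_lt.ne h3
        rw [orderOf_pow' u (pow_ne_zero _ hp.out.ne_zero), hk,
          Nat.gcd_eq_right (pow_dvd_pow p hjk), Nat.pow_div hjk hp.out.pos] at h3
        have h6 : k - j = 1 := by
          have h7 : p ^ (k - j) = p ^ 1 := by rw [h3, pow_one]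
          exact Nat.pow_right_injective hp.out.two_le h7
        omega
      have k1 := key j (by rw [← e1, o1])
      have k2 := key j' (by rw [← e2, o2])
      have : j = j' := by omega
      subst this
      exact hn (hj.trans hj'.symm)
    · rw [if_neg h2, mul_zero]
  · rw [if_neg h1, zero_mul]

lemma B_abv_disj (p : ℕ) [hp : Fact p.Prime] (hB : CondB p G) (w w' : G) (hw : w ≠ 1) (hw' : w' ≠ 1)
    (hwp : w ^ p = 1) (hw'p : w' ^ p = 1) (hn : ¬ IsConj w w') : B (abv p w) (abv p w') = 0 := by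
  unfold B
  rw [Finset.sum_eq_zero, mul_zero]
  intro u _
  rw [abv_inv p hB]
  exact abv_disj p w w' hw hw' hwp hw'p hn u

lemma sum_sub_lam (C K : Subgroup G) (hK : K ≤ C) (lam : C →* ℂˣ) :
    ∃ t : ℕ, ∑ g : G, (if g ∈ K then lamExt C lam g else 0) = (Nat.card K : ℂ) * t := by
  have h1 : ∑ g : G, (if g ∈ K then lamExt C lam g else 0)
      = ∑ k : K, ((Units.coeHom ℂ).comp (lam.comp (Subgroup.inclusion hK))) k := by
    rw [← Finset.sum_filter]
    rw [Finset.sum_subtype (p := fun g => g ∈ K) (F := inferInstance) _ (by simp)]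
    refine Finset.sum_congr rfl fun g _ => ?_
    unfold lamExt
    rw [dif_pos (hK g.2)]
    rfl
  rw [h1, sum_hom_units]
  split_ifs
  · exact ⟨1, by rw [Nat.card_eq_fintype_card]; simp⟩
  · exact ⟨0, by simp⟩

end Pool.Agent.Helper884.IC
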