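import Pool.Agent.Helper884.IC.Nec5

set_option linter.unusedSectionVars false
set_option linter.style.haveILetI false
set_option linter.unusedVariables false

open scoped BigOperators Classical MonoidAlgebra
open Representation

noncomputable section

namespace Pool.Agent.Helper884.IC

variable {G : Type} [Group G] [Fintype G]

/-- `x` is a `p`-element of largest order with `w ∈ <x>` -/
def MaxAbove (p : ℕ) (w x : G) : Prop :=
  IsPE p x ∧ w ∈ Subgroup.zpowers x ∧
    ∀ y : G, IsPE p y → w ∈ Subgroup.zpowers y → orderOf y ≤ orderOf x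

lemma exists_maxAbove (p : ℕ) [hp : Fact p.Prime] (w : G) (hw : IsPE p w) : ∃ x, MaxAbove p w x := by
  have hne : (Finset.univ.filter (fun x : G => IsPE p x ∧ w ∈ Subgroup.zpowers x)).Nonempty :=
    ⟨w, by simp [hw]⟩
  obtain ⟨x, hx, hmax⟩ := Finset.exists_max_image _ (fun x : G => orderOf x) hne
  simp only [Finset.mem_filter, Finset.mem_univ, true_and] at hx hmax
  exact ⟨x, hx.1, hx.2, fun y h1 h2 => hmax y ⟨h1, h2⟩⟩

lemma exists_pow_conj (p : ℕ) [hp : Fact p.Prime] (hB : CondB p G) {g w' : G} (hg : IsPE p g)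
    (hw' : w' ≠ 1) (t : ℕ) (h : w' = g ^ t) : ∃ j : ℕ, IsConj w' (g ^ (p ^ j)) := by
  have ht : t ≠ 0 := by
    rintro rfl
    rw [pow_zero] at h
    exact hw' h
  obtain ⟨α, t', htt, ht'⟩ := split_p p ht
  refine ⟨α, ?_⟩
  have h1 : w' = (g ^ (p ^ α)) ^ t' := by rw [h, htt, pow_mul]
  rw [h1]
  exact (hB _ (hg.pow _) t' ht').symm

lemma abv_on_cyclic (p : ℕ) [hp : Fact p.Prime] (hB : CondB p G) (w w' c0 : G) (hc0 : IsPE p c0)
    (hw1 : w ≠ 1) (hc : IsConj w w') (hw' : w' ∈ Subgroup.zpowers c0) (g : G)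
    (hg : g ∈ Subgroup.zpowers c0) :
    abv p w g⁻¹ = if g ∈ Subgroup.zpowers (w' ^ p) then 0 else 1 := by
  have hw'1 : w' ≠ 1 := by
    rintro rfl
    rw [isConj_one_left] at hc
    exact hw1 hc
  obtain ⟨b, hb⟩ := nat_pow_of_mem hw'
  have hw'pe : IsPE p w' := by rw [hb]; exact hc0.pow b
  have hgpe : IsPE p g := by
    obtain ⟨a, ha⟩ := nat_pow_of_mem hg
    rw [ha]; exact hc0.pow a
  rw [abv_inv p hB]
  by_cases h1 : g ∈ Subgroup.zpowers (w' ^ p)
  · rw [if_pos h1]
    unfold abv
    rw [if_neg]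
    rintro ⟨_, j, hj⟩
    have h2 := orderOf_conj hj
    have h3 := orderOf_conj hc
    have h4 : g ^ (p ^ j) ∈ Subgroup.zpowers (w' ^ p) := Subgroup.pow_mem _ h1 _
    have h5 := orderOf_dvd_of_mem_zpowers h4
    rw [← h2, h3, orderOf_pow_p p hw'1 hw'pe] at h5
    have h7 := Nat.le_of_dvd (orderOf_pos _) h5
    have h8 : 0 < orderOf (w' ^ p) := orderOf_pos _
    have h9 := hp.out.two_le
    nlinarith
  · rw [if_neg h1]
    unfold abv
    rw [if_pos]
    refine ⟨hgpe, ?_⟩
    rcases tot p hc0 hg hw' with h2 | ⟨j, hj⟩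
    · obtain ⟨k, hk⟩ := nat_pow_of_mem h2
      have hpk : ¬ p ∣ k := by
        rintro ⟨t, rfl⟩
        apply h1
        rw [hk, pow_mul]
        exact Subgroup.pow_mem _ (Subgroup.mem_zpowers _) _
      refine ⟨0, ?_⟩
      rw [pow_zero, pow_one, hk]
      exact hc.trans (hB w' hw'pe k hpk)
    · obtain ⟨i, hi⟩ := exists_pow_conj p hB hgpe hw'1 (p * j) hj
      exact ⟨i, hc.trans hi⟩

theorem test_abv (p : ℕ) [hp : Fact p.Prime] (hB : CondB p G) (w x : G) (hw1 : w ≠ 1)
    (hw : IsPE p w) (hx : MaxAbove p w x) (N : ℕ) (hN : (p * (orderOf x / orderOf w)) ∣ N) :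
    Test p ((N : ℂ) • abv p w) := by
  refine ⟨?_, ?_⟩
  · intro u y
    simp only [Pi.smul_apply]
    rw [abv_class p w u y]
  · intro C lam hC
    rw [B_smul_right, frob _ _ _ (abv_class p w)]
    obtain ⟨c0, hc0C, hc0o, hc0p⟩ := mem_ppart p C hC
    have hc0 : IsPE p c0 := ⟨_, hc0o⟩
    set E := Subgroup.zpowers c0 with hE
    have hEC : E ≤ C := by rw [hE, Subgroup.zpowers_le]; exact hc0C
    have h1 : ∀ g : G, lamExt C lam g * abv p w g⁻¹
        = if g ∈ E then lamExt C lam g * abv p w g⁻¹ else 0 := by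
      intro g
      by_cases hg : g ∈ E
      · rw [if_pos hg]
      · rw [if_neg hg]
        by_cases hgC : g ∈ C
        · have h2 : ¬ IsPE p g := by
            intro h
            exact hg (hc0p g hgC h)
          have h3 : abv p w g⁻¹ = 0 := by
            unfold abv
            rw [if_neg]
            rintro ⟨h, _⟩
            exact h2 (IsPE.inv.mp h)
          rw [h3, mul_zero]
        · have h3 : lamExt C lam g = 0 := by
            by_contra hne
            exact hgC (lamExt_ne.mp hne)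
          rw [h3, zero_mul]
    rw [Finset.sum_congr rfl (fun g _ => h1 g)]
    by_cases hex : ∃ w' ∈ E, IsConj w w'
    · obtain ⟨w', hw'E, hc⟩ := hex
      have hw'1 : w' ≠ 1 := by
        rintro rfl
        rw [isConj_one_left] at hc
        exact hw1 hc
      have hw'pe : IsPE p w' := by
        obtain ⟨b, hb⟩ := nat_pow_of_mem hw'E
        rw [hb]; exact hc0.pow b
      set K := Subgroup.zpowers (w' ^ p) with hK
      have hKE : K ≤ E := by
        rw [hK, Subgroup.zpowers_le]
        exact Subgroup.pow_mem _ hw'E p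
      have h2 : ∀ g : G, (if g ∈ E then lamExt C lam g * abv p w g⁻¹ else 0)
          = (if g ∈ E then lamExt C lam g else 0) - (if g ∈ K then lamExt C lam g else 0) := by
        intro g
        by_cases hg : g ∈ E
        · rw [if_pos hg, if_pos hg, abv_on_cyclic p hB w w' c0 hc0 hw1 hc hw'E g hg]
          by_cases hgK : g ∈ K
          · rw [if_pos hgK, if_pos hgK]; ring
          · rw [if_neg hgK, if_neg hgK]; ring
        · rw [if_neg hg, if_neg hg, if_neg (fun h => hg (hKE h))]; ring
      rw [Finset.sum_congr rfl (fun g _ => h2 g), Finset.sum_sub_distrib]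
      obtain ⟨t1, ht1⟩ := sum_sub_lam C E hEC lam
      obtain ⟨t2, ht2⟩ := sum_sub_lam C K (hKE.trans hEC) lam
      rw [ht1, ht2]
      -- orders
      obtain ⟨y, hy⟩ := isConj_iff.mp hc
      have hwy : w ∈ Subgroup.zpowers (y⁻¹ * c0 * y) := by
        obtain ⟨b, hb⟩ := nat_pow_of_mem hw'E
        have h3 : w = (y⁻¹ * c0 * y) ^ b := by
          have h4 := conj_pow (i := b) (a := y⁻¹) (b := c0)
          rw [inv_inv] at h4
          rw [h4, ← hb, ← hy]
          group
        rw [h3]
        exact Subgroup.pow_mem _ (Subgroup.mem_zpowers _) b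
      have ho : orderOf (y⁻¹ * c0 * y) = orderOf c0 := by
        have h5 := (MulAut.conj y⁻¹).orderOf_eq c0
        rwa [MulAut.conj_apply, inv_inv] at h5
      have hle : orderOf c0 ≤ orderOf x := by
        rw [← ho]
        exact hx.2.2 _ ⟨_, by rw [ho, hc0o]⟩ hwy
      obtain ⟨m, hm⟩ := hx.1
      have hdx : orderOf w ∣ orderOf x := orderOf_dvd_of_mem_zpowers hx.2.1
      have how : orderOf w = p * orderOf (w' ^ p) := by
        rw [orderOf_conj hc, orderOf_pow_p p hw'1 hw'pe]
      have hKE' : orderOf (w' ^ p) ∣ orderOf c0 := orderOf_dvd_of_mem_zpowers (hKE (Subgroup.mem_zpowers _))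
      obtain ⟨r, hr⟩ := hKE'
      obtain ⟨N', hN'⟩ := hN
      obtain ⟨q, hq⟩ := hdx
      have hqq : orderOf x / orderOf w = q := by
        rw [hq, Nat.mul_div_cancel_left _ (orderOf_pos w)]
      rw [Nat.card_zpowers, Nat.card_zpowers]
      have h6 : (N : ℂ) * ((Nat.card C : ℂ)⁻¹ * ((orderOf c0 : ℂ) * t1 - (orderOf (w' ^ p) : ℂ) * t2))
          = (p : ℂ) ^ m * ((N' : ℂ) * ((r : ℂ) * t1 - t2)) / (Nat.card C : ℂ) := by
        have e1 : (N : ℂ) = (p : ℂ) * q * N' := by rw [hN', hqq]; push_cast; ring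
        have e2 : (p : ℂ) ^ m = (p : ℂ) * orderOf (w' ^ p) * q := by
          have : p ^ m = p * orderOf (w' ^ p) * q := by rw [← hm, hq, how]
          exact_mod_cast this
        have e3 : (orderOf c0 : ℂ) = orderOf (w' ^ p) * r := by exact_mod_cast hr
        rw [e1, e2, e3]
        ring
      rw [h6]
      apply OL_pow_div p _ m _ Nat.card_pos.ne'
      · rw [hc0o, hm] at hle
        exact (Nat.pow_le_pow_iff_right hp.out.one_lt).mp hle
      · exact (OL p).mul_mem (OL_nat p _) ((OL p).sub_mem ((OL p).mul_mem (OL_nat p _) (OL_nat p _)) (OL_nat p _))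
    · push Not at hex
      have h2 : ∀ g : G, (if g ∈ E then lamExt C lam g * abv p w g⁻¹ else 0) = 0 := by
        intro g
        by_cases hg : g ∈ E
        · rw [if_pos hg]
          have h3 : abv p w g⁻¹ = 0 := by
            unfold abv
            rw [if_neg]
            rintro ⟨_, j, hj⟩
            exact hex _ (Subgroup.pow_mem _ (E.inv_mem hg) _) hj
          rw [h3, mul_zero]
        · rw [if_neg hg]
      rw [Finset.sum_congr rfl (fun g _ => h2 g)]
      simp

theorem test_dl (p : ℕ) [hp : Fact p.Prime] (xs : G) (m : ℕ) (hm : orderOf xs = p ^ m)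
    (hmax : ∀ y : G, IsPE p y → orderOf y ≤ orderOf xs) (N : ℕ) (hN : p ^ m ∣ N) :
    Test p ((N : ℂ) • (dl : G → ℂ)) := by
  refine ⟨?_, ?_⟩
  · intro u y
    simp only [Pi.smul_apply]
    rw [dl_class u y]
  · intro C lam hC
    rw [B_smul_right, B_ind_dl]
    obtain ⟨c0, hc0C, hc0o, hc0p⟩ := mem_ppart p C hC
    have h1 := hmax c0 ⟨_, hc0o⟩
    rw [hc0o, hm] at h1
    have h2 := (Nat.pow_le_pow_iff_right hp.out.one_lt).mp h1
    obtain ⟨N', hN'⟩ := hN
    have h3 : (N : ℂ) * (Nat.card C : ℂ)⁻¹ = (p : ℂ) ^ m * (N' : ℂ) / (Nat.card C : ℂ) := by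
      rw [hN']; push_cast; ring
    rw [h3]
    exact OL_pow_div p (OL_nat p _) m _ Nat.card_pos.ne' h2

/-- valuation extraction -/
lemma OL_val (p : ℕ) [hp : Fact p.Prime] (z : ℤ) (hz : ¬ (p : ℤ) ∣ z) (e N : ℕ) (hN : N ≠ 0)
    (h : (p : ℂ) ^ e * (z : ℂ) / (N : ℂ) ∈ OL p) : N.factorization p ≤ e := by
  by_contra hlt
  push Not at hlt
  apply hz
  apply OL_div p
  have hp0 : (p : ℂ) ≠ 0 := by exact_mod_cast hp.out.ne_zero
  have hm0 : ((ordCompl[p] N : ℕ) : ℂ) ≠ 0 := by exact_mod_cast (Nat.ordCompl_pos p hN).ne'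
  have h1 : (z : ℂ) / p = ((p : ℂ) ^ (N.factorization p - e - 1) * ((ordCompl[p] N : ℕ) : ℂ))
      * ((p : ℂ) ^ e * (z : ℂ) / (N : ℂ)) := by
    rw [card_split p N hN]
    have h2 : (p : ℂ) ^ (N.factorization p) = (p : ℂ) ^ e * p * (p : ℂ) ^ (N.factorization p - e - 1) := by
      rw [← pow_succ, ← pow_add]
      congr 1
      omega
    rw [h2]
    field_simp
  rw [h1]
  exact (OL p).mul_mem ((OL p).mul_mem ((OL p).pow_mem (OL_nat p p) _) (OL_nat p _)) h

/-- rational `p`-elements: the order of the automiser divides -/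
lemma stab_index (p : ℕ) [hp : Fact p.Prime] (hB : CondB p G) (w : G) (i : ℕ) (hi : orderOf w = p ^ (i + 1)) :
    p ^ i * Nat.card (Subgroup.centralizer ({w} : Set G)) ∣ Nat.card G := by
  have hS : Nat.card (stabS p w) = p ^ i * Nat.card (Subgroup.centralizer ({w} : Set G)) := by
    set Img : Finset G := (Finset.range (p ^ i)).image (fun t => w ^ (1 + p * t)) with hImg
    have hwpe : IsPE p w := ⟨i + 1, hi⟩
    have hcardImg : Img.card = p ^ i := by
      rw [hImg, Finset.card_image_of_injOn, Finset.card_range]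
      intro t ht t' ht' htt
      simp only [Finset.coe_range, Set.mem_Iio] at ht ht'
      have h1 : w ^ (1 + p * t) = w ^ (1 + p * t') := htt
      rw [pow_eq_pow_iff_modEq, hi, pow_succ'] at h1
      have h2 := Nat.ModEq.add_left_cancel' 1 h1
      have h3 := Nat.ModEq.mul_left_cancel' hp.out.ne_zero h2
      exact Nat.ModEq.eq_of_lt_of_lt h3 ht ht'
    have hSset : (Finset.univ.filter (fun y : G => y ∈ stabS p w)).card = Nat.card (stabS p w) := by
      rw [Nat.card_eq_fintype_card, Fintype.card_subtype]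
    rw [← hSset]
    rw [Finset.card_eq_sum_card_fiberwise (f := fun y : G => y⁻¹ * w * y) (t := Img)]
    · rw [← hcardImg, ← smul_eq_mul, ← Finset.sum_const]
      refine Finset.sum_congr rfl fun g hg => ?_
      obtain ⟨t, ht, htg⟩ := Finset.mem_image.mp hg
      have hcg : IsConj w g := by
        rw [← htg]
        apply hB w hwpe
        intro h
        have h8 := (Nat.dvd_add_left (Dvd.intro t rfl)).mp h
        exact hp.out.one_lt.ne' (Nat.dvd_one.mp h8)
      rw [← card_fiber w g hcg]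
      congr 1
      ext y
      simp only [Finset.mem_filter, Finset.mem_univ, true_and]
      constructor
      · exact fun h => h.2
      · intro h
        refine ⟨?_, h⟩
        have h1 : y⁻¹ ∈ stabS p w := by
          rw [mem_stabS]
          refine ⟨1 + p * t, ?_, ?_⟩
          · have : 1 + p * t ≡ 1 + 0 [MOD p] := Nat.ModEq.add_left 1 (Nat.modEq_zero_iff_dvd.mpr (Dvd.intro t rfl))
            simpa using this
          · rw [inv_inv, h, ← htg]
        exact (Subgroup.inv_mem_iff _).mp h1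
    · intro y hy
      simp only [Finset.coe_filter, Finset.mem_univ, true_and, Set.mem_setOf_eq] at hy
      have h1 := (stabS p w).inv_mem hy
      obtain ⟨l, hl, hyl⟩ := (mem_stabS p w).mp h1
      rw [inv_inv] at hyl
      show y⁻¹ * w * y ∈ (Img : Set G)
      rw [hyl, hImg]
      simp only [Finset.coe_image, Finset.coe_range, Set.mem_image, Set.mem_Iio]
      -- l ≡ 1 mod p ; choose t
      set l' := l % p ^ (i + 1) with hl'
      have h2 : w ^ l = w ^ l' := by
        rw [pow_eq_pow_iff_modEq, hi]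
        exact (Nat.mod_modEq l _).symm
      have h3 : l' ≡ 1 [MOD p] := by
        have : l' ≡ l [MOD p] := (Nat.mod_modEq l _).of_dvd (dvd_pow_self p (by omega))
        exact this.trans hl
      have h4 : 1 ≤ l' := by
        rcases Nat.eq_zero_or_pos l' with h0 | h0
        · rw [h0] at h3
          have := Nat.modEq_zero_iff_dvd.mp h3.symm
          exact absurd (Nat.dvd_one.mp this) hp.out.one_lt.ne'
        · exact h0
      have h5 : p ∣ l' - 1 := (Nat.modEq_iff_dvd' h4).mp h3.symm
      obtain ⟨t, ht⟩ := h5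
      refine ⟨t, ?_, ?_⟩
      · have h6 : l' < p ^ (i + 1) := Nat.mod_lt _ (pow_pos hp.out.pos _)
        have h7 : p * t < p * p ^ i := by
          rw [← ht, ← pow_succ']
          omega
        exact Nat.lt_of_mul_lt_mul_left h7
      · rw [h2]
        congr 1
        omega
  rw [← hS]
  exact Subgroup.card_subgroup_dvd_card _

end Pool.Agent.Helper884.IC
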