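import Pool.Agent.Helper884.IC.Nec6

set_option linter.unusedSectionVars false
set_option linter.style.haveILetI false
set_option linter.unusedVariables false

open scoped BigOperators Classical MonoidAlgebra Pointwise
open Representation

noncomputable section

namespace Pool.Agent.Helper884.IC

variable {G : Type} [Group G] [Fintype G]

lemma card_idx (w : G) : (Nat.card G : ℂ) = (Nat.card (Subgroup.centralizer ({w} : Set G)) : ℂ)
    * ((Subgroup.centralizer ({w} : Set G)).index : ℂ) := by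
  have h := Subgroup.card_mul_index (Subgroup.centralizer ({w} : Set G))
  exact_mod_cast h.symm

lemma idx_val (p : ℕ) [hp : Fact p.Prime] (w : G) :
    (Nat.card G).factorization p = vC p w + ((Subgroup.centralizer ({w} : Set G)).index).factorization p := by
  have h := Subgroup.card_mul_index (Subgroup.centralizer ({w} : Set G))
  have hi0 : (Subgroup.centralizer ({w} : Set G)).index ≠ 0 := Subgroup.index_ne_zero_of_finite
  rw [← h, Nat.factorization_mul (cent_ne w) hi0, Finsupp.add_apply]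
  rfl

lemma rr_z (p : ℕ) [hp : Fact p.Prime] (w : G) (hw1 : w ≠ 1) (hw : IsPE p w) :
    ¬ (p : ℤ) ∣ (rr p w : ℤ) := by
  have := rr_not_dvd p w hw1 hw
  exact_mod_cast this

theorem F1 (hIC : HasIC G) (p : ℕ) [hp : Fact p.Prime] (hB : CondB p G) (xs : G) (m : ℕ)
    (hm : orderOf xs = p ^ m) (hmax : ∀ y : G, IsPE p y → orderOf y ≤ orderOf xs)
    (w x : G) (hw1 : w ≠ 1) (hw : IsPE p w) (hx : MaxAbove p w x) (a : ℕ)
    (ha : p * (orderOf x / orderOf w) = p ^ a) (hv : vC p w < (Nat.card G).factorization p) :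
    vC p w ≤ 2 * max a (m + vC p w - (Nat.card G).factorization p) := by
  set n := (Nat.card G).factorization p with hn
  set b := max a (m + vC p w - n) with hb
  set idx := (Subgroup.centralizer ({w} : Set G)).index with hidx
  have hiv := idx_val p w
  rw [← hn, ← hidx] at hiv
  have hi0 : idx ≠ 0 := Subgroup.index_ne_zero_of_finite
  have hpi : p ∣ idx := by
    rw [hp.out.dvd_iff_one_le_factorization hi0]
    omega
  have hdvd : p ^ m ∣ p ^ b * rr p w * idx := by
    have h1 : p ^ (idx.factorization p) ∣ idx := Nat.ordProj_dvd idx p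
    have h2 : p ^ m ∣ p ^ b * p ^ (idx.factorization p) := by
      rw [← pow_add]
      apply pow_dvd_pow
      have := le_max_right a (m + vC p w - n)
      omega
    have h3 : p ^ b * p ^ (idx.factorization p) ∣ p ^ b * rr p w * idx := by
      rw [mul_assoc]
      exact Nat.mul_dvd_mul dvd_rfl (h1.trans (Dvd.intro_left _ rfl))
    exact h2.trans h3
  have t1 : Test p (((p ^ b : ℕ) : ℂ) • abv p w) := by
    apply test_abv p hB w x hw1 hw hx
    rw [ha]
    exact pow_dvd_pow p (le_max_left _ _)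
  have t2 : Test p (((p ^ b * rr p w * idx : ℕ) : ℂ) • (dl : G → ℂ)) := test_dl p xs m hm hmax _ hdvd
  have t3 : Test p ((-1 : ℂ) • (((p ^ b * rr p w * idx : ℕ) : ℂ) • (dl : G → ℂ))) :=
    t2.smul ((OL p).neg_mem (OL p).one_mem)
  have t := t1.add t3
  have hCne := cardC_ne (Subgroup.centralizer ({w} : Set G))
  have hidxc : (idx : ℂ) ≠ 0 := by exact_mod_cast hi0
  have hGc := card_idx w
  rw [← hidx] at hGc
  have hB1 : B 1 (((p ^ b : ℕ) : ℂ) • abv p w + (-1 : ℂ) • (((p ^ b * rr p w * idx : ℕ) : ℂ) • (dl : G → ℂ))) = 0 := by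
    rw [B_add_right, B_smul_right, B_smul_right, B_smul_right, B_one_abv p w hw1 hw, B_one_dl, hGc]
    push_cast
    field_simp
    ring
  have hBin := NC hIC p _ _ t t (by rw [hB1]; exact (OL p).zero_mem) (by rw [hB1]; exact (OL p).zero_mem)
  have hval : B (((p ^ b : ℕ) : ℂ) • abv p w + (-1 : ℂ) • (((p ^ b * rr p w * idx : ℕ) : ℂ) • (dl : G → ℂ)))
      (((p ^ b : ℕ) : ℂ) • abv p w + (-1 : ℂ) • (((p ^ b * rr p w * idx : ℕ) : ℂ) • (dl : G → ℂ)))
      = (p : ℂ) ^ (2 * b) * (((rr p w : ℤ) * (1 + rr p w * idx) : ℤ) : ℂ)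
        / (Nat.card (Subgroup.centralizer ({w} : Set G)) : ℂ) := by
    have e1 : B (abv p w) dl = 0 := by
      rw [B_comm, B_dl_left, abv_one p w hw1, mul_zero]
    have e2 : B dl (abv p w) = 0 := by
      rw [B_dl_left, abv_one p w hw1, mul_zero]
    have e3 : B (dl : G → ℂ) dl = (Nat.card G : ℂ)⁻¹ := by
      rw [B_dl_left]
      unfold dl
      simp
    simp only [B_add_right, B_smul_right, B_add_left, B_smul_left]
    rw [e1, e2, e3, B_abv_abv p hB w hw1 hw, hGc]
    push_cast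
    field_simp
    ring
  rw [hval] at hBin
  have hz : ¬ (p : ℤ) ∣ ((rr p w : ℤ) * (1 + rr p w * idx)) := by
    intro h
    rcases (Nat.prime_iff_prime_int.mp hp.out).dvd_mul.mp h with h1 | h1
    · exact rr_z p w hw1 hw h1
    · have h2 : (p : ℤ) ∣ (rr p w : ℤ) * idx := by
        have : (p : ℤ) ∣ (idx : ℤ) := by exact_mod_cast hpi
        exact this.mul_left _
      have h3 := (Int.dvd_iff_dvd_of_dvd_add h1).mpr h2
      have h4 : p ∣ 1 := by exact_mod_cast h3
      exact hp.out.one_lt.ne' (Nat.dvd_one.mp h4)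
  exact OL_val p _ hz _ _ (cent_ne w) hBin

lemma vC_lower (p : ℕ) [hp : Fact p.Prime] (w : G) (i : ℕ) (hi : orderOf w = p ^ i) : i ≤ vC p w := by
  unfold vC
  rw [← hp.out.pow_dvd_iff_le_factorization (cent_ne w), ← hi]
  have h1 : orderOf (⟨w, Subgroup.mem_centralizer_singleton_iff.mpr rfl⟩ : Subgroup.centralizer ({w} : Set G))
      = orderOf w := Subgroup.orderOf_mk _ _
  rw [← h1]
  exact orderOf_dvd_natCard _

lemma vC_upper (p : ℕ) [hp : Fact p.Prime] (hB : CondB p G) (w : G) (i : ℕ)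
    (hi : orderOf w = p ^ (i + 1)) : i + vC p w ≤ (Nat.card G).factorization p := by
  have h1 := stab_index p hB w i hi
  have h2 : p ^ (i + vC p w) ∣ Nat.card G := by
    rw [pow_add]
    refine (Nat.mul_dvd_mul dvd_rfl ?_).trans h1
    exact Nat.ordProj_dvd _ p
  exact (hp.out.pow_dvd_iff_le_factorization Nat.card_pos.ne').mp h2

lemma vC_le (p : ℕ) [hp : Fact p.Prime] (w : G) : vC p w ≤ (Nat.card G).factorization p := by
  rw [idx_val p w]; omega

/-- extraction of the exponent `a` -/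
lemma exists_a (p : ℕ) [hp : Fact p.Prime] (w x : G) (hw : IsPE p w) (hx : MaxAbove p w x) :
    ∃ a, 1 ≤ a ∧ p * (orderOf x / orderOf w) = p ^ a := by
  obtain ⟨m, hm⟩ := hx.1
  obtain ⟨i, hi⟩ := hw
  have hle : i ≤ m := by
    have h1 : orderOf w ∣ orderOf x := orderOf_dvd_of_mem_zpowers hx.2.1
    rw [hi, hm] at h1
    exact (Nat.pow_dvd_pow_iff_le_right hp.out.one_lt).mp h1
  exact ⟨m - i + 1, by omega, by rw [hi, hm, Nat.pow_div hle hp.out.pos, pow_succ']⟩

lemma not_small_lt (p : ℕ) [hp : Fact p.Prime] (w x : G) (hx : MaxAbove p w x) (hs : ¬ Small p w)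
    (a : ℕ) (ha : p * (orderOf x / orderOf w) = p ^ a) : 2 * a < vC p w := by
  by_contra h
  push Not at h
  apply hs
  refine ⟨x, hx.1, hx.2.1, ?_⟩
  rw [ha, ← pow_mul]
  apply pow_dvd_pow
  unfold vC at h
  omega

lemma exists_xs (p : ℕ) [hp : Fact p.Prime] : ∃ (xs : G) (m : ℕ), orderOf xs = p ^ m ∧
    (∀ y : G, IsPE p y → orderOf y ≤ orderOf xs) := by
  obtain ⟨xs, h1, hmax⟩ := Finset.exists_max_image (Finset.univ.filter (fun x : G => IsPE p x))
    (fun x : G => orderOf x) ⟨1, by simpa using ⟨0, by simp⟩⟩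
  simp only [Finset.mem_filter, Finset.mem_univ, true_and] at h1 hmax
  obtain ⟨m, hm⟩ := h1
  exact ⟨xs, m, hm, hmax⟩

/-- numerical consequence used twice -/
theorem xs_facts (hIC : HasIC G) (p : ℕ) [hp : Fact p.Prime] (hB : CondB p G) (xs : G) (m : ℕ)
    (hm : orderOf xs = p ^ m) (hmax : ∀ y : G, IsPE p y → orderOf y ≤ orderOf xs)
    (hm2 : (Nat.card G).factorization p < 2 * m) (hn2 : 2 ≤ (Nat.card G).factorization p) :
    vC p xs = m ∧ (Nat.card G).factorization p = 2 * m - 1 ∧ m ≤ 2 := by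
  have hxs1 : xs ≠ 1 := by
    rintro rfl
    rw [orderOf_one] at hm
    have : m = 0 := by
      by_contra h0
      exact (Nat.one_lt_pow h0 hp.out.one_lt).ne hm
    omega
  have h1 : orderOf xs = p ^ ((m - 1) + 1) := by rw [hm]; congr 1; omega
  have h2 := vC_upper p hB xs (m - 1) h1
  have h3 := vC_lower p xs m hm
  refine ⟨by omega, by omega, ?_⟩
  by_contra h4
  have hx : MaxAbove p xs xs := ⟨⟨m, hm⟩, Subgroup.mem_zpowers xs, fun y hy _ => hmax y hy⟩
  have ha : p * (orderOf xs / orderOf xs) = p ^ 1 := by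
    rw [Nat.div_self (orderOf_pos xs)]; ring
  have h5 := F1 hIC p hB xs m hm hmax xs xs hxs1 ⟨m, hm⟩ hx 1 ha (by omega)
  have h6 : max 1 (m + vC p xs - (Nat.card G).factorization p) ≤ 1 := by
    apply max_le (le_refl 1)
    omega
  omega

theorem N1 (hIC : HasIC G) (p : ℕ) [hp : Fact p.Prime] (hB : CondB p G) (w : G) (hw1 : w ≠ 1)
    (hw : IsPE p w) (hs : ¬ Small p w) : vC p w = (Nat.card G).factorization p := by
  by_contra hne
  have hlt : vC p w < (Nat.card G).factorization p := lt_of_le_of_ne (vC_le p w) hne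
  obtain ⟨xs, m, hm, hmax⟩ := exists_xs (G := G) p
  obtain ⟨x, hx⟩ := exists_maxAbove p w hw
  obtain ⟨a, ha1, ha⟩ := exists_a p w x hw hx
  have h1 := not_small_lt p w x hx hs a ha
  have h2 := F1 hIC p hB xs m hm hmax w x hw1 hw hx a ha hlt
  have h3 : a < m + vC p w - (Nat.card G).factorization p := by
    by_contra h4
    push Not at h4
    rw [max_eq_left h4] at h2
    omega
  rw [max_eq_right h3.le] at h2
  obtain ⟨h5, h6, h7⟩ := xs_facts hIC p hB xs m hm hmax (by omega) (by omega)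
  omega

theorem order_p (p : ℕ) [hp : Fact p.Prime] (hB : CondB p G) (w : G) (hw1 : w ≠ 1)
    (hw : IsPE p w) (hv : vC p w = (Nat.card G).factorization p) : w ^ p = 1 := by
  obtain ⟨i, hi⟩ := hw
  have hi0 : i ≠ 0 := by
    rintro rfl
    rw [pow_zero] at hi
    exact hw1 (orderOf_eq_one_iff.mp hi)
  have h1 := vC_upper p hB w (i - 1) (by rw [hi]; congr 1; omega)
  have h2 : i = 1 := by omega
  rw [h2, pow_one] at hi
  rw [← hi, pow_orderOf_eq_one]

lemma to_xs (p : ℕ) [hp : Fact p.Prime] (w xs : G) (hwp : IsPE p w)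
    (hv : vC p w = (Nat.card G).factorization p) (hxs : orderOf xs = p ^ (vC p xs)) :
    ∃ g : G, g * w * g⁻¹ ∈ Subgroup.zpowers xs := by
  -- a Sylow subgroup centralising w
  obtain ⟨Q⟩ : Nonempty (Sylow p (Subgroup.centralizer ({w} : Set G))) := inferInstance
  set Cw := Subgroup.centralizer ({w} : Set G) with hCw
  let Q' : Subgroup G := (Q : Subgroup Cw).map Cw.subtype
  have hQ'card : Nat.card Q' = p ^ ((Nat.card G).factorization p) := by
    rw [← hv]
    have h1 : Nat.card Q' = Nat.card (Q : Subgroup Cw) :=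
      Nat.card_congr ((Q : Subgroup Cw).equivMapOfInjective Cw.subtype Cw.subtype_injective).toEquiv.symm
    rw [h1]
    exact Q.card_eq_multiplicity
  let P1 : Sylow p G := Sylow.ofCard Q' hQ'card
  have hxspg : IsPGroup p (Subgroup.zpowers xs) := by
    rw [IsPGroup.iff_card]
    exact ⟨_, by rw [Nat.card_zpowers, hxs]⟩
  obtain ⟨P, hP⟩ := hxspg.exists_le_sylow
  obtain ⟨g, hg⟩ := MulAction.exists_smul_eq G P1 P
  have hxsP : xs ∈ (P : Subgroup G) := hP (Subgroup.mem_zpowers xs)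
  have h2 : g⁻¹ * xs * g ∈ Q' := by
    rw [← hg] at hxsP
    have h3 : xs ∈ MulAut.conj g • (P1 : Subgroup G) := hxsP
    rw [Subgroup.mem_pointwise_smul_iff_inv_smul_mem] at h3
    have h4 : (MulAut.conj g)⁻¹ • xs = g⁻¹ * xs * g := by
      rw [← map_inv, MulAut.smul_def, MulAut.conj_apply, inv_inv]
    rw [h4] at h3
    exact h3
  obtain ⟨z, hz, hzeq⟩ := h2
  have h3 := Subgroup.mem_centralizer_singleton_iff.mp z.2
  have hzeq' : (z : G) = g⁻¹ * xs * g := hzeq
  rw [hzeq'] at h3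
  -- commuting
  have h4 : (g * w * g⁻¹) * xs = xs * (g * w * g⁻¹) := by
    have h5 : (g * w * g⁻¹) * xs = g * (w * (g⁻¹ * xs * g)) * g⁻¹ := by group
    have h6 : xs * (g * w * g⁻¹) = g * ((g⁻¹ * xs * g) * w) * g⁻¹ := by group
    rw [h5, h6, h3]
  refine ⟨g, ?_⟩
  set w' := g * w * g⁻¹ with hw'
  have hw'pe : IsPE p w' := by rw [hw', IsPE.conj]; exact hwp
  set H := Subgroup.centralizer ({xs} : Set G) with hH
  have hw'H : w' ∈ H := Subgroup.mem_centralizer_singleton_iff.mpr h4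
  have hxsH : xs ∈ H := Subgroup.mem_centralizer_singleton_iff.mpr rfl
  let D : Subgroup H := Subgroup.zpowers ⟨xs, hxsH⟩
  have hDcard : Nat.card D = p ^ ((Nat.card H).factorization p) := by
    rw [Nat.card_zpowers, Subgroup.orderOf_mk, hxs]
    rfl
  let SD : Sylow p H := Sylow.ofCard D hDcard
  have hwpg : IsPGroup p (Subgroup.zpowers (⟨w', hw'H⟩ : H)) := by
    rw [IsPGroup.iff_card]
    obtain ⟨k, hk⟩ := hw'pe
    exact ⟨k, by rw [Nat.card_zpowers, Subgroup.orderOf_mk, hk]⟩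
  obtain ⟨Q2, hQ2⟩ := hwpg.exists_le_sylow
  obtain ⟨y, hy⟩ := MulAction.exists_smul_eq H SD Q2
  have hwQ2 : (⟨w', hw'H⟩ : H) ∈ (Q2 : Subgroup H) := hQ2 (Subgroup.mem_zpowers _)
  have h5 : y⁻¹ * ⟨w', hw'H⟩ * y ∈ D := by
    rw [← hy] at hwQ2
    have h3 : (⟨w', hw'H⟩ : H) ∈ MulAut.conj y • (SD : Subgroup H) := hwQ2
    rw [Subgroup.mem_pointwise_smul_iff_inv_smul_mem] at h3
    have h4 : (MulAut.conj y)⁻¹ • (⟨w', hw'H⟩ : H) = y⁻¹ * ⟨w', hw'H⟩ * y := by
      rw [← map_inv, MulAut.smul_def, MulAut.conj_apply, inv_inv]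
    rw [h4] at h3
    exact h3
  obtain ⟨k, hk⟩ := nat_pow_of_mem h5
  have hk' : (y : G)⁻¹ * w' * y = xs ^ k := by
    have := congrArg Subtype.val hk
    simpa using this
  have hyc : Commute (y : G) (xs ^ k) := by
    have := Subgroup.mem_centralizer_singleton_iff.mp y.2
    have hc : Commute (y : G) xs := this
    exact hc.pow_right k
  have h6 : w' = xs ^ k := by
    have h7 : w' = y * ((y : G)⁻¹ * w' * y) * (y : G)⁻¹ := by group
    rw [h7, hk', hyc.eq]
    group
  rw [h6]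
  exact Subgroup.pow_mem _ (Subgroup.mem_zpowers _) k

lemma struct_conj (p : ℕ) [hp : Fact p.Prime] (hB : CondB p G) (w1 w2 xs : G) (h1 : w1 ≠ 1) (h2 : w2 ≠ 1)
    (hp1 : w1 ^ p = 1) (hp2 : w2 ^ p = 1) (hv1 : vC p w1 = (Nat.card G).factorization p)
    (hv2 : vC p w2 = (Nat.card G).factorization p) (hxs : orderOf xs = p ^ (vC p xs)) :
    IsConj w1 w2 := by
  have hpe : ∀ w : G, w ≠ 1 → w ^ p = 1 → IsPE p w := by
    intro w hw hwp
    exact ⟨1, by rw [pow_one]; exact orderOf_eq_prime hwp hw⟩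
  obtain ⟨g1, hg1⟩ := to_xs p w1 xs (hpe w1 h1 hp1) hv1 hxs
  obtain ⟨g2, hg2⟩ := to_xs p w2 xs (hpe w2 h2 hp2) hv2 hxs
  set u1 := g1 * w1 * g1⁻¹ with hu1
  set u2 := g2 * w2 * g2⁻¹ with hu2
  have hc1 : IsConj w1 u1 := isConj_iff.mpr ⟨g1, rfl⟩
  have hc2 : IsConj w2 u2 := isConj_iff.mpr ⟨g2, rfl⟩
  have hu1p : u1 ^ p = 1 := by rw [hu1, conj_pow, hp1]; group
  have hu2p : u2 ^ p = 1 := by rw [hu2, conj_pow, hp2]; group
  have hu11 : u1 ≠ 1 := by
    intro h; rw [h, isConj_one_left] at hc1; exact h1 hc1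
  have hu21 : u2 ≠ 1 := by
    intro h; rw [h, isConj_one_left] at hc2; exact h2 hc2
  rcases tot p ⟨_, hxs⟩ hg1 hg2 with h | ⟨j, hj⟩
  · obtain ⟨k, hk⟩ := nat_pow_of_mem h
    have hpk : ¬ p ∣ k := by
      rintro ⟨t, rfl⟩
      apply hu11
      rw [hk, pow_mul, hu2p, one_pow]
    have h3 := hB u2 (hpe u2 hu21 hu2p) k hpk
    rw [← hk] at h3
    exact (hc1.trans h3.symm).trans hc2.symm
  · exfalso
    apply hu21
    rw [hj, pow_mul, hu1p, one_pow]

theorem N2_aux (hIC : HasIC G) (p : ℕ) [hp : Fact p.Prime] (hB : CondB p G)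
    (w1 w2 x1 x2 : G) (h1 : w1 ≠ 1) (h2 : w2 ≠ 1)
    (hp1 : w1 ^ p = 1) (hp2 : w2 ^ p = 1) (hv1 : vC p w1 = (Nat.card G).factorization p)
    (hv2 : vC p w2 = (Nat.card G).factorization p)
    (hx1 : MaxAbove p w1 x1) (hx2 : MaxAbove p w2 x2) (a1 a2 : ℕ)
    (ha1 : p * (orderOf x1 / orderOf w1) = p ^ a1) (ha2 : p * (orderOf x2 / orderOf w2) = p ^ a2)
    (hle : a1 ≤ a2) (hbad : 2 * a2 < vC p w2) : IsConj w1 w2 := by
  by_contra hn
  obtain ⟨xs, m, hm, hmax⟩ := exists_xs (G := G) p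
  have hpe : ∀ w : G, w ≠ 1 → w ^ p = 1 → IsPE p w := by
    intro w hw hwp
    exact ⟨1, by rw [pow_one]; exact orderOf_eq_prime hwp hw⟩
  have hw1 := hpe w1 h1 hp1
  have hw2 := hpe w2 h2 hp2
  set n := (Nat.card G).factorization p with hnn
  set i1 := (Subgroup.centralizer ({w1} : Set G)).index with hi1
  set i2 := (Subgroup.centralizer ({w2} : Set G)).index with hi2
  have hi10 : i1 ≠ 0 := Subgroup.index_ne_zero_of_finite
  have hi20 : i2 ≠ 0 := Subgroup.index_ne_zero_of_finite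
  have e1 := idx_val p w1
  have e2 := idx_val p w2
  rw [← hnn, hv1, ← hi1] at e1
  rw [← hnn, hv2, ← hi2] at e2
  have hpi1 : ¬ p ∣ i1 := by
    rw [hp.out.dvd_iff_one_le_factorization hi10]; omega
  have hpi2 : ¬ p ∣ i2 := by
    rw [hp.out.dvd_iff_one_le_factorization hi20]; omega
  set s1 := rr p w1 * i1 with hs1
  set s2 := rr p w2 * i2 with hs2
  have hps1 : ¬ p ∣ s1 := by
    intro h
    rcases hp.out.dvd_mul.mp h with h | h
    · exact rr_not_dvd p w1 h1 hw1 h
    · exact hpi1 h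
  have hps2 : ¬ p ∣ s2 := by
    intro h
    rcases hp.out.dvd_mul.mp h with h | h
    · exact rr_not_dvd p w2 h2 hw2 h
    · exact hpi2 h
  have ha2m : a2 ≤ m := by
    have o2 : orderOf w2 = p := orderOf_eq_prime hp2 h2
    have hd : orderOf w2 ∣ orderOf x2 := orderOf_dvd_of_mem_zpowers hx2.2.1
    have h3 : p * (orderOf x2 / orderOf w2) = orderOf x2 := by
      rw [o2] at hd ⊢
      exact Nat.mul_div_cancel' hd
    have h4 := hmax x2 hx2.1
    rw [← h3, ha2, hm] at h4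
    exact (Nat.pow_le_pow_iff_right hp.out.one_lt).mp h4
  -- test functions
  have tf1 : Test p (((p ^ a2 * s2 : ℕ) : ℂ) • abv p w1) := by
    apply test_abv p hB w1 x1 h1 hw1 hx1
    rw [ha1]
    exact (pow_dvd_pow p hle).trans (Dvd.intro _ rfl)
  have tf2 : Test p (((p ^ a2 * s1 : ℕ) : ℂ) • abv p w2) := by
    apply test_abv p hB w2 x2 h2 hw2 hx2
    rw [ha2]
    exact Dvd.intro _ rfl
  have tf := tf1.add (tf2.smul ((OL p).neg_mem (OL p).one_mem))
  have tg1 : Test p (((p ^ m : ℕ) : ℂ) • abv p w2) := by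
    apply test_abv p hB w2 x2 h2 hw2 hx2
    rw [ha2]
    exact pow_dvd_pow p ha2m
  have tg2 : Test p (((p ^ m * s2 : ℕ) : ℂ) • (dl : G → ℂ)) :=
    test_dl p xs m hm hmax _ (Dvd.intro _ rfl)
  have tg := tg1.add (tg2.smul ((OL p).neg_mem (OL p).one_mem))
  have hC1 := cardC_ne (Subgroup.centralizer ({w1} : Set G))
  have hC2 := cardC_ne (Subgroup.centralizer ({w2} : Set G))
  have hG := cardG_ne (G := G)
  have hi1c : (i1 : ℂ) ≠ 0 := by exact_mod_cast hi10
  have hi2c : (i2 : ℂ) ≠ 0 := by exact_mod_cast hi20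
  have hr1 : (rr p w1 : ℂ) / Nat.card (Subgroup.centralizer ({w1} : Set G)) = (s1 : ℂ) / Nat.card G := by
    have hGc := card_idx w1
    rw [← hi1] at hGc
    rw [hGc, hs1]
    push_cast
    field_simp
  have hr2 : (rr p w2 : ℂ) / Nat.card (Subgroup.centralizer ({w2} : Set G)) = (s2 : ℂ) / Nat.card G := by
    have hGc := card_idx w2
    rw [← hi2] at hGc
    rw [hGc, hs2]
    push_cast
    field_simp
  have hB1f : B 1 (((p ^ a2 * s2 : ℕ) : ℂ) • abv p w1 + (-1 : ℂ) • (((p ^ a2 * s1 : ℕ) : ℂ) • abv p w2)) = 0 := by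
    simp only [B_add_right, B_smul_right]
    rw [B_one_abv p w1 h1 hw1, B_one_abv p w2 h2 hw2, hr1, hr2]
    push_cast
    ring
  have hB1g : B 1 (((p ^ m : ℕ) : ℂ) • abv p w2 + (-1 : ℂ) • (((p ^ m * s2 : ℕ) : ℂ) • (dl : G → ℂ))) = 0 := by
    simp only [B_add_right, B_smul_right]
    rw [B_one_abv p w2 h2 hw2, B_one_dl, hr2]
    push_cast
    field_simp
    ring
  have hBin := NC hIC p _ _ tf tg (by rw [hB1f]; exact (OL p).zero_mem) (by rw [hB1g]; exact (OL p).zero_mem)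
  have hval : B (((p ^ a2 * s2 : ℕ) : ℂ) • abv p w1 + (-1 : ℂ) • (((p ^ a2 * s1 : ℕ) : ℂ) • abv p w2))
      (((p ^ m : ℕ) : ℂ) • abv p w2 + (-1 : ℂ) • (((p ^ m * s2 : ℕ) : ℂ) • (dl : G → ℂ)))
      = (p : ℂ) ^ (a2 + m) * ((-((s1 : ℤ) * s2) : ℤ) : ℂ) / (Nat.card G : ℂ) := by
    have d1 : B (abv p w1) dl = 0 := by
      rw [B_comm, B_dl_left, abv_one p w1 h1, mul_zero]
    have d2 : B (abv p w2) dl = 0 := by
      rw [B_comm, B_dl_left, abv_one p w2 h2, mul_zero]
    have d3 := B_abv_disj p hB w1 w2 h1 h2 hp1 hp2 hn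
    simp only [B_add_right, B_smul_right, B_add_left, B_smul_left]
    rw [d1, d2, d3, B_abv_abv p hB w2 h2 hw2, hr2]
    push_cast
    ring
  rw [hval] at hBin
  have hz : ¬ (p : ℤ) ∣ -((s1 : ℤ) * s2) := by
    rw [dvd_neg]
    intro h
    rcases (Nat.prime_iff_prime_int.mp hp.out).dvd_mul.mp h with h3 | h3
    · exact hps1 (by exact_mod_cast h3)
    · exact hps2 (by exact_mod_cast h3)
  have h5 := OL_val p _ hz _ _ Nat.card_pos.ne' hBin
  rw [← hnn] at h5
  have h6 := xs_facts hIC p hB xs m hm hmax (by omega) (by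
    have : 1 ≤ vC p w2 := vC_lower p w2 1 (by rw [pow_one]; exact orderOf_eq_prime hp2 h2)
    have ha2' : 1 ≤ a2 := by
      by_contra h0
      have h00 : a2 = 0 := by omega
      rw [h00, pow_zero] at ha2
      have := Nat.eq_one_of_mul_eq_one_right ha2
      exact hp.out.one_lt.ne' this
    omega)
  obtain ⟨h7, -, -⟩ := h6
  exact hn (struct_conj p hB w1 w2 xs h1 h2 hp1 hp2 hv1 hv2 (by rw [h7, hm]))

/-- necessity of (C) given (B) -/
theorem nec_c (hIC : HasIC G) (p : ℕ) [hp : Fact p.Prime] (hB : CondB p G) : CondC p G := by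
  constructor
  · intro w w' hw1 hw'1 hw hw' hs hs'
    have hv := N1 hIC p hB w hw1 hw hs
    have hv' := N1 hIC p hB w' hw'1 hw' hs'
    have hwp := order_p p hB w hw1 hw hv
    have hw'p := order_p p hB w' hw'1 hw' hv'
    obtain ⟨x, hx⟩ := exists_maxAbove p w hw
    obtain ⟨x', hx'⟩ := exists_maxAbove p w' hw'
    obtain ⟨a, _, ha⟩ := exists_a p w x hw hx
    obtain ⟨a', _, ha'⟩ := exists_a p w' x' hw' hx'
    have hb := not_small_lt p w x hx hs a ha
    have hb' := not_small_lt p w' x' hx' hs' a' ha'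
    rcases le_total a a' with h | h
    · exact N2_aux hIC p hB w w' x x' hw1 hw'1 hwp hw'p hv hv' hx hx' a a' ha ha' h hb'
    · exact (N2_aux hIC p hB w' w x' x hw'1 hw1 hw'p hwp hv' hv hx' hx a' a ha' ha h hb).symm
  · intro w hw1 hw hs
    have hv := N1 hIC p hB w hw1 hw hs
    refine ⟨order_p p hB w hw1 hw hv, ?_⟩
    have h1 := idx_val p w
    rw [hv] at h1
    intro h
    rw [hp.out.dvd_iff_one_le_factorization Subgroup.index_ne_zero_of_finite] at h
    omega

end Pool.Agent.Helper884.IC
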