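import Pool.Agent.Helper884.IC.Nec7

set_option linter.unusedSectionVars false
set_option linter.style.haveILetI false
set_option linter.unusedVariables false

open scoped BigOperators Classical MonoidAlgebra
open Representation

noncomputable section

namespace Pool.Agent.Helper884.IC

variable {G : Type} [Group G] [Fintype G]

lemma exists_unit_root2 (N : ℕ) (hN : N ≠ 0) : ∃ z : ℂˣ, orderOf z = N := by
  have h := Complex.isPrimitiveRoot_exp N hN
  exact ⟨_, (h.isUnit_unit hN).eq_orderOf.symm⟩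

lemma Yset_dvd2 (p : ℕ) [hp : Fact p.Prime] (x : G)
    (hS : ∀ z ∈ stabS p x, ∃ l : ℕ, l ≡ 1 [MOD p ^ 2] ∧ z * x * z⁻¹ = x ^ l)
    (C : Subgroup G) (lam : C →* ℂˣ) (w : ℂ)
    (hw : w ^ (p ^ 2) = 1) : ∃ t : ℕ, Nat.card (Yset C lam x w) = Nat.card (stabS p x) * t := by
  have hp2 : 1 < p ^ 2 := Nat.one_lt_pow (by norm_num) hp.out.one_lt
  have hw0 : w ≠ 0 := by
    rintro rfl
    rw [zero_pow (by positivity)] at hw
    exact zero_ne_one hw
  have h1 : Yset C lam x w = (QuotientGroup.mk : G → G ⧸ stabS p x) ⁻¹'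
      ((QuotientGroup.mk : G → G ⧸ stabS p x) '' Yset C lam x w) := by
    apply Set.Subset.antisymm
    · exact Set.subset_preimage_image _ _
    · rintro y' ⟨y, hy, hyy⟩
      have h2 : y⁻¹ * y' ∈ stabS p x := QuotientGroup.eq.mp hyy
      obtain ⟨l, hl, hz⟩ := hS _ h2
      have hy' : lamExt C lam (y * x * y⁻¹) = w := hy
      have hmem : y * x * y⁻¹ ∈ C := lamExt_ne.mp (by rw [hy']; exact hw0)
      show lamExt C lam (y' * x * y'⁻¹) = w
      have h3 : y' * x * y'⁻¹ = (y * x * y⁻¹) ^ l := by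
        rw [conj_pow, ← hz]
        group
      rw [h3, lamExt_pow _ _ _ hmem, hy']
      have h4 : l % p ^ 2 = 1 % p ^ 2 := hl
      rw [← Nat.div_add_mod l (p ^ 2), h4, Nat.mod_eq_of_lt hp2, pow_add, pow_mul, hw, one_pow,
        one_mul, pow_one]
  rw [h1, QuotientGroup.card_preimage_mk]
  exact ⟨_, rfl⟩

lemma one_add_pow_p (p : ℕ) [hp : Fact p.Prime] : ((1 + p : ℕ) : ZMod (p ^ 2)) ^ p = 1 := by
  have h1 : (p : ℤ) ∣ (1 + p : ℤ) - 1 := ⟨1, by ring⟩
  have h2 := dvd_sub_pow_of_dvd_sub h1 1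
  have h3 : ((((1 + p : ℤ) ^ (p ^ 1) - 1 ^ (p ^ 1) : ℤ)) : ZMod (p ^ 2)) = 0 := by
    rw [ZMod.intCast_zmod_eq_zero_iff_dvd]
    push_cast
    exact h2
  push_cast at h3 ⊢
  rw [one_pow, pow_one] at h3
  exact sub_eq_zero.mp h3

/-- powers of `1 + p j` modulo `p^2` -/
lemma pow_one_add (p : ℕ) (j t : ℕ) : (1 + p * j) ^ t ≡ 1 + p * (j * t) [MOD p ^ 2] := by
  induction t with
  | zero => simp; rfl
  | succ t ih =>
    rw [pow_succ]
    refine (ih.mul_right _).trans ?_
    have : (1 + p * (j * t)) * (1 + p * j) = 1 + p * (j * (t + 1)) + p ^ 2 * (j * t * j) := by ring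
    rw [this]
    have h2 : p ^ 2 * (j * t * j) ≡ 0 [MOD p ^ 2] := Nat.modEq_zero_iff_dvd.mpr (Dvd.intro _ rfl)
    simpa using (Nat.ModEq.refl (1 + p * (j * (t + 1)))).add h2

theorem nec_b2 (hIC : HasIC G) (p : ℕ) [hp : Fact p.Prime] (hp2 : p ≠ 2)
    (hnc : ¬ ∀ P : Sylow p G, IsCyclic P) (x : G) (n : ℕ) (hn : 2 ≤ n) (hxn : orderOf x = p ^ n)
    (hmax : ∀ y : G, (∃ r : ℕ, orderOf y = p ^ r) → x ∈ Subgroup.zpowers y →
      y ∈ Subgroup.zpowers x) :
    ∃ l : ℕ, l ≡ 1 + p [MOD p ^ 2] ∧ IsConj x (x ^ l) := by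
  by_contra hcon
  push Not at hcon
  have hp2pos : p ^ 2 ≠ 0 := pow_ne_zero _ hp.out.ne_zero
  have hpp2 : p ∣ p ^ 2 := dvd_pow_self p (by norm_num)
  -- elements of stabS are ≡ 1 mod p^2
  have hS : ∀ z ∈ stabS p x, ∃ l : ℕ, l ≡ 1 [MOD p ^ 2] ∧ z * x * z⁻¹ = x ^ l := by
    intro z hz
    obtain ⟨l, hl, hzl⟩ := (mem_stabS p x).mp hz
    refine ⟨l, ?_, hzl⟩
    -- l = 1 + p j modulo p^2
    by_contra hne
    obtain ⟨j, hj⟩ : ∃ j, l ≡ 1 + p * j [MOD p ^ 2] := by
      have h1 : 1 ≤ l + p * l * (p - 1) + 1 := by omega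
      -- choose representative l' = l + p^2, which is ≥ 1
      have h2 : 1 ≤ l + p ^ 2 := by
        have : 0 < p ^ 2 := Nat.pos_of_ne_zero hp2pos
        omega
      have h3 : l + p ^ 2 ≡ 1 [MOD p] := by
        have : p ^ 2 ≡ 0 [MOD p] := Nat.modEq_zero_iff_dvd.mpr hpp2
        simpa using hl.add this
      obtain ⟨j, hj⟩ := (Nat.modEq_iff_dvd' h2).mp h3.symm
      refine ⟨j, ?_⟩
      have h4 : l + p ^ 2 = 1 + p * j := by omega
      rw [← h4]
      have h5 : p ^ 2 ≡ 0 [MOD p ^ 2] := Nat.modEq_zero_iff_dvd.mpr dvd_rfl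
      have h6 := (Nat.ModEq.refl l).add h5
      rw [add_zero] at h6
      exact h6.symm
    have hpj : ¬ p ∣ j := by
      rintro ⟨i, rfl⟩
      apply hne
      refine hj.trans ?_
      have h5 : p * (p * i) ≡ 0 [MOD p ^ 2] := Nat.modEq_zero_iff_dvd.mpr ⟨i, by ring⟩
      simpa using (Nat.ModEq.refl 1).add h5
    obtain ⟨t, _, ht⟩ := Nat.exists_mul_mod_eq_one_of_coprime
      (((Nat.Prime.coprime_iff_not_dvd hp.out).mpr hpj).symm) hp.out.one_lt
    have h7 := conj_iter z x l hzl t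
    refine hcon (l ^ t) ?_ (isConj_iff.mpr ⟨_, h7⟩)
    refine (hj.pow t).trans ((pow_one_add p j t).trans ?_)
    have h8 : p * (j * t) ≡ p * 1 [MOD p * p] := by
      apply Nat.ModEq.mul_left'
      show j * t % p = 1 % p
      rw [ht, Nat.mod_eq_of_lt hp.out.one_lt]
    rw [mul_one, ← pow_two] at h8
    exact Nat.ModEq.add_left 1 h8
  obtain ⟨z, hz⟩ := exists_unit_root2 (p ^ 2) hp2pos
  set D := Subgroup.zpowers x with hD
  set gx : D := ⟨x, Subgroup.mem_zpowers x⟩ with hgx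
  have hgo : orderOf gx = p ^ n := by rw [hgx, Subgroup.orderOf_mk, hxn]
  set mu : D →* ℂˣ := monoidHomOfForallMemZpowers (gen_x x) (g' := z)
    (by rw [hz, hgo]; exact pow_dvd_pow p hn) with hmu
  have hmux : mu gx = z := monoidHomOfForallMemZpowers_apply_gen (gen_x x) _
  set nu : D →* ℂˣ := mu ^ (1 + p) with hnu
  have hnux : nu gx = z ^ (1 + p) := by rw [hnu, MonoidHom.pow_apply, hmux]
  have hcop : ∀ j : ℕ, ¬ p ∣ j → x ∈ Subgroup.zpowers (x ^ j) := by
    intro j hj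
    have h1 : j.Coprime (orderOf x) := by
      rw [hxn]
      exact (Nat.Coprime.pow_left n ((Nat.Prime.coprime_iff_not_dvd hp.out).mpr hj)).symm
    obtain ⟨m, hm⟩ := exists_pow_eq_self_of_coprime h1
    rw [← hm]
    exact Subgroup.pow_mem _ (by rw [hm]; exact Subgroup.mem_zpowers _) m
  have H : ∀ d : D, mu d ≠ nu d → x ∈ Subgroup.zpowers (d : G) := by
    intro d hd
    obtain ⟨j, hj⟩ := nat_pow_of_mem d.2
    rw [hj]
    apply hcop
    rintro ⟨t, ht⟩
    apply hd
    have hdd : d = gx ^ j := Subtype.ext (by rw [hj]; rfl)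
    rw [hnu, MonoidHom.pow_apply, hdd, map_pow, hmux, ht, pow_add, pow_one]
    have h1 : (z ^ (p * t)) ^ p = 1 := by
      rw [← pow_mul]
      have h2 : p * t * p = p ^ 2 * t := by ring
      rw [h2, pow_mul, ← hz, pow_orderOf_eq_one, one_pow]
    rw [h1, mul_one]
  set F := indChar D mu - indChar D nu with hF
  have hFcl : IsClass F := by
    intro g y
    rw [hF]
    simp only [Pi.sub_apply]
    rw [isClass_indChar _ _ g y, isClass_indChar _ _ g y]
  have hcopk : ¬ p ∣ 1 + p := by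
    intro h
    have h8 := (Nat.dvd_add_left (dvd_refl p)).mp h
    exact hp.out.one_lt.ne' (Nat.dvd_one.mp h8)
  have hzk : z ^ (1 + p) ≠ 1 := by
    intro h
    apply hcopk
    have := orderOf_dvd_of_pow_eq_one h
    rw [hz] at this
    exact hpp2.trans this
  have hz1 : z ≠ 1 := by
    rintro rfl
    rw [orderOf_one] at hz
    exact (Nat.one_lt_pow (by norm_num) hp.out.one_lt).ne hz
  -- orthogonality to one
  have hB1 : B (1 : G → ℂ) F = 0 := by
    rw [hF, B_sub_right, B_comm, B_comm 1, frob _ _ _ isClass_one, frob _ _ _ isClass_one]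
    have h1 : ∀ lam : D →* ℂˣ, lam gx ≠ 1 →
        ∑ g : G, lamExt D lam g * (1 : G → ℂ) g⁻¹ = 0 := by
      intro lam hlam
      rw [sum_lamExt D lam (fun g => (1 : G → ℂ) g⁻¹)]
      have h2 := sum_hom_units_eq_zero (R := ℂ) ((Units.coeHom ℂ).comp lam) (by
        intro h3
        apply hlam
        have h4 := congrArg (fun F : D →* ℂ => F gx) h3
        simp only [MonoidHom.comp_apply, Units.coeHom_apply, MonoidHom.one_apply] at h4
        exact Units.ext h4)
      simpa using h2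
    rw [h1 mu (by rw [hmux]; exact hz1), h1 nu (by rw [hnux]; exact hzk)]
    simp
  -- the subgroup S
  have hDS : D ≤ stabS p x := by
    rw [hD, Subgroup.zpowers_le]
    exact (mem_stabS p x).mpr ⟨1, rfl, by simp⟩
  obtain ⟨q, hq⟩ := Subgroup.card_dvd_of_le hDS
  have hDc : Nat.card D = p ^ n := by rw [hD, Nat.card_zpowers, hxn]
  have hpn0 : p ^ n ≠ 0 := pow_ne_zero _ hp.out.ne_zero
  have hpq : p ∣ q := by
    have h1 := dvd_stabS p hnc x n (by omega) hxn
    rw [hq, hDc, pow_succ] at h1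
    exact Nat.dvd_of_mul_dvd_mul_left (Nat.pos_of_ne_zero hpn0) h1
  have hq0 : (q : ℂ) ≠ 0 := by
    intro h
    have h0 : q = 0 := by exact_mod_cast h
    rw [h0, mul_zero] at hq
    exact Nat.card_pos.ne' hq
  have hzp : ∀ j : ℕ, (((z ^ j : ℂˣ) : ℂ)) ^ (p ^ 2) = 1 := by
    intro j
    rw [← Units.val_pow_eq_pow_val, ← pow_mul, mul_comm, pow_mul, ← hz, pow_orderOf_eq_one, one_pow,
      Units.val_one]
  -- values on cyclic induced
  have hcyc : ∀ (C : Subgroup G) (lam : C →* ℂˣ), IsCyclic C →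
      B (indChar C lam) F / q ∈ OL p := by
    intro C lam hC
    rw [hF, B_main x C lam mu nu H]
    have hmuz : (mu ⟨x, Subgroup.mem_zpowers x⟩ : ℂˣ) = z ^ 1 := by
      rw [pow_one]; exact hmux
    have hnuz : (nu ⟨x, Subgroup.mem_zpowers x⟩ : ℂˣ) = z ^ (1 + p) := hnux
    rw [hmuz, hnuz]
    obtain ⟨a, ha⟩ := Yset_dvd2 p x hS C lam ((z ^ 1 : ℂˣ) : ℂ) (hzp 1)
    obtain ⟨b, hb⟩ := Yset_dvd2 p x hS C lam ((z ^ (1 + p) : ℂˣ) : ℂ) (hzp (1 + p))
    by_cases hy : ∃ y : G, y * x * y⁻¹ ∈ C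
    · obtain ⟨y, hy⟩ := hy
      obtain ⟨c, hcC, hco, hcp⟩ := mem_ppart p C hC
      have h1 : y * x * y⁻¹ ∈ Subgroup.zpowers c := by
        apply hcp _ hy
        refine ⟨n, ?_⟩
        have h5 := (MulAut.conj y).orderOf_eq x
        rw [MulAut.conj_apply] at h5
        rw [h5, hxn]
      have hco' : orderOf (y⁻¹ * c * y) = p ^ ((Nat.card C).factorization p) := by
        have h5 := (MulAut.conj y⁻¹).orderOf_eq c
        rw [MulAut.conj_apply, inv_inv] at h5
        rw [h5, hco]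
      have h2 : y⁻¹ * c * y ∈ Subgroup.zpowers x := by
        apply hmax _ ⟨_, hco'⟩
        obtain ⟨j, hj⟩ := h1
        refine ⟨j, ?_⟩
        simp only at hj ⊢
        have h6 : (y⁻¹ * c * y) ^ j = y⁻¹ * c ^ j * y := by
          have := conj_zpow (i := j) (a := y⁻¹) (b := c)
          rwa [inv_inv] at this
        rw [h6, hj]
        group
      have h3 : p ^ ((Nat.card C).factorization p) ∣ p ^ n := by
        rw [← hco', ← hxn]
        exact orderOf_dvd_of_mem_zpowers h2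
      have h4 : p ^ n ∣ p ^ ((Nat.card C).factorization p) := by
        rw [← hco, ← hxn]
        have h5 := (MulAut.conj y).orderOf_eq x
        rw [MulAut.conj_apply] at h5
        rw [← h5]
        exact orderOf_dvd_of_mem_zpowers h1
      have h5 : p ^ ((Nat.card C).factorization p) = p ^ n := Nat.dvd_antisymm h3 h4
      have h6 : Nat.card C = p ^ n * ordCompl[p] (Nat.card C) := by
        conv_lhs => rw [← Nat.ordProj_mul_ordCompl_eq_self (Nat.card C) p]
        rw [h5]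
      have h7 : ¬ p ∣ ordCompl[p] (Nat.card C) := Nat.not_dvd_ordCompl hp.out Nat.card_pos.ne'
      set c' := ordCompl[p] (Nat.card C) with hc'
      rw [ha, hb, hq, hDc, h6]
      have h8 : ((p ^ n * c' : ℕ) : ℂ)⁻¹ * (((p ^ n * q * a : ℕ) : ℂ) - ((p ^ n * q * b : ℕ) : ℂ)) / q
          = (c' : ℂ)⁻¹ * ((a : ℂ) - b) := by
        have hpc : (p : ℂ) ≠ 0 := by exact_mod_cast hp.out.ne_zero
        have hcc : (c' : ℂ) ≠ 0 := by
          intro h
          have h0 : c' = 0 := by exact_mod_cast h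
          rw [h0] at h7
          exact h7 (dvd_zero p)
        push_cast
        field_simp
      rw [h8]
      exact (OL p).mul_mem (OL_inv p h7) ((OL p).sub_mem (OL_nat p a) (OL_nat p b))
    · push Not at hy
      have h0 : ∀ w : ℂˣ, Yset C lam x (w : ℂ) = ∅ := by
        intro w
        apply Set.eq_empty_of_forall_notMem
        intro y hyy
        have h1 : lamExt C lam (y * x * y⁻¹) = (w : ℂ) := hyy
        apply hy y
        apply lamExt_ne.mp
        rw [h1]
        exact Units.ne_zero w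
      rw [h0, h0]
      simp
  -- T
  let T : (G → ℂ) →+ ℂ :=
    { toFun := fun h => B h F / q
      map_zero' := by simp [B]
      map_add' := by intro a b; rw [B_add_left]; ring }
  have hT : ∀ chi : G → ℂ, IsIrrChar chi → B chi F / q ∈ OL p := by
    intro chi hchi
    refine span_ind p T ?_ ?_ (hIC chi hchi)
    · show B 1 F / q ∈ OL p
      rw [hB1, zero_div]
      exact (OL p).zero_mem
    · intro C lam hC
      exact hcyc C lam hC
  have hBFF : B F F = 2 * q := by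
    have hval : ∀ (lam : D →* ℂˣ) (j : ℕ), lamExt D lam (x ^ j) = ((lam gx ^ j : ℂˣ) : ℂ) := by
      intro lam j
      rw [lamExt_pow _ _ _ (Subgroup.mem_zpowers x), Units.val_pow_eq_pow_val]
      congr 1
      unfold lamExt
      rw [dif_pos (Subgroup.mem_zpowers x)]
    have hYS : ∀ (i : ℕ), ¬ p ∣ i → ∀ lam : D →* ℂˣ, lam gx = z ^ i →
        Yset D lam x ((z ^ i : ℂˣ) : ℂ) = (stabS p x : Set G) := by
      intro i hi lam hlam
      ext y
      constructor
      · intro hy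
        have h1 : lamExt D lam (y * x * y⁻¹) = ((z ^ i : ℂˣ) : ℂ) := hy
        have h2 : y * x * y⁻¹ ∈ D := lamExt_ne.mp (by rw [h1]; exact Units.ne_zero _)
        obtain ⟨l, hl⟩ := nat_pow_of_mem h2
        refine ⟨l, ?_, hl⟩
        rw [hl, hval, hlam] at h1
        have h3 : (z ^ i) ^ l = z ^ i := Units.ext h1
        rw [← pow_mul, pow_eq_pow_iff_modEq, hz] at h3
        have h4 : i * l ≡ i * 1 [MOD p] := by rw [mul_one]; exact h3.of_dvd hpp2
        exact Nat.ModEq.cancel_left_of_coprime ((Nat.Prime.coprime_iff_not_dvd hp.out).mpr hi) h4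
      · intro hyS
        obtain ⟨l, hl, hyl⟩ := hS y hyS
        show lamExt D lam (y * x * y⁻¹) = ((z ^ i : ℂˣ) : ℂ)
        rw [hyl, hval, hlam]
        congr 1
        rw [← pow_mul, pow_eq_pow_iff_modEq, hz]
        simpa using (Nat.ModEq.refl i).mul hl
    have hY1 : Yset D mu x ((z ^ (1 + p) : ℂˣ) : ℂ) = ∅ := by
      apply Set.eq_empty_of_forall_notMem
      intro y hy
      have h1 : lamExt D mu (y * x * y⁻¹) = ((z ^ (1 + p) : ℂˣ) : ℂ) := hy
      have h2 : y * x * y⁻¹ ∈ D := lamExt_ne.mp (by rw [h1]; exact Units.ne_zero _)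
      obtain ⟨l, hl⟩ := nat_pow_of_mem h2
      rw [hl, hval, hmux] at h1
      have h3 : z ^ l = z ^ (1 + p) := Units.ext h1
      rw [pow_eq_pow_iff_modEq, hz] at h3
      exact hcon l h3 (isConj_iff.mpr ⟨y, hl⟩)
    have hY2 : Yset D nu x ((z ^ 1 : ℂˣ) : ℂ) = ∅ := by
      apply Set.eq_empty_of_forall_notMem
      intro y hy
      have h1 : lamExt D nu (y * x * y⁻¹) = ((z ^ 1 : ℂˣ) : ℂ) := hy
      have h2 : y * x * y⁻¹ ∈ D := lamExt_ne.mp (by rw [h1]; exact Units.ne_zero _)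
      obtain ⟨l, hl⟩ := nat_pow_of_mem h2
      rw [hl, hval, hnux] at h1
      have h3 : (z ^ (1 + p)) ^ l = z ^ 1 := Units.ext h1
      rw [← pow_mul, pow_eq_pow_iff_modEq, hz] at h3
      have h4 := conj_iter y x l hl (p - 1)
      refine hcon (l ^ (p - 1)) ?_ (isConj_iff.mpr ⟨_, h4⟩)
      rw [← ZMod.natCast_eq_natCast_iff] at h3 ⊢
      have h5 := one_add_pow_p p
      have h6 : (((1 + p) * l : ℕ) : ZMod (p ^ 2)) ^ (p - 1) = 1 := by
        rw [h3]; simp
      rw [Nat.cast_mul, mul_pow] at h6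
      have h7 : p = (p - 1) + 1 := by
        have := hp.out.two_le
        omega
      have h8 : ((1 + p : ℕ) : ZMod (p ^ 2)) ^ p * (l : ZMod (p ^ 2)) ^ (p - 1) = ((1 + p : ℕ) : ZMod (p ^ 2)) := by
        have h9 : ((1 + p : ℕ) : ZMod (p ^ 2)) ^ p
            = ((1 + p : ℕ) : ZMod (p ^ 2)) ^ (p - 1) * ((1 + p : ℕ) : ZMod (p ^ 2)) := by
          rw [← pow_succ, ← h7]
        rw [h9]
        calc ((1 + p : ℕ) : ZMod (p ^ 2)) ^ (p - 1) * ((1 + p : ℕ) : ZMod (p ^ 2)) * (l : ZMod (p ^ 2)) ^ (p - 1)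
            = (((1 + p : ℕ) : ZMod (p ^ 2)) ^ (p - 1) * (l : ZMod (p ^ 2)) ^ (p - 1))
              * ((1 + p : ℕ) : ZMod (p ^ 2)) := by ring
          _ = ((1 + p : ℕ) : ZMod (p ^ 2)) := by rw [h6, one_mul]
      rw [h5, one_mul] at h8
      rw [Nat.cast_pow]
      exact h8
    have e1 : B F F = B (indChar D mu) F - B (indChar D nu) F := by
      conv_lhs => rw [hF, B_sub_left]
    rw [e1, hF, B_main x D mu mu nu H, B_main x D nu mu nu H]
    have hmuz : (mu ⟨x, Subgroup.mem_zpowers x⟩ : ℂˣ) = z ^ 1 := by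
      rw [pow_one]; exact hmux
    have hnuz : (nu ⟨x, Subgroup.mem_zpowers x⟩ : ℂˣ) = z ^ (1 + p) := hnux
    rw [hmuz, hnuz, hY1, hY2, hYS 1 (fun h => hp.out.one_lt.ne' (Nat.dvd_one.mp h)) mu hmuz,
      hYS (1 + p) hcopk nu hnuz]
    have hSc : (Nat.card (stabS p x : Set G) : ℂ) = (p ^ n * q : ℕ) := by
      have : Nat.card (stabS p x : Set G) = Nat.card (stabS p x) := rfl
      rw [this, hq, hDc]
    rw [hSc, hDc]
    have hpc : (p : ℂ) ≠ 0 := by exact_mod_cast hp.out.ne_zero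
    have hempty : Nat.card (∅ : Set G) = 0 := by simp
    rw [hempty]
    push_cast
    field_simp
    ring
  have hfin : (2 : ℂ) / q ∈ OL p := by
    have h1 : (2 : ℂ) / q = ∑ chi ∈ Irr G, (B chi F / q) * (B chi F / q) := by
      have h2 := B_expand F F hFcl
      rw [hBFF] at h2
      have h3 : (2 : ℂ) / q = (2 * q) / (q * q) := by field_simp
      rw [h3, h2, Finset.sum_div]
      refine Finset.sum_congr rfl fun chi _ => ?_
      rw [B_comm F chi]
      field_simp
    rw [h1]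
    exact (OL p).sum_mem fun chi hchi =>
      (OL p).mul_mem (hT chi (mem_Irr.mp hchi)) (hT chi (mem_Irr.mp hchi))
  obtain ⟨q', hq'⟩ := hpq
  have h9 : (((2 : ℤ) : ℂ)) / p ∈ OL p := by
    have h2 : (((2 : ℤ) : ℂ)) / p = (q' : ℂ) * (2 / q) := by
      have hpc : (p : ℂ) ≠ 0 := by exact_mod_cast hp.out.ne_zero
      rw [hq'] at hq0 ⊢
      push_cast at hq0 ⊢
      have : (q' : ℂ) ≠ 0 := right_ne_zero_of_mul hq0
      field_simp
    rw [h2]
    exact (OL p).mul_mem (OL_nat p q') hfin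
  have h10 := OL_div p h9
  have h11 : p ∣ 2 := by exact_mod_cast h10
  exact hp2 ((Nat.prime_dvd_prime_iff_eq hp.out Nat.prime_two).mp h11)

end Pool.Agent.Helper884.IC
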