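import Pool.Agent.Helper884.IC.Nec8

set_option linter.unusedSectionVars false
set_option linter.style.haveILetI false
set_option linter.unusedVariables false

open scoped BigOperators Classical MonoidAlgebra
open Representation

noncomputable section

namespace Pool.Agent.Helper884.IC

variable {G : Type} [Group G] [Fintype G]

lemma mem_U (p n' : ℕ) [hp : Fact p.Prime] (r : ℕ) (hr : r ≡ 1 [MOD p]) :
    ((r : ℕ) : ZMod (p ^ (n' + 1))) ∈ (Finset.range (p ^ n')).image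
      (fun t : ℕ => ((1 + p * t : ℕ) : ZMod (p ^ (n' + 1)))) := by
  set r' := r % p ^ (n' + 1) with hr'
  have h3 : r' ≡ 1 [MOD p] := by
    have : r' ≡ r [MOD p] := (Nat.mod_modEq r _).of_dvd (dvd_pow_self p (by omega))
    exact this.trans hr
  have h4 : 1 ≤ r' := by
    rcases Nat.eq_zero_or_pos r' with h0 | h0
    · rw [h0] at h3
      have := Nat.modEq_zero_iff_dvd.mp h3.symm
      exact absurd (Nat.dvd_one.mp this) hp.out.one_lt.ne'
    · exact h0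
  have h5 : p ∣ r' - 1 := (Nat.modEq_iff_dvd' h4).mp h3.symm
  obtain ⟨t, ht⟩ := h5
  rw [Finset.mem_image]
  refine ⟨t, ?_, ?_⟩
  · have h6 : r' < p ^ (n' + 1) := Nat.mod_lt _ (pow_pos hp.out.pos _)
    have h7 : p * t < p * p ^ n' := by
      rw [← ht, ← pow_succ']
      omega
    rw [Finset.mem_range]
    exact Nat.lt_of_mul_lt_mul_left h7
  · have h8 : 1 + p * t = r' := by omega
    rw [h8, ZMod.natCast_eq_natCast_iff]
    exact Nat.mod_modEq r _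

lemma gen_units (p : ℕ) [hp : Fact p.Prime] (hp2 : p ≠ 2) (n' l1 : ℕ) (hl : l1 ≡ 1 + p [MOD p ^ 2])
    (m0 : ℕ) (hm : m0 ≡ 1 [MOD p]) : ∃ j : ℕ, l1 ^ j ≡ m0 [MOD p ^ (n' + 1)] := by
  have hpp2 : p ∣ p ^ 2 := dvd_pow_self p (by norm_num)
  have hl1 : l1 ≡ 1 [MOD p] := by
    have h1 := hl.of_dvd hpp2
    have h2 : 1 + p ≡ 1 + 0 [MOD p] := Nat.ModEq.add_left 1 (Nat.modEq_zero_iff_dvd.mpr dvd_rfl)
    exact h1.trans (by simpa using h2)
  -- l1 = 1 + p a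
  obtain ⟨a, ha⟩ : ∃ a : ℤ, (l1 : ℤ) = 1 + p * a := by
    have h1 := (Nat.modEq_iff_dvd.mp hl1.symm)
    obtain ⟨a, ha⟩ := h1
    exact ⟨a, by push_cast at ha; linarith⟩
  have hpa : ¬ (p : ℤ) ∣ a := by
    rintro ⟨b, rfl⟩
    have h1 := Nat.modEq_iff_dvd.mp hl
    obtain ⟨c, hc⟩ := h1
    push_cast at hc
    rw [ha] at hc
    have h2 : (p : ℤ) * 1 = p * (p * (c + b)) := by linarith [hc]
    have hp0 : (p : ℤ) ≠ 0 := by exact_mod_cast hp.out.ne_zero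
    have h3 := mul_left_cancel₀ hp0 h2
    have h4 : (p : ℤ) ∣ 1 := ⟨c + b, h3⟩
    have h5 : p ∣ 1 := by exact_mod_cast h4
    exact hp.out.one_lt.ne' (Nat.dvd_one.mp h5)
  have hord := ZMod.orderOf_one_add_mul_prime hp.out hp2 a hpa n'
  have hcast : (1 + (p : ZMod (p ^ (n' + 1))) * (a : ZMod (p ^ (n' + 1)))) = ((l1 : ℕ) : ZMod (p ^ (n' + 1))) := by
    have := congrArg (fun z : ℤ => (z : ZMod (p ^ (n' + 1)))) ha
    push_cast at this
    exact this.symm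
  rw [hcast] at hord
  set U := (Finset.range (p ^ n')).image
      (fun t : ℕ => ((1 + p * t : ℕ) : ZMod (p ^ (n' + 1)))) with hU
  set A := (Finset.range (p ^ n')).image (fun j : ℕ => ((l1 : ℕ) : ZMod (p ^ (n' + 1))) ^ j) with hA
  have hAcard : A.card = p ^ n' := by
    rw [hA, Finset.card_image_of_injOn, Finset.card_range]
    have h1 := pow_injOn_Iio_orderOf (x := ((l1 : ℕ) : ZMod (p ^ (n' + 1))))
    rw [hord] at h1
    intro i hi j hj hij
    simp only [Finset.coe_range] at hi hj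
    exact h1 hi hj hij
  have hUcard : U.card ≤ p ^ n' := by
    rw [hU]
    refine Finset.card_image_le.trans ?_
    rw [Finset.card_range]
  have hsub : A ⊆ U := by
    intro z hz
    obtain ⟨j, _, rfl⟩ := Finset.mem_image.mp hz
    have h1 : l1 ^ j ≡ 1 [MOD p] := by
      simpa using hl1.pow j
    have := mem_U p n' (l1 ^ j) h1
    rw [Nat.cast_pow] at this
    exact this
  have heq : A = U := Finset.eq_of_subset_of_card_le hsub (by rw [hAcard]; exact hUcard)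
  have hm0 := mem_U p n' m0 hm
  rw [← hU, ← heq] at hm0
  obtain ⟨j, _, hj⟩ := Finset.mem_image.mp hm0
  refine ⟨j, ?_⟩
  rw [← ZMod.natCast_eq_natCast_iff, Nat.cast_pow]
  exact hj

theorem nec_b_full (hIC : HasIC G) (p : ℕ) [hp : Fact p.Prime] (hp2 : p ≠ 2)
    (hnc : ¬ ∀ P : Sylow p G, IsCyclic P) (x : G) (n : ℕ) (hxn : orderOf x = p ^ n)
    (hmax : ∀ y : G, (∃ r : ℕ, orderOf y = p ^ r) → x ∈ Subgroup.zpowers y →
      y ∈ Subgroup.zpowers x) (k : ℕ) (hk : ¬ p ∣ k) : IsConj x (x ^ k) := by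
  by_cases hn0 : n = 0
  · rw [hn0, pow_zero] at hxn
    rw [orderOf_eq_one_iff.mp hxn, one_pow]
  obtain ⟨l0, hl0, hc0⟩ := nec_b hIC p hp2 hnc x n hn0 hxn hmax k hk
  by_cases hn1 : n = 1
  · have h1 : x ^ l0 = x ^ k := by
      rw [pow_eq_pow_iff_modEq, hxn, hn1, pow_one]
      exact hl0
    rwa [h1] at hc0
  obtain ⟨l1, hl1, hc1⟩ := nec_b2 hIC p hp2 hnc x n (by omega) hxn hmax
  -- inverse of l0 modulo p^n
  have hpl0 : ¬ p ∣ l0 := by
    intro h
    apply hk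
    have h1 := Nat.modEq_zero_iff_dvd.mpr h
    exact Nat.modEq_zero_iff_dvd.mp (hl0.symm.trans h1)
  have hcop : l0.Coprime (p ^ n) :=
    (Nat.Coprime.pow_left n ((Nat.Prime.coprime_iff_not_dvd hp.out).mpr hpl0)).symm
  obtain ⟨i0, _, hi0⟩ := Nat.exists_mul_mod_eq_one_of_coprime hcop
    (Nat.one_lt_pow hn0 hp.out.one_lt)
  have hi0' : l0 * i0 ≡ 1 [MOD p ^ n] := by
    show l0 * i0 % p ^ n = 1 % p ^ n
    rw [hi0, Nat.mod_eq_of_lt (Nat.one_lt_pow hn0 hp.out.one_lt)]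
  have hm0 : k * i0 ≡ 1 [MOD p] := by
    have h1 : l0 * i0 ≡ 1 [MOD p] := hi0'.of_dvd (dvd_pow_self p hn0)
    exact (hl0.symm.mul_right i0).trans h1
  obtain ⟨j, hj⟩ := gen_units p hp2 (n - 1) l1 hl1 (k * i0) hm0
  have hn' : n - 1 + 1 = n := by omega
  rw [hn'] at hj
  obtain ⟨y0, hy0⟩ := isConj_iff.mp hc0
  obtain ⟨y1, hy1⟩ := isConj_iff.mp hc1
  have h1 := conj_iter y1 x l1 hy1 j
  have h2 : x ^ (l1 ^ j) = x ^ (k * i0) := by
    rw [pow_eq_pow_iff_modEq, hxn]; exact hj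
  rw [h2] at h1
  refine isConj_iff.mpr ⟨y1 ^ j * y0, ?_⟩
  have h3 : y1 ^ j * y0 * x * (y1 ^ j * y0)⁻¹ = y1 ^ j * (y0 * x * y0⁻¹) * (y1 ^ j)⁻¹ := by group
  rw [h3, hy0, ← conj_pow, h1, ← pow_mul, pow_eq_pow_iff_modEq, hxn]
  have h4 : k * i0 * l0 = k * (l0 * i0) := by ring
  rw [h4]
  simpa using (Nat.ModEq.refl k).mul hi0'

theorem nec_B (hIC : HasIC G) (p : ℕ) [hp : Fact p.Prime] (hp2 : p ≠ 2)
    (hnc : ¬ ∀ P : Sylow p G, IsCyclic P) : CondB p G := by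
  intro u hu k hk
  obtain ⟨x, hx1, hx2, hx3⟩ := exists_maxAbove p u hu
  have hmax : ∀ y : G, (∃ r : ℕ, orderOf y = p ^ r) → x ∈ Subgroup.zpowers y →
      y ∈ Subgroup.zpowers x := by
    intro y hy hxy
    have h1 : Subgroup.zpowers x ≤ Subgroup.zpowers y := by rwa [Subgroup.zpowers_le]
    have h2 := hx3 y hy (h1 hx2)
    have h3 : Subgroup.zpowers x = Subgroup.zpowers y := by
      apply Subgroup.eq_of_le_of_card_ge h1
      rw [Nat.card_zpowers, Nat.card_zpowers]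
      exact h2
    rw [h3]
    exact Subgroup.mem_zpowers y
  obtain ⟨n, hn⟩ := hx1
  have h1 := nec_b_full hIC p hp2 hnc x n hn hmax k hk
  obtain ⟨y, hy⟩ := isConj_iff.mp h1
  obtain ⟨a, ha⟩ := nat_pow_of_mem hx2
  refine isConj_iff.mpr ⟨y, ?_⟩
  rw [ha, ← conj_pow, hy, ← pow_mul, ← pow_mul, mul_comm]

/-- necessity, all odd primes -/
theorem nec_odd (hIC : HasIC G) (p : ℕ) [hp : Fact p.Prime] (hp2 : p ≠ 2)
    (hnc : ¬ ∀ P : Sylow p G, IsCyclic P) : CondA p G ∧ CondB p G ∧ CondC p G := by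
  have hB := nec_B hIC p hp2 hnc
  exact ⟨fun s hs hps => nec_a hIC p hnc s hs hps, hB, nec_c hIC p hB⟩

end Pool.Agent.Helper884.IC
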