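import Pool.Agent.Helper884.IC.FS

set_option linter.unusedSectionVars false
set_option linter.style.haveILetI false
set_option linter.unusedVariables false

open scoped BigOperators Classical MonoidAlgebra TensorProduct
open Representation

noncomputable section

namespace Pool.Agent.Helper884.IC

variable {G : Type} [Group G] [Fintype G]

lemma beta_nat {chi psi : G → ℂ} (h : IsIrrChar chi) (h' : IsIrrChar psi) :
    ∃ n : ℕ, (Nat.card G : ℂ)⁻¹ * ∑ g : G, chi g * psi g = n := by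
  obtain ⟨V, _, _, _, rho, hr, rfl⟩ := h
  obtain ⟨W, _, _, _, sigma, hs, rfl⟩ := h'
  set A : G → (V ⊗[ℂ] W →ₗ[ℂ] V ⊗[ℂ] W) := fun g => TensorProduct.map (rho g) (sigma g) with hA
  have hAmul : ∀ g h : G, A g ∘ₗ A h = A (g * h) := by
    intro g h
    simp only [hA]
    rw [← TensorProduct.map_comp]
    simp [map_mul, Module.End.mul_eq_comp]
  set P : V ⊗[ℂ] W →ₗ[ℂ] V ⊗[ℂ] W := (Nat.card G : ℂ)⁻¹ • ∑ g : G, A g with hP
  have hAP : ∀ g : G, A g ∘ₗ P = P := by
    intro g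
    rw [hP, LinearMap.comp_smul, comp_sum']
    congr 1
    simp only [hAmul]
    exact Fintype.sum_equiv (Equiv.mulLeft g) _ _ fun _ => rfl
  have hPP : P ∘ₗ P = P := by
    have h1 : P ∘ₗ P = (Nat.card G : ℂ)⁻¹ • ∑ g : G, (A g ∘ₗ P) := by
      conv_lhs => rw [hP]
      rw [LinearMap.smul_comp, sum_comp']
    rw [h1]
    simp only [hAP]
    rw [Finset.sum_const, Finset.card_univ, ← Nat.card_eq_fintype_card, ← Nat.cast_smul_eq_nsmul ℂ,
      smul_smul, inv_mul_cancel₀ cardG_ne, one_smul]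
  obtain ⟨n1, hn1⟩ := trace_idem P hPP
  refine ⟨n1, ?_⟩
  rw [← hn1, hP, map_smul, map_sum, smul_eq_mul]
  congr 1
  refine Finset.sum_congr rfl fun g _ => ?_
  simp only [hA]
  rw [LinearMap.trace_tensorProduct']
  rfl


/-- even elements of `OL 2` -/
def Ev (z : ℂ) : Prop := ∃ c ∈ OL 2, z = 2 * c

lemma Ev.add {a b : ℂ} (ha : Ev a) (hb : Ev b) : Ev (a + b) := by
  obtain ⟨c, hc, rfl⟩ := ha
  obtain ⟨d, hd, rfl⟩ := hb
  exact ⟨c + d, (OL 2).add_mem hc hd, by ring⟩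

lemma Ev.neg {a : ℂ} (ha : Ev a) : Ev (-a) := by
  obtain ⟨c, hc, rfl⟩ := ha
  exact ⟨-c, (OL 2).neg_mem hc, by ring⟩

lemma Ev.sub {a b : ℂ} (ha : Ev a) (hb : Ev b) : Ev (a - b) := by
  rw [sub_eq_add_neg]; exact ha.add hb.neg

lemma Ev.mul_left {a b : ℂ} (ha : Ev a) (hb : b ∈ OL 2) : Ev (b * a) := by
  obtain ⟨c, hc, rfl⟩ := ha
  exact ⟨b * c, (OL 2).mul_mem hb hc, by ring⟩

lemma Ev.zero : Ev 0 := ⟨0, (OL 2).zero_mem, by ring⟩

lemma Ev.sum {ι : Type} (s : Finset ι) (f : ι → ℂ) (h : ∀ i ∈ s, Ev (f i)) : Ev (∑ i ∈ s, f i) := by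
  induction s using Finset.induction_on with
  | empty => simpa using Ev.zero
  | insert a s ha ih =>
    rw [Finset.sum_insert ha]
    exact (h a (Finset.mem_insert_self a s)).add (ih fun i hi => h i (Finset.mem_insert_of_mem hi))

lemma sym_sum {ι : Type} (s : Finset ι) (w : ι → ι → ℂ) (hsym : ∀ a b, w a b = w b a)
    (hw : ∀ a ∈ s, ∀ b ∈ s, w a b ∈ OL 2) : Ev (∑ a ∈ s, ∑ b ∈ s, w a b - ∑ a ∈ s, w a a) := by
  induction s using Finset.induction_on with
  | empty => simpa using Ev.zero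
  | insert c s hc ih =>
    have ih' := ih fun a ha b hb => hw a (Finset.mem_insert_of_mem ha) b (Finset.mem_insert_of_mem hb)
    have h1 : ∑ a ∈ insert c s, ∑ b ∈ insert c s, w a b - ∑ a ∈ insert c s, w a a
        = (∑ a ∈ s, ∑ b ∈ s, w a b - ∑ a ∈ s, w a a) + 2 * ∑ b ∈ s, w c b := by
      rw [Finset.sum_insert hc, Finset.sum_insert hc, Finset.sum_insert hc]
      have h2 : ∑ a ∈ s, ∑ b ∈ insert c s, w a b = ∑ a ∈ s, w c a + ∑ a ∈ s, ∑ b ∈ s, w a b := by
        rw [← Finset.sum_add_distrib]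
        refine Finset.sum_congr rfl fun a _ => ?_
        rw [Finset.sum_insert hc, hsym a c]
      rw [h2]
      ring
    rw [h1]
    refine ih'.add ⟨_, (OL 2).sum_mem fun b hb => hw c (Finset.mem_insert_self c s) b
      (Finset.mem_insert_of_mem hb), rfl⟩

lemma sq_sub_ev {a : ℂ} (k : ℤ) (q : ℕ) (hq : q ≠ 0) (ha : a = (k : ℂ) / q) (h : a ∈ OL 2) :
    Ev (a * a - a) := by
  obtain ⟨m, hm, hint⟩ := h
  have hq' : (q : ℤ) ≠ 0 := by exact_mod_cast hq
  have h1 : (m : ℂ) * a = ((m * k : ℤ) : ℂ) / ((q : ℤ) : ℂ) := by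
    rw [ha]; push_cast; ring
  rw [h1] at hint
  obtain ⟨c, hc⟩ := int_of_integral_rat hq' hint
  have hqc : ((q : ℤ) : ℂ) ≠ 0 := by exact_mod_cast hq'
  have h2 : (m : ℂ) * a = c := by
    rw [h1, hc]
    push_cast
    have : (q : ℂ) ≠ 0 := by exact_mod_cast hq
    field_simp
  have hm0 : (m : ℂ) ≠ 0 := by
    intro h0
    have : m = 0 := by exact_mod_cast h0
    rw [this] at hm
    exact hm (dvd_zero 2)
  have h3 : a = (c : ℂ) * (m : ℂ)⁻¹ := by field_simp; rw [← h2]; ring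
  have hodd : Odd (m : ℤ) := by
    have : ¬ Even m := fun h => hm (even_iff_two_dvd.mp h)
    exact_mod_cast Nat.not_even_iff_odd.mp this
  obtain ⟨d, hd⟩ : (2 : ℤ) ∣ c * (c - m) := by
    rcases Int.even_or_odd c with h4 | h4
    · exact (even_iff_two_dvd.mp h4).mul_right _
    · exact (even_iff_two_dvd.mp (h4.sub_odd hodd)).mul_left _
  have hd' : (c : ℂ) * ((c : ℂ) - m) = 2 * d := by exact_mod_cast congrArg (fun z : ℤ => (z : ℂ)) hd
  refine ⟨(d : ℂ) * ((m : ℂ)⁻¹ * (m : ℂ)⁻¹), (OL 2).mul_mem (intCast_mem _ d)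
    ((OL 2).mul_mem (OL_inv 2 hm) (OL_inv 2 hm)), ?_⟩
  rw [h3]
  have h5 : (c : ℂ) * (m : ℂ)⁻¹ * ((c : ℂ) * (m : ℂ)⁻¹) - (c : ℂ) * (m : ℂ)⁻¹
      = (c : ℂ) * ((c : ℂ) - m) * ((m : ℂ)⁻¹ * (m : ℂ)⁻¹) := by
    field_simp
  rw [h5, hd']
  ring

theorem parity (F : G → ℂ) (hF : IsClass F) (q : ℕ) (hq : q ≠ 0)
    (hint : ∀ chi : G → ℂ, IsIrrChar chi → ∃ k : ℤ, B chi F = k)
    (hOL : ∀ chi : G → ℂ, IsIrrChar chi → B chi F / q ∈ OL 2)
    (hsq : ∀ g : G, F (g ^ 2) = 0) :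
    Ev (((Nat.card G : ℂ)⁻¹ * ∑ g : G, F g * F g) / (q * q)) := by
  have hqc : (q : ℂ) ≠ 0 := by exact_mod_cast hq
  set a : (G → ℂ) → ℂ := fun chi => B F chi / q with ha
  set f : G → ℂ := fun g => F g / q with hf
  have hexp : ∀ g : G, f g = ∑ chi ∈ Irr G, a chi * chi g := by
    intro g
    have h1 := congrFun (expand F hF) g
    simp only [Finset.sum_apply, Pi.smul_apply, smul_eq_mul] at h1
    simp only [hf, ha]
    rw [h1, Finset.sum_div]
    refine Finset.sum_congr rfl fun chi _ => ?_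
    ring
  have haOL : ∀ chi ∈ Irr G, a chi ∈ OL 2 := by
    intro chi hchi
    simp only [ha]
    rw [B_comm]
    exact hOL chi (mem_Irr.mp hchi)
  set beta : (G → ℂ) → (G → ℂ) → ℂ := fun chi psi => (Nat.card G : ℂ)⁻¹ * ∑ g : G, chi g * psi g with hbeta
  have h1 : ((Nat.card G : ℂ)⁻¹ * ∑ g : G, F g * F g) / (q * q)
      = ∑ chi ∈ Irr G, ∑ psi ∈ Irr G, a chi * a psi * beta chi psi := by
    have h2 : ((Nat.card G : ℂ)⁻¹ * ∑ g : G, F g * F g) / (q * q) = (Nat.card G : ℂ)⁻¹ * ∑ g : G, f g * f g := by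
      simp only [hf]
      rw [mul_div_assoc, Finset.sum_div]
      congr 1
      refine Finset.sum_congr rfl fun g _ => ?_
      field_simp
    rw [h2]
    have h3 : ∀ g : G, f g * f g = ∑ chi ∈ Irr G, ∑ psi ∈ Irr G, a chi * a psi * (chi g * psi g) := by
      intro g
      rw [hexp g, Finset.sum_mul_sum]
      refine Finset.sum_congr rfl fun chi _ => Finset.sum_congr rfl fun psi _ => ?_
      ring
    simp only [h3]
    rw [Finset.sum_comm, Finset.mul_sum]
    refine Finset.sum_congr rfl fun chi _ => ?_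
    rw [Finset.sum_comm, Finset.mul_sum]
    refine Finset.sum_congr rfl fun psi _ => ?_
    simp only [hbeta]
    rw [← Finset.mul_sum]
    ring
  have h2 : ∑ chi ∈ Irr G, a chi * ((Nat.card G : ℂ)⁻¹ * ∑ g : G, chi (g ^ 2)) = 0 := by
    have h3 : (Nat.card G : ℂ)⁻¹ * ∑ g : G, f (g ^ 2) = 0 := by
      have : ∀ g : G, f (g ^ 2) = 0 := by
        intro g
        simp only [hf]
        rw [hsq g, zero_div]
      simp only [this]
      simp
    rw [← h3]
    simp only [hexp]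
    rw [Finset.sum_comm, Finset.mul_sum]
    refine Finset.sum_congr rfl fun chi _ => ?_
    rw [← Finset.mul_sum]
    ring
  have h4 := sym_sum (Irr G) (fun chi psi => a chi * a psi * beta chi psi) (by
    intro chi psi
    simp only [hbeta]
    have : ∀ g : G, chi g * psi g = psi g * chi g := fun g => mul_comm _ _
    simp only [this]
    ring) (by
    intro chi hchi psi hpsi
    obtain ⟨n, hn⟩ := beta_nat (mem_Irr.mp hchi) (mem_Irr.mp hpsi)
    simp only [hbeta]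
    rw [hn]
    exact (OL 2).mul_mem ((OL 2).mul_mem (haOL chi hchi) (haOL psi hpsi)) (OL_nat 2 n))
  have h5 : Ev (∑ chi ∈ Irr G, a chi * a chi * beta chi chi) := by
    have h6 : ∑ chi ∈ Irr G, a chi * a chi * beta chi chi
        = ∑ chi ∈ Irr G, (a chi * a chi * beta chi chi
          - a chi * ((Nat.card G : ℂ)⁻¹ * ∑ g : G, chi (g ^ 2))) := by
      rw [Finset.sum_sub_distrib, h2, sub_zero]
    rw [h6]
    refine Ev.sum _ _ fun chi hchi => ?_
    obtain ⟨n, hn⟩ := beta_nat (mem_Irr.mp hchi) (mem_Irr.mp hchi)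
    obtain ⟨k, hk⟩ := fs_parity (mem_Irr.mp hchi)
    obtain ⟨k', hk'⟩ := hint chi (mem_Irr.mp hchi)
    have h7 : a chi * a chi * beta chi chi
          - a chi * ((Nat.card G : ℂ)⁻¹ * ∑ g : G, chi (g ^ 2))
        = beta chi chi * (a chi * a chi - a chi) + a chi * (beta chi chi - ((Nat.card G : ℂ)⁻¹ * ∑ g : G, chi (g ^ 2))) := by
      ring
    rw [h7]
    have h8 : Ev (a chi * a chi - a chi) := by
      apply sq_sub_ev k' q hq
      · simp only [ha]
        rw [B_comm, hk']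
      · exact haOL chi hchi
    have h9 : Ev (beta chi chi - ((Nat.card G : ℂ)⁻¹ * ∑ g : G, chi (g ^ 2))) := by
      simp only [hbeta]
      rw [hk]
      exact ⟨k, intCast_mem _ k, rfl⟩
    refine (h8.mul_left ?_).add (h9.mul_left (haOL chi hchi))
    simp only [hbeta]
    rw [hn]
    exact OL_nat 2 n
  rw [h1]
  have h10 := h4.add h5
  have h11 : ∑ chi ∈ Irr G, ∑ psi ∈ Irr G, a chi * a psi * beta chi psi
      = (∑ chi ∈ Irr G, ∑ psi ∈ Irr G, a chi * a psi * beta chi psi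
        - ∑ chi ∈ Irr G, a chi * a chi * beta chi chi) + ∑ chi ∈ Irr G, a chi * a chi * beta chi chi := by
    ring
  rw [h11]
  exact h10

end Pool.Agent.Helper884.IC
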