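import Pool.Agent.Helper884.IC.Nec3

set_option linter.unusedSectionVars false
set_option linter.style.haveILetI false

open scoped BigOperators Classical MonoidAlgebra
open Representation

noncomputable section

namespace Pool.Agent.Helper884.IC

variable {G : Type} [Group G] [Fintype G]

/-- faithful linear character of a finite cyclic group -/
lemma exists_faithful {C : Type} [Group C] [Finite C] (hC : IsCyclic C) :
    ∃ l : C →* ℂˣ, Function.Injective l := by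
  obtain ⟨g, hg⟩ := hC.exists_ofOrder_eq_natCard
  have hN : Nat.card C ≠ 0 := Nat.card_pos.ne'
  have hz := Complex.isPrimitiveRoot_exp (Nat.card C) hN
  set z := (hz.isUnit hN).unit with hzdef
  have hzo : orderOf z = Nat.card C := (hz.isUnit_unit hN).eq_orderOf.symm
  have hgen : ∀ x : C, x ∈ Subgroup.zpowers g := by
    intro u
    have : Subgroup.zpowers g = ⊤ := by
      apply Subgroup.eq_top_of_card_eq
      rw [Nat.card_zpowers, hg]
    rw [this]; trivial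
  refine ⟨monoidHomOfForallMemZpowers hgen (g' := z) (by rw [hzo, hg]), ?_⟩
  rw [injective_iff_map_eq_one]
  intro a ha
  obtain ⟨k, hk⟩ := hgen a
  simp only at hk
  rw [← hk, map_zpow, monoidHomOfForallMemZpowers_apply_gen] at ha
  rw [← hk]
  have h1 : (orderOf z : ℤ) ∣ k := orderOf_dvd_iff_zpow_eq_one.mpr ha
  rw [hzo, ← hg] at h1
  exact orderOf_dvd_iff_zpow_eq_one.mp h1

/-- Fourier inversion for a finite cyclic group -/
lemma fourier {C : Type} [Group C] [Fintype C] (l : C →* ℂˣ)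
    (hl : Function.Injective l) (F : C → ℂ) (c : C) :
    F c = ∑ j ∈ Finset.range (Nat.card C),
      ((Nat.card C : ℂ)⁻¹ * ∑ d : C, (((l ^ j) d : ℂˣ) : ℂ) * F d⁻¹) * (((l ^ j) c : ℂˣ) : ℂ) := by
  have hN : (Nat.card C : ℂ) ≠ 0 := by exact_mod_cast Nat.card_pos.ne'
  have h1 : ∀ d : C, ∑ j ∈ Finset.range (Nat.card C), (((l (d * c)) : ℂˣ) : ℂ) ^ j
      = if d = c⁻¹ then (Nat.card C : ℂ) else 0 := by
    intro d
    by_cases h : d = c⁻¹
    · rw [if_pos h, h, inv_mul_cancel, map_one]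
      simp
    · rw [if_neg h]
      have h2 : ((l (d * c) : ℂˣ) : ℂ) ≠ 1 := by
        intro h3
        apply h
        have h4 : l (d * c) = 1 := Units.ext h3
        have h5 : d * c = 1 := hl (by rw [h4, map_one])
        exact eq_inv_of_mul_eq_one_left h5
      have h3 : ((l (d * c) : ℂˣ) : ℂ) ^ (Nat.card C) = 1 := by
        rw [← Units.val_pow_eq_pow_val, ← map_pow, pow_card_eq_one', map_one, Units.val_one]
      have h4 := geom_sum_mul (((l (d * c)) : ℂˣ) : ℂ) (Nat.card C)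
      rw [h3, sub_self] at h4
      rcases mul_eq_zero.mp h4 with h5 | h5
      · exact h5
      · exact absurd (sub_eq_zero.mp h5) h2
  have h2 : ∑ j ∈ Finset.range (Nat.card C),
      ((Nat.card C : ℂ)⁻¹ * ∑ d : C, (((l ^ j) d : ℂˣ) : ℂ) * F d⁻¹) * (((l ^ j) c : ℂˣ) : ℂ)
      = (Nat.card C : ℂ)⁻¹ * ∑ d : C, (∑ j ∈ Finset.range (Nat.card C),
        (((l (d * c)) : ℂˣ) : ℂ) ^ j) * F d⁻¹ := by
    simp only [Finset.mul_sum, Finset.sum_mul]
    rw [Finset.sum_comm]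
    refine Finset.sum_congr rfl fun d _ => Finset.sum_congr rfl fun j _ => ?_
    rw [map_mul, Units.val_mul, mul_pow, MonoidHom.pow_apply, MonoidHom.pow_apply,
      Units.val_pow_eq_pow_val, Units.val_pow_eq_pow_val]
    ring
  rw [h2]
  simp only [h1]
  rw [Finset.sum_eq_single c⁻¹]
  · rw [if_pos rfl, inv_inv]
    field_simp
  · intro b _ hb
    rw [if_neg hb, zero_mul]
  · intro h
    exact absurd (Finset.mem_univ _) h

/-- Fourier coefficients on all cyclic subgroups are `p`-integral -/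
def CI (p : ℕ) [Fact p.Prime] (F : G → ℂ) : Prop :=
  ∀ (C : Subgroup G) (lam : C →* ℂˣ), IsCyclic C →
    (Nat.card C : ℂ)⁻¹ * ∑ c : C, ((lam c : ℂˣ) : ℂ) * F ((c : G)⁻¹) ∈ OL p

lemma CI_of_B (p : ℕ) [Fact p.Prime] (f : G → ℂ) (hf : IsClass f)
    (h : ∀ (C : Subgroup G) (lam : C →* ℂˣ), IsCyclic C → B (indChar C lam) f ∈ OL p) : CI p f := by
  intro C lam hC
  have h1 := h C lam hC
  rw [frob _ _ _ hf, sum_lamExt C lam (fun g => f g⁻¹)] at h1
  exact h1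

lemma mult_nat' (C : Subgroup G) (lam : C →* ℂˣ) {chi : G → ℂ} (h : IsIrrChar chi) :
    ∃ n : ℕ, (Nat.card C : ℂ)⁻¹ * ∑ c : C, ((lam c : ℂˣ) : ℂ) * chi ((c : G)⁻¹) = n := by
  obtain ⟨n, hn⟩ := mult_nat C lam h
  rw [frob _ _ _ h.isClass, sum_lamExt C lam (fun g => chi g⁻¹)] at hn
  exact ⟨n, hn⟩

lemma CI_mul (p : ℕ) [Fact p.Prime] (f : G → ℂ) (hf : CI p f) {chi : G → ℂ} (hchi : IsIrrChar chi) :
    CI p (fun g => f g * chi g⁻¹) := by
  intro C lam hC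
  obtain ⟨l, hl⟩ := exists_faithful hC
  have h1 : ∀ c : C, chi (c : G) = ∑ j ∈ Finset.range (Nat.card C),
      ((Nat.card C : ℂ)⁻¹ * ∑ d : C, (((l ^ j) d : ℂˣ) : ℂ) * chi ((d : G)⁻¹)) *
        (((l ^ j) c : ℂˣ) : ℂ) := by
    intro c
    exact fourier l hl (fun c : C => chi c) c
  have h2 : (Nat.card C : ℂ)⁻¹ * ∑ c : C, ((lam c : ℂˣ) : ℂ) * (f ((c : G)⁻¹) * chi ((c : G)⁻¹)⁻¹)
      = ∑ j ∈ Finset.range (Nat.card C),
      ((Nat.card C : ℂ)⁻¹ * ∑ d : C, (((l ^ j) d : ℂˣ) : ℂ) * chi ((d : G)⁻¹)) *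
        ((Nat.card C : ℂ)⁻¹ * ∑ c : C, (((lam * l ^ j) c : ℂˣ) : ℂ) * f ((c : G)⁻¹)) := by
    have h3 : ∀ c : C, ((lam c : ℂˣ) : ℂ) * (f ((c : G)⁻¹) * chi ((c : G)⁻¹)⁻¹)
        = ∑ j ∈ Finset.range (Nat.card C),
      ((Nat.card C : ℂ)⁻¹ * ∑ d : C, (((l ^ j) d : ℂˣ) : ℂ) * chi ((d : G)⁻¹)) *
        ((((lam * l ^ j) c : ℂˣ) : ℂ) * f ((c : G)⁻¹)) := by
      intro c
      rw [inv_inv, h1 c, Finset.mul_sum, Finset.mul_sum]
      refine Finset.sum_congr rfl fun j _ => ?_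
      rw [MonoidHom.mul_apply, Units.val_mul]
      ring
    simp only [h3]
    rw [Finset.sum_comm, Finset.mul_sum]
    refine Finset.sum_congr rfl fun j _ => ?_
    rw [← Finset.mul_sum]
    ring
  rw [h2]
  refine (OL p).sum_mem fun j _ => (OL p).mul_mem ?_ (hf C _ hC)
  obtain ⟨n, hn⟩ := mult_nat' C (l ^ j) hchi
  rw [hn]
  exact OL_nat p n

/-- averages over subgroups of cyclic subgroups are `p`-integral -/
lemma CI_avg (p : ℕ) [Fact p.Prime] (F : G → ℂ) (hF : CI p F) (C : Subgroup G) (hC : IsCyclic C)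
    (s : G) (hs : s ∈ C) (Q : Subgroup G) (hQ : Q ≤ C) :
    (Nat.card Q : ℂ)⁻¹ * ∑ u : Q, F (s * u) ∈ OL p := by
  obtain ⟨l, hl⟩ := exists_faithful hC
  have h1 : ∀ c : C, F (c : G) = ∑ j ∈ Finset.range (Nat.card C),
      ((Nat.card C : ℂ)⁻¹ * ∑ d : C, (((l ^ j) d : ℂˣ) : ℂ) * F ((d : G)⁻¹)) *
        (((l ^ j) c : ℂˣ) : ℂ) := by
    intro c
    exact fourier l hl (fun c : C => F c) c
  have h2 : ∀ u : Q, F (s * u) = ∑ j ∈ Finset.range (Nat.card C),
      ((Nat.card C : ℂ)⁻¹ * ∑ d : C, (((l ^ j) d : ℂˣ) : ℂ) * F ((d : G)⁻¹)) *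
        (((l ^ j) ⟨s, hs⟩ : ℂˣ) : ℂ) * ((((l ^ j).comp (Subgroup.inclusion hQ)) u : ℂˣ) : ℂ) := by
    intro u
    have h3 := h1 (⟨s, hs⟩ * ⟨u, hQ u.2⟩)
    rw [Subgroup.coe_mul] at h3
    rw [h3]
    refine Finset.sum_congr rfl fun j _ => ?_
    rw [map_mul, Units.val_mul]
    have : ((l ^ j).comp (Subgroup.inclusion hQ)) u = (l ^ j) ⟨u, hQ u.2⟩ := rfl
    rw [this]
    ring
  simp only [h2]
  rw [Finset.sum_comm, Finset.mul_sum]
  refine (OL p).sum_mem fun j _ => ?_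
  rw [← Finset.mul_sum]
  have h3 : (Nat.card Q : ℂ)⁻¹ * ∑ u : Q, ((((l ^ j).comp (Subgroup.inclusion hQ)) u : ℂˣ) : ℂ) ∈ OL p := by
    have h4 := sum_hom_units (R := ℂ) ((Units.coeHom ℂ).comp ((l ^ j).comp (Subgroup.inclusion hQ)))
    have h5 : ∑ u : Q, ((((l ^ j).comp (Subgroup.inclusion hQ)) u : ℂˣ) : ℂ)
        = ∑ u : Q, ((Units.coeHom ℂ).comp ((l ^ j).comp (Subgroup.inclusion hQ))) u := rfl
    rw [h5, h4]
    split_ifs
    · rw [← Nat.card_eq_fintype_card, inv_mul_cancel₀ (cardC_ne Q)]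
      exact (OL p).one_mem
    · simp
  have h6 : ∀ a b c d : ℂ, a * (b * c * d) = (b * c) * (a * d) := by intros; ring
  rw [h6]
  refine (OL p).mul_mem ((OL p).mul_mem (hF C _ hC) (OL_of_int p (lam_integral _ _))) h3

lemma CI_val (p : ℕ) [Fact p.Prime] (F : G → ℂ) (hF : CI p F) (s : G) : F s ∈ OL p := by
  have h := CI_avg p F hF (Subgroup.zpowers s) inferInstance s (Subgroup.mem_zpowers s) ⊥ bot_le
  rw [Finset.sum_eq_single (1 : (⊥ : Subgroup G))] at h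
  · simpa using h
  · intro b _ hb
    exact absurd (Subsingleton.elim b 1) hb
  · intro h
    exfalso
    apply h
    simp only [Finset.mem_univ]

end Pool.Agent.Helper884.IC
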