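import Pool.Agent.Helper884.IC.Suf1

set_option linter.unusedSectionVars false
set_option linter.style.haveILetI false

open scoped BigOperators Classical MonoidAlgebra
open Representation

noncomputable section

namespace Pool.Agent.Helper884.IC

variable {G : Type} [Group G] [Fintype G]

/-- `u` has `p`-power order -/
def IsPE (p : ℕ) {H : Type} [Group H] (u : H) : Prop := ∃ k : ℕ, orderOf u = p ^ k

lemma conj_sum (p : ℕ) [hp : Fact p.Prime] (h : G → ℂ) (hh : IsClass h)
    (hs : ∀ s : G, h s / Nat.card (Subgroup.centralizer ({s} : Set G)) ∈ OL p) :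
    (∑ s : G, h s) / Nat.card G ∈ OL p := by
  rw [← Finset.sum_fiberwise (s := Finset.univ) (g := fun s : G => ConjClasses.mk s), Finset.sum_div]
  refine (OL p).sum_mem fun c _ => ?_
  obtain ⟨s0, rfl⟩ := ConjClasses.mk_surjective c
  · have h1 := sum_conj_fiber h s0
    have h2 : ∀ y : G, h (y⁻¹ * s0 * y) = h s0 := by
      intro y
      have := hh s0 y⁻¹
      rwa [inv_inv] at this
    simp only [h2] at h1
    rw [Finset.sum_const, Finset.card_univ, ← Nat.card_eq_fintype_card, nsmul_eq_mul] at h1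
    have h3 : Finset.univ.filter (fun s : G => ConjClasses.mk s = ConjClasses.mk s0)
        = Finset.univ.filter (fun g : G => IsConj s0 g) := by
      ext g
      simp only [Finset.mem_filter, Finset.mem_univ, true_and]
      rw [ConjClasses.mk_eq_mk_iff_isConj]
      exact isConj_comm
    have h4 : (Nat.card (Subgroup.centralizer ({s0} : Set G)) : ℂ) ≠ 0 := cardC_ne _
    have h5 : (∑ g ∈ Finset.univ.filter (fun s : G => ConjClasses.mk s = ConjClasses.mk s0), h g) / Nat.card G
        = h s0 / Nat.card (Subgroup.centralizer ({s0} : Set G)) := by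
      rw [h3, div_eq_div_iff cardG_ne h4, mul_comm, ← h1]
      ring
    rw [h5]
    exact hs s0

lemma orbit_sum (p : ℕ) [hp : Fact p.Prime] {K X : Type} [Group K] [Fintype K] [Fintype X]
    [MulAction K X] (h : X → ℂ) (hinv : ∀ (k : K) (x : X), h (k • x) = h x)
    (hS : ∀ x : X, h x / Nat.card (MulAction.stabilizer K x) ∈ OL p) :
    (∑ x : X, h x) / Nat.card K ∈ OL p := by
  rw [← Finset.sum_fiberwise (s := Finset.univ)
    (g := fun x : X => (Quotient.mk (MulAction.orbitRel K X) x)), Finset.sum_div]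
  refine (OL p).sum_mem fun c _ => ?_
  induction c using Quotient.inductionOn with
  | h x0 =>
    have hmem : ∀ x : X, (Quotient.mk (MulAction.orbitRel K X) x = Quotient.mk (MulAction.orbitRel K X) x0)
        ↔ x ∈ MulAction.orbit K x0 := by
      intro x
      rw [Quotient.eq]
      exact MulAction.orbitRel_apply
    have h1 : ∑ x ∈ Finset.univ.filter (fun x : X => Quotient.mk (MulAction.orbitRel K X) x =
        Quotient.mk (MulAction.orbitRel K X) x0), h x
        = ((Finset.univ.filter (fun x : X => Quotient.mk (MulAction.orbitRel K X) x =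
        Quotient.mk (MulAction.orbitRel K X) x0)).card : ℂ) * h x0 := by
      rw [← nsmul_eq_mul, ← Finset.sum_const]
      refine Finset.sum_congr rfl fun x hx => ?_
      have h2 := (hmem x).mp (Finset.mem_filter.mp hx).2
      obtain ⟨k, rfl⟩ := h2
      exact hinv k x0
    have h2 : (Finset.univ.filter (fun x : X => Quotient.mk (MulAction.orbitRel K X) x =
        Quotient.mk (MulAction.orbitRel K X) x0)).card = Fintype.card (MulAction.orbit K x0) := by
      rw [Fintype.card_subtype]
      congr 1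
      ext x
      simp only [Finset.mem_filter, Finset.mem_univ, true_and]
      exact hmem x
    have h3 := MulAction.card_orbit_mul_card_stabilizer_eq_card_group K x0
    rw [h1, h2, Nat.card_eq_fintype_card, ← h3]
    have h4 := hS x0
    rw [Nat.card_eq_fintype_card] at h4
    have h5 : (Fintype.card (MulAction.stabilizer K x0) : ℂ) ≠ 0 := by
      exact_mod_cast Fintype.card_ne_zero
    have h6 : (Fintype.card (MulAction.orbit K x0) : ℂ) ≠ 0 := by
      haveI : Nonempty (MulAction.orbit K x0) := ⟨⟨x0, MulAction.mem_orbit_self x0⟩⟩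
      exact_mod_cast Fintype.card_ne_zero
    push_cast
    rw [mul_div_mul_left _ _ h6]
    exact h4

lemma fix_modEq (p : ℕ) [hp : Fact p.Prime] {H : Type} [Group H] [Fintype H] (P : Sylow p H)
    (u : H) (hu : IsPE p u) :
    Nat.card (H ⧸ (P : Subgroup H)) ≡ Nat.card (MulAction.fixedBy (H ⧸ (P : Subgroup H)) u) [MOD p] := by
  have h1 : IsPGroup p (Subgroup.zpowers u) := by
    rw [IsPGroup.iff_card]
    obtain ⟨k, hk⟩ := hu
    exact ⟨k, by rw [Nat.card_zpowers, hk]⟩
  have h2 := h1.card_modEq_card_fixedPoints (H ⧸ (P : Subgroup H))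
  have h3 : MulAction.fixedPoints (Subgroup.zpowers u) (H ⧸ (P : Subgroup H))
      = MulAction.fixedBy (H ⧸ (P : Subgroup H)) u := by
    ext q
    constructor
    · intro hq
      exact hq ⟨u, Subgroup.mem_zpowers u⟩
    · intro hq
      have h4 : u ∈ MulAction.stabilizer H q := hq
      have h5 : Subgroup.zpowers u ≤ MulAction.stabilizer H q := by
        rwa [Subgroup.zpowers_le]
      rintro ⟨z, hz⟩
      exact h5 hz
  rwa [h3] at h2

lemma IsPE.of_mem_pgroup {p : ℕ} {H : Type} [Group H] {S : Subgroup H} [hp : Fact p.Prime]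
    (hS : IsPGroup p S) {u : H} (hu : u ∈ S) : IsPE p u := by
  obtain ⟨k, hk⟩ := (IsPGroup.iff_orderOf.mp hS) ⟨u, hu⟩
  rw [Subgroup.orderOf_mk] at hk
  exact ⟨k, hk⟩

lemma sec_lemma (p : ℕ) [hp : Fact p.Prime] {H : Type} [Group H] [Fintype H] (phi : H → ℂ)
    (hcl : ∀ u h : H, phi (h * u * h⁻¹) = phi u) (hv : ∀ u, phi u ∈ OL p)
    (hS : ∀ S : Subgroup H, IsPGroup p S → (Nat.card S : ℂ)⁻¹ * ∑ u : S, phi u ∈ OL p) :
    (∑ u ∈ Finset.univ.filter (fun u : H => IsPE p u), phi u) / Nat.card H ∈ OL p := by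
  obtain ⟨P⟩ : Nonempty (Sylow p H) := inferInstance
  set M := (Nat.card H).factorization p with hM
  set N := (p ^ M).totient with hN
  have hNpos : 0 < N := Nat.totient_pos.mpr (pow_pos hp.out.pos M)
  set pi : H → ℕ := fun u => Nat.card (MulAction.fixedBy (H ⧸ (P : Subgroup H)) u) with hpi
  have hH0 : (Nat.card H : ℂ) ≠ 0 := by exact_mod_cast Nat.card_pos.ne'
  -- fixed points on tuples
  have hfix : ∀ u : H, (Finset.univ.filter (fun x : Fin N → H ⧸ (P : Subgroup H) => u • x = x)).card
      = pi u ^ N := by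
    intro u
    rw [← Fintype.card_subtype]
    have e1 : {x : Fin N → H ⧸ (P : Subgroup H) // u • x = x}
        ≃ (Fin N → {q : H ⧸ (P : Subgroup H) // u • q = q}) :=
      (Equiv.subtypeEquivRight (fun x => by
        constructor
        · intro h i
          exact congrFun h i
        · intro h
          funext i
          exact h i)).trans
        (Equiv.subtypePiEquivPi (p := fun (_ : Fin N) (q : H ⧸ (P : Subgroup H)) => u • q = q))
    rw [Fintype.card_congr e1, Fintype.card_fun, Fintype.card_fin]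
    congr 1
    show _ = Nat.card (MulAction.fixedBy (H ⧸ (P : Subgroup H)) u)
    rw [Nat.card_eq_fintype_card]
    exact Fintype.card_congr (Equiv.refl _)
  have hstabP : ∀ (x : Fin N → H ⧸ (P : Subgroup H)) (u : H), u • x = x → IsPE p u := by
    intro x u hx
    have h1 : u • x ⟨0, hNpos⟩ = x ⟨0, hNpos⟩ := congrFun hx _
    obtain ⟨g, hg⟩ := QuotientGroup.mk_surjective (x ⟨0, hNpos⟩)
    rw [← hg] at h1
    have h2 : (QuotientGroup.mk (u * g) : H ⧸ (P : Subgroup H)) = QuotientGroup.mk g := h1
    have h3 : g⁻¹ * (u * g) ∈ (P : Subgroup H) := QuotientGroup.eq.mp h2.symm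
    have h4 := IsPE.of_mem_pgroup P.2 h3
    obtain ⟨k, hk⟩ := h4
    refine ⟨k, ?_⟩
    rw [← hk]
    have h5 := (MulAut.conj g⁻¹).orderOf_eq u
    rw [MulAut.conj_apply, inv_inv, mul_assoc] at h5
    exact h5.symm
  set h : (Fin N → H ⧸ (P : Subgroup H)) → ℂ := fun x => ∑ u : H, if u • x = x then phi u else 0 with hh
  have horb : (∑ x, h x) / Nat.card H ∈ OL p := by
    apply orbit_sum p (K := H) h
    · intro k x
      simp only [hh]
      refine Fintype.sum_equiv (MulAut.conj k⁻¹).toEquiv _ _ fun u => ?_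
      have e1 : (MulAut.conj k⁻¹).toEquiv u = k⁻¹ * u * k := by simp
      rw [e1]
      have e2 : (u • k • x = k • x) ↔ ((k⁻¹ * u * k) • x = x) := by
        rw [mul_smul, mul_smul, inv_smul_eq_iff]
      have e3 : phi (k⁻¹ * u * k) = phi u := by
        have := hcl u k⁻¹
        rwa [inv_inv] at this
      simp only [e2, e3]
    · intro x
      obtain ⟨S, hSx⟩ : ∃ S : Subgroup H, S = MulAction.stabilizer H x := ⟨_, rfl⟩
      rw [← hSx]
      have hSm : ∀ u : H, u ∈ S ↔ u • x = x := by
        intro u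
        rw [hSx, MulAction.mem_stabilizer_iff]
      have h1 : h x = ∑ u : S, phi u := by
        have h0 : h x = ∑ u ∈ Finset.univ.filter (fun u : H => u • x = x), phi u := by
          rw [Finset.sum_filter]
        rw [h0]
        exact Finset.sum_subtype (p := fun u => u ∈ S) _ (by
          intro u
          rw [hSm]
          simp only [Finset.mem_filter, Finset.mem_univ, true_and]) phi
      rw [h1, div_eq_inv_mul]
      apply hS
      rw [IsPGroup.iff_orderOf]
      rintro ⟨u, hu⟩
      rw [Subgroup.orderOf_mk]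
      exact hstabP x u ((hSm u).mp hu)
  have hsum : ∑ x, h x = ∑ u ∈ Finset.univ.filter (fun u : H => IsPE p u), phi u * (pi u : ℂ) ^ N := by
    simp only [hh]
    rw [Finset.sum_comm, Finset.sum_filter]
    refine Finset.sum_congr rfl fun u _ => ?_
    have h1 : ∑ x : Fin N → H ⧸ (P : Subgroup H), (if u • x = x then phi u else 0)
        = phi u * (pi u : ℂ) ^ N := by
      rw [← Finset.sum_filter, Finset.sum_const, hfix, nsmul_eq_mul]
      push_cast
      ring
    rw [h1]
    split_ifs with hu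
    · rfl
    · have h2 : pi u ^ N = 0 := by
        rw [← hfix, Finset.card_eq_zero, Finset.filter_eq_empty_iff]
        intro x _ hx
        exact hu (hstabP x u hx)
      have h3 : (pi u : ℂ) ^ N = 0 := by exact_mod_cast h2
      rw [h3, mul_zero]
  have hdiff : ∑ u ∈ Finset.univ.filter (fun u : H => IsPE p u), phi u
      = ∑ x, h x - ∑ u ∈ Finset.univ.filter (fun u : H => IsPE p u), phi u * ((pi u : ℂ) ^ N - 1) := by
    rw [hsum, ← Finset.sum_sub_distrib]
    refine Finset.sum_congr rfl fun u _ => ?_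
    ring
  rw [hdiff, sub_div]
  refine (OL p).sub_mem horb ?_
  rw [Finset.sum_div]
  refine (OL p).sum_mem fun u hu => ?_
  have hu' := (Finset.mem_filter.mp hu).2
  have h1 := fix_modEq p P u hu'
  have h2 : ¬ p ∣ pi u := by
    intro h3
    apply P.not_dvd_index
    rw [Subgroup.index]
    exact (Nat.modEq_zero_iff_dvd.mp (h1.trans (Nat.modEq_zero_iff_dvd.mpr h3)))
  have h3 : (pi u).Coprime (p ^ M) :=
    (Nat.Coprime.pow_left M ((Nat.Prime.coprime_iff_not_dvd hp.out).mpr h2)).symm
  have h4 := Nat.ModEq.pow_totient h3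
  rw [← hN] at h4
  have h5 : (p ^ M : ℤ) ∣ ((pi u : ℤ) ^ N - 1) := by
    have h6 := (Nat.modEq_iff_dvd.mp h4.symm)
    exact_mod_cast h6
  obtain ⟨t, ht⟩ := h5
  have h7 : Nat.card H = p ^ M * ordCompl[p] (Nat.card H) := (Nat.ordProj_mul_ordCompl_eq_self _ p).symm
  have h8 : ¬ p ∣ ordCompl[p] (Nat.card H) := Nat.not_dvd_ordCompl hp.out Nat.card_pos.ne'
  have h9 : phi u * ((pi u : ℂ) ^ N - 1) / Nat.card H = phi u * ((t : ℂ) * ((ordCompl[p] (Nat.card H) : ℕ) : ℂ)⁻¹) := by
    have h10 : ((pi u : ℂ) ^ N - 1) = (p : ℂ) ^ M * t := by exact_mod_cast congrArg (fun z : ℤ => (z : ℂ)) ht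
    rw [h10]
    rw [h7]
    have hp0 : (p : ℂ) ^ M ≠ 0 := pow_ne_zero _ (by exact_mod_cast hp.out.ne_zero)
    rw [← h7]
    push_cast
    have h11 : (Nat.card H : ℂ) = (p : ℂ) ^ M * ((ordCompl[p] (Nat.card H) : ℕ) : ℂ) := by
      exact_mod_cast congrArg (fun z : ℕ => (z : ℂ)) h7
    have h12 : ((ordCompl[p] (Nat.card H) : ℕ) : ℂ) ≠ 0 := by
      exact_mod_cast (Nat.ordCompl_pos p Nat.card_pos.ne').ne'
    rw [h11]
    field_simp
  rw [h9]
  exact (OL p).mul_mem (hv u) ((OL p).mul_mem (intCast_mem _ t) (OL_inv p h8))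

end Pool.Agent.Helper884.IC
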