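import Pool.Agent.Helper884.IC.Suf2

set_option linter.unusedSectionVars false
set_option linter.style.haveILetI false

open scoped BigOperators Classical MonoidAlgebra
open Representation

noncomputable section

namespace Pool.Agent.Helper884.IC

variable {G : Type} [Group G] [Fintype G]

lemma coprime_parts (p : ℕ) [hp : Fact p.Prime] {s q : G} (hc : Commute s q)
    (hs : ¬ p ∣ orderOf s) (hq : IsPE p q) :
    s ∈ Subgroup.zpowers (s * q) ∧ q ∈ Subgroup.zpowers (s * q) := by
  obtain ⟨k, hk⟩ := hq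
  have hcop : (orderOf s).Coprime (orderOf q) := by
    rw [hk]
    exact (Nat.Coprime.pow_left k ((Nat.Prime.coprime_iff_not_dvd hp.out).mpr hs)).symm
  constructor
  · obtain ⟨N, h1, h2⟩ := Nat.chineseRemainder hcop.symm 0 1
    have h3 : (s * q) ^ N = s := by
      rw [hc.mul_pow]
      have h4 : q ^ N = 1 := by
        rw [← orderOf_dvd_iff_pow_eq_one]
        exact (Nat.modEq_zero_iff_dvd.mp h1)
      have h5 : s ^ N = s ^ 1 := pow_eq_pow_iff_modEq.mpr h2
      rw [h4, h5, pow_one, mul_one]
    have h6 := Subgroup.pow_mem _ (Subgroup.mem_zpowers (s * q)) N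
    rwa [h3] at h6
  · obtain ⟨N, h1, h2⟩ := Nat.chineseRemainder hcop.symm 1 0
    have h3 : (s * q) ^ N = q := by
      rw [hc.mul_pow]
      have h4 : s ^ N = 1 := by
        rw [← orderOf_dvd_iff_pow_eq_one]
        exact (Nat.modEq_zero_iff_dvd.mp h2)
      have h5 : q ^ N = q ^ 1 := pow_eq_pow_iff_modEq.mpr h1
      rw [h4, h5, pow_one, one_mul]
    have h6 := Subgroup.pow_mem _ (Subgroup.mem_zpowers (s * q)) N
    rwa [h3] at h6

lemma sec_s (p : ℕ) [hp : Fact p.Prime] (F : G → ℂ) (hF : CI p F) (hcl : IsClass F) (s : G)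
    (hs : ¬ p ∣ orderOf s)
    (hcyc : ∀ Q : Sylow p (Subgroup.centralizer ({s} : Set G)), IsCyclic Q) :
    (∑ u ∈ Finset.univ.filter (fun u : Subgroup.centralizer ({s} : Set G) => IsPE p u),
      F (s * u)) / Nat.card (Subgroup.centralizer ({s} : Set G)) ∈ OL p := by
  apply sec_lemma p (H := Subgroup.centralizer ({s} : Set G)) (fun u => F (s * u))
  · intro u h
    have h1 := Subgroup.mem_centralizer_singleton_iff.mp h.2
    have h2 : s * ((h * u * h⁻¹ : Subgroup.centralizer ({s} : Set G)) : G) = (h : G) * (s * u) * (h : G)⁻¹ := by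
      simp only [Subgroup.coe_mul, Subgroup.coe_inv]
      calc s * ((h : G) * u * (h : G)⁻¹) = (s * h) * u * (h : G)⁻¹ := by group
        _ = (h : G) * (s * u) * (h : G)⁻¹ := by rw [← h1]; group
    rw [h2]
    exact hcl _ _
  · intro u
    exact CI_val p F hF _
  · intro S hS
    obtain ⟨Q, hQ⟩ := hS.exists_le_sylow
    have hSc : IsCyclic S := by
      haveI := hcyc Q
      exact isCyclic_of_injective (Subgroup.inclusion hQ) (Subgroup.inclusion_injective hQ)
    obtain ⟨q, hq⟩ := hSc.exists_ofOrder_eq_natCard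
    have hqgen : ∀ u : S, u ∈ Subgroup.zpowers q := by
      intro u
      have : Subgroup.zpowers q = ⊤ := by
        apply Subgroup.eq_top_of_card_eq
        rw [Nat.card_zpowers, hq]
      rw [this]; trivial
    have hqc : Commute s ((q : Subgroup.centralizer ({s} : Set G)) : G) := by
      have := Subgroup.mem_centralizer_singleton_iff.mp (q : Subgroup.centralizer ({s} : Set G)).2
      exact this.symm
    have hqpe : IsPE p ((q : Subgroup.centralizer ({s} : Set G)) : G) := by
      obtain ⟨k, hk⟩ := (IsPGroup.iff_orderOf.mp hS) q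
      refine ⟨k, ?_⟩
      rw [Subgroup.orderOf_coe, Subgroup.orderOf_coe, hk]
    obtain ⟨hsC, hqC⟩ := coprime_parts p hqc hs hqpe
    set C := Subgroup.zpowers (s * ((q : Subgroup.centralizer ({s} : Set G)) : G)) with hC
    let Q' : Subgroup G := S.map (Subgroup.centralizer ({s} : Set G)).subtype
    have hQ' : Q' ≤ C := by
      rintro z ⟨z', hz', rfl⟩
      obtain ⟨k, hk⟩ := hqgen ⟨z', hz'⟩
      have h1 : ((q : Subgroup.centralizer ({s} : Set G)) : G) ^ k = (z' : G) := by
        have h2 := congrArg (fun w : S => ((w : Subgroup.centralizer ({s} : Set G)) : G)) hk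
        simpa using h2
      rw [Subgroup.coe_subtype, ← h1]
      exact Subgroup.zpow_mem _ hqC k
    have h1 := CI_avg p F hF C inferInstance s hsC Q' hQ'
    have e := (S.equivMapOfInjective (Subgroup.centralizer ({s} : Set G)).subtype
      (Subgroup.subtype_injective _)).toEquiv
    have h2 : Nat.card S = Nat.card Q' := Nat.card_congr e
    have h3 : ∑ u : S, F (s * ((u : Subgroup.centralizer ({s} : Set G)) : G)) = ∑ u : Q', F (s * u) := by
      refine Fintype.sum_equiv (S.equivMapOfInjective (Subgroup.centralizer ({s} : Set G)).subtype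
        (Subgroup.subtype_injective _)).toEquiv _ _ fun u => ?_
      rfl
    rw [h2, h3]
    exact h1

/-- Exponents extracting the `p`-part and the `p'`-part. -/
lemma exists_exps (p : ℕ) [hp : Fact p.Prime] (G : Type) [Group G] [Fintype G] :
    ∃ e e' : ℕ, (∀ g : G, ¬ p ∣ orderOf g → g ^ e = g) ∧ (∀ g : G, IsPE p g → g ^ e = 1) ∧
      (∀ g : G, ¬ p ∣ orderOf (g ^ e)) ∧ (∀ g : G, IsPE p (g ^ e')) ∧
      (∀ g : G, g ^ e * g ^ e' = g) := by
  set n := (Nat.card G).factorization p with hn
  set m := ordCompl[p] (Nat.card G) with hm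
  have hG0 : Nat.card G ≠ 0 := Nat.card_pos.ne'
  have h7 : p ^ n * m = Nat.card G := Nat.ordProj_mul_ordCompl_eq_self _ p
  have h8 : ¬ p ∣ m := Nat.not_dvd_ordCompl hp.out hG0
  have hcop : m.Coprime (p ^ n) :=
    (Nat.Coprime.pow_left n ((Nat.Prime.coprime_iff_not_dvd hp.out).mpr h8)).symm
  obtain ⟨e, he1, he2⟩ := Nat.chineseRemainder hcop 1 0
  obtain ⟨e', he1', he2'⟩ := Nat.chineseRemainder hcop 0 1
  -- e ≡ 1 mod m, e ≡ 0 mod p^n
  have hsum : e + e' ≡ 1 [MOD m * p ^ n] := by
    rw [← Nat.modEq_and_modEq_iff_modEq_mul hcop]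
    exact ⟨by simpa using he1.add he1', by simpa using he2.add he2'⟩
  have hord : ∀ g : G, orderOf g ∣ m * p ^ n := by
    intro g
    rw [mul_comm, h7]
    exact orderOf_dvd_natCard g
  refine ⟨e, e', ?_, ?_, ?_, ?_, ?_⟩
  · intro g hg
    have h1 : orderOf g ∣ m := by
      have h2 : (orderOf g).Coprime (p ^ n) :=
        (Nat.Coprime.pow_left n ((Nat.Prime.coprime_iff_not_dvd hp.out).mpr hg)).symm
      exact h2.dvd_of_dvd_mul_right (hord g)
    have h3 : g ^ e = g ^ 1 := pow_eq_pow_iff_modEq.mpr (he1.of_dvd h1)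
    rw [h3, pow_one]
  · rintro g ⟨k, hk⟩
    rw [← orderOf_dvd_iff_pow_eq_one, hk]
    have h1 : p ^ k ∣ m * p ^ n := hk ▸ hord g
    have h2 : (p ^ k).Coprime m := (Nat.Coprime.pow_left k ((Nat.Prime.coprime_iff_not_dvd hp.out).mpr h8))
    exact (h2.dvd_of_dvd_mul_left h1).trans (Nat.modEq_zero_iff_dvd.mp he2)
  · intro g hpg
    apply h8
    refine hpg.trans ?_
    rw [orderOf_dvd_iff_pow_eq_one, ← pow_mul, ← orderOf_dvd_iff_pow_eq_one]
    refine (hord g).trans ?_
    rw [mul_comm m]
    exact Nat.mul_dvd_mul (Nat.modEq_zero_iff_dvd.mp he2) dvd_rfl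
  · intro g
    have h1 : orderOf (g ^ e') ∣ p ^ n := by
      rw [orderOf_dvd_iff_pow_eq_one, ← pow_mul, ← orderOf_dvd_iff_pow_eq_one]
      refine (hord g).trans ?_
      exact Nat.mul_dvd_mul (Nat.modEq_zero_iff_dvd.mp he1') dvd_rfl
    obtain ⟨k, _, hk⟩ := (Nat.dvd_prime_pow hp.out).mp h1
    exact ⟨k, hk⟩
  · intro g
    rw [← pow_add]
    have h3 : g ^ (e + e') = g ^ 1 := pow_eq_pow_iff_modEq.mpr (hsum.of_dvd (hord g))
    rw [h3, pow_one]

theorem main_red (p : ℕ) [hp : Fact p.Prime] (F : G → ℂ) (hF : CI p F) (hcl : IsClass F)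
    (ha : ∀ s : G, s ≠ 1 → ¬ p ∣ orderOf s →
      ∀ Q : Sylow p (Subgroup.centralizer ({s} : Set G)), IsCyclic Q) :
    (∑ g : G, F g) / Nat.card G - (∑ u ∈ Finset.univ.filter (fun u : G => IsPE p u), F u) / Nat.card G
      ∈ OL p := by
  obtain ⟨e, e', h1, h2, h3, h4, h5⟩ := exists_exps p G
  set J : G → ℂ := fun s => ∑ g ∈ Finset.univ.filter (fun g : G => g ^ e = s), F g with hJ
  have hJcl : IsClass J := by
    intro s y
    simp only [hJ]
    rw [Finset.sum_filter, Finset.sum_filter]
    refine Fintype.sum_equiv (MulAut.conj y⁻¹).toEquiv _ _ fun g => ?_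
    have e1 : (MulAut.conj y⁻¹).toEquiv g = y⁻¹ * g * y := by simp
    rw [e1]
    have e2 : (g ^ e = y * s * y⁻¹) ↔ ((y⁻¹ * g * y) ^ e = s) := by
      have e3 : (y⁻¹ * g * y) ^ e = y⁻¹ * g ^ e * y := by
        have := conj_pow (i := e) (a := y⁻¹) (b := g)
        rwa [inv_inv] at this
      rw [e3]
      constructor
      · intro h; rw [h]; group
      · intro h; rw [← h]; group
    have e4 : F (y⁻¹ * g * y) = F g := by
      have := hcl g y⁻¹
      rwa [inv_inv] at this
    simp only [e2, e4]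
  have hJ0 : ∀ s : G, p ∣ orderOf s → J s = 0 := by
    intro s hs
    simp only [hJ]
    apply Finset.sum_eq_zero
    intro g hg
    exfalso
    have := (Finset.mem_filter.mp hg).2
    exact h3 g (by rw [this]; exact hs)
  have hJs : ∀ s : G, ¬ p ∣ orderOf s → J s =
      ∑ u ∈ Finset.univ.filter (fun u : Subgroup.centralizer ({s} : Set G) => IsPE p u), F (s * u) := by
    intro s hs
    simp only [hJ]
    symm
    refine Finset.sum_bij (fun u _ => s * (u : G)) ?_ ?_ ?_ ?_
    · intro u hu
      simp only [Finset.mem_filter, Finset.mem_univ, true_and] at hu ⊢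
      have hc : Commute s (u : G) := (Subgroup.mem_centralizer_singleton_iff.mp u.2).symm
      have hupe : IsPE p (u : G) := by
        obtain ⟨k, hk⟩ := hu
        exact ⟨k, by rw [Subgroup.orderOf_coe, hk]⟩
      rw [hc.mul_pow, h1 s hs, h2 _ hupe, mul_one]
    · intro a _ b _ hab
      exact Subtype.ext (mul_left_cancel hab)
    · intro g hg
      have hg' := (Finset.mem_filter.mp hg).2
      refine ⟨⟨g ^ e', ?_⟩, ?_, ?_⟩
      · rw [Subgroup.mem_centralizer_singleton_iff, ← hg', ← pow_add, ← pow_add, add_comm]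
      · simp only [Finset.mem_filter, Finset.mem_univ, true_and]
        obtain ⟨k, hk⟩ := h4 g
        exact ⟨k, by rw [Subgroup.orderOf_mk, hk]⟩
      · show s * g ^ e' = g
        rw [← hg', h5]
    · intro u _
      rfl
  have hJ1 : J 1 = ∑ u ∈ Finset.univ.filter (fun u : G => IsPE p u), F u := by
    simp only [hJ]
    refine Finset.sum_congr ?_ fun _ _ => rfl
    ext g
    simp only [Finset.mem_filter, Finset.mem_univ, true_and]
    constructor
    · intro h
      have h6 := h5 g
      rw [h, one_mul] at h6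
      rw [← h6]
      exact h4 g
    · exact h2 g
  have hsum : ∑ g : G, F g = ∑ s : G, J s := by
    simp only [hJ]
    exact (Finset.sum_fiberwise (s := Finset.univ) (g := fun g : G => g ^ e) F).symm
  set h : G → ℂ := fun s => if s = 1 then 0 else J s with hh
  have hhc : IsClass h := by
    intro s y
    simp only [hh]
    have e1 : (y * s * y⁻¹ = 1) ↔ (s = 1) := by
      constructor
      · intro h
        have : s = y⁻¹ * (y * s * y⁻¹) * y := by group
        rw [this, h]; group
      · intro h; rw [h]; group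
    simp only [e1, hJcl s y]
  have hkey := conj_sum p h hhc (by
    intro s
    simp only [hh]
    split_ifs with hs1
    · simp
    · by_cases hs : p ∣ orderOf s
      · rw [hJ0 s hs]; simp
      · rw [hJs s hs]
        exact sec_s p F hF hcl s hs (ha s hs1 hs))
  have hfin : (∑ g : G, F g) / Nat.card G - (∑ u ∈ Finset.univ.filter (fun u : G => IsPE p u), F u) / Nat.card G
      = (∑ s : G, h s) / Nat.card G := by
    rw [← sub_div, hsum, ← hJ1]
    congr 1
    rw [← Finset.add_sum_erase _ _ (Finset.mem_univ (1 : G)),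
      ← Finset.add_sum_erase (a := (1 : G)) _ h (Finset.mem_univ (1 : G))]
    simp only [hh, if_pos, zero_add, add_sub_cancel_left]
    refine Finset.sum_congr rfl fun s hs => ?_
    rw [if_neg (Finset.ne_of_mem_erase hs)]
  rw [hfin]
  exact hkey

end Pool.Agent.Helper884.IC
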