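import Pool.Agent.Helper884.IC.Suf3

set_option linter.unusedSectionVars false
set_option linter.style.haveILetI false

open scoped BigOperators Classical MonoidAlgebra
open Representation

noncomputable section

namespace Pool.Agent.Helper884.IC

variable {G : Type} [Group G] [Fintype G]

/-- nontrivial iterated `p`-th powers of `u` -/
def chain (p : ℕ) (u : G) : Finset G := Finset.univ.filter (fun w : G => w ≠ 1 ∧ ∃ j : ℕ, w = u ^ (p ^ j))

lemma mem_chain {p : ℕ} {u w : G} : w ∈ chain p u ↔ w ≠ 1 ∧ ∃ j : ℕ, w = u ^ (p ^ j) := by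
  simp [chain]

lemma not_mem_pow (p : ℕ) [hp : Fact p.Prime] {w u : G} (hw : w ≠ 1) (hwp : IsPE p w) {j : ℕ}
    (hj : 1 ≤ j) (h : w = w ^ (p ^ j)) : False := by
  obtain ⟨k, hk⟩ := hwp
  have hk0 : k ≠ 0 := by
    rintro rfl
    rw [pow_zero] at hk
    exact hw (orderOf_eq_one_iff.mp hk)
  have h1 : w ^ 1 = w ^ (p ^ j) := by rw [pow_one]; exact h
  rw [pow_eq_pow_iff_modEq, hk] at h1
  have h2 : 1 ≡ p ^ j [MOD p] := h1.of_dvd (dvd_pow_self p hk0)
  have h3 : p ^ j ≡ 0 [MOD p] := Nat.modEq_zero_iff_dvd.mpr (dvd_pow_self p (by omega))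
  have h4 := Nat.modEq_zero_iff_dvd.mp (h2.trans h3)
  exact hp.out.one_lt.ne' (Nat.dvd_one.mp h4)

lemma IsPE.pow {p : ℕ} [hp : Fact p.Prime] {H : Type} [Group H] {u : H} (hu : IsPE p u) (k : ℕ) :
    IsPE p (u ^ k) := by
  obtain ⟨m, hm⟩ := hu
  have h1 : orderOf (u ^ k) ∣ p ^ m := by
    rw [← hm]
    exact orderOf_pow_dvd k
  obtain ⟨i, _, hi⟩ := (Nat.dvd_prime_pow hp.out).mp h1
  exact ⟨i, hi⟩

lemma tele (p : ℕ) [hp : Fact p.Prime] (g : G → ℂ) (k : ℕ) : ∀ u : G, orderOf u = p ^ k →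
    ∑ w ∈ chain p u, (g (w ^ p) - g w) = g 1 - g u := by
  induction k with
  | zero =>
    intro u hu
    rw [pow_zero] at hu
    have h1 := orderOf_eq_one_iff.mp hu
    subst h1
    have h2 : chain p (1 : G) = ∅ := by
      ext w
      rw [mem_chain]
      simp only [one_pow, Finset.notMem_empty, iff_false, not_and]
      rintro h ⟨_, h3⟩
      exact h h3
    rw [h2]
    simp
  | succ k ih =>
    intro u hu
    have hu1 : u ≠ 1 := by
      rintro rfl
      rw [orderOf_one] at hu
      exact (Nat.one_lt_pow (by omega) hp.out.one_lt).ne hu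
    have hup : orderOf (u ^ p) = p ^ k := by
      rw [orderOf_pow' u hp.out.ne_zero, hu, pow_succ, Nat.gcd_eq_right (Dvd.intro_left _ rfl),
        Nat.mul_div_cancel _ hp.out.pos]
    have h1 : chain p u = insert u (chain p (u ^ p)) := by
      ext w
      rw [Finset.mem_insert, mem_chain, mem_chain]
      constructor
      · rintro ⟨hw, j, hj⟩
        rcases Nat.eq_zero_or_pos j with h0 | h0
        · left
          rw [hj, h0, pow_zero, pow_one]
        · right
          refine ⟨hw, j - 1, ?_⟩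
          rw [← pow_mul, ← pow_succ', Nat.sub_add_cancel h0]
          exact hj
      · rintro (rfl | ⟨hw, j, hj⟩)
        · exact ⟨hu1, 0, by rw [pow_zero, pow_one]⟩
        · refine ⟨hw, j + 1, ?_⟩
          rw [hj, ← pow_mul, pow_succ']
    have h2 : u ∉ chain p (u ^ p) := by
      intro h
      obtain ⟨_, j, hj⟩ := mem_chain.mp h
      rw [← pow_mul, ← pow_succ'] at hj
      exact not_mem_pow p (u := u) hu1 ⟨k + 1, hu⟩ (by omega) hj
    rw [h1, Finset.sum_insert h2, ih _ hup]
    ring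

/-- number of `p`-elements above `w` -/
def rr (p : ℕ) (w : G) : ℕ := (Finset.univ.filter (fun u : G => IsPE p u ∧ w ∈ chain p u)).card

lemma tele_sum (p : ℕ) [hp : Fact p.Prime] (g : G → ℂ) :
    ∑ u ∈ Finset.univ.filter (fun u : G => IsPE p u), g u
      = g 1 * ∑ u ∈ Finset.univ.filter (fun u : G => IsPE p u), 1
        - ∑ w : G, (rr p w : ℂ) * (g (w ^ p) - g w) := by
  have h1 : ∑ u ∈ Finset.univ.filter (fun u : G => IsPE p u), (g 1 - g u)
      = ∑ w : G, (rr p w : ℂ) * (g (w ^ p) - g w) := by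
    have h2 : ∀ u ∈ Finset.univ.filter (fun u : G => IsPE p u),
        g 1 - g u = ∑ w : G, if w ∈ chain p u then (g (w ^ p) - g w) else 0 := by
      intro u hu
      obtain ⟨k, hk⟩ := (Finset.mem_filter.mp hu).2
      rw [← tele p g k u hk]
      rw [Finset.sum_ite_mem, Finset.univ_inter]
    rw [Finset.sum_congr rfl h2, Finset.sum_comm]
    refine Finset.sum_congr rfl fun w _ => ?_
    rw [← Finset.sum_filter, Finset.sum_const, nsmul_eq_mul, Finset.filter_filter]
    rfl
  rw [← h1, Finset.sum_sub_distrib, Finset.mul_sum]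
  simp

lemma rr_class (p : ℕ) [hp : Fact p.Prime] (w y : G) : rr p (y * w * y⁻¹) = rr p w := by
  unfold rr
  refine Finset.card_bij (fun u _ => y⁻¹ * u * y) ?_ ?_ ?_
  · intro u hu
    simp only [Finset.mem_filter, Finset.mem_univ, true_and] at hu ⊢
    obtain ⟨⟨k, hk⟩, hu2⟩ := hu
    obtain ⟨h1, j, hj⟩ := mem_chain.mp hu2
    constructor
    · refine ⟨k, ?_⟩
      have h5 := (MulAut.conj y⁻¹).orderOf_eq u
      rw [MulAut.conj_apply, inv_inv] at h5
      rw [h5, hk]
    · rw [mem_chain]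
      constructor
      · rintro rfl
        apply h1
        group
      · refine ⟨j, ?_⟩
        have h6 := conj_pow (i := p ^ j) (a := y⁻¹) (b := u)
        rw [inv_inv] at h6
        rw [h6, ← hj]
        group
  · intro a _ b _ hab
    simpa using hab
  · intro u hu
    simp only [Finset.mem_filter, Finset.mem_univ, true_and] at hu
    obtain ⟨⟨k, hk⟩, hu2⟩ := hu
    obtain ⟨h1, j, hj⟩ := mem_chain.mp hu2
    refine ⟨y * u * y⁻¹, ?_, by group⟩
    simp only [Finset.mem_filter, Finset.mem_univ, true_and]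
    constructor
    · refine ⟨k, ?_⟩
      have h5 := (MulAut.conj y).orderOf_eq u
      rw [MulAut.conj_apply] at h5
      rw [h5, hk]
    · rw [mem_chain]
      constructor
      · intro h
        apply h1
        have : w = y⁻¹ * (y * w * y⁻¹) * y := by group
        rw [this, h]
        group
      · refine ⟨j, ?_⟩
        rw [conj_pow, ← hj]

lemma rr_zero (p : ℕ) [hp : Fact p.Prime] (w : G) (h : w = 1 ∨ ¬ IsPE p w) : rr p w = 0 := by
  unfold rr
  rw [Finset.card_eq_zero, Finset.filter_eq_empty_iff]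
  rintro u - ⟨hu, hw⟩
  obtain ⟨h1, j, hj⟩ := mem_chain.mp hw
  rcases h with h | h
  · exact h1 h
  · apply h
    rw [hj]
    exact hu.pow _

lemma rr_not_dvd (p : ℕ) [hp : Fact p.Prime] (w : G) (hw1 : w ≠ 1) (hw : IsPE p w) :
    ¬ p ∣ rr p w := by
  obtain ⟨k, hk⟩ := hw
  have hk0 : k ≠ 0 := by
    rintro rfl
    rw [pow_zero] at hk
    exact hw1 (orderOf_eq_one_iff.mp hk)
  set z := w ^ (p ^ (k - 1)) with hz
  have hzo : orderOf z = p := by
    rw [hz, orderOf_pow' w (pow_ne_zero _ hp.out.ne_zero), hk]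
    have h1 : p ^ k = p ^ (k - 1) * p := by rw [← pow_succ, Nat.sub_add_cancel (Nat.pos_of_ne_zero hk0)]
    rw [h1, Nat.gcd_eq_right (Dvd.intro _ rfl), Nat.mul_div_cancel_left _ (pow_pos hp.out.pos _)]
  set X : Set G := {u | ∃ j : ℕ, w = u ^ (p ^ (j + 1))} with hX
  have hcl : X = (QuotientGroup.mk : G → G ⧸ Subgroup.zpowers z) ⁻¹'
      ((QuotientGroup.mk : G → G ⧸ Subgroup.zpowers z) '' X) := by
    apply Set.Subset.antisymm
    · exact Set.subset_preimage_image _ _
    · rintro y' ⟨y, ⟨j, hj⟩, hyy⟩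
      have h2 : y⁻¹ * y' ∈ Subgroup.zpowers z := QuotientGroup.eq.mp hyy
      obtain ⟨i, hi⟩ := nat_pow_of_mem h2
      have h3 : y' = y * z ^ i := by rw [← hi]; group
      refine ⟨j, ?_⟩
      have hcomm : Commute y (z ^ i) := by
        rw [hz, hj, ← pow_mul, ← pow_mul]
        exact (Commute.refl y).pow_right _
      rw [h3, hcomm.mul_pow, ← hj, ← pow_mul, pow_succ, mul_comm (p ^ j) p, ← mul_assoc, mul_comm i p,
        mul_assoc, pow_mul, ← hzo, pow_orderOf_eq_one, one_pow, mul_one]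
  have hcard : p ∣ Nat.card X := by
    rw [hcl, QuotientGroup.card_preimage_mk, Nat.card_zpowers, hzo]
    exact Dvd.intro _ rfl
  have hwX : w ∉ X := by
    rintro ⟨j, hj⟩
    exact not_mem_pow p (u := w) hw1 ⟨k, hk⟩ (by omega) hj
  have hset : Finset.univ.filter (fun u : G => IsPE p u ∧ w ∈ chain p u)
      = insert w (Finset.univ.filter (fun u : G => u ∈ X)) := by
    ext u
    simp only [Finset.mem_filter, Finset.mem_univ, true_and, Finset.mem_insert]
    constructor
    · rintro ⟨_, hu⟩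
      obtain ⟨_, j, hj⟩ := mem_chain.mp hu
      rcases Nat.eq_zero_or_pos j with h0 | h0
      · left
        rw [hj, h0, pow_zero, pow_one]
      · right
        refine ⟨j - 1, ?_⟩
        rw [Nat.sub_add_cancel h0]
        exact hj
    · rintro (rfl | ⟨j, hj⟩)
      · exact ⟨⟨k, hk⟩, mem_chain.mpr ⟨hw1, 0, by rw [pow_zero, pow_one]⟩⟩
      · refine ⟨?_, mem_chain.mpr ⟨hw1, j + 1, hj⟩⟩
        have h1 : orderOf u ∣ p ^ (j + 1) * p ^ k := by
          rw [orderOf_dvd_iff_pow_eq_one, pow_mul, ← hj, ← hk, pow_orderOf_eq_one]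
        rw [← pow_add] at h1
        obtain ⟨i, _, hi⟩ := (Nat.dvd_prime_pow hp.out).mp h1
        exact ⟨i, hi⟩
  intro hdvd
  unfold rr at hdvd
  rw [hset, Finset.card_insert_of_notMem (by simpa using hwX)] at hdvd
  have h5 : (Finset.univ.filter (fun u : G => u ∈ X)).card = Nat.card X := by
    rw [Nat.card_eq_fintype_card, Fintype.card_subtype]
  rw [h5] at hdvd
  exact hp.out.one_lt.ne' (Nat.dvd_one.mp ((Nat.dvd_add_right hcard).mp hdvd))

end Pool.Agent.Helper884.IC
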