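import Pool.Agent.Helper884.IC.Suf4
import Pool.Agent.Helper884.IC.Nec4

set_option linter.unusedSectionVars false
set_option linter.style.haveILetI false
set_option linter.unusedVariables false

open scoped BigOperators Classical MonoidAlgebra
open Representation

noncomputable section

namespace Pool.Agent.Helper884.IC

variable {G : Type} [Group G] [Fintype G]

lemma gen_coprime (p : ℕ) [hp : Fact p.Prime] {x : G} (hx : IsPE p x) {j : ℕ} (hj : ¬ p ∣ j) :
    ∃ t : ℕ, (x ^ j) ^ t = x := by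
  obtain ⟨n, hxn⟩ := hx
  apply exists_pow_eq_self_of_coprime
  rw [hxn]
  exact (Nat.Coprime.pow_left n ((Nat.Prime.coprime_iff_not_dvd hp.out).mpr hj)).symm

lemma split_p (p : ℕ) [hp : Fact p.Prime] {a : ℕ} (ha : a ≠ 0) : ∃ α a', a = p ^ α * a' ∧ ¬ p ∣ a' :=
  ⟨a.factorization p, ordCompl[p] a, (Nat.ordProj_mul_ordCompl_eq_self a p).symm,
    Nat.not_dvd_ordCompl hp.out ha⟩

lemma tot (p : ℕ) [hp : Fact p.Prime] {x e w : G} (hx : IsPE p x) (he : e ∈ Subgroup.zpowers x)
    (hw : w ∈ Subgroup.zpowers x) : e ∈ Subgroup.zpowers w ∨ ∃ j : ℕ, w = e ^ (p * j) := by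
  obtain ⟨a, rfl⟩ := nat_pow_of_mem he
  obtain ⟨b, rfl⟩ := nat_pow_of_mem hw
  by_cases hb : b = 0
  · right
    exact ⟨0, by simp [hb]⟩
  by_cases ha : a = 0
  · left
    rw [ha, pow_zero]
    exact Subgroup.one_mem _
  obtain ⟨α, a', haa, ha'⟩ := split_p p ha
  obtain ⟨β, b', hbb, hb'⟩ := split_p p hb
  rcases Nat.lt_or_ge α β with h | h
  · right
    obtain ⟨t, ht⟩ := gen_coprime p hx ha'
    refine ⟨t * p ^ (β - α - 1) * b', ?_⟩
    have h1 : x ^ (p ^ α) = (x ^ a) ^ t := by
      conv_lhs => rw [← ht]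
      rw [haa, ← pow_mul, ← pow_mul, ← pow_mul]
      congr 1
      ring
    have h2 : x ^ b = (x ^ (p ^ α)) ^ (p * (p ^ (β - α - 1)) * b') := by
      rw [← pow_mul, ← pow_succ']
      have h3 : β - α - 1 + 1 = β - α := by omega
      rw [h3, ← mul_assoc, ← pow_add, Nat.add_sub_cancel' h.le, ← hbb]
    rw [h2, h1, ← pow_mul]
    congr 1
    ring
  · left
    obtain ⟨t, ht⟩ := gen_coprime p hx hb'
    have h1 : x ^ (p ^ β) = (x ^ b) ^ t := by
      conv_lhs => rw [← ht]
      rw [hbb, ← pow_mul, ← pow_mul, ← pow_mul]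
      congr 1
      ring
    have h2 : x ^ a = ((x ^ b) ^ t) ^ (p ^ (α - β) * a') := by
      rw [← h1, ← pow_mul, ← mul_assoc, ← pow_add, Nat.add_sub_cancel' h, ← haa]
    rw [h2, ← pow_mul]
    exact Subgroup.pow_mem _ (Subgroup.mem_zpowers _) _

/-- rationality of `f` on `p`-elements -/
def RatOn (p : ℕ) (f : G → ℂ) : Prop := ∀ w : G, IsPE p w → ∀ k : ℕ, ¬ p ∣ k → f (w ^ k) = f w

lemma orderOf_pow_p (p : ℕ) [hp : Fact p.Prime] {w : G} (hw1 : w ≠ 1) (hw : IsPE p w) :
    orderOf w = p * orderOf (w ^ p) := by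
  obtain ⟨k, hk⟩ := hw
  have hk0 : k ≠ 0 := by
    rintro rfl
    rw [pow_zero] at hk
    exact hw1 (orderOf_eq_one_iff.mp hk)
  rw [orderOf_pow' w hp.out.ne_zero, hk]
  have h1 : p ^ k = p ^ (k - 1) * p := by rw [← pow_succ, Nat.sub_add_cancel (Nat.pos_of_ne_zero hk0)]
  rw [h1, Nat.gcd_eq_right (Dvd.intro_left _ rfl), Nat.mul_div_cancel _ hp.out.pos, mul_comm]

lemma sum_shift (phi : G → ℂ) (w : G) : ∑ e : G, phi (e * w) = ∑ e : G, phi e :=
  Fintype.sum_equiv (Equiv.mulRight w) _ _ fun _ => rfl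

lemma sum_ind (K : Subgroup G) : ∑ e : G, (if e ∈ K then (1 : ℂ) else 0) = Nat.card K := by
  rw [Finset.sum_boole, Nat.card_eq_fintype_card, Fintype.card_subtype]

lemma claim (p : ℕ) [hp : Fact p.Prime] (f : G → ℂ) (hf : CI p f) (hrat : RatOn p f) (x w : G)
    (hx : IsPE p x) (hw : w ∈ Subgroup.zpowers x) (hw1 : w ≠ 1) :
    ∃ n ∈ OL p, (Nat.card (Subgroup.zpowers x) : ℂ) * n =
      (∑ e : G, if e ∈ Subgroup.zpowers (w ^ p) then f e else 0)
        - (Nat.card (Subgroup.zpowers (w ^ p)) : ℂ) * f w := by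
  set E := Subgroup.zpowers x with hE
  set K' := Subgroup.zpowers w with hK'
  set K := Subgroup.zpowers (w ^ p) with hK
  have hwpe : IsPE p w := by
    obtain ⟨a, rfl⟩ := nat_pow_of_mem hw
    exact hx.pow a
  have hKK' : K ≤ K' := by
    rw [hK, Subgroup.zpowers_le]
    exact Subgroup.pow_mem _ (Subgroup.mem_zpowers w) p
  have hK'E : K' ≤ E := by
    rw [hK', Subgroup.zpowers_le]
    exact hw
  have hEcyc : IsCyclic E := inferInstance
  obtain ⟨l, hl⟩ := exists_faithful hEcyc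
  set q := orderOf (w ^ p) with hq
  set lam : E →* ℂˣ := l ^ q with hlam
  have hlamw : lam ⟨w, hw⟩ ≠ 1 := by
    intro h
    rw [hlam, MonoidHom.pow_apply, ← map_pow] at h
    have h1 : (⟨w, hw⟩ : E) ^ q = 1 := hl (by rw [h, map_one])
    have h2 : w ^ q = 1 := by
      have := congrArg Subtype.val h1
      simpa using this
    have h3 := orderOf_dvd_of_pow_eq_one h2
    rw [orderOf_pow_p p hw1 hwpe, ← hq] at h3
    have h4 := Nat.le_of_dvd (orderOf_pos _) h3
    have h5 := hp.out.two_le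
    have h6 : 0 < q := orderOf_pos _
    nlinarith
  have hlamK : ∀ e (he : e ∈ E), e ∈ K → lam ⟨e, he⟩ = 1 := by
    intro e he heK
    obtain ⟨k, hk⟩ := nat_pow_of_mem heK
    rw [hlam, MonoidHom.pow_apply, ← map_pow]
    have h1 : (⟨e, he⟩ : E) ^ q = 1 := by
      apply Subtype.ext
      show e ^ q = 1
      rw [hk, ← pow_mul, mul_comm, pow_mul, hq, pow_orderOf_eq_one, one_pow]
    rw [h1, map_one]
  set Lam : G → ℂ := lamExt E lam with hLam
  have hLw : Lam w ≠ 1 := by
    rw [hLam]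
    unfold lamExt
    rw [dif_pos hw]
    intro h
    exact hlamw (Units.ext h)
  have hLmul : ∀ e ∈ E, Lam (e * w) = Lam w * Lam e := by
    intro e he
    rw [hLam]
    unfold lamExt
    rw [dif_pos (E.mul_mem he hw), dif_pos he, dif_pos hw]
    have : (⟨e * w, E.mul_mem he hw⟩ : E) = ⟨e, he⟩ * ⟨w, hw⟩ := rfl
    rw [this, map_mul, Units.val_mul, mul_comm]
  have hLK : ∀ e ∈ K, Lam e = 1 := by
    intro e he
    rw [hLam]
    unfold lamExt
    have he' : e ∈ E := hK'E (hKK' he)
    rw [dif_pos he', hlamK e he' he, Units.val_one]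
  -- the coefficient
  refine ⟨(Nat.card E : ℂ)⁻¹ * ∑ c : E, (((lam⁻¹ : E →* ℂˣ) c : ℂˣ) : ℂ) * f ((c : G)⁻¹), hf E _ hEcyc, ?_⟩
  rw [← mul_assoc, mul_inv_cancel₀ (cardC_ne E), one_mul]
  have h0 : ∑ c : E, (((lam⁻¹ : E →* ℂˣ) c : ℂˣ) : ℂ) * f ((c : G)⁻¹) = ∑ e : G, Lam e * f e := by
    rw [hLam, sum_lamExt E lam f]
    refine Fintype.sum_equiv (Equiv.inv E) _ _ fun c => ?_
    simp
  rw [h0]
  have hsplit : ∀ e : G, Lam e * f e = (if e ∈ K then f e else 0)
      + f w * ((if e ∈ K' then Lam e else 0) - (if e ∈ K then 1 else 0))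
      + (if e ∈ E ∧ e ∉ K' then Lam e * f e else 0) := by
    intro e
    by_cases h1 : e ∈ K
    · have h2 : e ∈ K' := hKK' h1
      rw [if_pos h1, if_pos h2, if_pos h1, if_neg (fun h => h.2 h2), hLK e h1]
      ring
    · by_cases h2 : e ∈ K'
      · rw [if_neg h1, if_pos h2, if_neg h1, if_neg (fun h => h.2 h2)]
        obtain ⟨k, hk⟩ := nat_pow_of_mem h2
        have h3 : ¬ p ∣ k := by
          rintro ⟨t, rfl⟩
          apply h1
          rw [hk, pow_mul]
          exact Subgroup.pow_mem _ (Subgroup.mem_zpowers _) _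
        have h4 : f e = f w := by
          rw [hk]
          exact hrat w hwpe k h3
        rw [h4]
        ring
      · by_cases h3 : e ∈ E
        · rw [if_neg h1, if_neg h2, if_neg h1, if_pos ⟨h3, h2⟩]
          ring
        · rw [if_neg h1, if_neg h2, if_neg h1, if_neg (fun h => h3 h.1)]
          have : Lam e = 0 := by
            rw [hLam]
            unfold lamExt
            rw [dif_neg h3]
          rw [this]
          ring
  rw [Finset.sum_congr rfl (fun e _ => hsplit e), Finset.sum_add_distrib, Finset.sum_add_distrib,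
    ← Finset.mul_sum, Finset.sum_sub_distrib]
  rw [sum_ind K]
  have hS2 : ∑ e : G, (if e ∈ K' then Lam e else 0) = 0 := by
    have h1 : ∑ e : G, (if e ∈ K' then Lam e else 0) = Lam w * ∑ e : G, (if e ∈ K' then Lam e else 0) := by
      conv_lhs => rw [← sum_shift _ w]
      rw [Finset.mul_sum]
      refine Finset.sum_congr rfl fun e _ => ?_
      have h2 : (e * w ∈ K') ↔ e ∈ K' := Subgroup.mul_mem_cancel_right K' (Subgroup.mem_zpowers w)
      by_cases h3 : e ∈ K'
      · rw [if_pos (h2.mpr h3), if_pos h3, hLmul e (hK'E h3)]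
      · rw [if_neg (fun h => h3 (h2.mp h)), if_neg h3, mul_zero]
    have h2 : (1 - Lam w) * ∑ e : G, (if e ∈ K' then Lam e else 0) = 0 := by linear_combination h1
    rcases mul_eq_zero.mp h2 with h3 | h3
    · exact absurd (sub_eq_zero.mp h3).symm hLw
    · exact h3
  have hS3 : ∑ e : G, (if e ∈ E ∧ e ∉ K' then Lam e * f e else 0) = 0 := by
    have h1 : ∑ e : G, (if e ∈ E ∧ e ∉ K' then Lam e * f e else 0)
        = Lam w * ∑ e : G, (if e ∈ E ∧ e ∉ K' then Lam e * f e else 0) := by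
      conv_lhs => rw [← sum_shift _ w]
      rw [Finset.mul_sum]
      refine Finset.sum_congr rfl fun e _ => ?_
      have h2 : (e * w ∈ K') ↔ e ∈ K' := Subgroup.mul_mem_cancel_right K' (Subgroup.mem_zpowers w)
      have h2' : (e * w ∈ E) ↔ e ∈ E := Subgroup.mul_mem_cancel_right E hw
      by_cases h3 : e ∈ E ∧ e ∉ K'
      · rw [if_pos ⟨h2'.mpr h3.1, fun h => h3.2 (h2.mp h)⟩, if_pos h3, hLmul e h3.1]
        have h4 : f (e * w) = f e := by
          rcases tot p hx h3.1 hw with h5 | ⟨j, hj⟩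
          · exact absurd h5 h3.2
          · have h6 : e * w = e ^ (p * j + 1) := by rw [hj, pow_succ']
            rw [h6]
            have hepe : IsPE p e := by
              obtain ⟨a, rfl⟩ := nat_pow_of_mem h3.1
              exact hx.pow a
            apply hrat e hepe
            intro h7
            have h8 := (Nat.dvd_add_right (Dvd.intro j rfl)).mp h7
            exact hp.out.one_lt.ne' (Nat.dvd_one.mp h8)
        rw [h4]
        ring
      · rw [if_neg (fun h => h3 ⟨h2'.mp h.1, fun h' => h.2 (h2.mpr h')⟩), if_neg h3, mul_zero]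
    have h2 : (1 - Lam w) * ∑ e : G, (if e ∈ E ∧ e ∉ K' then Lam e * f e else 0) = 0 := by
      linear_combination h1
    rcases mul_eq_zero.mp h2 with h3 | h3
    · exact absurd (sub_eq_zero.mp h3).symm hLw
    · exact h3
  rw [hS2, hS3]
  ring

lemma sum_diff (p : ℕ) [hp : Fact p.Prime] (f : G → ℂ) (hrat : RatOn p f) (w : G)
    (hw : IsPE p w) :
    (∑ e : G, if e ∈ Subgroup.zpowers w then f e else 0)
      = (∑ e : G, if e ∈ Subgroup.zpowers (w ^ p) then f e else 0)
        + ((Nat.card (Subgroup.zpowers w) : ℂ) - Nat.card (Subgroup.zpowers (w ^ p))) * f w := by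
  set K' := Subgroup.zpowers w with hK'
  set K := Subgroup.zpowers (w ^ p) with hK
  have hKK' : K ≤ K' := by
    rw [hK, Subgroup.zpowers_le]
    exact Subgroup.pow_mem _ (Subgroup.mem_zpowers w) p
  have hsplit : ∀ e : G, (if e ∈ K' then f e else 0) = (if e ∈ K then f e else 0)
      + f w * ((if e ∈ K' then 1 else 0) - (if e ∈ K then 1 else 0)) := by
    intro e
    by_cases h1 : e ∈ K
    · have h2 : e ∈ K' := hKK' h1
      rw [if_pos h1, if_pos h2, if_pos h1, if_pos h2]
      ring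
    · by_cases h2 : e ∈ K'
      · rw [if_neg h1, if_pos h2, if_neg h1, if_pos h2]
        obtain ⟨k, hk⟩ := nat_pow_of_mem h2
        have h3 : ¬ p ∣ k := by
          rintro ⟨t, rfl⟩
          apply h1
          rw [hk, pow_mul]
          exact Subgroup.pow_mem _ (Subgroup.mem_zpowers _) _
        have h4 : f e = f w := by
          rw [hk]
          exact hrat w hw k h3
        rw [h4]
        ring
      · rw [if_neg h1, if_neg h2, if_neg h1, if_neg h2]
        ring
  rw [Finset.sum_congr rfl (fun e _ => hsplit e), Finset.sum_add_distrib,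
    ← Finset.mul_sum, Finset.sum_sub_distrib]
  rw [sum_ind K, sum_ind K']
  ring

lemma delta_bound (p : ℕ) [hp : Fact p.Prime] (f : G → ℂ) (hf : CI p f) (hrat : RatOn p f) (x : G)
    (hx : IsPE p x) (w : G) (hw : w ∈ Subgroup.zpowers x) (hw1 : w ≠ 1) :
    ∃ c ∈ OL p, (orderOf w : ℂ) * (f (w ^ p) - f w) = p * orderOf x * c := by
  have hwpe : IsPE p w := by
    obtain ⟨a, rfl⟩ := nat_pow_of_mem hw
    exact hx.pow a
  obtain ⟨n, hn, h1⟩ := claim p f hf hrat x w hx hw hw1
  have hord := orderOf_pow_p p hw1 hwpe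
  rw [Nat.card_zpowers, Nat.card_zpowers] at h1
  by_cases h2 : w ^ p = 1
  · refine ⟨n, hn, ?_⟩
    rw [hord]
    rw [h2] at h1 ⊢
    rw [orderOf_one] at h1 ⊢
    have h3 : ∑ e : G, (if e ∈ Subgroup.zpowers (1 : G) then f e else 0) = f 1 := by
      rw [Finset.sum_eq_single (1 : G)]
      · rw [if_pos (Subgroup.one_mem _)]
      · intro b _ hb
        rw [if_neg]
        rw [Subgroup.zpowers_one_eq_bot, Subgroup.mem_bot]
        exact hb
      · intro h
        exact absurd (Finset.mem_univ _) h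
    rw [h3] at h1
    push_cast at h1 ⊢
    linear_combination -(p : ℂ) * h1
  · have hw' : w ^ p ∈ Subgroup.zpowers x := Subgroup.pow_mem _ hw p
    obtain ⟨n', hn', h3⟩ := claim p f hf hrat x (w ^ p) hx hw' h2
    have h4 := sum_diff p f hrat (w ^ p) (hwpe.pow p)
    rw [Nat.card_zpowers, Nat.card_zpowers] at h3
    rw [Nat.card_zpowers, Nat.card_zpowers] at h4
    refine ⟨n - n', (OL p).sub_mem hn hn', ?_⟩
    rw [hord]
    push_cast
    linear_combination -(p : ℂ) * (h1 - h3) - (p : ℂ) * h4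

lemma val_bound (p : ℕ) [hp : Fact p.Prime] (f : G → ℂ) (hf : CI p f) (hrat : RatOn p f) (x : G)
    (hx : IsPE p x) (k : ℕ) : ∀ w : G, w ∈ Subgroup.zpowers x → orderOf w = p ^ k →
    ∃ c ∈ OL p, (orderOf w : ℂ) * (f 1 - f w) = p * orderOf x * c := by
  induction k with
  | zero =>
    intro w hw ho
    rw [pow_zero] at ho
    have h1 := orderOf_eq_one_iff.mp ho
    subst h1
    exact ⟨0, (OL p).zero_mem, by simp⟩
  | succ k ih =>
    intro w hw ho
    have hw1 : w ≠ 1 := by
      rintro rfl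
      rw [orderOf_one] at ho
      exact (Nat.one_lt_pow (by omega) hp.out.one_lt).ne ho
    have hord := orderOf_pow_p p hw1 ⟨k + 1, ho⟩
    have hup : orderOf (w ^ p) = p ^ k := by
      rw [ho, pow_succ'] at hord
      exact (Nat.eq_of_mul_eq_mul_left hp.out.pos hord).symm
    obtain ⟨c, hc, h1⟩ := ih (w ^ p) (Subgroup.pow_mem _ hw p) hup
    obtain ⟨c', hc', h2⟩ := delta_bound p f hf hrat x hx w hw hw1
    refine ⟨p * c + c', (OL p).add_mem ((OL p).mul_mem (OL_nat p p) hc) hc', ?_⟩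
    rw [hord] at h2 ⊢
    push_cast at h1 h2 ⊢
    linear_combination (p : ℂ) * h1 + h2

end Pool.Agent.Helper884.IC
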