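import Pool.Agent.Helper884.IC.Suf5

set_option linter.unusedSectionVars false
set_option linter.style.haveILetI false
set_option linter.unusedVariables false

open scoped BigOperators Classical MonoidAlgebra
open Representation

noncomputable section

namespace Pool.Agent.Helper884.IC

variable {G : Type} [Group G] [Fintype G]

/-- exponent of `p` in the order of the centraliser -/
def vC (p : ℕ) (w : G) : ℕ := (Nat.card (Subgroup.centralizer ({w} : Set G))).factorization p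

lemma card_split (p : ℕ) [hp : Fact p.Prime] (N : ℕ) (hN : N ≠ 0) :
    (N : ℂ) = (p : ℂ) ^ (N.factorization p) * ((ordCompl[p] N : ℕ) : ℂ) := by
  conv_lhs => rw [← Nat.ordProj_mul_ordCompl_eq_self N p]
  push_cast
  ring

lemma OL_pow_div (p : ℕ) [hp : Fact p.Prime] {z : ℂ} (hz : z ∈ OL p) (e N : ℕ) (hN : N ≠ 0)
    (h : N.factorization p ≤ e) : (p : ℂ) ^ e * z / (N : ℂ) ∈ OL p := by
  have hp0 : (p : ℂ) ≠ 0 := by exact_mod_cast hp.out.ne_zero
  have hm0 : ((ordCompl[p] N : ℕ) : ℂ) ≠ 0 := by exact_mod_cast (Nat.ordCompl_pos p hN).ne'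
  have h1 : (p : ℂ) ^ e * z / (N : ℂ)
      = (p : ℂ) ^ (e - N.factorization p) * z * ((ordCompl[p] N : ℕ) : ℂ)⁻¹ := by
    rw [card_split p N hN]
    have h2 : (p : ℂ) ^ e = (p : ℂ) ^ (N.factorization p) * (p : ℂ) ^ (e - N.factorization p) := by
      rw [← pow_add, Nat.add_sub_cancel' h]
    rw [h2]
    field_simp
  rw [h1]
  exact (OL p).mul_mem ((OL p).mul_mem ((OL p).pow_mem (OL_nat p p) _) hz)
    (OL_inv p (Nat.not_dvd_ordCompl hp.out hN))

/-- average over the `p`-elements -/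
def T (p : ℕ) (f : G → ℂ) : ℂ :=
  (∑ u ∈ Finset.univ.filter (fun u : G => IsPE p u), f u) / Nat.card G

lemma T_zero (p : ℕ) [hp : Fact p.Prime] (g : G → ℂ) (h1 : g 1 = 0) :
    T p g = -((∑ w : G, (rr p w : ℂ) * (g (w ^ p) - g w)) / Nat.card G) := by
  unfold T
  rw [tele_sum, h1]
  ring

lemma class_delta (p : ℕ) [hp : Fact p.Prime] (g : G → ℂ) (hg : IsClass g) :
    IsClass (fun w => (rr p w : ℂ) * (g (w ^ p) - g w)) := by
  intro w y
  simp only
  rw [rr_class, hg w y]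
  have h2 : (y * w * y⁻¹) ^ p = y * w ^ p * y⁻¹ := conj_pow
  rw [h2, hg]

lemma cent_ne (w : G) : Nat.card (Subgroup.centralizer ({w} : Set G)) ≠ 0 := Nat.card_pos.ne'

lemma bad_bound (p : ℕ) [hp : Fact p.Prime] (f : G → ℂ) (hfc : IsClass f) (hf1 : f 1 = 0)
    (w0 : G) (hw01 : w0 ≠ 1) (hw0 : IsPE p w0) (hw0p : w0 ^ p = 1)
    (hv0 : vC p w0 = (Nat.card G).factorization p)
    (hgood : ∀ w : G, w ≠ 1 → IsPE p w → ¬ IsConj w0 w → ∃ a : ℕ, vC p w ≤ 2 * a ∧
      (∃ c ∈ OL p, f w = (p : ℂ) ^ a * c) ∧ (∃ c ∈ OL p, f (w ^ p) = (p : ℂ) ^ a * c))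
    (hT : T p f ∈ OL p) :
    ∃ c ∈ OL p, f w0 = (p : ℂ) ^ ((Nat.card G).factorization p - (Nat.card G).factorization p / 2) * c := by
  set n := (Nat.card G).factorization p with hn
  have hp0 : (p : ℂ) ≠ 0 := by exact_mod_cast hp.out.ne_zero
  have hvn : ∀ w : G, vC p w ≤ n := by
    intro w
    unfold vC
    rw [hn]
    exact (Nat.factorization_le_iff_dvd (cent_ne w) Nat.card_pos.ne').mpr
      (Subgroup.card_subgroup_dvd_card _) p
  set Hg : G → ℂ := fun w => if IsConj w0 w then 0 else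
    (p : ℂ) ^ (n / 2) * ((rr p w : ℂ) * (f (w ^ p) - f w)) with hHg
  have hHgc : IsClass Hg := by
    intro w y
    simp only [hHg]
    have h1 := class_delta p f hfc w y
    simp only at h1
    have h2 : IsConj w0 (y * w * y⁻¹) ↔ IsConj w0 w := by
      have h3 : IsConj w (y * w * y⁻¹) := isConj_iff.mpr ⟨y, rfl⟩
      exact ⟨fun h => h.trans h3.symm, fun h => h.trans h3⟩
    simp only [h2, h1]
  have hsum1 := conj_sum p Hg hHgc (by
    intro w
    simp only [hHg]
    split_ifs with hc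
    · simp
    · by_cases hw : w ≠ 1 ∧ IsPE p w
      · obtain ⟨a, hva, ⟨c, hc1, hc2⟩, ⟨c', hc1', hc2'⟩⟩ := hgood w hw.1 hw.2 hc
        have h1 : (p : ℂ) ^ (n / 2) * ((rr p w : ℂ) * (f (w ^ p) - f w))
            = (p : ℂ) ^ (n / 2 + a) * ((rr p w : ℂ) * (c' - c)) := by
          rw [hc2, hc2', pow_add]; ring
        rw [h1]
        apply OL_pow_div p ((OL p).mul_mem (OL_nat p _) ((OL p).sub_mem hc1' hc1)) _ _ (cent_ne w)
        have := hvn w
        unfold vC at hva this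
        omega
      · have h1 : rr p w = 0 := by
          apply rr_zero
          by_cases h2 : w = 1
          · left; exact h2
          · right; intro h3; exact hw ⟨h2, h3⟩
        rw [h1]
        simp)
  have hT' := T_zero p f hf1
  -- the bad part
  have hsplit : (p : ℂ) ^ (n / 2) * ((∑ w : G, (rr p w : ℂ) * (f (w ^ p) - f w)) / Nat.card G)
      = (∑ w : G, Hg w) / Nat.card G
        + (∑ w ∈ Finset.univ.filter (fun g : G => IsConj w0 g),
          (p : ℂ) ^ (n / 2) * ((rr p w : ℂ) * (f (w ^ p) - f w))) / Nat.card G := by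
    rw [← add_div, mul_div_assoc', Finset.mul_sum, Finset.sum_filter, ← Finset.sum_add_distrib]
    congr 1
    refine Finset.sum_congr rfl fun w _ => ?_
    simp only [hHg]
    split_ifs <;> ring
  have hbad : (∑ w ∈ Finset.univ.filter (fun g : G => IsConj w0 g),
          (p : ℂ) ^ (n / 2) * ((rr p w : ℂ) * (f (w ^ p) - f w))) / Nat.card G ∈ OL p := by
    have h1 : (∑ w ∈ Finset.univ.filter (fun g : G => IsConj w0 g),
          (p : ℂ) ^ (n / 2) * ((rr p w : ℂ) * (f (w ^ p) - f w))) / Nat.card G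
        = (p : ℂ) ^ (n / 2) * (-(T p f)) - (∑ w : G, Hg w) / Nat.card G := by
      rw [hT', neg_neg, hsplit]; ring
    rw [h1]
    exact (OL p).sub_mem ((OL p).mul_mem ((OL p).pow_mem (OL_nat p p) _) ((OL p).neg_mem hT)) hsum1
  have hval : (∑ w ∈ Finset.univ.filter (fun g : G => IsConj w0 g),
          (p : ℂ) ^ (n / 2) * ((rr p w : ℂ) * (f (w ^ p) - f w))) / Nat.card G
        = -((p : ℂ) ^ (n / 2) * (rr p w0 : ℂ) * f w0)
          / Nat.card (Subgroup.centralizer ({w0} : Set G)) := by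
    set psi : G → ℂ := fun w => (p : ℂ) ^ (n / 2) * ((rr p w : ℂ) * (f (w ^ p) - f w)) with hpsi
    have hpc : IsClass psi := by
      intro w y
      simp only [hpsi]
      have h1 := class_delta p f hfc w y
      simp only at h1
      rw [h1]
    have h1 := sum_conj_fiber psi w0
    have h2 : ∀ y : G, psi (y⁻¹ * w0 * y) = psi w0 := by
      intro y
      have := hpc w0 y⁻¹
      rwa [inv_inv] at this
    simp only [h2] at h1
    rw [Finset.sum_const, Finset.card_univ, ← Nat.card_eq_fintype_card, nsmul_eq_mul] at h1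
    have h3 : psi w0 = -((p : ℂ) ^ (n / 2) * (rr p w0 : ℂ) * f w0) := by
      simp only [hpsi]
      rw [hw0p, hf1]
      ring
    rw [← h3]
    have h4 := cardC_ne (Subgroup.centralizer ({w0} : Set G))
    rw [div_eq_div_iff cardG_ne h4, mul_comm, ← h1]
    ring
  rw [hval] at hbad
  have hr := rr_not_dvd p w0 hw01 hw0
  have hr0 : (rr p w0 : ℂ) ≠ 0 := by
    intro h
    have : rr p w0 = 0 := by exact_mod_cast h
    rw [this] at hr
    exact hr (dvd_zero p)
  set m := ordCompl[p] (Nat.card (Subgroup.centralizer ({w0} : Set G))) with hm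
  have hcs := card_split p (Nat.card (Subgroup.centralizer ({w0} : Set G))) (cent_ne w0)
  have hv0' : (Nat.card (Subgroup.centralizer ({w0} : Set G))).factorization p = n := hv0
  rw [← hm, hv0'] at hcs
  have hm0 : (m : ℂ) ≠ 0 := by exact_mod_cast (Nat.ordCompl_pos p (cent_ne w0)).ne'
  refine ⟨-(m : ℂ) * (rr p w0 : ℂ)⁻¹ * (-((p : ℂ) ^ (n / 2) * (rr p w0 : ℂ) * f w0)
          / Nat.card (Subgroup.centralizer ({w0} : Set G))), ?_, ?_⟩
  · exact (OL p).mul_mem ((OL p).mul_mem ((OL p).neg_mem (OL_nat p m)) (OL_inv p hr)) hbad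
  · rw [hcs]
    have h5 : (p : ℂ) ^ n = (p : ℂ) ^ (n / 2) * (p : ℂ) ^ (n - n / 2) := by
      rw [← pow_add, Nat.add_sub_cancel' (Nat.div_le_self n 2)]
    rw [h5]
    field_simp

theorem T_mul (p : ℕ) [hp : Fact p.Prime] (f h : G → ℂ) (hfc : IsClass f) (hhc : IsClass h)
    (hf1 : f 1 ∈ OL p) (hh1 : h 1 ∈ OL p)
    (w0 : G) (hw0 : w0 = 1 ∨ (w0 ≠ 1 ∧ IsPE p w0 ∧ w0 ^ p = 1 ∧ vC p w0 = (Nat.card G).factorization p))
    (hgood : ∀ w : G, w ≠ 1 → IsPE p w → ¬ IsConj w0 w → ∃ a : ℕ, vC p w ≤ 2 * a ∧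
      (∃ c ∈ OL p, f w - f 1 = (p : ℂ) ^ a * c) ∧ (∃ c ∈ OL p, f (w ^ p) - f 1 = (p : ℂ) ^ a * c) ∧
      (∃ c ∈ OL p, h w - h 1 = (p : ℂ) ^ a * c) ∧ (∃ c ∈ OL p, h (w ^ p) - h 1 = (p : ℂ) ^ a * c))
    (hT1 : T p (1 : G → ℂ) ∈ OL p) (hTf : T p f ∈ OL p) (hTh : T p h ∈ OL p) :
    T p (f * h) ∈ OL p := by
  set n := (Nat.card G).factorization p with hn
  set f' : G → ℂ := fun u => f u - f 1 with hf'
  set h' : G → ℂ := fun u => h u - h 1 with hh'
  have hf'c : IsClass f' := by intro g y; simp only [hf']; rw [hfc g y]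
  have hh'c : IsClass h' := by intro g y; simp only [hh']; rw [hhc g y]
  have hTf' : T p f' = T p f - f 1 * T p (1 : G → ℂ) := by
    unfold T
    simp only [hf', Finset.sum_sub_distrib, Pi.one_apply, Finset.sum_const, nsmul_eq_mul]
    ring
  have hTh' : T p h' = T p h - h 1 * T p (1 : G → ℂ) := by
    unfold T
    simp only [hh', Finset.sum_sub_distrib, Pi.one_apply, Finset.sum_const, nsmul_eq_mul]
    ring
  have hTfh : T p (f * h) = T p (f' * h') + h 1 * T p f + f 1 * T p h - f 1 * h 1 * T p (1 : G → ℂ) := by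
    have h1 : ∀ u : G, (f * h) u = (f' * h') u + h 1 * f u + f 1 * h u - f 1 * h 1 * (1 : G → ℂ) u := by
      intro u
      simp only [hf', hh', Pi.mul_apply, Pi.one_apply]
      ring
    unfold T
    simp only [h1, Finset.sum_sub_distrib, Finset.sum_add_distrib, ← Finset.mul_sum]
    ring
  have hmemf' : T p f' ∈ OL p := by
    rw [hTf']; exact (OL p).sub_mem hTf ((OL p).mul_mem hf1 hT1)
  have hmemh' : T p h' ∈ OL p := by
    rw [hTh']; exact (OL p).sub_mem hTh ((OL p).mul_mem hh1 hT1)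
  rw [hTfh]
  refine (OL p).sub_mem ((OL p).add_mem ((OL p).add_mem ?_ ((OL p).mul_mem hh1 hTf))
    ((OL p).mul_mem hf1 hTh)) ((OL p).mul_mem ((OL p).mul_mem hf1 hh1) hT1)
  -- main
  have hf'1 : f' 1 = 0 := by simp [hf']
  have hh'1 : h' 1 = 0 := by simp [hh']
  have hfh1 : (f' * h') 1 = 0 := by simp [hf'1]
  have hfhc : IsClass (f' * h') := by
    intro g y
    simp only [Pi.mul_apply]
    rw [hf'c g y, hh'c g y]
  rw [T_zero p _ hfh1]
  refine (OL p).neg_mem ?_
  apply conj_sum p (fun w => (rr p w : ℂ) * ((f' * h') (w ^ p) - (f' * h') w)) (class_delta p _ hfhc)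
  intro w
  by_cases hw : w ≠ 1 ∧ IsPE p w
  · obtain ⟨hw1, hwpe⟩ := hw
    by_cases hconj : IsConj w0 w
    · -- bad class
      rcases hw0 with h0 | ⟨h01, h0pe, h0p, h0v⟩
      · exfalso
        rw [h0, isConj_one_right] at hconj
        exact hw1 hconj
      · obtain ⟨y, hy⟩ := isConj_iff.mp hconj
        obtain ⟨c, hc1, hc2⟩ := bad_bound p f' hf'c hf'1 w0 h01 h0pe h0p h0v (by
          intro w2 h2 h3 h4
          obtain ⟨a, ha, h5, h6, _, _⟩ := hgood w2 h2 h3 h4
          exact ⟨a, ha, h5, h6⟩) hmemf'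
        obtain ⟨d, hd1, hd2⟩ := bad_bound p h' hh'c hh'1 w0 h01 h0pe h0p h0v (by
          intro w2 h2 h3 h4
          obtain ⟨a, ha, _, _, h5, h6⟩ := hgood w2 h2 h3 h4
          exact ⟨a, ha, h5, h6⟩) hmemh'
        have hwp : w ^ p = 1 := by
          rw [← hy, conj_pow, h0p]; group
        have hfw : f' w = f' w0 := by rw [← hy]; exact hf'c w0 y
        have hhw : h' w = h' w0 := by rw [← hy]; exact hh'c w0 y
        have hvw : (Nat.card (Subgroup.centralizer ({w} : Set G))).factorization p ≤ n := by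
          rw [hn]
          exact (Nat.factorization_le_iff_dvd (cent_ne w) Nat.card_pos.ne').mpr
            (Subgroup.card_subgroup_dvd_card _) p
        have h1 : (rr p w : ℂ) * ((f' * h') (w ^ p) - (f' * h') w)
            = (p : ℂ) ^ ((n - n / 2) + (n - n / 2)) * (-(rr p w : ℂ) * (c * d)) := by
          rw [hwp]
          simp only [Pi.mul_apply]
          rw [hf'1, hfw, hhw, hc2, hd2, pow_add]
          ring
        rw [h1]
        exact OL_pow_div p ((OL p).mul_mem ((OL p).neg_mem (OL_nat p _)) ((OL p).mul_mem hc1 hd1)) _ _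
          (cent_ne w) (by omega)
    · obtain ⟨a, ha, ⟨c1, hc1, e1⟩, ⟨c2, hc2, e2⟩, ⟨c3, hc3, e3⟩, ⟨c4, hc4, e4⟩⟩ := hgood w hw1 hwpe hconj
      have h1 : (rr p w : ℂ) * ((f' * h') (w ^ p) - (f' * h') w)
          = (p : ℂ) ^ (2 * a) * ((rr p w : ℂ) * (c2 * c4 - c1 * c3)) := by
        simp only [Pi.mul_apply, hf', hh']
        rw [e1, e2, e3, e4, two_mul, pow_add]
        ring
      rw [h1]
      exact OL_pow_div p ((OL p).mul_mem (OL_nat p _) ((OL p).sub_mem ((OL p).mul_mem hc2 hc4)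
        ((OL p).mul_mem hc1 hc3))) _ _ (cent_ne w) ha
  · have h1 : rr p w = 0 := by
      apply rr_zero
      by_cases h2 : w = 1
      · left; exact h2
      · right; intro h3; exact hw ⟨h2, h3⟩
    rw [h1]
    simp

end Pool.Agent.Helper884.IC
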