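import Pool.Agent.Helper884.IC.Suf6

set_option linter.unusedSectionVars false
set_option linter.style.haveILetI false
set_option linter.unusedVariables false

open scoped BigOperators Classical MonoidAlgebra
open Representation

noncomputable section

namespace Pool.Agent.Helper884.IC

/-- (A) centralisers of nontrivial `p`-regular elements have cyclic Sylow `p`-subgroups -/
def CondA (p : ℕ) (G : Type) [Group G] : Prop :=
  ∀ s : G, s ≠ 1 → ¬ p ∣ orderOf s →
    ∀ Q : Sylow p (Subgroup.centralizer ({s} : Set G)), IsCyclic Q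

/-- (B) every `p`-element is rational -/
def CondB (p : ℕ) (G : Type) [Group G] : Prop :=
  ∀ u : G, IsPE p u → ∀ k : ℕ, ¬ p ∣ k → IsConj u (u ^ k)

/-- the `p`-part of `|C_G(w)|` divides the square of `p * [<x> : <w>]` for some `p`-element `x`
with `w` in `<x>` -/
def Small (p : ℕ) {G : Type} [Group G] (w : G) : Prop :=
  ∃ x : G, IsPE p x ∧ w ∈ Subgroup.zpowers x ∧
    p ^ ((Nat.card (Subgroup.centralizer ({w} : Set G))).factorization p) ∣
      (p * (orderOf x / orderOf w)) ^ 2

/-- (C) the nontrivial `p`-elements that are not small are all conjugate, have order `p` and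
centralise a Sylow `p`-subgroup -/
def CondC (p : ℕ) (G : Type) [Group G] : Prop :=
  (∀ w w' : G, w ≠ 1 → w' ≠ 1 → IsPE p w → IsPE p w' → ¬ Small p w → ¬ Small p w' → IsConj w w') ∧
  (∀ w : G, w ≠ 1 → IsPE p w → ¬ Small p w →
    w ^ p = 1 ∧ ¬ p ∣ (Subgroup.centralizer ({w} : Set G)).index)

variable {G : Type} [Group G] [Fintype G]

lemma small_bound (p : ℕ) [hp : Fact p.Prime] (f : G → ℂ) (hf : CI p f) (hrat : RatOn p f) (w : G)
    (hw1 : w ≠ 1) (hw : IsPE p w) (x : G) (hx : IsPE p x) (hwx : w ∈ Subgroup.zpowers x) (a : ℕ)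
    (ha : p * (orderOf x / orderOf w) = p ^ a) :
    (∃ c ∈ OL p, f w - f 1 = (p : ℂ) ^ a * c) ∧ (∃ c ∈ OL p, f (w ^ p) - f 1 = (p : ℂ) ^ a * c) := by
  have hdvd : orderOf w ∣ orderOf x := orderOf_dvd_of_mem_zpowers hwx
  have hox : orderOf x = orderOf w * (orderOf x / orderOf w) := (Nat.mul_div_cancel' hdvd).symm
  have how0 : (orderOf w : ℂ) ≠ 0 := by exact_mod_cast (orderOf_pos w).ne'
  have hac : (p : ℂ) * ((orderOf x / orderOf w : ℕ) : ℂ) = (p : ℂ) ^ a := by exact_mod_cast ha
  have hoxc : (orderOf x : ℂ) = (orderOf w : ℂ) * ((orderOf x / orderOf w : ℕ) : ℂ) := by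
    exact_mod_cast hox
  obtain ⟨k, hk⟩ := hw
  obtain ⟨c, hc, h1⟩ := val_bound p f hf hrat x hx k w hwx hk
  obtain ⟨k', hk'⟩ := (IsPE.pow (p := p) (u := w) ⟨k, hk⟩ p)
  obtain ⟨c', hc', h2⟩ := val_bound p f hf hrat x hx k' (w ^ p) (Subgroup.pow_mem _ hwx p) hk'
  have hord := orderOf_pow_p p hw1 ⟨k, hk⟩
  refine ⟨⟨-c, (OL p).neg_mem hc, ?_⟩, ⟨-(p * c'), (OL p).neg_mem ((OL p).mul_mem (OL_nat p p) hc'), ?_⟩⟩
  · apply mul_left_cancel₀ how0
    rw [← hac]
    rw [hoxc] at h1
    linear_combination -h1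
  · have hw'0 : (orderOf (w ^ p) : ℂ) ≠ 0 := by exact_mod_cast (orderOf_pos (w ^ p)).ne'
    apply mul_left_cancel₀ hw'0
    rw [← hac]
    have hordc : (orderOf w : ℂ) = (p : ℂ) * orderOf (w ^ p) := by exact_mod_cast hord
    rw [hoxc, hordc] at h2
    linear_combination -h2

lemma CI_one (p : ℕ) [hp : Fact p.Prime] (lam1 : True) {chi : G → ℂ} (hchi : IsIrrChar chi) :
    CI p (fun g => chi g⁻¹) := by
  intro C lam hC
  obtain ⟨n, hn⟩ := mult_nat' C lam⁻¹ hchi
  have h1 : ∑ c : C, ((lam c : ℂˣ) : ℂ) * chi ((c : G)⁻¹)⁻¹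
      = ∑ c : C, (((lam⁻¹ : C →* ℂˣ) c : ℂˣ) : ℂ) * chi ((c : G)⁻¹) := by
    refine Fintype.sum_equiv (Equiv.inv C) _ _ fun c => ?_
    simp
  simp only at h1 ⊢
  rw [h1, hn]
  exact OL_nat p n

theorem suf_p (p : ℕ) [hp : Fact p.Prime] (hA : CondA p G)
    (hBC : (∀ P : Sylow p G, IsCyclic P) ∨ (CondB p G ∧ CondC p G))
    (f : G → ℂ) (hfc : IsClass f) (hCI : CI p f) (hf1 : B f 1 ∈ OL p) {chi : G → ℂ}
    (hchi : IsIrrChar chi) : B f chi ∈ OL p := by
  set h : G → ℂ := fun g => chi g⁻¹ with hh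
  have hhc : IsClass h := by
    intro g y
    simp only [hh]
    have : (y * g * y⁻¹)⁻¹ = y * g⁻¹ * y⁻¹ := by group
    rw [this]
    exact hchi.isClass _ _
  have hCIh : CI p h := CI_one p trivial hchi
  have hCIF : CI p (f * h) := CI_mul p f hCI hchi
  have hFc : IsClass (f * h) := by
    intro g y
    simp only [Pi.mul_apply]
    rw [hfc g y, hhc g y]
  have hBF : B f chi = (∑ g : G, (f * h) g) / Nat.card G := by
    unfold B
    rw [div_eq_inv_mul]
    rfl
  have hred := main_red p (f * h) hCIF hFc hA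
  rw [hBF]
  have hgoal : T p (f * h) ∈ OL p := by
    rcases hBC with hcyc | ⟨hB, hC⟩
    · -- cyclic Sylow
      apply sec_lemma p (H := G) (f * h)
      · intro u y
        exact hFc u y
      · intro u
        exact CI_val p _ hCIF u
      · intro S hS
        obtain ⟨Q, hQ⟩ := hS.exists_le_sylow
        have hSc : IsCyclic S := by
          haveI := hcyc Q
          exact isCyclic_of_injective (Subgroup.inclusion hQ) (Subgroup.inclusion_injective hQ)
        have h1 := CI_avg p (f * h) hCIF S hSc 1 S.one_mem S le_rfl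
        simpa only [one_mul] using h1
    · have hratf : ∀ g : G → ℂ, IsClass g → RatOn p g := by
        intro g hg w hw k hk
        obtain ⟨y, hy⟩ := isConj_iff.mp (hB w hw k hk)
        rw [← hy]
        exact hg w y
      have hT1 : T p (1 : G → ℂ) ∈ OL p := by
        apply sec_lemma p (H := G) (1 : G → ℂ)
        · intro u y; rfl
        · intro u
          exact (OL p).one_mem
        · intro S hS
          have h1 : ∑ u : S, (1 : G → ℂ) (u : G) = (Nat.card S : ℂ) := by
            simp [Nat.card_eq_fintype_card]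
          rw [h1, inv_mul_cancel₀ (cardC_ne S)]
          exact (OL p).one_mem
      have hTh : T p h ∈ OL p := by
        apply sec_lemma p (H := G) h
        · intro u y; exact hhc u y
        · intro u
          exact CI_val p _ hCIh u
        · intro S hS
          obtain ⟨n, hn⟩ := mult_nat' S 1 hchi
          simp only [MonoidHom.one_apply, Units.val_one, one_mul] at hn
          simp only [hh]
          rw [hn]
          exact OL_nat p n
      have hTf : T p f ∈ OL p := by
        have h1 := main_red p f hCI hfc hA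
        have h2 : B f 1 = (∑ g : G, f g) / Nat.card G := by
          unfold B
          rw [div_eq_inv_mul]
          simp
        have h3 : T p f = B f 1 - ((∑ g : G, f g) / Nat.card G
            - (∑ u ∈ Finset.univ.filter (fun u : G => IsPE p u), f u) / Nat.card G) := by
          rw [h2]
          unfold T
          ring
        rw [h3]
        exact (OL p).sub_mem hf1 h1
      have hmain : ∀ w0 : G, (w0 = 1 ∨ (w0 ≠ 1 ∧ IsPE p w0 ∧ w0 ^ p = 1 ∧ vC p w0 = (Nat.card G).factorization p)) →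
          (∀ w : G, w ≠ 1 → IsPE p w → ¬ IsConj w0 w → Small p w) → T p (f * h) ∈ OL p := by
        intro w0 hw0 hsm
        apply T_mul p f h hfc hhc (CI_val p _ hCI 1) (CI_val p _ hCIh 1) w0 hw0 _ hT1 hTf hTh
        intro w hw1 hw hc
        obtain ⟨x, hx, hwx, hdiv⟩ := hsm w hw1 hw hc
        obtain ⟨m, hm⟩ := hx
        obtain ⟨i, hi⟩ := hw
        have hle : i ≤ m := by
          have h1 : orderOf w ∣ orderOf x := orderOf_dvd_of_mem_zpowers hwx
          rw [hi, hm] at h1
          exact (Nat.pow_dvd_pow_iff_le_right hp.out.one_lt).mp h1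
        have ha : p * (orderOf x / orderOf w) = p ^ (m - i + 1) := by
          rw [hi, hm, Nat.pow_div hle hp.out.pos, pow_succ']
        refine ⟨m - i + 1, ?_, ?_⟩
        · rw [ha, ← pow_mul, Nat.pow_dvd_pow_iff_le_right hp.out.one_lt] at hdiv
          unfold vC
          omega
        · obtain ⟨b1, b2⟩ := small_bound p f hCI (hratf f hfc) w hw1 ⟨i, hi⟩ x ⟨m, hm⟩ hwx _ ha
          obtain ⟨b3, b4⟩ := small_bound p h hCIh (hratf h hhc) w hw1 ⟨i, hi⟩ x ⟨m, hm⟩ hwx _ ha
          exact ⟨b1, b2, b3, b4⟩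
      by_cases hex : ∃ w0 : G, w0 ≠ 1 ∧ IsPE p w0 ∧ ¬ Small p w0
      · obtain ⟨w0, h01, h0pe, h0s⟩ := hex
        obtain ⟨h0p, h0i⟩ := hC.2 w0 h01 h0pe h0s
        apply hmain w0
        · right
          refine ⟨h01, h0pe, h0p, ?_⟩
          unfold vC
          have h1 := Subgroup.card_mul_index (Subgroup.centralizer ({w0} : Set G))
          have hi0 : (Subgroup.centralizer ({w0} : Set G)).index ≠ 0 := by
            intro h; rw [h] at h0i; exact h0i (dvd_zero p)
          rw [← h1, Nat.factorization_mul (cent_ne w0) hi0, Finsupp.add_apply,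
            Nat.factorization_eq_zero_of_not_dvd h0i, add_zero]
        · intro w hw1 hw hc
          by_contra hns
          exact hc (hC.1 w0 w h01 hw1 h0pe hw h0s hns)
      · push Not at hex
        apply hmain 1 (Or.inl rfl)
        intro w hw1 hw _
        exact hex w hw1 hw
  have hfin : (∑ g : G, (f * h) g) / Nat.card G
      = ((∑ g : G, (f * h) g) / Nat.card G
            - (∑ u ∈ Finset.univ.filter (fun u : G => IsPE p u), (f * h) u) / Nat.card G)
        + T p (f * h) := by
    unfold T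
    ring
  rw [hfin]
  exact (OL p).add_mem hred hgoal

lemma indChar_top : indChar (⊤ : Subgroup G) 1 = 1 := by
  funext g
  unfold indChar
  have h1 : ∀ y : G, lamExt (⊤ : Subgroup G) 1 (y⁻¹ * g * y) = 1 := by
    intro y
    unfold lamExt
    rw [dif_pos (Subgroup.mem_top _)]
    simp
  simp only [h1]
  rw [Finset.sum_const, Finset.card_univ, ← Nat.card_eq_fintype_card, nsmul_eq_mul, mul_one]
  have h2 : Nat.card (⊤ : Subgroup G) = Nat.card G := Subgroup.card_top
  rw [h2, inv_mul_cancel₀ cardG_ne]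
  rfl

lemma rat_int_of_OL (q : ℚ) (h : ∀ p : ℕ, ∀ hp : Fact p.Prime, (q : ℂ) ∈ OL p) : ∃ n : ℤ, q = n := by
  by_contra hq
  have hden : q.den ≠ 1 := by
    intro h1
    apply hq
    exact ⟨q.num, (Rat.den_eq_one_iff q).mp h1 |>.symm⟩
  obtain ⟨p, hp, hpd⟩ := Nat.exists_prime_and_dvd hden
  haveI : Fact p.Prime := ⟨hp⟩
  obtain ⟨t, ht⟩ := hpd
  have h1 : ((q.num : ℤ) : ℂ) / p ∈ OL p := by
    have h2 : ((q.num : ℤ) : ℂ) / p = (t : ℂ) * (q : ℂ) := by
      have h3 : (q : ℂ) = (q.num : ℂ) / (q.den : ℂ) := by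
        conv_lhs => rw [← Rat.num_div_den q]
        push_cast
        rfl
      have hp0 : (p : ℂ) ≠ 0 := by exact_mod_cast hp.ne_zero
      have ht0 : (t : ℂ) ≠ 0 := by
        intro h
        have : t = 0 := by exact_mod_cast h
        rw [this, mul_zero] at ht
        exact q.den_nz ht
      rw [h3, ht]
      push_cast
      field_simp
    rw [h2]
    exact (OL p).mul_mem (OL_nat p t) (h p ⟨hp⟩)
  have h2 := OL_div p h1
  have h3 : p ∣ q.num.natAbs := Int.natCast_dvd.mp h2
  have h4 := Nat.dvd_gcd h3 (Dvd.intro t ht.symm : p ∣ q.den)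
  rw [q.reduced] at h4
  exact hp.one_lt.ne' (Nat.dvd_one.mp h4)

/-- the duality argument -/
theorem dual (h : ∀ p : ℕ, ∀ hp : Fact p.Prime, ∀ f : G → ℂ, IsClass f → CI p f →
    B f 1 ∈ OL p → ∀ chi : G → ℂ, IsIrrChar chi → B f chi ∈ OL p) : HasIC G := by
  intro chi hchi
  by_contra hnot
  have h1 : (QuotientAddGroup.mk chi : (G → ℂ) ⧸ indSpan G) ≠ 0 := by
    intro h0
    exact hnot ((QuotientAddGroup.eq_zero_iff chi).mp h0)
  obtain ⟨c, hc⟩ := CharacterModule.exists_character_apply_ne_zero_of_ne_zero h1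
  have hq : ∀ psi : G → ℂ, ∃ q : ℚ, c (QuotientAddGroup.mk psi) = (q : AddCircle (1 : ℚ)) := by
    intro psi
    obtain ⟨q, hq⟩ := QuotientAddGroup.mk_surjective (c (QuotientAddGroup.mk psi))
    exact ⟨q, hq.symm⟩
  choose q hq using hq
  set f : G → ℂ := ∑ psi ∈ Irr G, (q psi : ℂ) • psi with hf
  have hfc : IsClass f := by
    intro g y
    rw [hf]
    simp only [Finset.sum_apply, Pi.smul_apply]
    refine Finset.sum_congr rfl fun psi hpsi => ?_
    rw [(mem_Irr.mp hpsi).isClass g y]
  have hBf : ∀ a : G → ℂ, a ∈ indSpan G → IsClass a → (∀ psi : G → ℂ, IsIrrChar psi → ∃ n : ℕ, B a psi = n) →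
      ∃ n : ℤ, B f a = n := by
    intro a ha hac hn
    have hn' : ∀ psi : G → ℂ, ∃ n : ℕ, IsIrrChar psi → B a psi = n := by
      intro psi
      by_cases h2 : IsIrrChar psi
      · obtain ⟨n, hn2⟩ := hn psi h2
        exact ⟨n, fun _ => hn2⟩
      · exact ⟨0, fun h3 => absurd h3 h2⟩
    choose n hn' using hn'
    have h2 : B f a = ((∑ psi ∈ Irr G, q psi * n psi : ℚ) : ℂ) := by
      rw [hf, B_sum_left]
      push_cast
      refine Finset.sum_congr rfl fun psi hpsi => ?_
      rw [B_smul_left, B_comm psi a, hn' psi (mem_Irr.mp hpsi)]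
    have h3 : a = ∑ psi ∈ Irr G, (n psi) • psi := by
      conv_lhs => rw [expand a hac]
      refine Finset.sum_congr rfl fun psi hpsi => ?_
      rw [hn' psi (mem_Irr.mp hpsi), Nat.cast_smul_eq_nsmul]
    have h4 : c (QuotientAddGroup.mk a) = 0 := by
      rw [(QuotientAddGroup.eq_zero_iff a).mpr ha, map_zero]
    have h5 : c (QuotientAddGroup.mk a) = ((∑ psi ∈ Irr G, q psi * n psi : ℚ) : AddCircle (1 : ℚ)) := by
      conv_lhs => rw [h3]
      have h6 : (QuotientAddGroup.mk (∑ psi ∈ Irr G, (n psi) • psi) : (G → ℂ) ⧸ indSpan G)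
          = ∑ psi ∈ Irr G, (n psi) • (QuotientAddGroup.mk psi : (G → ℂ) ⧸ indSpan G) := by
        have := map_sum (QuotientAddGroup.mk' (indSpan G)) (fun psi : G → ℂ => (n psi) • psi) (Irr G)
        simp only [QuotientAddGroup.mk'_apply, map_nsmul] at this
        exact this
      rw [h6, map_sum]
      have h7 : ((∑ psi ∈ Irr G, q psi * n psi : ℚ) : AddCircle (1 : ℚ))
          = ∑ psi ∈ Irr G, ((q psi * n psi : ℚ) : AddCircle (1 : ℚ)) := by
        exact map_sum (QuotientAddGroup.mk' (AddSubgroup.zmultiples (1 : ℚ))) _ _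
      rw [h7]
      refine Finset.sum_congr rfl fun psi _ => ?_
      rw [map_nsmul, hq psi]
      have h8 : (q psi * n psi : ℚ) = (n psi) • q psi := by
        rw [nsmul_eq_mul, mul_comm]
      rw [h8]
      exact (AddCircle.coe_nsmul (1 : ℚ)).symm
    rw [h4] at h5
    obtain ⟨m, hm⟩ := AddCircle.coe_eq_zero_iff (1 : ℚ) |>.mp h5.symm
    refine ⟨m, ?_⟩
    rw [h2, ← hm]
    simp
  have hqchi : B f chi = (q chi : ℂ) := by
    rw [hf, B_sum_left]
    simp only [B_smul_left]
    rw [Finset.sum_eq_single chi]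
    · rw [B_irr hchi hchi, if_pos rfl, mul_one]
    · intro psi hpsi hne
      rw [B_irr (mem_Irr.mp hpsi) hchi, if_neg hne, mul_zero]
    · intro hn
      exact absurd (mem_Irr.mpr hchi) hn
  have hall : ∀ p : ℕ, ∀ hp : Fact p.Prime, (q chi : ℂ) ∈ OL p := by
    intro p hp
    rw [← hqchi]
    apply h p hp f hfc _ _ chi hchi
    · apply CI_of_B p f hfc
      intro C lam hC
      obtain ⟨n, hn⟩ := hBf (indChar C lam) (AddSubgroup.subset_closure (Or.inr ⟨C, hC, lam, rfl⟩))
        (isClass_indChar C lam) (fun psi hpsi => mult_nat C lam hpsi)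
      rw [B_comm, hn]
      exact intCast_mem _ n
    · obtain ⟨n, hn⟩ := hBf 1 (AddSubgroup.subset_closure (Or.inl rfl))
        isClass_one (fun psi hpsi => by
          have := mult_nat (⊤ : Subgroup G) 1 hpsi
          rwa [indChar_top] at this)
      rw [hn]
      exact intCast_mem _ n
  obtain ⟨n, hn⟩ := rat_int_of_OL (q chi) hall
  apply hc
  rw [hq chi, hn]
  exact (AddCircle.coe_eq_zero_iff (1 : ℚ)).mpr ⟨n, by simp⟩

/-- sufficiency -/
theorem suf (h : ∀ p : ℕ, p.Prime → (∀ P : Sylow p G, IsCyclic P) ∨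
    (CondA p G ∧ CondB p G ∧ CondC p G)) : HasIC G := by
  apply dual
  intro p hp f hfc hCI hf1 chi hchi
  rcases h p hp.out with hcyc | ⟨hA, hB, hC⟩
  · refine suf_p p ?_ (Or.inl hcyc) f hfc hCI hf1 hchi
    intro s _ _ Q
    -- Sylow subgroups of subgroups are cyclic
    have h1 : IsPGroup p ((Q : Subgroup (Subgroup.centralizer ({s} : Set G))).map
        (Subgroup.centralizer ({s} : Set G)).subtype) := Q.2.map _
    obtain ⟨P, hP⟩ := h1.exists_le_sylow
    haveI := hcyc P
    have h2 : IsCyclic ((Q : Subgroup (Subgroup.centralizer ({s} : Set G))).map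
        (Subgroup.centralizer ({s} : Set G)).subtype) :=
      isCyclic_of_injective (Subgroup.inclusion hP) (Subgroup.inclusion_injective hP)
    exact ((Q : Subgroup (Subgroup.centralizer ({s} : Set G))).equivMapOfInjective
      (Subgroup.centralizer ({s} : Set G)).subtype (Subgroup.subtype_injective _)).isCyclic.mpr h2
  · exact suf_p p hA (Or.inr ⟨hB, hC⟩) f hfc hCI hf1 hchi

end Pool.Agent.Helper884.IC
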