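import Pool.Agent.Helper884.IC.Par

set_option linter.unusedSectionVars false
set_option linter.style.haveILetI false
set_option linter.unusedVariables false

open scoped BigOperators Classical MonoidAlgebra TensorProduct
open Representation

noncomputable section

namespace Pool.Agent.Helper884.IC

variable {G : Type} [Group G] [Fintype G]

/-- elements acting on `x` by a power congruent to one modulo `M` -/
def stabM (M : ℕ) (x : G) : Subgroup G :=
  let S0 : Submonoid G :=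
    { carrier := {z | ∃ l : ℕ, l ≡ 1 [MOD M] ∧ z * x * z⁻¹ = x ^ l}
      one_mem' := ⟨1, rfl, by simp⟩
      mul_mem' := by
        rintro a b ⟨l, hl, hla⟩ ⟨m, hm, hmb⟩
        refine ⟨l * m, ?_, ?_⟩
        · simpa using hl.mul hm
        · have h1 : a * b * x * (a * b)⁻¹ = a * (b * x * b⁻¹) * a⁻¹ := by group
          rw [h1, hmb, pow_mul, ← hla, conj_pow] }
  { S0 with
    inv_mem' := by
      intro a ha
      have h1 : a⁻¹ = a ^ (orderOf a - 1) := by
        rw [inv_eq_iff_mul_eq_one, ← pow_succ', Nat.sub_add_cancel (orderOf_pos a), pow_orderOf_eq_one]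
      rw [h1]
      exact S0.pow_mem ha _ }

lemma mem_stabM {M : ℕ} {x z : G} : z ∈ stabM M x ↔ ∃ l : ℕ, l ≡ 1 [MOD M] ∧ z * x * z⁻¹ = x ^ l := Iff.rfl

lemma Yset_dvdM (M : ℕ) (hM : 1 < M) (x : G) (C : Subgroup G) (lam : C →* ℂˣ) (w : ℂ)
    (hw : w ^ M = 1) : ∃ t : ℕ, Nat.card (Yset C lam x w) = Nat.card (stabM M x) * t := by
  have hw0 : w ≠ 0 := by
    rintro rfl
    rw [zero_pow (by omega)] at hw
    exact zero_ne_one hw
  have h1 : Yset C lam x w = (QuotientGroup.mk : G → G ⧸ stabM M x) ⁻¹'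
      ((QuotientGroup.mk : G → G ⧸ stabM M x) '' Yset C lam x w) := by
    apply Set.Subset.antisymm
    · exact Set.subset_preimage_image _ _
    · rintro y' ⟨y, hy, hyy⟩
      have h2 : y⁻¹ * y' ∈ stabM M x := QuotientGroup.eq.mp hyy
      obtain ⟨l, hl, hz⟩ := mem_stabM.mp h2
      have hy' : lamExt C lam (y * x * y⁻¹) = w := hy
      have hmem : y * x * y⁻¹ ∈ C := lamExt_ne.mp (by rw [hy']; exact hw0)
      show lamExt C lam (y' * x * y'⁻¹) = w
      have h3 : y' * x * y'⁻¹ = (y * x * y⁻¹) ^ l := by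
        rw [conj_pow, ← hz]
        group
      rw [h3, lamExt_pow _ _ _ hmem, hy']
      have h4 : l % M = 1 % M := hl
      rw [← Nat.div_add_mod l M, h4, Nat.mod_eq_of_lt hM, pow_add, pow_mul, hw, one_pow,
        one_mul, pow_one]
  rw [h1, QuotientGroup.card_preimage_mk]
  exact ⟨_, rfl⟩

lemma lamExt_inv (C : Subgroup G) (lam : C →* ℂˣ) (g : G) : lamExt C lam g⁻¹ = lamExt C lam⁻¹ g := by
  unfold lamExt
  by_cases h : g ∈ C
  · rw [dif_pos (C.inv_mem h), dif_pos h]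
    have : (⟨g⁻¹, C.inv_mem h⟩ : C) = (⟨g, h⟩ : C)⁻¹ := rfl
    rw [this, map_inv, MonoidHom.inv_apply]
  · rw [dif_neg (fun h' => h (by simpa using C.inv_mem h')), dif_neg h]

lemma indChar_inv (C : Subgroup G) (lam : C →* ℂˣ) (g : G) : indChar C lam g⁻¹ = indChar C lam⁻¹ g := by
  unfold indChar
  congr 1
  refine Finset.sum_congr rfl fun y _ => ?_
  rw [← lamExt_inv]
  congr 1
  group

/-- elements carrying `x` to a power congruent to `j` modulo `M` -/
def Yj (M : ℕ) (x : G) (j : ℕ) : Set G := {y | ∃ l : ℕ, l ≡ j [MOD M] ∧ y * x * y⁻¹ = x ^ l}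

theorem U_core (hIC : HasIC G) (x : G) (n : ℕ) (hxn : orderOf x = 2 ^ n)
    (hmax : ∀ y : G, (∃ r : ℕ, orderOf y = 2 ^ r) → x ∈ Subgroup.zpowers y →
      y ∈ Subgroup.zpowers x) (e : ℕ) (he : 1 ≤ e) (hen : e + 1 ≤ n)
    (q : ℕ) (hq : Nat.card (stabM (2 ^ (e + 1)) x) = Nat.card (Subgroup.zpowers x) * q)
    (hval : ∀ z : ℂˣ, orderOf z = 2 ^ (e + 1) → ∀ mu : Subgroup.zpowers x →* ℂˣ,
      mu ⟨x, Subgroup.mem_zpowers x⟩ = z → ∃ ε : ℤ, (ε = 1 ∨ ε = -1) ∧
      (Nat.card (Subgroup.zpowers x) : ℂ)⁻¹ *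
        (((Nat.card (Yset (Subgroup.zpowers x) mu x (((mu⁻¹ : Subgroup.zpowers x →* ℂˣ) ⟨x, Subgroup.mem_zpowers x⟩ : ℂˣ) : ℂ)) : ℂ)
        - Nat.card (Yset (Subgroup.zpowers x) mu x ((((mu ^ (1 + 2 ^ e))⁻¹ : Subgroup.zpowers x →* ℂˣ) ⟨x, Subgroup.mem_zpowers x⟩ : ℂˣ) : ℂ)))
        - ((Nat.card (Yset (Subgroup.zpowers x) (mu ^ (1 + 2 ^ e)) x (((mu⁻¹ : Subgroup.zpowers x →* ℂˣ) ⟨x, Subgroup.mem_zpowers x⟩ : ℂˣ) : ℂ)) : ℂ)
        - Nat.card (Yset (Subgroup.zpowers x) (mu ^ (1 + 2 ^ e)) x ((((mu ^ (1 + 2 ^ e))⁻¹ : Subgroup.zpowers x →* ℂˣ) ⟨x, Subgroup.mem_zpowers x⟩ : ℂˣ) : ℂ))))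
        = ε * (2 * q)) :
    ¬ 2 ∣ q := by
  have hM : 1 < 2 ^ (e + 1) := Nat.one_lt_pow (by omega) (by norm_num)
  obtain ⟨z, hz⟩ := exists_unit_root2 (2 ^ (e + 1)) (by positivity)
  set D := Subgroup.zpowers x with hD
  set gx : D := ⟨x, Subgroup.mem_zpowers x⟩ with hgx
  have hgo : orderOf gx = 2 ^ n := by rw [hgx, Subgroup.orderOf_mk, hxn]
  set mu : D →* ℂˣ := monoidHomOfForallMemZpowers (gen_x x) (g' := z)
    (by rw [hz, hgo]; exact pow_dvd_pow 2 hen) with hmu
  have hmux : mu gx = z := monoidHomOfForallMemZpowers_apply_gen (gen_x x) _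
  set k := 1 + 2 ^ e with hk
  have hkodd : ¬ 2 ∣ k := by
    intro h
    have h8 := (Nat.dvd_add_left (dvd_pow_self 2 (by omega : e ≠ 0))).mp h
    omega
  set nu : D →* ℂˣ := mu ^ k with hnu
  have hnux : nu gx = z ^ k := by rw [hnu, MonoidHom.pow_apply, hmux]
  have hcop : ∀ j : ℕ, ¬ 2 ∣ j → x ∈ Subgroup.zpowers (x ^ j) := by
    intro j hj
    obtain ⟨t, ht⟩ := gen_coprime 2 ⟨n, hxn⟩ hj
    have h6 := Subgroup.pow_mem _ (Subgroup.mem_zpowers (x ^ j)) t
    rwa [ht] at h6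
  have H : ∀ d : D, mu d ≠ nu d → x ∈ Subgroup.zpowers (d : G) := by
    intro d hd
    obtain ⟨j, hj⟩ := nat_pow_of_mem d.2
    rw [hj]
    apply hcop
    rintro ⟨t, ht⟩
    apply hd
    have hdd : d = gx ^ j := Subtype.ext (by rw [hj]; rfl)
    rw [hnu, MonoidHom.pow_apply, hdd, map_pow, hmux, ht, hk, pow_add, pow_one]
    have h1 : (z ^ (2 * t)) ^ (2 ^ e) = 1 := by
      rw [← pow_mul]
      have h2 : 2 * t * 2 ^ e = 2 ^ (e + 1) * t := by ring
      rw [h2, pow_mul, ← hz, pow_orderOf_eq_one, one_pow]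
    rw [h1, mul_one]
  have H' : ∀ d : D, (mu⁻¹ : D →* ℂˣ) d ≠ (nu⁻¹ : D →* ℂˣ) d → x ∈ Subgroup.zpowers (d : G) := by
    intro d hd
    apply H d
    intro h
    apply hd
    rw [MonoidHom.inv_apply, MonoidHom.inv_apply, h]
  set F := indChar D mu - indChar D nu with hF
  have hFcl : IsClass F := by
    intro g y
    rw [hF]
    simp only [Pi.sub_apply]
    rw [isClass_indChar _ _ g y, isClass_indChar _ _ g y]
  have hzk : z ^ k ≠ 1 := by
    intro h
    apply hkodd
    have := orderOf_dvd_of_pow_eq_one h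
    rw [hz] at this
    exact (dvd_pow_self 2 (by omega)).trans this
  have hz1 : z ≠ 1 := by
    rintro rfl
    rw [orderOf_one] at hz
    omega
  -- orthogonality to one
  have hB1 : B (1 : G → ℂ) F = 0 := by
    rw [hF, B_sub_right, B_comm, B_comm 1, frob _ _ _ isClass_one, frob _ _ _ isClass_one]
    have h1 : ∀ lam : D →* ℂˣ, lam gx ≠ 1 →
        ∑ g : G, lamExt D lam g * (1 : G → ℂ) g⁻¹ = 0 := by
      intro lam hlam
      rw [sum_lamExt D lam (fun g => (1 : G → ℂ) g⁻¹)]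
      have h2 := sum_hom_units_eq_zero (R := ℂ) ((Units.coeHom ℂ).comp lam) (by
        intro h3
        apply hlam
        have h4 := congrArg (fun F : D →* ℂ => F gx) h3
        simp only [MonoidHom.comp_apply, Units.coeHom_apply, MonoidHom.one_apply] at h4
        exact Units.ext h4)
      simpa using h2
    rw [h1 mu (by rw [hmux]; exact hz1), h1 nu (by rw [hnux]; exact hzk)]
    simp
  have hDc : Nat.card D = 2 ^ n := by rw [hD, Nat.card_zpowers, hxn]
  have hq0' : q ≠ 0 := by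
    intro h0
    rw [h0, mul_zero] at hq
    exact Nat.card_pos.ne' hq
  have hq0 : (q : ℂ) ≠ 0 := by exact_mod_cast hq0'
  have hzp : ∀ j : ℕ, (((z ^ j : ℂˣ) : ℂ)) ^ (2 ^ (e + 1)) = 1 := by
    intro j
    rw [← Units.val_pow_eq_pow_val, ← pow_mul, mul_comm, pow_mul, ← hz, pow_orderOf_eq_one, one_pow,
      Units.val_one]
  -- values on cyclic induced
  have hcyc : ∀ (C : Subgroup G) (lam : C →* ℂˣ), IsCyclic C →
      B (indChar C lam) F / q ∈ OL 2 := by
    intro C lam hC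
    rw [hF, B_main x C lam mu nu H]
    have hmuz : (mu ⟨x, Subgroup.mem_zpowers x⟩ : ℂˣ) = z ^ 1 := by
      rw [pow_one]; exact hmux
    have hnuz : (nu ⟨x, Subgroup.mem_zpowers x⟩ : ℂˣ) = z ^ k := hnux
    rw [hmuz, hnuz]
    obtain ⟨a, ha⟩ := Yset_dvdM (2 ^ (e + 1)) hM x C lam ((z ^ 1 : ℂˣ) : ℂ) (hzp 1)
    obtain ⟨b, hb⟩ := Yset_dvdM (2 ^ (e + 1)) hM x C lam ((z ^ k : ℂˣ) : ℂ) (hzp k)
    by_cases hy : ∃ y : G, y * x * y⁻¹ ∈ C
    · obtain ⟨y, hy⟩ := hy
      obtain ⟨c, hcC, hco, hcp⟩ := mem_ppart 2 C hC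
      have h1 : y * x * y⁻¹ ∈ Subgroup.zpowers c := by
        apply hcp _ hy
        refine ⟨n, ?_⟩
        have h5 := (MulAut.conj y).orderOf_eq x
        rw [MulAut.conj_apply] at h5
        rw [h5, hxn]
      have hco' : orderOf (y⁻¹ * c * y) = 2 ^ ((Nat.card C).factorization 2) := by
        have h5 := (MulAut.conj y⁻¹).orderOf_eq c
        rw [MulAut.conj_apply, inv_inv] at h5
        rw [h5, hco]
      have h2 : y⁻¹ * c * y ∈ Subgroup.zpowers x := by
        apply hmax _ ⟨_, hco'⟩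
        obtain ⟨j, hj⟩ := h1
        refine ⟨j, ?_⟩
        simp only at hj ⊢
        have h6 : (y⁻¹ * c * y) ^ j = y⁻¹ * c ^ j * y := by
          have := conj_zpow (i := j) (a := y⁻¹) (b := c)
          rwa [inv_inv] at this
        rw [h6, hj]
        group
      have h3 : 2 ^ ((Nat.card C).factorization 2) ∣ 2 ^ n := by
        rw [← hco', ← hxn]
        exact orderOf_dvd_of_mem_zpowers h2
      have h4 : 2 ^ n ∣ 2 ^ ((Nat.card C).factorization 2) := by
        rw [← hco, ← hxn]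
        have h5 := (MulAut.conj y).orderOf_eq x
        rw [MulAut.conj_apply] at h5
        rw [← h5]
        exact orderOf_dvd_of_mem_zpowers h1
      have h5 : 2 ^ ((Nat.card C).factorization 2) = 2 ^ n := Nat.dvd_antisymm h3 h4
      have h6 : Nat.card C = 2 ^ n * ordCompl[2] (Nat.card C) := by
        conv_lhs => rw [← Nat.ordProj_mul_ordCompl_eq_self (Nat.card C) 2]
        rw [h5]
      have h7 : ¬ 2 ∣ ordCompl[2] (Nat.card C) := Nat.not_dvd_ordCompl Nat.prime_two Nat.card_pos.ne'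
      set c' := ordCompl[2] (Nat.card C) with hc'
      rw [ha, hb, hq, hDc, h6]
      have h8 : ((2 ^ n * c' : ℕ) : ℂ)⁻¹ * (((2 ^ n * q * a : ℕ) : ℂ) - ((2 ^ n * q * b : ℕ) : ℂ)) / q
          = (c' : ℂ)⁻¹ * ((a : ℂ) - b) := by
        have hcc : (c' : ℂ) ≠ 0 := by
          intro h
          have h0 : c' = 0 := by exact_mod_cast h
          rw [h0] at h7
          exact h7 (dvd_zero 2)
        push_cast
        field_simp
      rw [h8]
      exact (OL 2).mul_mem (OL_inv 2 h7) ((OL 2).sub_mem (OL_nat 2 a) (OL_nat 2 b))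
    · push Not at hy
      have h0 : ∀ w : ℂˣ, Yset C lam x (w : ℂ) = ∅ := by
        intro w
        apply Set.eq_empty_of_forall_notMem
        intro y hyy
        have h1 : lamExt C lam (y * x * y⁻¹) = (w : ℂ) := hyy
        apply hy y
        apply lamExt_ne.mp
        rw [h1]
        exact Units.ne_zero w
      rw [h0, h0]
      simp
  -- T
  let T : (G → ℂ) →+ ℂ :=
    { toFun := fun h => B h F / q
      map_zero' := by simp [B]
      map_add' := by intro a b; rw [B_add_left]; ring }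
  have hT : ∀ chi : G → ℂ, IsIrrChar chi → B chi F / q ∈ OL 2 := by
    intro chi hchi
    refine span_ind 2 T ?_ ?_ (hIC chi hchi)
    · show B 1 F / q ∈ OL 2
      rw [hB1, zero_div]
      exact (OL 2).zero_mem
    · intro C lam hC
      exact hcyc C lam hC
  have hint : ∀ chi : G → ℂ, IsIrrChar chi → ∃ k : ℤ, B chi F = k := by
    intro chi hchi
    obtain ⟨a, ha⟩ := mult_nat D mu hchi
    obtain ⟨b, hb⟩ := mult_nat D nu hchi
    refine ⟨(a : ℤ) - b, ?_⟩
    rw [hF, B_sub_right, B_comm chi, B_comm chi, ha, hb]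
    push_cast
    rfl
  have hsq : ∀ g : G, F (g ^ 2) = 0 := by
    intro g
    rw [hF]
    simp only [Pi.sub_apply]
    unfold indChar
    rw [← mul_sub, ← Finset.sum_sub_distrib, Finset.sum_eq_zero, mul_zero]
    intro y _
    by_contra hne
    set v := y⁻¹ * g * y with hv
    have hv2 : y⁻¹ * g ^ 2 * y = v ^ 2 := by
      rw [hv]
      have := conj_pow (i := 2) (a := y⁻¹) (b := g)
      rw [inv_inv] at this
      exact this.symm
    rw [hv2] at hne
    have hmem : v ^ 2 ∈ D := by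
      by_contra hnm
      apply hne
      unfold lamExt
      rw [dif_neg hnm, dif_neg hnm, sub_zero]
    have hneq : mu ⟨v ^ 2, hmem⟩ ≠ nu ⟨v ^ 2, hmem⟩ := by
      intro h
      apply hne
      unfold lamExt
      rw [dif_pos hmem, dif_pos hmem, h, sub_self]
    have hxv := H _ hneq
    simp only at hxv
    have hvpe : IsPE 2 v := by
      have h1 : orderOf v ∣ 2 ^ (n + 1) := by
        rw [orderOf_dvd_iff_pow_eq_one, pow_succ', pow_mul]
        have h2 : orderOf (v ^ 2) ∣ orderOf x := orderOf_dvd_of_mem_zpowers hmem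
        rw [hxn] at h2
        exact orderOf_dvd_iff_pow_eq_one.mp h2
      obtain ⟨i, _, hi⟩ := (Nat.dvd_prime_pow Nat.prime_two).mp h1
      exact ⟨i, hi⟩
    have hxv' : x ∈ Subgroup.zpowers v := by
      have : Subgroup.zpowers (v ^ 2) ≤ Subgroup.zpowers v := by
        rw [Subgroup.zpowers_le]
        exact Subgroup.pow_mem _ (Subgroup.mem_zpowers v) 2
      exact this hxv
    have hvx := hmax v hvpe hxv'
    have o1 : orderOf x ∣ orderOf (v ^ 2) := orderOf_dvd_of_mem_zpowers hxv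
    have o2 : orderOf v ∣ orderOf x := orderOf_dvd_of_mem_zpowers hvx
    have hv1 : v ≠ 1 := by
      intro h
      rw [h, one_pow, orderOf_one, hxn] at o1
      have := Nat.le_of_dvd one_pos o1
      have h3 : 2 ≤ 2 ^ n := by
        calc 2 = 2 ^ 1 := by norm_num
          _ ≤ 2 ^ n := Nat.pow_le_pow_right (by norm_num) (by omega)
      omega
    have o3 := orderOf_pow_p 2 hv1 hvpe
    have o4 := o2.trans o1
    rw [o3] at o4
    have := Nat.le_of_dvd (orderOf_pos _) o4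
    have := orderOf_pos (v ^ 2)
    omega
  have hpar := parity F hFcl q hq0' hint hT hsq
  have hFF : (Nat.card G : ℂ)⁻¹ * ∑ g : G, F g * F g = B F (indChar D mu⁻¹ - indChar D nu⁻¹) := by
    unfold B
    congr 1
    refine Finset.sum_congr rfl fun g _ => ?_
    congr 1
    rw [hF]
    simp only [Pi.sub_apply]
    have i1 : ((mu⁻¹ : D →* ℂˣ)⁻¹ : D →* ℂˣ) = mu := by
      ext d
      simp [MonoidHom.inv_apply]
    have i2 : ((nu⁻¹ : D →* ℂˣ)⁻¹ : D →* ℂˣ) = nu := by
      ext d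
      simp [MonoidHom.inv_apply]
    rw [indChar_inv, indChar_inv, i1, i2]
  obtain ⟨ε, hε, hv⟩ := hval z hz mu hmux
  have hBv : B F (indChar D mu⁻¹ - indChar D nu⁻¹) = ε * (2 * q) := by
    rw [← hv]
    have e1 : B F (indChar D mu⁻¹ - indChar D nu⁻¹)
        = B (indChar D mu) (indChar D mu⁻¹ - indChar D nu⁻¹)
          - B (indChar D nu) (indChar D mu⁻¹ - indChar D nu⁻¹) := by
      conv_lhs => rw [hF, B_sub_left]
    rw [e1, B_main x D mu mu⁻¹ nu⁻¹ H', B_main x D nu mu⁻¹ nu⁻¹ H', hnu, hk]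
    ring
  rw [hFF, hBv] at hpar
  obtain ⟨c, hc, hceq⟩ := hpar
  intro h2q
  obtain ⟨q', hq'⟩ := h2q
  have hcε : c = (ε : ℂ) / q := by
    have h3 : (2 : ℂ) * c = 2 * ((ε : ℂ) / q) := by
      rw [← hceq]
      field_simp
    exact mul_left_cancel₀ (by norm_num) h3
  have h4 : ((ε : ℤ) : ℂ) / ((2 : ℕ) : ℂ) ∈ OL 2 := by
    have h5 : ((ε : ℤ) : ℂ) / ((2 : ℕ) : ℂ) = (q' : ℂ) * c := by
      rw [hcε, hq']
      have : (q' : ℂ) ≠ 0 := by
        rw [hq'] at hq0
        push_cast at hq0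
        exact right_ne_zero_of_mul hq0
      push_cast
      field_simp
    rw [h5]
    exact (OL 2).mul_mem (OL_nat 2 q') hc
  have h6 := OL_div 2 h4
  rcases hε with h | h
  · rw [h] at h6
    norm_num at h6
  · rw [h] at h6
    norm_num at h6

end Pool.Agent.Helper884.IC
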