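import Pool.Agent.Helper884.IC.Two1

set_option linter.unusedSectionVars false
set_option linter.style.haveILetI false
set_option linter.unusedVariables false

open scoped BigOperators Classical MonoidAlgebra TensorProduct
open Representation

noncomputable section

namespace Pool.Agent.Helper884.IC

variable {G : Type} [Group G] [Fintype G]

lemma pow5 (l : ℕ) (hl : l ≡ 5 [MOD 8]) (k : ℕ) : ∃ t : ℕ, l ^ (2 ^ k) = 1 + 2 ^ (k + 2) * (2 * t + 1) := by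
  induction k with
  | zero =>
    refine ⟨l / 8, ?_⟩
    have h1 : l % 8 = 5 := hl
    simp only [pow_zero, pow_one, zero_add]
    omega
  | succ k ih =>
    obtain ⟨t, ht⟩ := ih
    refine ⟨t + 2 ^ k * (2 * t + 1) ^ 2, ?_⟩
    rw [pow_succ, pow_mul, ht]
    ring

lemma gen5 (l : ℕ) (hl : l ≡ 5 [MOD 8]) (r : ℕ) (hr : r ≡ 1 [MOD 4]) (n : ℕ) :
    ∃ j : ℕ, l ^ j ≡ r [MOD 2 ^ (n + 2)] := by
  induction n with
  | zero => exact ⟨0, by simpa using hr.symm⟩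
  | succ n ih =>
    obtain ⟨j, hj⟩ := ih
    obtain ⟨t, ht⟩ := pow5 l hl n
    have hr4 : r % 4 = 1 := hr
    obtain ⟨s, hs⟩ : ∃ s, r = 4 * s + 1 := ⟨r / 4, by omega⟩
    obtain ⟨c, hc⟩ := (Nat.modEq_iff_dvd.mp hj.symm)
    rcases Int.even_or_odd c with ⟨d, hd⟩ | ⟨d, hd⟩
    · refine ⟨j, ?_⟩
      apply Nat.ModEq.symm
      rw [Nat.modEq_iff_dvd]
      refine ⟨d, ?_⟩
      rw [hc, hd]
      push_cast
      ring
    · refine ⟨j + 2 ^ n, ?_⟩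
      apply Nat.ModEq.symm
      rw [Nat.modEq_iff_dvd]
      have h1 : ((l ^ j : ℕ) : ℤ) = r + 2 ^ (n + 2) * (2 * d + 1) := by
        rw [← hd]
        push_cast at hc ⊢
        linarith
      refine ⟨d + t + 1 + 2 * s * (2 * t + 1) + 2 ^ (n + 1) * (2 * d + 1) * (2 * t + 1), ?_⟩
      rw [pow_add, Nat.cast_mul, h1, ht, hs]
      push_cast
      ring

lemma Yset_eq (x : G) (lam : Subgroup.zpowers x →* ℂˣ) (w : ℂˣ) (M j : ℕ)
    (h : ∀ l : ℕ, (lam ⟨x, Subgroup.mem_zpowers x⟩) ^ l = w ↔ l ≡ j [MOD M]) :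
    Yset (Subgroup.zpowers x) lam x (w : ℂ) = Yj M x j := by
  have hval : ∀ (j : ℕ), lamExt (Subgroup.zpowers x) lam (x ^ j)
      = ((lam ⟨x, Subgroup.mem_zpowers x⟩ ^ j : ℂˣ) : ℂ) := by
    intro j
    rw [lamExt_pow _ _ _ (Subgroup.mem_zpowers x), Units.val_pow_eq_pow_val]
    congr 1
    unfold lamExt
    rw [dif_pos (Subgroup.mem_zpowers x)]
  ext y
  constructor
  · intro hy
    have h1 : lamExt (Subgroup.zpowers x) lam (y * x * y⁻¹) = (w : ℂ) := hy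
    have h2 : y * x * y⁻¹ ∈ Subgroup.zpowers x := lamExt_ne.mp (by rw [h1]; exact Units.ne_zero _)
    obtain ⟨l, hl⟩ := nat_pow_of_mem h2
    refine ⟨l, ?_, hl⟩
    rw [hl, hval] at h1
    exact (h l).mp (Units.ext h1)
  · rintro ⟨l, hl, hyl⟩
    show lamExt (Subgroup.zpowers x) lam (y * x * y⁻¹) = (w : ℂ)
    rw [hyl, hval, (h l).mpr hl]

lemma Yj_one (M : ℕ) (x : G) : Yj M x 1 = (stabM M x : Set G) := rfl

lemma Yj_card (M : ℕ) (x : G) (j : ℕ) (hj : j * j ≡ 1 [MOD M]) (hne : (Yj M x j).Nonempty) :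
    Nat.card (Yj M x j) = Nat.card (stabM M x) := by
  obtain ⟨y0, l0, hl0, hy0⟩ := hne
  apply le_antisymm
  · refine Nat.card_le_card_of_injective (fun y : Yj M x j => (⟨(y : G) * y0, ?_⟩ : stabM M x)) ?_
    · obtain ⟨l, hl, hy⟩ := y.2
      refine mem_stabM.mpr ⟨l * l0, ?_, ?_⟩
      · exact (hl.mul hl0).trans hj
      · have h1 : (y : G) * y0 * x * ((y : G) * y0)⁻¹ = (y : G) * (y0 * x * y0⁻¹) * (y : G)⁻¹ := by group
        rw [h1, hy0, ← conj_pow, hy, ← pow_mul]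
    · intro a b hab
      have := congrArg Subtype.val hab
      simp only at this
      exact Subtype.ext (mul_right_cancel this)
  · refine Nat.card_le_card_of_injective (fun s : stabM M x => (⟨(s : G) * y0, ?_⟩ : Yj M x j)) ?_
    · obtain ⟨l, hl, hy⟩ := mem_stabM.mp s.2
      refine ⟨l * l0, ?_, ?_⟩
      · simpa using hl.mul hl0
      · have h1 : (s : G) * y0 * x * ((s : G) * y0)⁻¹ = (s : G) * (y0 * x * y0⁻¹) * (s : G)⁻¹ := by group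
        rw [h1, hy0, ← conj_pow, hy, ← pow_mul]
    · intro a b hab
      have := congrArg Subtype.val hab
      simp only at this
      exact Subtype.ext (mul_right_cancel this)

lemma inv_pow_iff (z : ℂˣ) (M : ℕ) (hz : orderOf z = M) (i j l : ℕ) :
    (z ^ i) ^ l = (z ^ j)⁻¹ ↔ M ∣ i * l + j := by
  rw [← hz, orderOf_dvd_iff_pow_eq_one, pow_add, pow_mul, eq_inv_iff_mul_eq_one]

/-- value of the relevant inner product in terms of the sets `Yj` -/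
lemma hval_gen (x : G) (e : ℕ) (he : e = 1 ∨ e = 2) (j1 j3 : ℕ) (h1 : j1 = 2 ^ (e + 1) - 1)
    (h3 : j3 = 2 ^ e - 1)
    (z : ℂˣ) (hz : orderOf z = 2 ^ (e + 1)) (mu : Subgroup.zpowers x →* ℂˣ)
    (hmu : mu ⟨x, Subgroup.mem_zpowers x⟩ = z) :
      (Nat.card (Subgroup.zpowers x) : ℂ)⁻¹ *
        (((Nat.card (Yset (Subgroup.zpowers x) mu x (((mu⁻¹ : Subgroup.zpowers x →* ℂˣ) ⟨x, Subgroup.mem_zpowers x⟩ : ℂˣ) : ℂ)) : ℂ)
        - Nat.card (Yset (Subgroup.zpowers x) mu x ((((mu ^ (1 + 2 ^ e))⁻¹ : Subgroup.zpowers x →* ℂˣ) ⟨x, Subgroup.mem_zpowers x⟩ : ℂˣ) : ℂ)))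
        - ((Nat.card (Yset (Subgroup.zpowers x) (mu ^ (1 + 2 ^ e)) x (((mu⁻¹ : Subgroup.zpowers x →* ℂˣ) ⟨x, Subgroup.mem_zpowers x⟩ : ℂˣ) : ℂ)) : ℂ)
        - Nat.card (Yset (Subgroup.zpowers x) (mu ^ (1 + 2 ^ e)) x ((((mu ^ (1 + 2 ^ e))⁻¹ : Subgroup.zpowers x →* ℂˣ) ⟨x, Subgroup.mem_zpowers x⟩ : ℂˣ) : ℂ))))
        = (Nat.card (Subgroup.zpowers x) : ℂ)⁻¹ *
          (2 * ((Nat.card (Yj (2 ^ (e + 1)) x j1) : ℂ) - Nat.card (Yj (2 ^ (e + 1)) x j3))) := by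
  have e1 : (mu⁻¹ : Subgroup.zpowers x →* ℂˣ) ⟨x, Subgroup.mem_zpowers x⟩ = (z ^ 1)⁻¹ := by
    rw [MonoidHom.inv_apply, hmu, pow_one]
  have e2 : ((mu ^ (1 + 2 ^ e))⁻¹ : Subgroup.zpowers x →* ℂˣ) ⟨x, Subgroup.mem_zpowers x⟩
      = (z ^ (1 + 2 ^ e))⁻¹ := by
    rw [MonoidHom.inv_apply, MonoidHom.pow_apply, hmu]
  have e3 : (mu ^ (1 + 2 ^ e) : Subgroup.zpowers x →* ℂˣ) ⟨x, Subgroup.mem_zpowers x⟩
      = z ^ (1 + 2 ^ e) := by
    rw [MonoidHom.pow_apply, hmu]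
  rw [e1, e2]
  rw [Yset_eq x mu ((z ^ 1)⁻¹) (2 ^ (e + 1)) j1, Yset_eq x mu ((z ^ (1 + 2 ^ e))⁻¹) (2 ^ (e + 1)) j3,
    Yset_eq x (mu ^ (1 + 2 ^ e)) ((z ^ 1)⁻¹) (2 ^ (e + 1)) j3,
    Yset_eq x (mu ^ (1 + 2 ^ e)) ((z ^ (1 + 2 ^ e))⁻¹) (2 ^ (e + 1)) j1]
  · ring
  · intro l
    rw [e3, inv_pow_iff z _ hz, h1]
    unfold Nat.ModEq
    rcases he with rfl | rfl <;> norm_num <;> omega
  · intro l
    rw [e3, inv_pow_iff z _ hz, h3]
    unfold Nat.ModEq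
    rcases he with rfl | rfl <;> norm_num <;> omega
  · intro l
    have : mu ⟨x, Subgroup.mem_zpowers x⟩ = z ^ 1 := by rw [hmu, pow_one]
    rw [this, inv_pow_iff z _ hz, h3]
    unfold Nat.ModEq
    rcases he with rfl | rfl <;> norm_num <;> omega
  · intro l
    have : mu ⟨x, Subgroup.mem_zpowers x⟩ = z ^ 1 := by rw [hmu, pow_one]
    rw [this, inv_pow_iff z _ hz, h1]
    unfold Nat.ModEq
    rcases he with rfl | rfl <;> norm_num <;> omega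

lemma zpowers_le_stabM (M : ℕ) (x : G) : Subgroup.zpowers x ≤ stabM M x := by
  rw [Subgroup.zpowers_le]
  exact mem_stabM.mpr ⟨1, rfl, by group⟩

lemma pow_odd_of_conj {x y : G} {n l : ℕ} (hn : n ≠ 0) (hx : orderOf x = 2 ^ n) (h : y * x * y⁻¹ = x ^ l) :
    ¬ 2 ∣ l := by
  rintro ⟨t, rfl⟩
  have h1 := (MulAut.conj y).orderOf_eq x
  rw [MulAut.conj_apply, h, hx] at h1
  have h2 : (x ^ (2 * t)) ^ (2 ^ (n - 1)) = 1 := by
    rw [← pow_mul]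
    have h3 : 2 * t * 2 ^ (n - 1) = 2 ^ n * t := by
      obtain ⟨m, rfl⟩ : ∃ m, n = m + 1 := ⟨n - 1, by omega⟩
      rw [Nat.add_sub_cancel]
      ring
    rw [h3, pow_mul, ← hx, pow_orderOf_eq_one, one_pow]
  have h3 := orderOf_dvd_of_pow_eq_one h2
  rw [h1] at h3
  have h4 := (Nat.pow_dvd_pow_iff_le_right (by norm_num : 1 < 2)).mp h3
  omega

/-- step 1 -/
theorem two_step1 (hIC : HasIC G) (hnc : ¬ ∀ P : Sylow 2 G, IsCyclic P) (x : G) (n : ℕ) (hn : 2 ≤ n)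
    (hxn : orderOf x = 2 ^ n)
    (hmax : ∀ y : G, (∃ r : ℕ, orderOf y = 2 ^ r) → x ∈ Subgroup.zpowers y →
      y ∈ Subgroup.zpowers x) : ∃ l : ℕ, l ≡ 3 [MOD 4] ∧ IsConj x (x ^ l) := by
  by_contra hcon
  push Not at hcon
  obtain ⟨q, hq⟩ := Subgroup.card_dvd_of_le (zpowers_le_stabM (2 ^ (1 + 1)) x)
  have h3 : Yj (2 ^ (1 + 1)) x (2 ^ (1 + 1) - 1) = ∅ := by
    apply Set.eq_empty_of_forall_notMem
    rintro y ⟨l, hl, hy⟩
    exact hcon l hl (isConj_iff.mpr ⟨y, hy⟩)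
  have hDc : Nat.card (Subgroup.zpowers x) = 2 ^ n := by rw [Nat.card_zpowers, hxn]
  have hU := U_core hIC x n hxn hmax 1 le_rfl hn q hq (by
    intro z hz mu hmu
    refine ⟨-1, Or.inr rfl, ?_⟩
    rw [hval_gen x 1 (Or.inl rfl) _ _ rfl rfl z hz mu hmu, h3]
    have h4 : Nat.card (Yj (2 ^ (1 + 1)) x (2 ^ 1 - 1)) = 2 ^ n * q := by
      have : Nat.card (Yj (2 ^ (1 + 1)) x (2 ^ 1 - 1)) = Nat.card (stabM (2 ^ (1 + 1)) x) := rfl
      rw [this, hq, hDc]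
    have hempty : Nat.card (∅ : Set G) = 0 := by simp
    rw [h4, hempty, hDc]
    push_cast
    field_simp
    ring)
  apply hU
  have h5 := dvd_stabS 2 hnc x n (by omega) hxn
  have h6 : stabS 2 x = stabM (2 ^ (1 + 1)) x := by
    ext y
    rw [mem_stabS, mem_stabM]
    constructor
    · rintro ⟨l, hl, hy⟩
      refine ⟨l, ?_, hy⟩
      have h7 : ¬ l ≡ 3 [MOD 4] := fun h => hcon l h (isConj_iff.mpr ⟨y, hy⟩)
      unfold Nat.ModEq at *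
      norm_num
      omega
    · rintro ⟨l, hl, hy⟩
      refine ⟨l, ?_, hy⟩
      unfold Nat.ModEq at *
      norm_num at hl
      omega
  rw [h6, hq, hDc, pow_succ] at h5
  exact Nat.dvd_of_mul_dvd_mul_left (by positivity) h5

end Pool.Agent.Helper884.IC
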