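import Pool.Agent.Helper884.IC.Two2

set_option linter.unusedSectionVars false
set_option linter.style.haveILetI false
set_option linter.unusedVariables false

open scoped BigOperators Classical MonoidAlgebra TensorProduct
open Representation

noncomputable section

namespace Pool.Agent.Helper884.IC

/-- the Sylow 2-subgroups have a cyclic subgroup of index two acted on as in a 2-group of maximal class -/
def CondM (G : Type) [Group G] : Prop :=
  ∃ (x : G) (m : ℕ), 2 ≤ m ∧ orderOf x = 2 ^ m ∧ (Nat.card G).factorization 2 = m + 1 ∧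
    ∃ l : ℕ, l ≡ 3 [MOD 4] ∧ IsConj x (x ^ l)

variable {G : Type} [Group G] [Fintype G]

/-- if `x` is conjugate to powers with exponents 5 mod 8 and 3 mod 4 it is rational -/
lemma rat_of_gens (x : G) (n : ℕ) (hn : 2 ≤ n) (hxn : orderOf x = 2 ^ n)
    (h3 : ∃ l : ℕ, l ≡ 3 [MOD 4] ∧ IsConj x (x ^ l))
    (h5 : n = 2 ∨ ∃ l : ℕ, l ≡ 5 [MOD 8] ∧ IsConj x (x ^ l)) (k : ℕ) (hk : ¬ 2 ∣ k) :
    IsConj x (x ^ k) := by
  -- exponents 1 mod 4
  have key1 : ∀ r : ℕ, r ≡ 1 [MOD 4] → IsConj x (x ^ r) := by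
    intro r hr
    rcases h5 with h5 | ⟨l, hl, hc⟩
    · have : x ^ r = x ^ 1 := by
        rw [pow_eq_pow_iff_modEq, hxn, h5]
        exact hr
      rw [this, pow_one]
    · obtain ⟨j, hj⟩ := gen5 l hl r hr (n - 2)
      have e1 : n - 2 + 2 = n := by omega
      rw [e1] at hj
      obtain ⟨y, hy⟩ := isConj_iff.mp hc
      refine isConj_iff.mpr ⟨y ^ j, ?_⟩
      rw [conj_iter y x l hy j, pow_eq_pow_iff_modEq, hxn]
      exact hj
  have hk4 : k ≡ 1 [MOD 4] ∨ k ≡ 3 [MOD 4] := by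
    unfold Nat.ModEq
    omega
  rcases hk4 with hk4 | hk4
  · exact key1 k hk4
  · obtain ⟨l, hl, hc⟩ := h3
    have hcop : l.Coprime (2 ^ n) := by
      apply Nat.Coprime.pow_right
      rw [Nat.coprime_two_right, Nat.odd_iff]
      unfold Nat.ModEq at hl
      omega
    have h2n : 1 < 2 ^ n := Nat.one_lt_pow (by omega) (by norm_num)
    obtain ⟨i0, _, hi0⟩ := Nat.exists_mul_mod_eq_one_of_coprime hcop h2n
    have hi0' : l * i0 ≡ 1 [MOD 2 ^ n] := by
      show l * i0 % 2 ^ n = 1 % 2 ^ n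
      rw [hi0, Nat.mod_eq_of_lt h2n]
    have hi4 : l * i0 ≡ 1 [MOD 4] := hi0'.of_dvd (by
      have : (4 : ℕ) = 2 ^ 2 := by norm_num
      rw [this]
      exact pow_dvd_pow 2 hn)
    have hr : k * i0 ≡ 1 [MOD 4] := (hk4.mul_right i0).trans ((hl.symm.mul_right i0).trans hi4)
    obtain ⟨y1, hy1⟩ := isConj_iff.mp (key1 (k * i0) hr)
    obtain ⟨y0, hy0⟩ := isConj_iff.mp hc
    refine isConj_iff.mpr ⟨y1 * y0, ?_⟩
    have e3 : y1 * y0 * x * (y1 * y0)⁻¹ = y1 * (y0 * x * y0⁻¹) * y1⁻¹ := by group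
    rw [e3, hy0, ← conj_pow, hy1, ← pow_mul, pow_eq_pow_iff_modEq, hxn]
    have h4 : k * i0 * l = k * (l * i0) := by ring
    rw [h4]
    simpa using (Nat.ModEq.refl k).mul hi0'

/-- step 2: no exponent 5 mod 8 forces a Sylow 2-subgroup of maximal class -/
theorem two_step2 (hIC : HasIC G) (hnc : ¬ ∀ P : Sylow 2 G, IsCyclic P) (x : G) (n : ℕ) (hn : 3 ≤ n)
    (hxn : orderOf x = 2 ^ n)
    (hmax : ∀ y : G, (∃ r : ℕ, orderOf y = 2 ^ r) → x ∈ Subgroup.zpowers y →
      y ∈ Subgroup.zpowers x) (h5 : ∀ l : ℕ, l ≡ 5 [MOD 8] → ¬ IsConj x (x ^ l)) : CondM G := by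
  obtain ⟨l3, hl3, hc3⟩ := two_step1 hIC hnc x n (by omega) hxn hmax
  obtain ⟨y3, hy3⟩ := isConj_iff.mp hc3
  obtain ⟨q, hq⟩ := Subgroup.card_dvd_of_le (zpowers_le_stabM (2 ^ (2 + 1)) x)
  have hDc : Nat.card (Subgroup.zpowers x) = 2 ^ n := by rw [Nat.card_zpowers, hxn]
  set S8 := stabM (2 ^ (2 + 1)) x with hS8
  -- exactly one of the two cosets is nonempty
  have hcase : ((Yj (2 ^ (2 + 1)) x 7).Nonempty ∧ Yj (2 ^ (2 + 1)) x 3 = ∅) ∨
      ((Yj (2 ^ (2 + 1)) x 3).Nonempty ∧ Yj (2 ^ (2 + 1)) x 7 = ∅) := by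
    have hno : ∀ y y' : G, y ∈ Yj (2 ^ (2 + 1)) x 7 → y' ∈ Yj (2 ^ (2 + 1)) x 3 → False := by
      rintro y y' ⟨l, hl, hy⟩ ⟨l', hl', hy'⟩
      refine h5 (l * l') ?_ (isConj_iff.mpr ⟨y * y', ?_⟩)
      · have h6 := hl.mul hl'
        unfold Nat.ModEq at h6 ⊢
        norm_num at h6 ⊢
        exact h6
      · have e3 : y * y' * x * (y * y')⁻¹ = y * (y' * x * y'⁻¹) * y⁻¹ := by group
        rw [e3, hy', ← conj_pow, hy, ← pow_mul]
    have h37 : l3 ≡ 3 [MOD 8] ∨ l3 ≡ 7 [MOD 8] := by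
      unfold Nat.ModEq at *
      omega
    rcases h37 with h | h
    · right
      refine ⟨⟨y3, l3, h, hy3⟩, ?_⟩
      apply Set.eq_empty_of_forall_notMem
      intro y hy
      exact hno y y3 hy ⟨l3, h, hy3⟩
    · left
      refine ⟨⟨y3, l3, h, hy3⟩, ?_⟩
      apply Set.eq_empty_of_forall_notMem
      intro y hy
      exact hno y3 y ⟨l3, h, hy3⟩ hy
  have hempty : Nat.card (∅ : Set G) = 0 := by simp
  have hU : ¬ 2 ∣ q := by
    refine U_core hIC x n hxn hmax 2 (by norm_num) hn q hq ?_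
    intro z hz mu hmu
    rw [hval_gen x 2 (Or.inr rfl) _ _ rfl rfl z hz mu hmu]
    have e7 : 2 ^ (2 + 1) - 1 = 7 := by norm_num
    have e3 : 2 ^ 2 - 1 = 3 := by norm_num
    rw [e7, e3]
    rcases hcase with ⟨h7, h3⟩ | ⟨h3, h7⟩
    · refine ⟨1, Or.inl rfl, ?_⟩
      rw [Yj_card _ _ 7 (by decide) h7, h3, hempty, hDc]
      rw [← hS8, hq, hDc]
      push_cast
      field_simp
      ring
    · refine ⟨-1, Or.inr rfl, ?_⟩
      rw [Yj_card _ _ 3 (by decide) h3, h7, hempty, hDc]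
      rw [← hS8, hq, hDc]
      push_cast
      field_simp
      ring
  -- S2
  have hS2 : Nat.card (stabS 2 x) = 2 ^ (n + 1) * q := by
    have h1 : (stabS 2 x : Set G) = (Yj (2 ^ (2 + 1)) x 1) ∪ ((Yj (2 ^ (2 + 1)) x 3) ∪ (Yj (2 ^ (2 + 1)) x 7)) := by
      ext y
      constructor
      · rintro ⟨l, hl, hy⟩
        have h7 : ¬ l ≡ 5 [MOD 8] := fun h => h5 l h (isConj_iff.mpr ⟨y, hy⟩)
        have : l ≡ 1 [MOD 8] ∨ l ≡ 3 [MOD 8] ∨ l ≡ 7 [MOD 8] := by
          unfold Nat.ModEq at *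
          omega
        rcases this with h | h | h
        · left; exact ⟨l, h, hy⟩
        · right; left; exact ⟨l, h, hy⟩
        · right; right; exact ⟨l, h, hy⟩
      · rintro (⟨l, hl, hy⟩ | ⟨l, hl, hy⟩ | ⟨l, hl, hy⟩)
        all_goals
          refine ⟨l, ?_, hy⟩
          unfold Nat.ModEq at *
          norm_num at hl
          omega
    have hdisj : ∀ j : ℕ, j = 3 ∨ j = 7 → Disjoint (Yj (2 ^ (2 + 1)) x 1) (Yj (2 ^ (2 + 1)) x j) := by
      intro j hj
      rw [Set.disjoint_left]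
      rintro y ⟨l, hl, hy⟩ ⟨l', hl', hy'⟩
      rw [hy, pow_eq_pow_iff_modEq, hxn] at hy'
      have h8 : l ≡ l' [MOD 8] := hy'.of_dvd (by
        have : (8 : ℕ) = 2 ^ 3 := by norm_num
        rw [this]
        exact pow_dvd_pow 2 hn)
      unfold Nat.ModEq at *
      norm_num at hl hl'
      rcases hj with rfl | rfl <;> omega
    have hfin : ∀ s : Set G, s.Finite := fun s => Set.toFinite s
    have hunion : (stabS 2 x : Set G) = (Yj (2 ^ (2 + 1)) x 1) ∪ (Yj (2 ^ (2 + 1)) x 3) ∨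
        (stabS 2 x : Set G) = (Yj (2 ^ (2 + 1)) x 1) ∪ (Yj (2 ^ (2 + 1)) x 7) := by
      rcases hcase with ⟨h7, h3⟩ | ⟨h3, h7⟩
      · right; rw [h1, h3, Set.empty_union]
      · left; rw [h1, h7, Set.union_empty]
    have hcount : (stabS 2 x : Set G).ncard = (Yj (2 ^ (2 + 1)) x 1).ncard + Nat.card S8 := by
      rcases hcase with ⟨h7, h3⟩ | ⟨h3, h7⟩
      · have hu : (stabS 2 x : Set G) = (Yj (2 ^ (2 + 1)) x 1) ∪ (Yj (2 ^ (2 + 1)) x 7) := by
          rw [h1, h3, Set.empty_union]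
        rw [hu, Set.ncard_union_eq (hdisj 7 (Or.inr rfl)) (hfin _) (hfin _),
          ← Nat.card_coe_set_eq (Yj (2 ^ (2 + 1)) x 7), Yj_card _ _ 7 (by decide) h7]
      · have hu : (stabS 2 x : Set G) = (Yj (2 ^ (2 + 1)) x 1) ∪ (Yj (2 ^ (2 + 1)) x 3) := by
          rw [h1, h7, Set.union_empty]
        rw [hu, Set.ncard_union_eq (hdisj 3 (Or.inl rfl)) (hfin _) (hfin _),
          ← Nat.card_coe_set_eq (Yj (2 ^ (2 + 1)) x 3), Yj_card _ _ 3 (by decide) h3]
    have h9 : (Yj (2 ^ (2 + 1)) x 1).ncard = Nat.card S8 := by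
      rw [← Nat.card_coe_set_eq]
      rfl
    have h10 : Nat.card (stabS 2 x) = (stabS 2 x : Set G).ncard := by
      rw [← Nat.card_coe_set_eq]
      rfl
    rw [h10, hcount, h9, hq, hDc]
    ring
  -- a Sylow 2-subgroup of S2 containing x
  have hxS2 : Subgroup.zpowers x ≤ stabS 2 x := by
    rw [Subgroup.zpowers_le]
    exact ⟨1, rfl, by group⟩
  have hDp : IsPGroup 2 ((Subgroup.zpowers x).subgroupOf (stabS 2 x)) := by
    apply IsPGroup.of_card (n := n)
    rw [← hDc]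
    exact Nat.card_congr (Subgroup.subgroupOfEquivOfLe hxS2).toEquiv
  obtain ⟨Q0, hQ0⟩ := hDp.exists_le_sylow
  set Q := (Q0 : Subgroup (stabS 2 x)).map (stabS 2 x).subtype with hQ
  have hQle : Q ≤ stabS 2 x := by
    rintro z ⟨z', hz', rfl⟩
    exact z'.2
  have hfac : (Nat.card (stabS 2 x)).factorization 2 = n + 1 := by
    have hq0 : q ≠ 0 := fun h => hU (h ▸ dvd_zero 2)
    rw [hS2, Nat.factorization_mul (by positivity) hq0, Finsupp.add_apply,
      Nat.Prime.factorization_pow Nat.prime_two, Finsupp.single_eq_same,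
      Nat.factorization_eq_zero_of_not_dvd hU, add_zero]
  have hQc : Nat.card Q = 2 ^ (n + 1) := by
    have h1 : Nat.card Q = Nat.card Q0 :=
      Nat.card_congr ((Q0 : Subgroup (stabS 2 x)).equivMapOfInjective (stabS 2 x).subtype
        (stabS 2 x).subtype_injective).toEquiv.symm
    rw [h1, Q0.card_eq_multiplicity, hfac]
  have hxQ : x ∈ Q := by
    refine ⟨⟨x, hxS2 (Subgroup.mem_zpowers x)⟩, ?_, rfl⟩
    apply hQ0
    rw [Subgroup.mem_subgroupOf]
    exact Subgroup.mem_zpowers x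
  -- Q ∩ S8 = D
  have hQS8 : Q ⊓ S8 = Subgroup.zpowers x := by
    symm
    apply Subgroup.eq_of_le_of_card_ge
    · rw [Subgroup.zpowers_le]
      exact ⟨hxQ, zpowers_le_stabM _ x (Subgroup.mem_zpowers x)⟩
    · have h1 : Nat.card (Q ⊓ S8 : Subgroup G) ∣ 2 ^ (n + 1) := by
        rw [← hQc]; exact Subgroup.card_dvd_of_le inf_le_left
      have h2 : Nat.card (Q ⊓ S8 : Subgroup G) ∣ 2 ^ n * q := by
        rw [← hDc, ← hq]; exact Subgroup.card_dvd_of_le inf_le_right
      obtain ⟨i, hi, hi'⟩ := (Nat.dvd_prime_pow Nat.prime_two).mp h1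
      rw [hi'] at h2 ⊢
      rw [hDc]
      have h3 : (2 ^ i).Coprime q := Nat.Coprime.pow_left i
        ((Nat.Prime.coprime_iff_not_dvd Nat.prime_two).mpr hU)
      exact Nat.le_of_dvd (by positivity) (h3.dvd_of_dvd_mul_right h2)
  have hnorm : Subgroup.normalizer (Q : Set G) ≤ stabS 2 x := by
    intro g hg
    have hgx : g * x * g⁻¹ ∈ Q := (Subgroup.mem_normalizer_iff.mp hg x).mp hxQ
    set v := g * x * g⁻¹ with hv
    have hvo : orderOf v = 2 ^ n := by
      have h1 := (MulAut.conj g).orderOf_eq x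
      rw [MulAut.conj_apply] at h1
      rw [hv, h1, hxn]
    by_cases hvD : v ∈ Subgroup.zpowers x
    · obtain ⟨j, hj⟩ := nat_pow_of_mem hvD
      refine ⟨j, ?_, hj⟩
      have := pow_odd_of_conj (by omega) hxn hj
      unfold Nat.ModEq
      omega
    · exfalso
      obtain ⟨l, hl, hvl⟩ := hQle hgx
      have hvS8 : v ∉ S8 := by
        intro h
        apply hvD
        rw [← hQS8]
        exact ⟨hgx, h⟩
      have hl1 : ¬ l ≡ 1 [MOD 8] := by
        intro h
        apply hvS8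
        exact mem_stabM.mpr ⟨l, by simpa using h, hvl⟩
      have hl5 : ¬ l ≡ 5 [MOD 8] := fun h => h5 l h (isConj_iff.mpr ⟨v, hvl⟩)
      have hl4 : l % 4 = 3 := by
        unfold Nat.ModEq at *
        omega
      have hv2 : v ^ 2 ∈ Subgroup.zpowers x := by
        rw [← hQS8]
        refine ⟨Subgroup.pow_mem _ hgx 2, mem_stabM.mpr ⟨l ^ 2, ?_, conj_iter v x l hvl 2⟩⟩
        have : l ≡ 3 [MOD 8] ∨ l ≡ 7 [MOD 8] := by
          unfold Nat.ModEq
          omega
        rcases this with h | h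
        · have := h.pow 2
          unfold Nat.ModEq at this ⊢
          norm_num at this ⊢
          exact this
        · have := h.pow 2
          unfold Nat.ModEq at this ⊢
          norm_num at this ⊢
          exact this
      obtain ⟨s, hs⟩ := nat_pow_of_mem hv2
      have hcomm : v * v ^ 2 * v⁻¹ = v ^ 2 := by group
      rw [hs, ← conj_pow, hvl, ← pow_mul, pow_eq_pow_iff_modEq, hxn] at hcomm
      have h6 : 2 ^ n ∣ 2 * s := by
        have h7 := (Nat.modEq_iff_dvd.mp hcomm.symm)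
        obtain ⟨t, ht⟩ : ∃ t, l = 4 * t + 3 := ⟨l / 4, by omega⟩
        have h8 : (((2 ^ n : ℕ) : ℤ)) ∣ ((2 * s * (2 * t + 1) : ℕ) : ℤ) := by
          have : (((l * s : ℕ) : ℤ) - (s : ℤ)) = ((2 * s * (2 * t + 1) : ℕ) : ℤ) := by
            rw [ht]; push_cast; ring
          rw [← this]; exact h7
        have h9 : 2 ^ n ∣ 2 * s * (2 * t + 1) := by exact_mod_cast h8
        have h10 : (2 ^ n).Coprime (2 * t + 1) := by
          apply Nat.Coprime.pow_left
          rw [Nat.coprime_two_left]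
          exact ⟨t, rfl⟩
        exact h10.dvd_of_dvd_mul_right h9
      have h11 : v ^ 4 = 1 := by
        have : v ^ 4 = (v ^ 2) ^ 2 := by rw [← pow_mul]
        rw [this, hs, ← pow_mul, mul_comm, ← orderOf_dvd_iff_pow_eq_one, hxn]
        exact h6
      have h12 := orderOf_dvd_of_pow_eq_one h11
      rw [hvo] at h12
      have h13 : 2 ^ 3 ∣ 2 ^ n := pow_dvd_pow 2 hn
      have h14 := h13.trans h12
      norm_num at h14
  refine ⟨x, n, by omega, hxn, ?_, l3, hl3, hc3⟩
  apply le_antisymm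
  · by_contra hlt
    push Not at hlt
    have h1 : 2 ^ (n + 1 + 1) ∣ Nat.card G :=
      (Nat.prime_two.pow_dvd_iff_le_factorization Nat.card_pos.ne').mpr hlt
    have h2 := Sylow.prime_pow_dvd_card_normalizer h1 hQc
    have h3 := h2.trans (Subgroup.card_dvd_of_le hnorm)
    rw [hS2, pow_succ] at h3
    exact hU (Nat.dvd_of_mul_dvd_mul_left (by positivity) h3)
  · rw [← hfac]
    exact (Nat.factorization_le_iff_dvd Nat.card_pos.ne' Nat.card_pos.ne').mpr
      (Subgroup.card_subgroup_dvd_card _) 2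

/-- necessity at the prime 2 -/
theorem nec_two (hIC : HasIC G) (hnc : ¬ ∀ P : Sylow 2 G, IsCyclic P) :
    CondA 2 G ∧ ((CondB 2 G ∧ CondC 2 G) ∨ CondM G) := by
  refine ⟨fun s hs hps => nec_a hIC 2 hnc s hs hps, ?_⟩
  by_cases hM : CondM G
  · right; exact hM
  · left
    have hB : CondB 2 G := by
      intro u hu k hk
      obtain ⟨x, hx1, hx2, hx3⟩ := exists_maxAbove 2 u hu
      have hmax : ∀ y : G, (∃ r : ℕ, orderOf y = 2 ^ r) → x ∈ Subgroup.zpowers y →
          y ∈ Subgroup.zpowers x := by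
        intro y hy hxy
        have h1 : Subgroup.zpowers x ≤ Subgroup.zpowers y := by rwa [Subgroup.zpowers_le]
        have h2 := hx3 y hy (h1 hx2)
        have h3 : Subgroup.zpowers x = Subgroup.zpowers y := by
          apply Subgroup.eq_of_le_of_card_ge h1
          rw [Nat.card_zpowers, Nat.card_zpowers]
          exact h2
        rw [h3]
        exact Subgroup.mem_zpowers y
      obtain ⟨n, hn⟩ := hx1
      have h1 : IsConj x (x ^ k) := by
        by_cases hn2 : n < 2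
        · have : x ^ k = x ^ 1 := by
            rw [pow_eq_pow_iff_modEq, hn]
            have : n = 0 ∨ n = 1 := by omega
            rcases this with rfl | rfl
            · simpa using Nat.modEq_one
            · unfold Nat.ModEq
              norm_num
              omega
          rw [this, pow_one]
        · push Not at hn2
          have h3 := two_step1 hIC hnc x n hn2 hn hmax
          apply rat_of_gens x n hn2 hn h3 ?_ k hk
          by_cases hn3 : n = 2
          · left; exact hn3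
          · right
            by_contra hcon
            push Not at hcon
            exact hM (two_step2 hIC hnc x n (by omega) hn hmax hcon)
      obtain ⟨y, hy⟩ := isConj_iff.mp h1
      obtain ⟨a, ha⟩ := nat_pow_of_mem hx2
      refine isConj_iff.mpr ⟨y, ?_⟩
      rw [ha, ← conj_pow, hy, ← pow_mul, ← pow_mul, mul_comm]
    exact ⟨hB, nec_c hIC 2 hB⟩

end Pool.Agent.Helper884.IC
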