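import Pool.Agent.Helper884.IC.Two3

set_option linter.unusedSectionVars false
set_option linter.style.haveILetI false
set_option linter.unusedVariables false

open scoped BigOperators Classical MonoidAlgebra TensorProduct
open Representation

noncomputable section

namespace Pool.Agent.Helper884.IC

variable {G : Type} [Group G] [Fintype G]

/-- sum over a finite set of naturals with an involution preserving the function -/
lemma invol_sum (s : Finset ℕ) (σ : ℕ → ℕ) (hσ : ∀ j ∈ s, σ j ∈ s) (hσσ : ∀ j ∈ s, σ (σ j) = j)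
    (φ : ℕ → ℂ) (hφ : ∀ j ∈ s, φ (σ j) = φ j) (hO : ∀ j ∈ s, φ j ∈ OL 2) :
    Ev (∑ j ∈ s, φ j - ∑ j ∈ s.filter (fun j => σ j = j), φ j) := by
  have h1 := Finset.sum_filter_add_sum_filter_not s (fun j => σ j = j) φ
  have h2 := Finset.sum_filter_add_sum_filter_not (s.filter (fun j => ¬ σ j = j)) (fun j => j < σ j) φ
  have h3 : ∑ j ∈ (s.filter (fun j => ¬ σ j = j)).filter (fun j => ¬ j < σ j), φ j
      = ∑ j ∈ (s.filter (fun j => ¬ σ j = j)).filter (fun j => j < σ j), φ j := by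
    refine Finset.sum_nbij' σ σ ?_ ?_ ?_ ?_ ?_
    · intro j hj
      simp only [Finset.mem_filter] at hj ⊢
      obtain ⟨⟨hj1, hj2⟩, hj3⟩ := hj
      refine ⟨⟨hσ j hj1, ?_⟩, ?_⟩
      · rw [hσσ j hj1]; exact fun h => hj2 h.symm
      · rw [hσσ j hj1]; omega
    · intro j hj
      simp only [Finset.mem_filter] at hj ⊢
      obtain ⟨⟨hj1, hj2⟩, hj3⟩ := hj
      refine ⟨⟨hσ j hj1, ?_⟩, ?_⟩
      · rw [hσσ j hj1]; exact fun h => hj2 h.symm
      · rw [hσσ j hj1]; omega
    · intro j hj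
      simp only [Finset.mem_filter] at hj
      exact hσσ j hj.1.1
    · intro j hj
      simp only [Finset.mem_filter] at hj
      exact hσσ j hj.1.1
    · intro j hj
      simp only [Finset.mem_filter] at hj
      exact (hφ j hj.1.1).symm
  refine ⟨∑ j ∈ (s.filter (fun j => ¬ σ j = j)).filter (fun j => j < σ j), φ j, ?_, ?_⟩
  · refine (OL 2).sum_mem fun j hj => hO j ?_
    simp only [Finset.mem_filter] at hj
    exact hj.1.1
  · rw [← h1, ← h2, h3]
    ring

/-- Fourier coefficient on a subgroup -/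
def co (C : Subgroup G) (lam : C →* ℂˣ) (F : G → ℂ) : ℂ :=
  (Nat.card C : ℂ)⁻¹ * ∑ c : C, ((lam c : ℂˣ) : ℂ) * F ((c : G)⁻¹)

lemma co_pow (C : Subgroup G) (u : G) (l : ℕ) (hu : ∀ d ∈ C, u * d * u⁻¹ = d ^ l) (lam : C →* ℂˣ)
    (F : G → ℂ) (hF : IsClass F) : co C (lam ^ l) F = co C lam F := by
  unfold co
  congr 1
  have hinj : Function.Injective (fun d : C => d ^ l) := by
    intro a b hab
    have h1 : (a : G) ^ l = (b : G) ^ l := by
      have := congrArg Subtype.val hab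
      simpa using this
    rw [← hu a a.2, ← hu b b.2] at h1
    exact Subtype.ext (mul_left_cancel (mul_right_cancel h1))
  have hbij := Finite.injective_iff_bijective.mp hinj
  symm
  rw [← hbij.sum_comp]
  refine Finset.sum_congr rfl fun d _ => ?_
  have h3 : (((d ^ l : C) : G))⁻¹ = u * (d : G)⁻¹ * u⁻¹ := by
    rw [Subgroup.coe_pow, ← hu d d.2]; group
  rw [h3, hF, MonoidHom.pow_apply, map_pow]

lemma pair_ev (C : Subgroup G) (hC : IsCyclic C) (k : ℕ) (hk : 1 ≤ k) (hcard : Nat.card C = 2 ^ k)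
    (u : G) (l : ℕ) (hl4 : l ≡ 3 [MOD 4]) (hll : l * l ≡ 1 [MOD 2 ^ k])
    (hu : ∀ d ∈ C, u * d * u⁻¹ = d ^ l) (f h : G → ℂ) (hf : IsClass f) (hh : IsClass h)
    (cf : CI 2 f) (ch : CI 2 h) (f1 : f 1 = 0) (h1 : h 1 = 0) :
    Ev ((Nat.card C : ℂ)⁻¹ * ∑ d : C, f d * h d) := by
  obtain ⟨lam, hlam⟩ := exists_faithful hC
  set lam' : C →* ℂˣ := lam⁻¹ with hlam'd
  have hlam' : Function.Injective lam' := by
    intro a b hab
    apply hlam
    rw [hlam'd, MonoidHom.inv_apply, MonoidHom.inv_apply] at hab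
    exact inv_injective hab
  have expf : ∀ c : C, f c = ∑ j ∈ Finset.range (Nat.card C), co C (lam ^ j) f * (((lam ^ j) c : ℂˣ) : ℂ) :=
    fun c => fourier lam hlam (fun c : C => f c) c
  have exph : ∀ c : C, h c = ∑ j ∈ Finset.range (Nat.card C), co C (lam' ^ j) h * (((lam' ^ j) c : ℂˣ) : ℂ) :=
    fun c => fourier lam' hlam' (fun c : C => h c) c
  have hco' : ∀ j : ℕ, (Nat.card C : ℂ)⁻¹ * ∑ d : C, (((lam ^ j) d : ℂˣ) : ℂ) * h d = co C (lam' ^ j) h := by
    intro j
    unfold co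
    congr 1
    refine Fintype.sum_equiv (Equiv.inv C) _ _ fun d => ?_
    simp only [Equiv.inv_apply, MonoidHom.pow_apply, hlam'd, MonoidHom.inv_apply, map_inv, inv_inv,
      Subgroup.coe_inv]
    rw [inv_pow, inv_inv]
  have hT : (Nat.card C : ℂ)⁻¹ * ∑ d : C, f d * h d
      = ∑ j ∈ Finset.range (Nat.card C), co C (lam ^ j) f * co C (lam' ^ j) h := by
    have e1 : ∀ d : C, f d * h d = ∑ j ∈ Finset.range (Nat.card C),
        co C (lam ^ j) f * ((((lam ^ j) d : ℂˣ) : ℂ) * h d) := by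
      intro d
      rw [expf d, Finset.sum_mul]
      refine Finset.sum_congr rfl fun j _ => ?_
      ring
    simp only [e1]
    rw [Finset.sum_comm, Finset.mul_sum]
    refine Finset.sum_congr rfl fun j _ => ?_
    rw [← Finset.mul_sum, ← hco' j]
    ring
  have hone : ∀ mu : C →* ℂˣ, mu ^ (2 ^ k) = 1 := by
    intro mu
    ext d
    rw [MonoidHom.pow_apply, ← map_pow, ← hcard, pow_card_eq_one', map_one, MonoidHom.one_apply]
  set σ : ℕ → ℕ := fun j => (j * l) % 2 ^ k with hσ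
  have hpowσ : ∀ (mu : C →* ℂˣ) (j : ℕ), mu ^ (σ j) = (mu ^ j) ^ l := by
    intro mu j
    ext d
    have e1 : (mu d) ^ (2 ^ k) = 1 := by
      rw [← MonoidHom.pow_apply, hone mu, MonoidHom.one_apply]
    have e2 : (mu d) ^ (j * l % 2 ^ k) = (mu d) ^ (j * l) := (pow_eq_pow_mod _ e1).symm
    simp only [hσ, MonoidHom.pow_apply]
    rw [e2, pow_mul]
  have hinv1 : ∀ j, co C (lam ^ (σ j)) f = co C (lam ^ j) f := by
    intro j
    rw [hpowσ, co_pow C u l hu _ f hf]
  have hinv2 : ∀ j, co C (lam' ^ (σ j)) h = co C (lam' ^ j) h := by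
    intro j
    rw [hpowσ, co_pow C u l hu _ h hh]
  have hpos : 0 < 2 ^ k := by positivity
  have hs1 : ∀ j ∈ Finset.range (2 ^ k), σ j ∈ Finset.range (2 ^ k) := by
    intro j _
    rw [Finset.mem_range]
    exact Nat.mod_lt _ hpos
  have hs2 : ∀ j ∈ Finset.range (2 ^ k), σ (σ j) = j := by
    intro j hj
    rw [Finset.mem_range] at hj
    simp only [hσ]
    rw [Nat.mod_mul_mod]
    have e1 : j * l * l ≡ j [MOD 2 ^ k] := by
      have := hll.mul_left j
      rw [mul_one, ← mul_assoc] at this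
      exact this
    have e2 : j * l * l % 2 ^ k = j % 2 ^ k := e1
    rw [e2, Nat.mod_eq_of_lt hj]
  have hfix : (Finset.range (2 ^ k)).filter (fun j => σ j = j) = {0, 2 ^ (k - 1)} := by
    obtain ⟨k', rfl⟩ : ∃ k', k = k' + 1 := ⟨k - 1, by omega⟩
    ext j
    simp only [Finset.mem_filter, Finset.mem_range, Finset.mem_insert, Finset.mem_singleton,
      Nat.add_sub_cancel]
    have hl4' : l % 4 = 3 := hl4
    obtain ⟨t, ht⟩ : ∃ t, l = 4 * t + 3 := ⟨l / 4, by omega⟩
    constructor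
    · rintro ⟨hj, hfixj⟩
      simp only [hσ] at hfixj
      have e1 : j * l ≡ j [MOD 2 ^ (k' + 1)] := by
        show j * l % 2 ^ (k' + 1) = j % 2 ^ (k' + 1)
        rw [hfixj, Nat.mod_eq_of_lt hj]
      have e2 := Nat.modEq_iff_dvd.mp e1.symm
      have e3 : ((2 ^ (k' + 1) : ℕ) : ℤ) ∣ ((2 * (j * (2 * t + 1)) : ℕ) : ℤ) := by
        have : (((j * l : ℕ) : ℤ) - (j : ℤ)) = ((2 * (j * (2 * t + 1)) : ℕ) : ℤ) := by
          rw [ht]; push_cast; ring
        rw [← this]; exact e2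
      have e4 : 2 ^ (k' + 1) ∣ 2 * (j * (2 * t + 1)) := by exact_mod_cast e3
      rw [pow_succ'] at e4
      have e5 := Nat.dvd_of_mul_dvd_mul_left (by norm_num) e4
      have e6 : (2 ^ k').Coprime (2 * t + 1) := by
        apply Nat.Coprime.pow_left
        rw [Nat.coprime_two_left]
        exact ⟨t, rfl⟩
      obtain ⟨r, hr⟩ := e6.dvd_of_dvd_mul_right e5
      rw [hr, pow_succ] at hj
      have hr2 : r < 2 := Nat.lt_of_mul_lt_mul_left hj
      interval_cases r
      · left; simpa using hr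
      · right; simpa using hr
    · rintro (rfl | rfl)
      · refine ⟨hpos, ?_⟩
        simp [hσ]
      · refine ⟨Nat.pow_lt_pow_right (by norm_num) (by omega), ?_⟩
        simp only [hσ]
        have e1 : 2 ^ k' * l = 2 ^ k' + 2 ^ (k' + 1) * (2 * t + 1) := by
          rw [ht]; ring
        rw [e1, Nat.add_mul_mod_self_left]
        exact Nat.mod_eq_of_lt (Nat.pow_lt_pow_right (by norm_num) (by omega))
  have hne : (0 : ℕ) ≠ 2 ^ (k - 1) := by positivity
  have a1 := invol_sum (Finset.range (2 ^ k)) σ hs1 hs2 (fun j => co C (lam ^ j) f)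
    (fun j _ => hinv1 j) (fun j _ => cf C _ hC)
  have a2 := invol_sum (Finset.range (2 ^ k)) σ hs1 hs2 (fun j => co C (lam' ^ j) h)
    (fun j _ => hinv2 j) (fun j _ => ch C _ hC)
  have a3 := invol_sum (Finset.range (2 ^ k)) σ hs1 hs2 (fun j => co C (lam ^ j) f * co C (lam' ^ j) h)
    (fun j _ => by rw [hinv1 j, hinv2 j]) (fun j _ => (OL 2).mul_mem (cf C _ hC) (ch C _ hC))
  rw [hfix, Finset.sum_pair hne] at a1 a2 a3
  have b1 : ∑ j ∈ Finset.range (2 ^ k), co C (lam ^ j) f = 0 := by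
    have := expf 1
    rw [hcard] at this
    simpa [f1] using this.symm
  have b2 : ∑ j ∈ Finset.range (2 ^ k), co C (lam' ^ j) h = 0 := by
    have := exph 1
    rw [hcard] at this
    simpa [h1] using this.symm
  rw [b1] at a1
  rw [b2] at a2
  rw [hT, hcard]
  set n0 := co C (lam ^ 0) f
  set n1 := co C (lam ^ 2 ^ (k - 1)) f
  set m0 := co C (lam' ^ 0) h
  set m1 := co C (lam' ^ 2 ^ (k - 1)) h
  have hn1 : n1 ∈ OL 2 := cf C _ hC
  have hm0 : m0 ∈ OL 2 := ch C _ hC
  have hm1 : m1 ∈ OL 2 := ch C _ hC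
  have c1 : Ev (n0 + n1) := by
    have := a1.neg
    have e : -(0 - (n0 + n1)) = n0 + n1 := by ring
    rwa [e] at this
  have c2 : Ev (m0 + m1) := by
    have := a2.neg
    have e : -(0 - (m0 + m1)) = m0 + m1 := by ring
    rwa [e] at this
  have c3 : Ev (n0 * m0 + n1 * m1) := by
    have e : n0 * m0 + n1 * m1 = m0 * (n0 + n1) + ((-n1) * (m0 + m1) + 2 * (n1 * m1)) := by ring
    rw [e]
    refine (c1.mul_left hm0).add ((c2.mul_left ((OL 2).neg_mem hn1)).add ⟨n1 * m1, (OL 2).mul_mem hn1 hm1, rfl⟩)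
  have c4 := a3.add c3
  have e : ∀ a b : ℂ, a - b + b = a := by intros; ring
  rwa [e] at c4

lemma sum_zp (w : G) (F : Subgroup.zpowers w → ℂ) :
    ∑ c : Subgroup.zpowers w, F c = ∑ i ∈ Finset.range (orderOf w),
      F ⟨w ^ i, Subgroup.pow_mem _ (Subgroup.mem_zpowers w) i⟩ := by
  rw [Finset.sum_range]
  symm
  refine Fintype.sum_equiv (finEquivZPowers (isOfFinOrder_of_finite w)) _ _ fun i => ?_
  rw [finEquivZPowers_apply]

lemma ev_two (f : G → ℂ) (cf : CI 2 f) (f1 : f 1 = 0) (v : G) (hv : v ^ 4 = 1)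
    (hconj : f v⁻¹ = f v) : Ev (f v) := by
  have h1 : orderOf v ∣ 2 ^ 2 := by
    rw [orderOf_dvd_iff_pow_eq_one]; exact hv
  obtain ⟨i, hi, hord⟩ := (Nat.dvd_prime_pow Nat.prime_two).mp h1
  have hα := cf (Subgroup.zpowers v) 1 inferInstance
  rw [sum_zp, Nat.card_zpowers] at hα
  simp only [MonoidHom.one_apply, Units.val_one, one_mul] at hα
  interval_cases i
  · have : v = 1 := by simpa using hord
    rw [this, f1]
    exact Ev.zero
  · rw [hord] at hα
    simp only [pow_one, Finset.sum_range_succ, Finset.sum_range_zero, pow_zero, inv_one, f1,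
      zero_add, hconj] at hα
    refine ⟨_, hα, ?_⟩
    push_cast
    ring
  · rw [hord] at hα
    have e3 : (v ^ 3)⁻¹ = v := by
      rw [inv_eq_iff_mul_eq_one, ← pow_succ, hv]
    norm_num [Finset.sum_range_succ, f1, hconj, e3] at hα
    set z : ℂˣ := Units.mk0 Complex.I Complex.I_ne_zero with hz
    have hz4 : z ^ 4 = 1 := by
      apply Units.ext
      rw [Units.val_pow_eq_pow_val, hz, Units.val_mk0, Complex.I_pow_four, Units.val_one]
    set gv : Subgroup.zpowers v := ⟨v, Subgroup.mem_zpowers v⟩ with hgv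
    have hgo : orderOf gv = 4 := by rw [hgv, Subgroup.orderOf_mk, hord]; norm_num
    set lam : Subgroup.zpowers v →* ℂˣ := monoidHomOfForallMemZpowers (gen_x v) (g' := z)
      (by rw [hgo]; exact orderOf_dvd_of_pow_eq_one hz4) with hlam
    have hlv : lam gv = z := monoidHomOfForallMemZpowers_apply_gen (gen_x v) _
    have hli : ∀ i : ℕ, lam ⟨v ^ i, Subgroup.pow_mem _ (Subgroup.mem_zpowers v) i⟩ = z ^ i := by
      intro i
      have : (⟨v ^ i, Subgroup.pow_mem _ (Subgroup.mem_zpowers v) i⟩ : Subgroup.zpowers v) = gv ^ i :=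
        Subtype.ext (by simp [hgv])
      rw [this, map_pow, hlv]
    have hβ := cf (Subgroup.zpowers v) lam inferInstance
    rw [sum_zp, Nat.card_zpowers, hord] at hβ
    simp only [hli, Units.val_pow_eq_pow_val, hz, Units.val_mk0] at hβ
    norm_num [Finset.sum_range_succ, f1, hconj, e3, Complex.I_sq] at hβ
    refine ⟨_, (OL 2).sub_mem hα hβ, ?_⟩
    ring

lemma sum_par (F : ℕ → ℂ) (A B' : ℂ) (h : ∀ j, F (2 * j) = A) (h' : ∀ j, F (2 * j + 1) = B') (K : ℕ) :
    ∑ j ∈ Finset.range (2 * K), F j = K * (A + B') := by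
  induction K with
  | zero => simp
  | succ K ih =>
    have : 2 * (K + 1) = 2 * K + 1 + 1 := by ring
    rw [this, Finset.sum_range_succ, Finset.sum_range_succ, ih, h, h']
    push_cast
    ring

end Pool.Agent.Helper884.IC
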