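import Pool.Agent.Helper884.IC.Two4

set_option linter.unusedSectionVars false
set_option linter.style.haveILetI false
set_option linter.unusedVariables false

open scoped BigOperators Classical MonoidAlgebra TensorProduct
open Representation

noncomputable section

namespace Pool.Agent.Helper884.IC

variable {G : Type} [Group G] [Fintype G]

/-- structure of a Sylow 2-subgroup containing `x` under (M) -/
lemma Q_facts (x y : G) (m l : ℕ) (hm : 2 ≤ m) (hx : orderOf x = 2 ^ m)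
    (hG : (Nat.card G).factorization 2 = m + 1) (hl : l ≡ 3 [MOD 4]) (hy : y * x * y⁻¹ = x ^ l)
    (Q : Sylow 2 G) (hxQ : x ∈ Q) :
    (∀ v ∈ Q, v ∉ Subgroup.zpowers x → ∃ l' : ℕ, l' ≡ 3 [MOD 4] ∧ v * x * v⁻¹ = x ^ l') ∧
    (∀ v w, v ∈ Q → w ∈ Q → v ∉ Subgroup.zpowers x → w ∉ Subgroup.zpowers x →
      v⁻¹ * w ∈ Subgroup.zpowers x) := by
  have hQc : Nat.card Q = 2 ^ (m + 1) := by rw [Q.card_eq_multiplicity, hG]
  have hXc : Nat.card (Subgroup.zpowers x) = 2 ^ m := by rw [Nat.card_zpowers, hx]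
  have hXQ : Subgroup.zpowers x ≤ (Q : Subgroup G) := by
    rw [Subgroup.zpowers_le]; exact hxQ
  set X' := (Subgroup.zpowers x).subgroupOf (Q : Subgroup G) with hX'
  have hX'c : Nat.card X' = 2 ^ m := by
    rw [← hXc]
    exact Nat.card_congr (Subgroup.subgroupOfEquivOfLe hXQ).toEquiv
  have hidx : X'.index = 2 := by
    have h1 := Subgroup.card_mul_index X'
    have h2 : Nat.card (Q : Subgroup G) = 2 ^ (m + 1) := hQc
    rw [hX'c, h2, pow_succ] at h1
    exact Nat.eq_of_mul_eq_mul_left (by positivity) h1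
  have hnorm : X'.Normal := Subgroup.normal_of_index_eq_two hidx
  have hconj : ∀ v ∈ Q, v * x * v⁻¹ ∈ Subgroup.zpowers x := by
    intro v hv
    have h1 := hnorm.conj_mem ⟨x, hxQ⟩ (by
      rw [hX', Subgroup.mem_subgroupOf]; exact Subgroup.mem_zpowers x) ⟨v, hv⟩
    rw [hX', Subgroup.mem_subgroupOf] at h1
    exact h1
  have hmul : ∀ v w, v ∈ Q → w ∈ Q → v ∉ Subgroup.zpowers x → w ∉ Subgroup.zpowers x →
      v⁻¹ * w ∈ Subgroup.zpowers x := by
    intro v w hv hw hv1 hw1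
    have hvinv : v⁻¹ ∉ Subgroup.zpowers x := fun h => hv1 (by simpa using (Subgroup.zpowers x).inv_mem h)
    have h1 := (Subgroup.mul_mem_iff_of_index_two hidx
      (a := (⟨v⁻¹, (Q : Subgroup G).inv_mem hv⟩ : (Q : Subgroup G))) (b := ⟨w, hw⟩))
    rw [hX', Subgroup.mem_subgroupOf, Subgroup.mem_subgroupOf, Subgroup.mem_subgroupOf] at h1
    exact h1.mpr ⟨fun h => absurd h hvinv, fun h => absurd h hw1⟩
  refine ⟨?_, hmul⟩
  intro v hv hv1
  obtain ⟨l', hl'⟩ := nat_pow_of_mem (hconj v hv)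
  have hodd := pow_odd_of_conj (by omega) hx hl'
  refine ⟨l', ?_, hl'⟩
  by_contra hcon
  have hl1 : l' ≡ 1 [MOD 4] := by
    unfold Nat.ModEq at *
    omega
  -- Q ≤ stabM 4 x
  have hQM : (Q : Subgroup G) ≤ stabM 4 x := by
    intro w hw
    have hX4 : Subgroup.zpowers x ≤ stabM 4 x := zpowers_le_stabM 4 x
    by_cases hw1 : w ∈ Subgroup.zpowers x
    · exact hX4 hw1
    · have h2 := hX4 (hmul v w hv hw hv1 hw1)
      have h3 : v ∈ stabM 4 x := mem_stabM.mpr ⟨l', hl1, hl'⟩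
      have := (stabM 4 x).mul_mem h3 h2
      rwa [mul_inv_cancel_left] at this
  have h1 : 2 ^ (m + 1) ∣ Nat.card (stabM 4 x) := by
    rw [← hQc]; exact Subgroup.card_dvd_of_le hQM
  have h2 : Nat.card (stabS 2 x) = 2 * Nat.card (stabM 4 x) := by
    have h3 : (stabS 2 x : Set G) = (Yj 4 x 1) ∪ (Yj 4 x 3) := by
      ext w
      constructor
      · rintro ⟨a, ha, hw⟩
        have : a ≡ 1 [MOD 4] ∨ a ≡ 3 [MOD 4] := by
          unfold Nat.ModEq at *
          omega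
        rcases this with h | h
        · left; exact ⟨a, h, hw⟩
        · right; exact ⟨a, h, hw⟩
      · rintro (⟨a, ha, hw⟩ | ⟨a, ha, hw⟩)
        all_goals
          refine ⟨a, ?_, hw⟩
          unfold Nat.ModEq at *
          omega
    have hdisj : Disjoint (Yj 4 x 1) (Yj 4 x 3) := by
      rw [Set.disjoint_left]
      rintro w ⟨a, ha, hw⟩ ⟨b, hb, hw'⟩
      rw [hw, pow_eq_pow_iff_modEq, hx] at hw'
      have h8 : a ≡ b [MOD 4] := hw'.of_dvd (by
        have : (4 : ℕ) = 2 ^ 2 := by norm_num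
        rw [this]
        exact pow_dvd_pow 2 hm)
      unfold Nat.ModEq at *
      omega
    have h9 : (Yj 4 x 1).ncard = Nat.card (stabM 4 x) := by
      rw [← Nat.card_coe_set_eq]
      rfl
    have h10 : Nat.card (stabS 2 x) = (stabS 2 x : Set G).ncard := by
      rw [← Nat.card_coe_set_eq]
      rfl
    rw [h10, h3, Set.ncard_union_eq hdisj (Set.toFinite _) (Set.toFinite _), h9,
      ← Nat.card_coe_set_eq (Yj 4 x 3), Yj_card 4 x 3 (by decide) ⟨y, l, hl, hy⟩]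
    ring
  have h3 : 2 ^ (m + 1 + 1) ∣ Nat.card G := by
    rw [pow_succ']
    refine dvd_trans ?_ (Subgroup.card_subgroup_dvd_card (stabS 2 x))
    rw [h2]
    exact Nat.mul_dvd_mul_left 2 h1
  have h4 := (Nat.prime_two.pow_dvd_iff_le_factorization Nat.card_pos.ne').mp h3
  omega

/-- facts about elements outside the cyclic maximal subgroup -/
lemma v_facts (x v : G) (m l' : ℕ) (hm : 2 ≤ m) (hx : orderOf x = 2 ^ m)
    (hl : l' ≡ 3 [MOD 4]) (hv : v * x * v⁻¹ = x ^ l') (hv2 : v ^ 2 ∈ Subgroup.zpowers x)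
    (l'' : ℕ) (hl'' : l'' ≡ 3 [MOD 4]) (hv' : v⁻¹ * x * v⁻¹⁻¹ = x ^ l'') :
    v ^ 4 = 1 ∧ (∀ t : ℕ, IsConj v (v * x ^ (2 * t))) ∧ IsConj v v⁻¹ := by
  obtain ⟨s, hs⟩ := nat_pow_of_mem hv2
  have hl4 : l' % 4 = 3 := hl
  have h6 : 2 ^ m ∣ 2 * s := by
    have hcomm : v * v ^ 2 * v⁻¹ = v ^ 2 := by group
    rw [hs, ← conj_pow, hv, ← pow_mul, pow_eq_pow_iff_modEq, hx] at hcomm
    have h7 := (Nat.modEq_iff_dvd.mp hcomm.symm)
    obtain ⟨t, ht⟩ : ∃ t, l' = 4 * t + 3 := ⟨l' / 4, by omega⟩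
    have h8 : (((2 ^ m : ℕ) : ℤ)) ∣ ((2 * s * (2 * t + 1) : ℕ) : ℤ) := by
      have : (((l' * s : ℕ) : ℤ) - (s : ℤ)) = ((2 * s * (2 * t + 1) : ℕ) : ℤ) := by
        rw [ht]; push_cast; ring
      rw [← this]; exact h7
    have h9 : 2 ^ m ∣ 2 * s * (2 * t + 1) := by exact_mod_cast h8
    have h10 : (2 ^ m).Coprime (2 * t + 1) := by
      apply Nat.Coprime.pow_left
      rw [Nat.coprime_two_left]
      exact ⟨t, rfl⟩
    exact h10.dvd_of_dvd_mul_right h9
  have h11 : v ^ 4 = 1 := by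
    have : v ^ 4 = (v ^ 2) ^ 2 := by rw [← pow_mul]
    rw [this, hs, ← pow_mul, mul_comm, ← orderOf_dvd_iff_pow_eq_one, hx]
    exact h6
  have hconj : ∀ t : ℕ, IsConj v (v * x ^ (2 * t)) := by
    intro t
    obtain ⟨r, hr⟩ : ∃ r, l'' = 4 * r + 3 := ⟨l'' / 4, by
      have : l'' % 4 = 3 := hl''
      omega⟩
    have hcop : (2 * r + 1).Coprime (2 ^ m) := by
      apply Nat.Coprime.pow_right
      rw [Nat.coprime_two_right]
      exact ⟨r, rfl⟩
    have h2m : 1 < 2 ^ m := Nat.one_lt_pow (by omega) (by norm_num)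
    obtain ⟨o, _, ho⟩ := Nat.exists_mul_mod_eq_one_of_coprime hcop h2m
    have ho' : (2 * r + 1) * o ≡ 1 [MOD 2 ^ m] := by
      show (2 * r + 1) * o % 2 ^ m = 1 % 2 ^ m
      rw [ho, Nat.mod_eq_of_lt h2m]
    refine isConj_iff.mpr ⟨x ^ (o * t), ?_⟩
    have e1 : x ^ (o * t) * v * (x ^ (o * t))⁻¹ = v * ((v⁻¹ * x ^ (o * t) * v⁻¹⁻¹) * (x ^ (o * t))⁻¹) := by
      group
    rw [e1]
    congr 1
    rw [← conj_pow, hv', ← pow_mul]
    rw [mul_inv_eq_iff_eq_mul, ← pow_add, pow_eq_pow_iff_modEq, hx]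
    have e2 : l'' * (o * t) = 2 * t * ((2 * r + 1) * o) + o * t := by
      rw [hr]; ring
    rw [e2]
    have e3 := (ho'.mul_left (2 * t)).add_right (o * t)
    rwa [mul_one] at e3
  refine ⟨h11, hconj, ?_⟩
  have h12 : ∃ t, s = 2 * t := by
    obtain ⟨m', rfl⟩ : ∃ m', m = m' + 2 := ⟨m - 2, by omega⟩
    obtain ⟨w, hw⟩ := h6
    refine ⟨2 ^ m' * w, ?_⟩
    have : 2 * s = 2 * (2 * (2 ^ m' * w)) := by rw [hw]; ring
    exact Nat.eq_of_mul_eq_mul_left (by norm_num) this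
  obtain ⟨t, ht⟩ := h12
  have h13 : v⁻¹ = v * x ^ (2 * t) := by
    rw [← ht, ← hs, inv_eq_iff_mul_eq_one]
    have : v * (v * v ^ 2) = v ^ 4 := by group
    rw [this, h11]
  rw [h13]
  exact hconj t

theorem TS (x y : G) (m l : ℕ) (hm : 2 ≤ m) (hx : orderOf x = 2 ^ m)
    (hG : (Nat.card G).factorization 2 = m + 1) (hl : l ≡ 3 [MOD 4]) (hy : y * x * y⁻¹ = x ^ l)
    (Q : Sylow 2 G) (hxQ : x ∈ Q) (S : Subgroup G) (hSQ : S ≤ Q) (hSn : ¬ IsCyclic S)
    (f h : G → ℂ) (hf : IsClass f) (hh : IsClass h) (cf : CI 2 f) (ch : CI 2 h)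
    (f1 : f 1 = 0) (h1 : h 1 = 0) :
    (Nat.card S : ℂ)⁻¹ * ∑ w : S, f w * h w ∈ OL 2 := by
  obtain ⟨F1, F2⟩ := Q_facts x y m l hm hx hG hl hy Q hxQ
  have hv2 : ∀ v ∈ Q, v ∉ Subgroup.zpowers x → v ^ 2 ∈ Subgroup.zpowers x := by
    intro v hv hv1
    have h3 := F2 v⁻¹ v ((Q : Subgroup G).inv_mem hv) hv
      (fun h => hv1 (by simpa using (Subgroup.zpowers x).inv_mem h)) hv1
    rwa [inv_inv, ← pow_two] at h3
  have VF : ∀ v ∈ Q, v ∉ Subgroup.zpowers x →
      v ^ 4 = 1 ∧ (∀ t : ℕ, IsConj v (v * x ^ (2 * t))) ∧ IsConj v v⁻¹ := by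
    intro v hv hv1
    obtain ⟨l', hl', e'⟩ := F1 v hv hv1
    obtain ⟨l'', hl'', e''⟩ := F1 v⁻¹ ((Q : Subgroup G).inv_mem hv)
      (fun h => hv1 (by simpa using (Subgroup.zpowers x).inv_mem h))
    exact v_facts x v m l' hm hx hl' e' (hv2 v hv hv1) l'' hl'' e''
  have ev : ∀ F : G → ℂ, IsClass F → CI 2 F → F 1 = 0 → ∀ v ∈ Q, v ∉ Subgroup.zpowers x → Ev (F v) := by
    intro F hF cF F0 v hv hv1
    obtain ⟨h4, _, h5⟩ := VF v hv hv1
    apply ev_two F cF F0 v h4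
    obtain ⟨w, hw⟩ := isConj_iff.mp h5
    rw [← hw]
    exact hF v w
  -- S is not contained in X
  obtain ⟨u, huS, huX⟩ : ∃ u ∈ S, u ∉ Subgroup.zpowers x := by
    by_contra hcon
    push Not at hcon
    apply hSn
    exact isCyclic_of_injective (Subgroup.inclusion (show S ≤ Subgroup.zpowers x from hcon))
      (Subgroup.inclusion_injective _)
  have huQ : u ∈ Q := hSQ huS
  -- the intersection
  have hCcyc : IsCyclic (S ⊓ Subgroup.zpowers x : Subgroup G) :=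
    isCyclic_of_injective (Subgroup.inclusion (inf_le_right : S ⊓ Subgroup.zpowers x ≤ Subgroup.zpowers x))
      (Subgroup.inclusion_injective _)
  obtain ⟨c, hc⟩ : ∃ c : G, Subgroup.zpowers c = S ⊓ Subgroup.zpowers x :=
    (Subgroup.isCyclic_iff_exists_zpowers_eq_top _).mp hCcyc
  have hmem : ∀ w, w ∈ Subgroup.zpowers c ↔ w ∈ S ∧ w ∈ Subgroup.zpowers x := by
    intro w; rw [hc]; exact Subgroup.mem_inf
  obtain ⟨hcS, hcX⟩ := (hmem c).mp (Subgroup.mem_zpowers c)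
  obtain ⟨a, ha⟩ := nat_pow_of_mem hcX
  obtain ⟨k, hk, hck⟩ : ∃ k, k ≤ m ∧ orderOf c = 2 ^ k := by
    have h3 : orderOf c ∣ 2 ^ m := by rw [← hx]; exact orderOf_dvd_of_mem_zpowers hcX
    obtain ⟨k, hk, hk'⟩ := (Nat.dvd_prime_pow Nat.prime_two).mp h3
    exact ⟨k, hk, hk'⟩
  have hCc : Nat.card (Subgroup.zpowers c) = 2 ^ k := by rw [Nat.card_zpowers, hck]
  -- the bijection
  let φ : Subgroup.zpowers c ⊕ Subgroup.zpowers c → S :=
    Sum.elim (fun d => ⟨d, ((hmem d).mp d.2).1⟩) (fun d => ⟨u * d, S.mul_mem huS ((hmem d).mp d.2).1⟩)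
  have hφ : Function.Bijective φ := by
    constructor
    · rintro (d | d) (d' | d') hdd
      · have := congrArg Subtype.val hdd
        simp only [φ, Sum.elim_inl] at this
        rw [Subtype.ext this]
      · exfalso
        have := congrArg Subtype.val hdd
        simp only [φ, Sum.elim_inl, Sum.elim_inr] at this
        apply huX
        have h3 : u = (d : G) * (d' : G)⁻¹ := by rw [this]; group
        rw [h3]
        exact (Subgroup.zpowers x).mul_mem ((hmem d).mp d.2).2 ((Subgroup.zpowers x).inv_mem ((hmem d').mp d'.2).2)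
      · exfalso
        have := congrArg Subtype.val hdd
        simp only [φ, Sum.elim_inl, Sum.elim_inr] at this
        apply huX
        have h3 : u = (d' : G) * (d : G)⁻¹ := by rw [← this]; group
        rw [h3]
        exact (Subgroup.zpowers x).mul_mem ((hmem d').mp d'.2).2 ((Subgroup.zpowers x).inv_mem ((hmem d).mp d.2).2)
      · have := congrArg Subtype.val hdd
        simp only [φ, Sum.elim_inr] at this
        rw [Subtype.ext (mul_left_cancel this)]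
    · rintro ⟨w, hw⟩
      by_cases hwX : w ∈ Subgroup.zpowers x
      · exact ⟨Sum.inl ⟨w, (hmem w).mpr ⟨hw, hwX⟩⟩, rfl⟩
      · refine ⟨Sum.inr ⟨u⁻¹ * w, (hmem _).mpr ⟨S.mul_mem (S.inv_mem huS) hw,
          F2 u w huQ (hSQ hw) huX hwX⟩⟩, ?_⟩
        apply Subtype.ext
        simp [φ]
  have hSc : Nat.card S = 2 ^ (k + 1) := by
    rw [← Nat.card_congr (Equiv.ofBijective φ hφ), Nat.card_sum, hCc]
    ring
  have hk1 : 1 ≤ k := by
    by_contra hk0
    have : k = 0 := by omega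
    rw [this, zero_add, pow_one] at hSc
    apply hSn
    haveI : Fact (Nat.Prime 2) := ⟨Nat.prime_two⟩
    exact isCyclic_of_prime_card hSc
  set g : G → ℂ := fun w => f w * h w with hg
  have hgc : IsClass g := by
    intro w z
    simp only [hg]
    rw [hf w z, hh w z]
  have hsum : ∑ w : S, f w * h w = ∑ d : Subgroup.zpowers c, g d + ∑ d : Subgroup.zpowers c, g (u * d) := by
    rw [← hφ.sum_comp, Fintype.sum_sum_type]
    rfl
  -- the second sum
  have hgconj : ∀ v w : G, IsConj v w → g w = g v := by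
    intro v w hvw
    obtain ⟨z, hz⟩ := isConj_iff.mp hvw
    rw [← hz]
    exact hgc v z
  have hucX : u * c ∉ Subgroup.zpowers x := by
    intro h3
    apply huX
    have h4 := (Subgroup.zpowers x).mul_mem h3 ((Subgroup.zpowers x).inv_mem hcX)
    rwa [mul_inv_cancel_right] at h4
  have hucQ : u * c ∈ Q := hSQ (S.mul_mem huS hcS)
  have hsec : ∑ d : Subgroup.zpowers c, g (u * d) = (2 ^ (k - 1) : ℕ) * (g u + g (u * c)) := by
    rw [sum_zp c (fun d => g (u * d)), hck]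
    have e1 : 2 ^ k = 2 * 2 ^ (k - 1) := by
      rw [← pow_succ', Nat.sub_add_cancel hk1]
    rw [e1]
    apply sum_par (fun j => g (u * c ^ j)) (g u) (g (u * c))
    · intro j
      apply hgconj
      have e2 : c ^ (2 * j) = x ^ (2 * (a * j)) := by
        rw [ha, ← pow_mul]
        congr 1
        ring
      rw [e2]
      exact (VF u huQ huX).2.1 (a * j)
    · intro j
      apply hgconj
      have e2 : u * c ^ (2 * j + 1) = (u * c) * x ^ (2 * (a * j)) := by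
        rw [pow_succ', ha, ← pow_mul, ← mul_assoc]
        congr 2
        ring
      rw [e2]
      exact (VF (u * c) hucQ hucX).2.1 (a * j)
  -- first sum
  obtain ⟨l', hl', e'⟩ := F1 u huQ huX
  have hpair := pair_ev (Subgroup.zpowers c) inferInstance k hk1 hCc u l' hl' (by
    have h3 := conj_iter u x l' e' 2
    obtain ⟨s, hs⟩ := nat_pow_of_mem (hv2 u huQ huX)
    rw [hs] at h3
    have h4 : x ^ s * x * (x ^ s)⁻¹ = x ^ 1 := by group
    rw [h4, pow_eq_pow_iff_modEq, hx, pow_two] at h3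
    exact h3.symm.of_dvd (pow_dvd_pow 2 hk)) (by
    intro d hd
    obtain ⟨b, hb⟩ := nat_pow_of_mem ((hmem d).mp hd).2
    rw [hb, ← conj_pow, e', ← pow_mul, ← pow_mul, mul_comm]) f h hf hh cf ch f1 h1
  obtain ⟨α, hα, eα⟩ := hpair
  obtain ⟨b1, hb1, eb1⟩ := ev f hf cf f1 u huQ huX
  obtain ⟨b2, hb2, eb2⟩ := ev h hh ch h1 u huQ huX
  obtain ⟨b3, hb3, eb3⟩ := ev f hf cf f1 (u * c) hucQ hucX
  obtain ⟨b4, hb4, eb4⟩ := ev h hh ch h1 (u * c) hucQ hucX
  have hfin : (Nat.card S : ℂ)⁻¹ * ∑ w : S, f w * h w = α + (b1 * b2 + b3 * b4) := by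
    have e1 : ∑ d : Subgroup.zpowers c, g d = (2 ^ k : ℕ) * (2 * α) := by
      rw [← eα, hCc]
      have : ((2 ^ k : ℕ) : ℂ) ≠ 0 := Nat.cast_ne_zero.mpr (by positivity)
      rw [← mul_assoc, mul_inv_cancel₀ this, one_mul]
    rw [hsum, e1, hsec, hSc]
    simp only [hg]
    rw [eb1, eb2, eb3, eb4]
    obtain ⟨k', rfl⟩ : ∃ k', k = k' + 1 := ⟨k - 1, by omega⟩
    rw [Nat.add_sub_cancel]
    push_cast
    field_simp
    ring
  rw [hfin]
  exact (OL 2).add_mem hα ((OL 2).add_mem ((OL 2).mul_mem hb1 hb2) ((OL 2).mul_mem hb3 hb4))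

end Pool.Agent.Helper884.IC
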