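import Pool.Agent.Helper884.IC.Two5
import Pool.Agent.Helper884.IC.Nec9

set_option linter.unusedSectionVars false
set_option linter.style.haveILetI false
set_option linter.unusedVariables false

open scoped BigOperators Classical MonoidAlgebra TensorProduct
open Representation

noncomputable section

namespace Pool.Agent.Helper884.IC

variable {G : Type} [Group G] [Fintype G]

lemma CI_const (p : ℕ) [hp : Fact p.Prime] {a : ℂ} (ha : a ∈ OL p) : CI p (fun _ : G => a) := by
  intro C lam hC
  rw [← Finset.sum_mul, ← mul_assoc]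
  refine (OL p).mul_mem ?_ ha
  have h4 := sum_hom_units (R := ℂ) ((Units.coeHom ℂ).comp lam)
  have h5 : ∑ u : C, ((lam u : ℂˣ) : ℂ) = ∑ u : C, ((Units.coeHom ℂ).comp lam) u := rfl
  rw [h5, h4]
  split_ifs
  · rw [← Nat.card_eq_fintype_card, inv_mul_cancel₀ (cardC_ne C)]
    exact (OL p).one_mem
  · simp

lemma CI_sub (p : ℕ) [hp : Fact p.Prime] {f g : G → ℂ} (hf : CI p f) (hg : CI p g) :
    CI p (fun x => f x - g x) := by
  intro C lam hC
  have h1 := (OL p).sub_mem (hf C lam hC) (hg C lam hC)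
  rw [← mul_sub, ← Finset.sum_sub_distrib] at h1
  simpa only [mul_sub] using h1

/-- sufficiency when the Sylow 2-subgroups have maximal class -/
theorem suf_m (hA : CondA 2 G) (hM : CondM G) (f : G → ℂ) (hfc : IsClass f) (hCI : CI 2 f)
    (hf1 : B f 1 ∈ OL 2) {chi : G → ℂ} (hchi : IsIrrChar chi) : B f chi ∈ OL 2 := by
  set h : G → ℂ := fun g => chi g⁻¹ with hh
  have hhc : IsClass h := by
    intro g y
    simp only [hh]
    have : (y * g * y⁻¹)⁻¹ = y * g⁻¹ * y⁻¹ := by group
    rw [this]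
    exact hchi.isClass _ _
  have hCIh : CI 2 h := CI_one 2 trivial hchi
  have hCIF : CI 2 (f * h) := CI_mul 2 f hCI hchi
  have hFc : IsClass (f * h) := by
    intro g y
    simp only [Pi.mul_apply]
    rw [hfc g y, hhc g y]
  have hBF : B f chi = (∑ g : G, (f * h) g) / Nat.card G := by
    unfold B
    rw [div_eq_inv_mul]
    rfl
  have hred := main_red 2 (f * h) hCIF hFc hA
  rw [hBF]
  have hTf : T 2 f ∈ OL 2 := by
    have h1 := main_red 2 f hCI hfc hA
    have h2 : B f 1 = (∑ g : G, f g) / Nat.card G := by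
      unfold B
      rw [div_eq_inv_mul]
      simp
    have h3 : T 2 f = B f 1 - ((∑ g : G, f g) / Nat.card G
        - (∑ u ∈ Finset.univ.filter (fun u : G => IsPE 2 u), f u) / Nat.card G) := by
      rw [h2]
      unfold T
      ring
    rw [h3]
    exact (OL 2).sub_mem hf1 h1
  have hf1' : f 1 ∈ OL 2 := CI_val 2 f hCI 1
  have hh1' : h 1 ∈ OL 2 := CI_val 2 h hCIh 1
  -- the corrected product
  have hcorr : T 2 (fun g => f g * h g - h 1 * f g) ∈ OL 2 := by
    apply sec_lemma 2 (H := G) (fun g => f g * h g - h 1 * f g)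
    · intro u y
      rw [hfc u y, hhc u y]
    · intro u
      exact (OL 2).sub_mem ((OL 2).mul_mem (CI_val 2 f hCI u) (CI_val 2 h hCIh u))
        ((OL 2).mul_mem hh1' (CI_val 2 f hCI u))
    · intro S hS
      by_cases hSc : IsCyclic S
      · have h1 := CI_avg 2 (f * h) hCIF S hSc 1 S.one_mem S le_rfl
        have h2 := CI_avg 2 f hCI S hSc 1 S.one_mem S le_rfl
        simp only [one_mul, Pi.mul_apply] at h1 h2
        have h3 : (Nat.card S : ℂ)⁻¹ * ∑ u : S, (f u * h u - h 1 * f u)
            = (Nat.card S : ℂ)⁻¹ * ∑ u : S, f u * h u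
              - h 1 * ((Nat.card S : ℂ)⁻¹ * ∑ u : S, f u) := by
          rw [Finset.sum_sub_distrib, ← Finset.mul_sum]
          ring
        rw [h3]
        exact (OL 2).sub_mem h1 ((OL 2).mul_mem hh1' h2)
      · obtain ⟨Q, hQ⟩ := hS.exists_le_sylow
        obtain ⟨x0, m, hm, hx0, hG, l, hl, hc⟩ := hM
        obtain ⟨y, hy⟩ := isConj_iff.mp hc
        have hx0p : IsPGroup 2 (Subgroup.zpowers x0) := by
          apply IsPGroup.of_card (n := m)
          rw [Nat.card_zpowers, hx0]
        obtain ⟨P0, hP0⟩ := hx0p.exists_le_sylow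
        obtain ⟨z, hz⟩ := MulAction.exists_smul_eq G P0 Q
        have hxQ : z * x0 * z⁻¹ ∈ Q := by
          rw [← hz, Sylow.smul_def]
          have h1 : x0 ∈ (P0 : Subgroup G) := hP0 (Subgroup.mem_zpowers x0)
          have h2 := Subgroup.smul_mem_pointwise_smul x0 (MulAut.conj z) (P0 : Subgroup G) h1
          exact h2
        have hxo : orderOf (z * x0 * z⁻¹) = 2 ^ m := by
          have h1 := (MulAut.conj z).orderOf_eq x0
          rw [MulAut.conj_apply] at h1
          rw [h1, hx0]
        have hyx : (z * y * z⁻¹) * (z * x0 * z⁻¹) * (z * y * z⁻¹)⁻¹ = (z * x0 * z⁻¹) ^ l := by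
          rw [conj_pow, ← hy]
          group
        have hTS := TS (z * x0 * z⁻¹) (z * y * z⁻¹) m l hm hxo hG hl hyx Q hxQ S hQ hSc
          (fun g => f g - f 1) (fun g => h g - h 1)
          (by intro g w; simp only; rw [hfc g w]) (by intro g w; simp only; rw [hhc g w])
          (CI_sub 2 hCI (CI_const 2 hf1')) (CI_sub 2 hCIh (CI_const 2 hh1'))
          (sub_self _) (sub_self _)
        have hTSh : (Nat.card S : ℂ)⁻¹ * ∑ u : S, h u ∈ OL 2 := by
          obtain ⟨n, hn⟩ := mult_nat' S 1 hchi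
          simp only [MonoidHom.one_apply, Units.val_one, one_mul] at hn
          simp only [hh]
          rw [hn]
          exact OL_nat 2 n
        have hone : (Nat.card S : ℂ)⁻¹ * (Nat.card S : ℂ) = 1 := inv_mul_cancel₀ (cardC_ne S)
        have h3 : (Nat.card S : ℂ)⁻¹ * ∑ u : S, (f u * h u - h 1 * f u)
            = (Nat.card S : ℂ)⁻¹ * ∑ w : S, (f w - f 1) * (h w - h 1)
              + (f 1 * ((Nat.card S : ℂ)⁻¹ * ∑ u : S, h u)
                - f 1 * h 1 * ((Nat.card S : ℂ)⁻¹ * (Nat.card S : ℂ))) := by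
          have e1 : ∀ u : S, f u * h u - h 1 * f u
              = (f u - f 1) * (h u - h 1) + (f 1 * h u - f 1 * h 1) := by
            intro u; ring
          simp only [e1]
          rw [Finset.sum_add_distrib, Finset.sum_sub_distrib, ← Finset.mul_sum, Finset.sum_const,
            Finset.card_univ, ← Nat.card_eq_fintype_card, nsmul_eq_mul]
          ring
        rw [h3, hone, mul_one]
        exact (OL 2).add_mem hTS ((OL 2).sub_mem ((OL 2).mul_mem hf1' hTSh) ((OL 2).mul_mem hf1' hh1'))
  have hgoal : T 2 (f * h) ∈ OL 2 := by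
    have h1 : T 2 (f * h) = T 2 (fun g => f g * h g - h 1 * f g) + h 1 * T 2 f := by
      unfold T
      rw [Finset.sum_sub_distrib, ← Finset.mul_sum]
      simp only [Pi.mul_apply]
      ring
    rw [h1]
    exact (OL 2).add_mem hcorr ((OL 2).mul_mem hh1' hTf)
  have hfin : (∑ g : G, (f * h) g) / Nat.card G
      = ((∑ g : G, (f * h) g) / Nat.card G
            - (∑ u ∈ Finset.univ.filter (fun u : G => IsPE 2 u), (f * h) u) / Nat.card G)
        + T 2 (f * h) := by
    unfold T
    ring
  rw [hfin]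
  exact (OL 2).add_mem hred hgoal

/-- sufficiency, all cases -/
theorem suf_full (h : ∀ p : ℕ, p.Prime → (∀ P : Sylow p G, IsCyclic P) ∨
    (CondA p G ∧ CondB p G ∧ CondC p G) ∨ (p = 2 ∧ CondA p G ∧ CondM G)) : HasIC G := by
  apply dual
  intro p hp f hfc hCI hf1 chi hchi
  rcases h p hp.out with hcyc | ⟨hA, hB, hC⟩ | ⟨h2, hA, hM⟩
  · refine suf_p p ?_ (Or.inl hcyc) f hfc hCI hf1 hchi
    intro s _ _ Q
    -- Sylow subgroups of subgroups are cyclic
    have h1 : IsPGroup p ((Q : Subgroup (Subgroup.centralizer ({s} : Set G))).map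
        (Subgroup.centralizer ({s} : Set G)).subtype) := Q.2.map _
    obtain ⟨P, hP⟩ := h1.exists_le_sylow
    haveI := hcyc P
    have h2 : IsCyclic ((Q : Subgroup (Subgroup.centralizer ({s} : Set G))).map
        (Subgroup.centralizer ({s} : Set G)).subtype) :=
      isCyclic_of_injective (Subgroup.inclusion hP) (Subgroup.inclusion_injective hP)
    exact ((Q : Subgroup (Subgroup.centralizer ({s} : Set G))).equivMapOfInjective
      (Subgroup.centralizer ({s} : Set G)).subtype (Subgroup.subtype_injective _)).isCyclic.mpr h2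
  · exact suf_p p hA (Or.inr ⟨hB, hC⟩) f hfc hCI hf1 hchi
  · subst h2
    exact suf_m hA hM f hfc hCI hf1 hchi

/-- necessity, all cases -/
theorem nec_full (hIC : HasIC G) (p : ℕ) (hp : p.Prime) : (∀ P : Sylow p G, IsCyclic P) ∨
    (CondA p G ∧ CondB p G ∧ CondC p G) ∨ (p = 2 ∧ CondA p G ∧ CondM G) := by
  haveI : Fact p.Prime := ⟨hp⟩
  by_cases hcyc : ∀ P : Sylow p G, IsCyclic P
  · left; exact hcyc
  · right
    by_cases hp2 : p = 2
    · subst hp2
      obtain ⟨hA, hBC | hM⟩ := nec_two hIC hcyc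
      · left; exact ⟨hA, hBC⟩
      · right; exact ⟨rfl, hA, hM⟩
    · left
      exact nec_odd hIC p hp2 hcyc

theorem full_iff : HasIC G ↔ ∀ p : ℕ, p.Prime → (∀ P : Sylow p G, IsCyclic P) ∨
    (CondA p G ∧ CondB p G ∧ CondC p G) ∨ (p = 2 ∧ CondA p G ∧ CondM G) :=
  ⟨fun h p hp => nec_full h p hp, fun h => suf_full h⟩

end Pool.Agent.Helper884.IC
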