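import Pool.Agent.Helper884.IC.Two6

set_option linter.unusedSectionVars false
set_option linter.style.haveILetI false
set_option linter.unusedVariables false

open scoped BigOperators Classical
open Representation

noncomputable section

namespace Pool.Agent.Helper884.IC

/-- any two nontrivial `p`-elements whose centralisers have order divisible by `p ^ 3` are conjugate -/
def OneBig (p : ℕ) (G : Type) [Group G] : Prop :=
  ∀ w w' : G, w ≠ 1 → w' ≠ 1 → IsPE p w → IsPE p w' →
    p ^ 3 ∣ Nat.card (Subgroup.centralizer ({w} : Set G)) →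
    p ^ 3 ∣ Nat.card (Subgroup.centralizer ({w'} : Set G)) → IsConj w w'

variable {G : Type} [Group G] [Fintype G]

lemma big_iff (p : ℕ) [hp : Fact p.Prime] (w : G) :
    p ^ 3 ∣ Nat.card (Subgroup.centralizer ({w} : Set G)) ↔ 3 ≤ vC p w :=
  hp.out.pow_dvd_iff_le_factorization (cent_ne w)

lemma card_cent_conj (w g : G) : Nat.card (Subgroup.centralizer ({g * w * g⁻¹} : Set G))
    = Nat.card (Subgroup.centralizer ({w} : Set G)) := by
  refine Nat.card_congr
    { toFun := fun z => ⟨g⁻¹ * z * g, ?_⟩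
      invFun := fun z => ⟨g * z * g⁻¹, ?_⟩
      left_inv := ?_
      right_inv := ?_ }
  · have h := Subgroup.mem_centralizer_singleton_iff.mp z.2
    rw [Subgroup.mem_centralizer_singleton_iff]
    have h1 : g⁻¹ * (z : G) * g * w = g⁻¹ * ((z : G) * (g * w * g⁻¹)) * g := by group
    have h2 : w * (g⁻¹ * (z : G) * g) = g⁻¹ * ((g * w * g⁻¹) * (z : G)) * g := by group
    rw [h1, h2, h]
  · have h := Subgroup.mem_centralizer_singleton_iff.mp z.2
    rw [Subgroup.mem_centralizer_singleton_iff]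
    have h1 : g * (z : G) * g⁻¹ * (g * w * g⁻¹) = g * ((z : G) * w) * g⁻¹ := by group
    have h2 : g * w * g⁻¹ * (g * (z : G) * g⁻¹) = g * (w * (z : G)) * g⁻¹ := by group
    rw [h1, h2, h]
  · intro z
    apply Subtype.ext
    simp only
    group
  · intro z
    apply Subtype.ext
    simp only
    group

lemma vC_conj (p : ℕ) {w w' : G} (h : IsConj w w') : vC p w = vC p w' := by
  obtain ⟨g, rfl⟩ := isConj_iff.mp h
  unfold vC
  rw [card_cent_conj]

lemma exists_central (p : ℕ) [hp : Fact p.Prime] (P : Sylow p G) (h : p ∣ Nat.card G) :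
    ∃ z ∈ P, z ≠ 1 ∧ z ^ p = 1 ∧ ∀ u ∈ P, u * z = z * u := by
  have hPc : Nat.card P = p ^ (Nat.card G).factorization p := P.card_eq_multiplicity
  have hf : 1 ≤ (Nat.card G).factorization p := by
    rw [← hp.out.pow_dvd_iff_le_factorization Nat.card_pos.ne', pow_one]
    exact h
  haveI : Nontrivial P := by
    rw [← Finite.one_lt_card_iff_nontrivial, hPc]
    exact Nat.one_lt_pow (by omega) hp.out.one_lt
  haveI := P.2.center_nontrivial
  have h1 : IsPGroup p (Subgroup.center P) := P.2.to_subgroup _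
  obtain ⟨n, hn, hcard⟩ := (IsPGroup.nontrivial_iff_card h1).mp inferInstance
  have hdvd : p ∣ Nat.card (Subgroup.center P) := by
    rw [hcard]; exact dvd_pow_self p (by omega)
  obtain ⟨c, hc⟩ := exists_prime_orderOf_dvd_card' p hdvd
  refine ⟨((c : P) : G), (c : P).2, ?_, ?_, ?_⟩
  · intro h1
    have h2 : c = 1 := by
      apply Subtype.ext
      apply Subtype.ext
      exact h1
    rw [h2, orderOf_one] at hc
    exact hp.out.one_lt.ne hc
  · have h2 := pow_orderOf_eq_one c
    rw [hc] at h2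
    have := congrArg (fun z : Subgroup.center P => ((z : P) : G)) h2
    simpa using this
  · intro u hu
    have h2 := Subgroup.mem_center_iff.mp c.2 ⟨u, hu⟩
    have := congrArg (fun z : P => (z : G)) h2
    simpa using this

lemma vC_central (p : ℕ) [hp : Fact p.Prime] (P : Sylow p G) (z : G) (hz : ∀ u ∈ P, u * z = z * u) :
    vC p z = (Nat.card G).factorization p := by
  apply le_antisymm (vC_le p z)
  unfold vC
  rw [← hp.out.pow_dvd_iff_le_factorization (cent_ne z), ← P.card_eq_multiplicity]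
  apply Subgroup.card_dvd_of_le
  intro u hu
  exact Subgroup.mem_centralizer_singleton_iff.mpr (hz u hu)

lemma exists_z (p : ℕ) [hp : Fact p.Prime] (h : p ∣ Nat.card G) :
    ∃ z : G, z ≠ 1 ∧ z ^ p = 1 ∧ IsPE p z ∧ vC p z = (Nat.card G).factorization p := by
  obtain ⟨P⟩ : Nonempty (Sylow p G) := inferInstance
  obtain ⟨z, hzP, hz1, hzp, hzc⟩ := exists_central p P h
  exact ⟨z, hz1, hzp, ⟨1, by rw [pow_one]; exact orderOf_eq_prime hzp hz1⟩, vC_central p P z hzc⟩

lemma big_facts (p : ℕ) [hp : Fact p.Prime] (hO : OneBig p G) (w : G) (hw1 : w ≠ 1) (hw : IsPE p w)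
    (h3 : 3 ≤ vC p w) : w ^ p = 1 ∧ vC p w = (Nat.card G).factorization p := by
  have hf : 3 ≤ (Nat.card G).factorization p := h3.trans (vC_le p w)
  have hdvd : p ∣ Nat.card G := by
    have := (hp.out.pow_dvd_iff_le_factorization (Nat.card_pos.ne' : Nat.card G ≠ 0)).mpr
      (show 1 ≤ (Nat.card G).factorization p by omega)
    rwa [pow_one] at this
  obtain ⟨z, hz1, hzp, hzpe, hzv⟩ := exists_z p hdvd
  have hc := hO z w hz1 hw1 hzpe hw ((big_iff p z).mpr (by omega)) ((big_iff p w).mpr h3)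
  refine ⟨?_, ?_⟩
  · obtain ⟨g, rfl⟩ := isConj_iff.mp hc
    rw [conj_pow, hzp]
    group
  · rw [← vC_conj p hc, hzv]

lemma small_of_not (p : ℕ) [hp : Fact p.Prime] (w : G) (hw : IsPE p w) (h : vC p w ≤ 2) : Small p w := by
  refine ⟨w, hw, Subgroup.mem_zpowers w, ?_⟩
  rw [Nat.div_self (orderOf_pos w), mul_one]
  exact pow_dvd_pow p h

theorem condC_of_oneBig (p : ℕ) [hp : Fact p.Prime] (hO : OneBig p G) : CondC p G := by
  have hbig : ∀ w : G, IsPE p w → ¬ Small p w → 3 ≤ vC p w := by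
    intro w hw hs
    by_contra h
    exact hs (small_of_not p w hw (by omega))
  refine ⟨?_, ?_⟩
  · intro w w' hw1 hw1' hw hw' hs hs'
    exact hO w w' hw1 hw1' hw hw' ((big_iff p w).mpr (hbig w hw hs)) ((big_iff p w').mpr (hbig w' hw' hs'))
  · intro w hw1 hw hs
    obtain ⟨h1, h2⟩ := big_facts p hO w hw1 hw (hbig w hw hs)
    refine ⟨h1, ?_⟩
    intro h3
    have h4 := idx_val p w
    have hi0 : (Subgroup.centralizer ({w} : Set G)).index ≠ 0 := Subgroup.index_ne_zero_of_finite
    have h5 := (hp.out.pow_dvd_iff_le_factorization hi0 (k := 1)).mp (by rwa [pow_one])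
    omega

theorem oneBig_of_condC (p : ℕ) [hp : Fact p.Prime] (hB : CondB p G) (hC : CondC p G) : OneBig p G := by
  have hfull : ∀ w : G, w ≠ 1 → IsPE p w → ¬ Small p w →
      w ^ p = 1 ∧ vC p w = (Nat.card G).factorization p := by
    intro w hw1 hw hs
    obtain ⟨h1, h2⟩ := hC.2 w hw1 hw hs
    refine ⟨h1, ?_⟩
    have h4 := idx_val p w
    rw [Nat.factorization_eq_zero_of_not_dvd h2] at h4
    omega
  -- a small element with big centraliser
  have key : ∀ w : G, w ≠ 1 → IsPE p w → Small p w → 3 ≤ vC p w →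
      (w ^ p = 1 ∧ vC p w = (Nat.card G).factorization p) ∧ ∃ x : G, orderOf x = p ^ (vC p x) := by
    intro w hw1 hw hs h3
    obtain ⟨x, hx⟩ := exists_maxAbove p w hw
    obtain ⟨x0, hx0, hwx0, hdiv⟩ := hs
    obtain ⟨i, hi⟩ := hw
    obtain ⟨m0, hm0⟩ := hx0
    obtain ⟨m, hm⟩ := hx.1
    have hi0 : i ≠ 0 := by
      rintro rfl
      rw [pow_zero] at hi
      exact hw1 (orderOf_eq_one_iff.mp hi)
    have hle : i ≤ m0 := by
      have h1 : orderOf w ∣ orderOf x0 := orderOf_dvd_of_mem_zpowers hwx0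
      rw [hi, hm0] at h1
      exact (Nat.pow_dvd_pow_iff_le_right hp.out.one_lt).mp h1
    have hle2 : m0 ≤ m := by
      have h1 := hx.2.2 x0 ⟨m0, hm0⟩ hwx0
      rw [hm0, hm] at h1
      exact (Nat.pow_le_pow_iff_right hp.out.one_lt).mp h1
    have ha : p * (orderOf x0 / orderOf w) = p ^ (m0 - i + 1) := by
      rw [hi, hm0, Nat.pow_div hle hp.out.pos, pow_succ']
    rw [ha, ← pow_mul, Nat.pow_dvd_pow_iff_le_right hp.out.one_lt] at hdiv
    have hdiv' : vC p w ≤ (m0 - i + 1) * 2 := hdiv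
    have hm2 : 2 ≤ m := by omega
    have hx1 : x ≠ 1 := by
      rintro rfl
      rw [orderOf_one] at hm
      exact (Nat.one_lt_pow (by omega : m ≠ 0) hp.out.one_lt).ne hm
    have hxs : Small p x := by
      by_contra hns
      have h1 := (hfull x hx1 hx.1 hns).1
      have h2 := orderOf_dvd_of_pow_eq_one h1
      rw [hm] at h2
      have h3' : p ^ m ∣ p ^ 1 := by rwa [pow_one]
      have := (Nat.pow_dvd_pow_iff_le_right hp.out.one_lt).mp h3'
      omega
    obtain ⟨x2, hx2, hxx2, hdiv2⟩ := hxs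
    have hord2 : orderOf x2 = orderOf x := by
      apply le_antisymm
      · apply hx.2.2 x2 hx2
        have : Subgroup.zpowers x ≤ Subgroup.zpowers x2 := by rwa [Subgroup.zpowers_le]
        exact this hx.2.1
      · exact Nat.le_of_dvd (orderOf_pos _) (orderOf_dvd_of_mem_zpowers hxx2)
    rw [hord2, Nat.div_self (orderOf_pos x), mul_one, Nat.pow_dvd_pow_iff_le_right hp.out.one_lt] at hdiv2
    have hvx : vC p x ≤ 2 := hdiv2
    have hvx2 := vC_lower p x m hm
    have hmeq : m = 2 := by omega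
    have hvxeq : vC p x = 2 := by omega
    have hxo : orderOf x = p ^ (vC p x) := by rw [hm, hmeq, hvxeq]
    have hi1 : i = 1 := by omega
    have hwp : w ^ p = 1 := by
      have := pow_orderOf_eq_one w
      rwa [hi, hi1, pow_one] at this
    have hf : 3 ≤ (Nat.card G).factorization p := h3.trans (vC_le p w)
    have hdvd : p ∣ Nat.card G := by
      have := (hp.out.pow_dvd_iff_le_factorization (Nat.card_pos.ne' : Nat.card G ≠ 0)).mpr
        (show 1 ≤ (Nat.card G).factorization p by omega)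
      rwa [pow_one] at this
    obtain ⟨z, hz1, hzp, hzpe, hzv⟩ := exists_z p hdvd
    obtain ⟨g, hg⟩ := to_xs p z x hzpe hzv hxo
    have hcz : IsConj z (g * z * g⁻¹) := isConj_iff.mpr ⟨g, rfl⟩
    have hu1 : g * z * g⁻¹ ≠ 1 := by
      intro h; rw [h, isConj_one_left] at hcz; exact hz1 hcz
    have hup : (g * z * g⁻¹) ^ p = 1 := by rw [conj_pow, hzp]; group
    have hcw : IsConj (g * z * g⁻¹) w := by
      rcases tot p ⟨_, hxo⟩ hg hx.2.1 with h | ⟨j, hj⟩
      · obtain ⟨k, hk⟩ := nat_pow_of_mem h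
        have hpk : ¬ p ∣ k := by
          rintro ⟨t, rfl⟩
          apply hu1
          rw [hk, pow_mul, hwp, one_pow]
        have h3 := hB w ⟨i, hi⟩ k hpk
        rw [← hk] at h3
        exact h3.symm
      · exfalso
        apply hw1
        rw [hj, pow_mul, hup, one_pow]
    refine ⟨⟨hwp, ?_⟩, x, hxo⟩
    rw [← vC_conj p (hcz.trans hcw), hzv]
  intro w w' hw1 hw1' hw hw' h3 h3'
  rw [big_iff] at h3 h3'
  by_cases hs : Small p w
  · obtain ⟨⟨a1, a2⟩, x, hx⟩ := key w hw1 hw hs h3
    have hb : w' ^ p = 1 ∧ vC p w' = (Nat.card G).factorization p := by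
      by_cases hs' : Small p w'
      · exact (key w' hw1' hw' hs' h3').1
      · exact hfull w' hw1' hw' hs'
    exact struct_conj p hB w w' x hw1 hw1' a1 hb.1 a2 hb.2 hx
  · by_cases hs' : Small p w'
    · obtain ⟨⟨a1, a2⟩, x, hx⟩ := key w' hw1' hw' hs' h3'
      obtain ⟨b1, b2⟩ := hfull w hw1 hw hs
      exact struct_conj p hB w w' x hw1 hw1' b1 a1 b2 a2 hx
    · exact hC.1 w w' hw1 hw1' hw hw' hs hs'

theorem condC_iff (p : ℕ) [hp : Fact p.Prime] (hB : CondB p G) : CondC p G ↔ OneBig p G :=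
  ⟨fun h => oneBig_of_condC p hB h, fun h => condC_of_oneBig p h⟩

/-- at the prime 2 an element of order at least 4 forces order 8 -/
theorem two_order4 (hB : CondB 2 G) (hO : OneBig 2 G) (x0 : G) (hx0 : IsPE 2 x0) (hx02 : x0 ^ 2 ≠ 1) :
    CondM G := by
  have h4 : ∀ u : G, IsPE 2 u → u ^ 2 ≠ 1 → orderOf u = 2 ^ 2 ∧ vC 2 u = 2 := by
    intro u hu hu2
    obtain ⟨k, hk⟩ := hu
    have hu1 : u ≠ 1 := by rintro rfl; exact hu2 (one_pow 2)
    have hk2 : 2 ≤ k := by
      by_contra h
      apply hu2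
      have h1 := pow_orderOf_eq_one u
      rw [hk] at h1
      have : k = 0 ∨ k = 1 := by omega
      rcases this with rfl | rfl
      · rw [pow_zero, pow_one] at h1
        rw [h1, one_pow]
      · rwa [pow_one] at h1
    have h1 : vC 2 u ≤ 2 := by
      by_contra h
      exact hu2 (big_facts 2 hO u hu1 ⟨k, hk⟩ (by omega)).1
    have h2 := vC_lower 2 u k hk
    have : k = 2 := by omega
    rw [this] at hk
    exact ⟨hk, by omega⟩
  obtain ⟨hxo, hxv⟩ := h4 x0 hx0 hx02
  have hx3 : IsConj x0 (x0 ^ 3) := hB x0 hx0 3 (by norm_num)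
  -- the Sylow subgroup
  have hxp : IsPGroup 2 (Subgroup.zpowers x0) := by
    apply IsPGroup.of_card (n := 2)
    rw [Nat.card_zpowers, hxo]
  obtain ⟨P, hP⟩ := hxp.exists_le_sylow
  have hxP : x0 ∈ P := hP (Subgroup.mem_zpowers x0)
  -- elements of P commuting with u of order 4 are powers of u
  have hcent : ∀ u ∈ P, orderOf u = 2 ^ 2 → vC 2 u = 2 → ∀ w ∈ P, w * u = u * w → w ∈ Subgroup.zpowers u := by
    intro u huP huo huv w hwP hwu
    set S := Subgroup.centralizer ({u} : Set G) ⊓ (P : Subgroup G) with hS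
    have hSp : Nat.card S ∣ 2 ^ (Nat.card G).factorization 2 := by
      rw [← P.card_eq_multiplicity]
      exact Subgroup.card_dvd_of_le inf_le_right
    have hSc : Nat.card S ∣ Nat.card (Subgroup.centralizer ({u} : Set G)) :=
      Subgroup.card_dvd_of_le inf_le_left
    obtain ⟨i, hi, hi'⟩ := (Nat.dvd_prime_pow Nat.prime_two).mp hSp
    have hi2 : i ≤ 2 := by
      rw [hi'] at hSc
      have := (Nat.prime_two.pow_dvd_iff_le_factorization (cent_ne u)).mp hSc
      have h5 : vC 2 u = (Nat.card (Subgroup.centralizer ({u} : Set G))).factorization 2 := rfl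
      omega
    have hle : Subgroup.zpowers u ≤ S := by
      rw [Subgroup.zpowers_le]
      exact ⟨Subgroup.mem_centralizer_singleton_iff.mpr rfl, huP⟩
    have heq : Subgroup.zpowers u = S := by
      apply Subgroup.eq_of_le_of_card_ge hle
      rw [Nat.card_zpowers, huo, hi']
      exact Nat.pow_le_pow_right (by norm_num) hi2
    rw [heq]
    exact ⟨Subgroup.mem_centralizer_singleton_iff.mpr hwu, hwP⟩
  have hdvd : 2 ∣ Nat.card G := by
    have h1 : orderOf x0 ∣ Nat.card G := orderOf_dvd_natCard x0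
    rw [hxo] at h1
    exact (by norm_num : (2 : ℕ) ∣ 2 ^ 2).trans h1
  obtain ⟨z, hzP, hz1, hz2, hzc⟩ := exists_central 2 P hdvd
  -- squares in P are 1 or z
  have hsq : ∀ u ∈ P, u ^ 2 = 1 ∨ u ^ 2 = z := by
    intro u huP
    by_cases hu2 : u ^ 2 = 1
    · left; exact hu2
    · right
      have hupe : IsPE 2 u := IsPE.of_mem_pgroup P.2 huP
      obtain ⟨huo, huv⟩ := h4 u hupe hu2
      have hzu := hcent u huP huo huv z hzP (hzc u huP).symm
      obtain ⟨j, hj⟩ := nat_pow_of_mem hzu
      have hu4 : u ^ 4 = 1 := by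
        have := pow_orderOf_eq_one u
        rw [huo] at this
        simpa using this
      have hjm : u ^ j = u ^ (j % 4) := pow_eq_pow_mod j hu4
      rw [hj, hjm]
      have hj4 : j % 4 < 4 := Nat.mod_lt _ (by norm_num)
      have hz2' : (u ^ (j % 4)) ^ 2 = 1 := by rw [← hjm, ← hj]; exact hz2
      interval_cases hh : j % 4
      · exfalso; apply hz1; rw [hj, hjm, pow_zero]
      · exfalso; apply hu2; rwa [pow_one] at hz2'
      · rfl
      · exfalso
        apply hu2
        have e1 : (u ^ 3) ^ 2 = u ^ 4 * u ^ 2 := by group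
        rw [e1, hu4, one_mul] at hz2'
        exact hz2'
  have hzx : x0 ^ 2 = z := by
    rcases hsq x0 hxP with h | h
    · exact absurd h hx02
    · exact h
  -- P normalises <x0>
  have hPS : (P : Subgroup G) ≤ stabS 2 x0 := by
    intro g hg
    have hzsq : z * z = 1 := by rw [← pow_two]; exact hz2
    have e1 : g * x0 * g⁻¹ = (g * x0) ^ 2 * (x0⁻¹ * (g ^ 2)⁻¹ * x0) * (x0 ^ 2)⁻¹ * x0 := by
      simp only [pow_two]
      group
    have hgx := hsq (g * x0) ((P : Subgroup G).mul_mem hg hxP)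
    have hg2 := hsq g hg
    have hzx0 : z * x0 = x0 * z := (hzc x0 hxP).symm
    have hzi : z⁻¹ = z := inv_eq_of_mul_eq_one_left hzsq
    have hx3' : x0 ^ 3 = z * x0 := by rw [pow_succ, hzx]
    have hcase : g * x0 * g⁻¹ = x0 ^ 1 ∨ g * x0 * g⁻¹ = x0 ^ 3 := by
      rw [e1, hx3', hzx, hzi, pow_one]
      rcases hgx with h | h <;> rcases hg2 with h' | h'
      · right
        rw [h, h']
        group
      · left
        rw [h, h', hzi]
        have : x0⁻¹ * z * x0 = z := by rw [mul_assoc, hzx0]; group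
        rw [one_mul, this, hzsq, one_mul]
      · left
        rw [h, h']
        have : x0⁻¹ * (1 : G)⁻¹ * x0 = 1 := by group
        rw [this, mul_one, hzsq, one_mul]
      · right
        rw [h, h', hzi]
        have : x0⁻¹ * z * x0 = z := by rw [mul_assoc, hzx0]; group
        rw [this, hzsq, one_mul]
    rcases hcase with h | h
    · exact ⟨1, rfl, h⟩
    · exact ⟨3, by decide, h⟩
  -- order of stabS
  have hS2 : Nat.card (stabS 2 x0) = 2 * Nat.card (Subgroup.centralizer ({x0} : Set G)) := by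
    have h3 : (stabS 2 x0 : Set G) = (Yj 4 x0 1) ∪ (Yj 4 x0 3) := by
      ext w
      constructor
      · rintro ⟨a, ha, hw⟩
        have : a ≡ 1 [MOD 4] ∨ a ≡ 3 [MOD 4] := by
          unfold Nat.ModEq at *
          omega
        rcases this with h | h
        · left; exact ⟨a, h, hw⟩
        · right; exact ⟨a, h, hw⟩
      · rintro (⟨a, ha, hw⟩ | ⟨a, ha, hw⟩)
        all_goals
          refine ⟨a, ?_, hw⟩
          unfold Nat.ModEq at *
          omega
    have hdisj : Disjoint (Yj 4 x0 1) (Yj 4 x0 3) := by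
      rw [Set.disjoint_left]
      rintro w ⟨a, ha, hw⟩ ⟨b, hb, hw'⟩
      rw [hw, pow_eq_pow_iff_modEq, hxo] at hw'
      unfold Nat.ModEq at *
      norm_num at hw'
      omega
    obtain ⟨y, hy⟩ := isConj_iff.mp hx3
    have hst : stabM 4 x0 = Subgroup.centralizer ({x0} : Set G) := by
      ext w
      rw [mem_stabM, Subgroup.mem_centralizer_singleton_iff]
      constructor
      · rintro ⟨a, ha, hw⟩
        have h1 : x0 ^ a = x0 ^ 1 := by
          rw [pow_eq_pow_iff_modEq, hxo]
          exact ha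
        rw [h1, pow_one, mul_inv_eq_iff_eq_mul] at hw
        exact hw
      · intro hw
        exact ⟨1, rfl, by rw [pow_one, mul_inv_eq_iff_eq_mul]; exact hw⟩
    have h9 : (Yj 4 x0 1).ncard = Nat.card (Subgroup.centralizer ({x0} : Set G)) := by
      rw [← hst, ← Nat.card_coe_set_eq]
      rfl
    have h10 : Nat.card (stabS 2 x0) = (stabS 2 x0 : Set G).ncard := by
      rw [← Nat.card_coe_set_eq]
      rfl
    rw [h10, h3, Set.ncard_union_eq hdisj (Set.toFinite _) (Set.toFinite _), h9,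
      ← Nat.card_coe_set_eq (Yj 4 x0 3), Yj_card 4 x0 3 (by decide) ⟨y, 3, rfl, hy⟩, hst]
    ring
  have hfacS : (Nat.card (stabS 2 x0)).factorization 2 = 3 := by
    rw [hS2, Nat.factorization_mul (by norm_num) (cent_ne x0), Finsupp.add_apply,
      Nat.Prime.factorization_self Nat.prime_two]
    have h5 : vC 2 x0 = (Nat.card (Subgroup.centralizer ({x0} : Set G))).factorization 2 := rfl
    rw [← h5, hxv]
  refine ⟨x0, 2, le_rfl, hxo, ?_, 3, rfl, hx3⟩
  apply le_antisymm
  · have h1 := Subgroup.card_dvd_of_le hPS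
    have h2 : Nat.card (P : Subgroup G) = 2 ^ (Nat.card G).factorization 2 := P.card_eq_multiplicity
    rw [h2, Nat.prime_two.pow_dvd_iff_le_factorization Nat.card_pos.ne', hfacS] at h1
    exact h1
  · have h1 := (Nat.factorization_le_iff_dvd (Nat.card_pos.ne' : Nat.card (stabS 2 x0) ≠ 0) (Nat.card_pos.ne' : Nat.card G ≠ 0)).mpr
      (Subgroup.card_subgroup_dvd_card (stabS 2 x0)) 2
    rw [hfacS] at h1
    exact h1

end Pool.Agent.Helper884.IC
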