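import Pool.Agent.Helper884.IC.Two7

set_option linter.unusedSectionVars false
set_option linter.style.haveILetI false
set_option linter.unusedVariables false

open scoped BigOperators Classical
open Representation

noncomputable section

namespace Pool.Agent.Helper884.IC

/-- dihedral, generalised quaternion or semidihedral of order `2 ^ (m + 1)`, at least 8 -/
def IsDSQ (P : Type) [Group P] : Prop :=
  ∃ (x y : P) (m : ℕ), 2 ≤ m ∧ orderOf x = 2 ^ m ∧ Nat.card P = 2 ^ (m + 1) ∧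
    y ∉ Subgroup.zpowers x ∧
    ((y * x * y⁻¹ = x⁻¹ ∧ (y ^ 2 = 1 ∨ y ^ 2 = x ^ (2 ^ (m - 1)))) ∨
      (3 ≤ m ∧ y * x * y⁻¹ = x ^ (2 ^ (m - 1) - 1) ∧ y ^ 2 = 1))

variable {G : Type} [Group G] [Fintype G]

lemma M_conj (hM : CondM G) (Q : Sylow 2 G) : ∃ (x y : G) (m l : ℕ), 2 ≤ m ∧ orderOf x = 2 ^ m ∧
    (Nat.card G).factorization 2 = m + 1 ∧ l ≡ 3 [MOD 4] ∧ y * x * y⁻¹ = x ^ l ∧ x ∈ Q := by
  obtain ⟨x0, m, hm, hx0, hG, l, hl, hc⟩ := hM
  obtain ⟨y, hy⟩ := isConj_iff.mp hc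
  have hx0p : IsPGroup 2 (Subgroup.zpowers x0) := by
    apply IsPGroup.of_card (n := m)
    rw [Nat.card_zpowers, hx0]
  obtain ⟨P0, hP0⟩ := hx0p.exists_le_sylow
  obtain ⟨z, hz⟩ := MulAction.exists_smul_eq G P0 Q
  have hxQ : z * x0 * z⁻¹ ∈ Q := by
    rw [← hz, Sylow.smul_def]
    have h1 : x0 ∈ (P0 : Subgroup G) := hP0 (Subgroup.mem_zpowers x0)
    have h2 := Subgroup.smul_mem_pointwise_smul x0 (MulAut.conj z) (P0 : Subgroup G) h1
    exact h2
  have hxo : orderOf (z * x0 * z⁻¹) = 2 ^ m := by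
    have h1 := (MulAut.conj z).orderOf_eq x0
    rw [MulAut.conj_apply] at h1
    rw [h1, hx0]
  have hyx : (z * y * z⁻¹) * (z * x0 * z⁻¹) * (z * y * z⁻¹)⁻¹ = (z * x0 * z⁻¹) ^ l := by
    rw [conj_pow, ← hy]
    group
  exact ⟨z * x0 * z⁻¹, z * y * z⁻¹, m, l, hm, hxo, hG, hl, hyx, hxQ⟩

lemma mk_DSQ (Q : Sylow 2 G) (x y : G) (m : ℕ) (hm : 2 ≤ m) (hx : orderOf x = 2 ^ m)
    (hG : (Nat.card G).factorization 2 = m + 1) (hxQ : x ∈ Q) (hyQ : y ∈ Q)
    (hyX : y ∉ Subgroup.zpowers x)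
    (h : (y * x * y⁻¹ = x⁻¹ ∧ (y ^ 2 = 1 ∨ y ^ 2 = x ^ (2 ^ (m - 1)))) ∨
      (3 ≤ m ∧ y * x * y⁻¹ = x ^ (2 ^ (m - 1) - 1) ∧ y ^ 2 = 1)) : IsDSQ Q := by
  refine ⟨⟨x, hxQ⟩, ⟨y, hyQ⟩, m, hm, ?_, ?_, ?_, ?_⟩
  · rw [Subgroup.orderOf_mk, hx]
  · rw [Q.card_eq_multiplicity, hG]
  · intro h1
    apply hyX
    obtain ⟨k, hk⟩ := h1
    refine ⟨k, ?_⟩
    have := congrArg (fun w : (Q : Subgroup G) => (w : G)) hk
    simpa using this
  · rcases h with ⟨h1, h2⟩ | ⟨h0, h1, h2⟩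
    · left
      refine ⟨Subtype.ext h1, ?_⟩
      rcases h2 with h2 | h2
      · left; exact Subtype.ext h2
      · right; exact Subtype.ext h2
    · right
      exact ⟨h0, Subtype.ext h1, Subtype.ext h2⟩

theorem M_to_DSQ (hM : CondM G) (Q : Sylow 2 G) : IsDSQ Q := by
  obtain ⟨x, y, m, l, hm, hx, hG, hl, hy, hxQ⟩ := M_conj hM Q
  obtain ⟨F1, F2⟩ := Q_facts x y m l hm hx hG hl hy Q hxQ
  have hQc : Nat.card Q = 2 ^ (m + 1) := by rw [Q.card_eq_multiplicity, hG]
  obtain ⟨v, hvQ, hvX⟩ : ∃ v ∈ Q, v ∉ Subgroup.zpowers x := by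
    by_contra hcon
    push Not at hcon
    have h1 : (Q : Subgroup G) ≤ Subgroup.zpowers x := hcon
    have h2 := Subgroup.card_dvd_of_le h1
    have h3 : Nat.card (Q : Subgroup G) = 2 ^ (m + 1) := hQc
    rw [h3, Nat.card_zpowers, hx] at h2
    have := (Nat.pow_dvd_pow_iff_le_right (by norm_num : 1 < 2)).mp h2
    omega
  obtain ⟨l', hl', e'⟩ := F1 v hvQ hvX
  have hviX : v⁻¹ ∉ Subgroup.zpowers x := fun h => hvX (by simpa using (Subgroup.zpowers x).inv_mem h)
  have hv2 : v ^ 2 ∈ Subgroup.zpowers x := by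
    have h3 := F2 v⁻¹ v ((Q : Subgroup G).inv_mem hvQ) hvQ hviX hvX
    rwa [inv_inv, ← pow_two] at h3
  obtain ⟨l'', hl'', e''⟩ := F1 v⁻¹ ((Q : Subgroup G).inv_mem hvQ) hviX
  obtain ⟨hv4, _, _⟩ := v_facts x v m l' hm hx hl' e' hv2 l'' hl'' e''
  obtain ⟨s, hs⟩ := nat_pow_of_mem hv2
  obtain ⟨m', rfl⟩ : ∃ m', m = m' + 2 := ⟨m - 2, by omega⟩
  have em : m' + 2 - 1 = m' + 1 := by omega
  set z := x ^ (2 ^ (m' + 1)) with hz
  have hzz : z * z = 1 := by
    rw [hz, ← pow_add, ← two_mul, ← pow_succ', ← hx, pow_orderOf_eq_one]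
  -- v ^ 2
  have hv2' : v ^ 2 = 1 ∨ v ^ 2 = z := by
    have h1 : x ^ (s * 2) = 1 := by
      rw [pow_mul, ← hs, ← pow_mul]
      exact hv4
    have h2 := orderOf_dvd_of_pow_eq_one h1
    rw [hx] at h2
    have h3 : 2 ^ (m' + 1) ∣ s := by
      have : 2 ^ (m' + 2) = 2 ^ (m' + 1) * 2 := by ring
      rw [this] at h2
      exact Nat.dvd_of_mul_dvd_mul_right (by norm_num) h2
    obtain ⟨s', hs'⟩ := h3
    rcases Nat.even_or_odd' s' with ⟨c, hc | hc⟩
    · left
      rw [hs, hs', pow_mul, ← hz, hc, pow_mul, pow_two, hzz, one_pow]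
    · right
      rw [hs, hs', pow_mul, ← hz, hc, pow_succ, pow_mul, pow_two, hzz, one_pow, one_mul]
  -- the action
  have hact : x ^ (l' + 1) = 1 ∨ (3 ≤ m' + 2 ∧ x ^ (l' + 1) = z) := by
    have h3 := conj_iter v x l' e' 2
    rw [hs] at h3
    have h4 : x ^ s * x * (x ^ s)⁻¹ = x ^ 1 := by group
    rw [h4, pow_eq_pow_iff_modEq, hx] at h3
    have hl4 : l' % 4 = 3 := hl'
    obtain ⟨t, ht⟩ : ∃ t, l' = 4 * t + 3 := ⟨l' / 4, by omega⟩
    have h5 := Nat.modEq_iff_dvd.mp h3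
    have h6 : ((2 ^ (m' + 2) : ℕ) : ℤ) ∣ ((2 * (l' + 1) * (2 * t + 1) : ℕ) : ℤ) := by
      have : (((l' ^ 2 : ℕ) : ℤ) - ((1 : ℕ) : ℤ)) = ((2 * (l' + 1) * (2 * t + 1) : ℕ) : ℤ) := by
        rw [ht]; push_cast; ring
      rw [← this]; exact h5
    have h7 : 2 ^ (m' + 2) ∣ 2 * (l' + 1) * (2 * t + 1) := by exact_mod_cast h6
    have h8 : (2 ^ (m' + 2)).Coprime (2 * t + 1) := by
      apply Nat.Coprime.pow_left
      rw [Nat.coprime_two_left]
      exact ⟨t, rfl⟩
    have h9 := h8.dvd_of_dvd_mul_right h7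
    have h10 : 2 ^ (m' + 1) ∣ l' + 1 := by
      have : 2 ^ (m' + 2) = 2 * 2 ^ (m' + 1) := by ring
      rw [this] at h9
      exact Nat.dvd_of_mul_dvd_mul_left (by norm_num) h9
    obtain ⟨r, hr⟩ := h10
    rcases Nat.even_or_odd' r with ⟨c, hc | hc⟩
    · left
      rw [hr, pow_mul, ← hz, hc, pow_mul, pow_two, hzz, one_pow]
    · right
      refine ⟨?_, ?_⟩
      · by_contra h
        have : m' = 0 := by omega
        rw [this, hc] at hr
        norm_num at hr
        omega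
      · rw [hr, pow_mul, ← hz, hc, pow_succ, pow_mul, pow_two, hzz, one_pow, one_mul]
  rcases hact with hact | ⟨hm3, hact⟩
  · apply mk_DSQ Q x v (m' + 2) hm hx hG hxQ hvQ hvX
    left
    refine ⟨?_, ?_⟩
    · rw [e', eq_inv_iff_mul_eq_one, ← pow_succ, hact]
    · rw [em, ← hz]
      exact hv2'
  · have hxl : x ^ l' = x ^ (2 ^ (m' + 1) - 1) := by
      have h1 : x ^ (2 ^ (m' + 1) - 1) * x = z := by
        rw [← pow_succ, Nat.sub_add_cancel Nat.one_le_two_pow]
      have h2 : x ^ l' * x = z := by rw [← pow_succ, hact]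
      exact mul_right_cancel (h2.trans h1.symm)
    rcases hv2' with h1 | h1
    · apply mk_DSQ Q x v (m' + 2) hm hx hG hxQ hvQ hvX
      right
      refine ⟨hm3, ?_, h1⟩
      rw [e', em, hxl]
    · apply mk_DSQ Q x (v * x) (m' + 2) hm hx hG hxQ ((Q : Subgroup G).mul_mem hvQ hxQ)
      · intro h2
        apply hvX
        have h3 := (Subgroup.zpowers x).mul_mem h2 ((Subgroup.zpowers x).inv_mem (Subgroup.mem_zpowers x))
        rwa [mul_inv_cancel_right] at h3
      · right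
        refine ⟨hm3, ?_, ?_⟩
        · rw [em, ← hxl, ← e']
          group
        · have h2 : (v * x) ^ 2 = (v * x * v⁻¹) * v ^ 2 * x := by
            simp only [pow_two]
            group
          have hzx : z * x = x * z := by
            rw [hz, ← pow_succ, ← pow_succ']
          rw [h2, e', h1, mul_assoc, hzx, ← mul_assoc, ← pow_succ, hact, hzz]

theorem DSQ_to_M (h : ∀ P : Sylow 2 G, IsDSQ P) : CondM G := by
  obtain ⟨P⟩ : Nonempty (Sylow 2 G) := inferInstance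
  obtain ⟨x, y, m, hm, hx, hcard, _, hact⟩ := h P
  have hxo : orderOf (x : G) = 2 ^ m := by rw [Subgroup.orderOf_coe, hx]
  have hG : (Nat.card G).factorization 2 = m + 1 := by
    have h1 : 2 ^ (Nat.card G).factorization 2 = 2 ^ (m + 1) := by
      rw [← P.card_eq_multiplicity]; exact hcard
    exact Nat.pow_right_injective (by norm_num) h1
  obtain ⟨m', rfl⟩ : ∃ m', m = m' + 2 := ⟨m - 2, by omega⟩
  have em : m' + 2 - 1 = m' + 1 := by omega
  refine ⟨x, m' + 2, hm, hxo, hG, ?_⟩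
  rcases hact with ⟨h1, _⟩ | ⟨h0, h1, _⟩
  · refine ⟨2 ^ (m' + 2) - 1, ?_, isConj_iff.mpr ⟨y, ?_⟩⟩
    · have : 2 ^ (m' + 2) = 4 * 2 ^ m' := by ring
      have h2 : 1 ≤ 2 ^ m' := Nat.one_le_two_pow
      unfold Nat.ModEq
      omega
    · have h2 : (y : G) * x * (y : G)⁻¹ = (x : G)⁻¹ := by
        have := congrArg (fun w : (P : Subgroup G) => (w : G)) h1
        simpa using this
      rw [h2, inv_eq_iff_mul_eq_one, ← pow_succ', Nat.sub_add_cancel Nat.one_le_two_pow, ← hxo,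
        pow_orderOf_eq_one]
  · refine ⟨2 ^ (m' + 1) - 1, ?_, isConj_iff.mpr ⟨y, ?_⟩⟩
    · obtain ⟨m'', rfl⟩ : ∃ m'', m' = m'' + 1 := ⟨m' - 1, by omega⟩
      have : 2 ^ (m'' + 1 + 1) = 4 * 2 ^ m'' := by ring
      have h2 : 1 ≤ 2 ^ m'' := Nat.one_le_two_pow
      unfold Nat.ModEq
      omega
    · rw [em] at h1
      have := congrArg (fun w : (P : Subgroup G) => (w : G)) h1
      simpa using this

theorem M_iff : CondM G ↔ ∀ P : Sylow 2 G, IsDSQ P :=
  ⟨fun h P => M_to_DSQ h P, DSQ_to_M⟩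

/-- the prime two -/
theorem two_iff (hnc : ¬ ∀ P : Sylow 2 G, IsCyclic P) :
    ((CondB 2 G ∧ CondC 2 G) ∨ CondM G) ↔
      ((∀ P : Sylow 2 G, IsDSQ P) ∨ ((∀ P : Sylow 2 G, ∀ u ∈ P, u ^ 2 = 1) ∧
        (¬ 8 ∣ Nat.card G ∨ ∀ u v : G, orderOf u = 2 → orderOf v = 2 → IsConj u v))) := by
  rw [← M_iff]
  constructor
  · rintro (⟨hB, hC⟩ | hM)
    · have hO := oneBig_of_condC 2 hB hC
      by_cases hex : ∃ x0 : G, IsPE 2 x0 ∧ x0 ^ 2 ≠ 1
      · obtain ⟨x0, h1, h2⟩ := hex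
        left
        exact two_order4 hB hO x0 h1 h2
      · right
        push Not at hex
        refine ⟨fun P u hu => hex u (IsPE.of_mem_pgroup P.2 hu), ?_⟩
        by_cases h8 : 8 ∣ Nat.card G
        · right
          -- every involution has a big centraliser
          have hbig : ∀ u : G, orderOf u = 2 → 2 ^ 3 ∣ Nat.card (Subgroup.centralizer ({u} : Set G)) := by
            intro u hu
            have hup : IsPGroup 2 (Subgroup.zpowers u) := by
              apply IsPGroup.of_card (n := 1)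
              rw [Nat.card_zpowers, hu, pow_one]
            obtain ⟨P, hP⟩ := hup.exists_le_sylow
            have huP : u ∈ P := hP (Subgroup.mem_zpowers u)
            have hcomm : ∀ w ∈ P, w * u = u * w := by
              intro w hw
              have e1 := hex w (IsPE.of_mem_pgroup P.2 hw)
              have e2 := hex u (IsPE.of_mem_pgroup P.2 huP)
              have e3 := hex (w * u) (IsPE.of_mem_pgroup P.2 ((P : Subgroup G).mul_mem hw huP))
              rw [pow_two] at e1 e2 e3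
              calc w * u = w * (w * u * (w * u)) * u := by rw [e3]; group
                _ = (w * w) * (u * w) * (u * u) := by group
                _ = u * w := by rw [e1, e2]; group
            have h1 := vC_central 2 P u hcomm
            rw [big_iff, h1, ← Nat.prime_two.pow_dvd_iff_le_factorization Nat.card_pos.ne']
            exact h8
          intro u v hu hv
          have hne : ∀ w : G, orderOf w = 2 → w ≠ 1 := by
            rintro w hw rfl
            rw [orderOf_one] at hw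
            norm_num at hw
          exact hO u v (hne u hu) (hne v hv) ⟨1, by rw [hu, pow_one]⟩ ⟨1, by rw [hv, pow_one]⟩
            (hbig u hu) (hbig v hv)
        · left; exact h8
    · left; exact hM
  · rintro (hM | ⟨hE, hI⟩)
    · right; exact hM
    · left
      have hE' : ∀ u : G, IsPE 2 u → u ^ 2 = 1 := by
        intro u hu
        have hup : IsPGroup 2 (Subgroup.zpowers u) := by
          obtain ⟨k, hk⟩ := hu
          apply IsPGroup.of_card (n := k)
          rw [Nat.card_zpowers, hk]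
        obtain ⟨P, hP⟩ := hup.exists_le_sylow
        exact hE P u (hP (Subgroup.mem_zpowers u))
      have hB : CondB 2 G := by
        intro u hu k hk
        have h1 : u ^ k = u := by
          obtain ⟨c, hc⟩ : ∃ c, k = 2 * c + 1 := ⟨k / 2, by omega⟩
          rw [hc, pow_succ, pow_mul, hE' u hu, one_pow, one_mul]
        rw [h1]
      refine ⟨hB, condC_of_oneBig 2 ?_⟩
      intro w w' hw1 hw1' hw hw' h3 h3'
      have ho : ∀ w : G, w ≠ 1 → IsPE 2 w → orderOf w = 2 := by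
        intro w h1 h2
        exact orderOf_eq_prime (hE' w h2) h1
      rcases hI with hI | hI
      · exfalso
        apply hI
        exact (by norm_num : (8 : ℕ) ∣ 2 ^ 3).trans (h3.trans (Subgroup.card_subgroup_dvd_card _))
      · exact hI w w' (ho w hw1 hw) (ho w' hw1' hw')

/-- final form of the characterisation -/
theorem main_iff : HasIC G ↔
    (∀ p : ℕ, p.Prime → p ≠ 2 →
      ((∀ P : Sylow p G, IsCyclic P) ∨ (CondA p G ∧ CondB p G ∧ OneBig p G))) ∧
    ((∀ P : Sylow 2 G, IsCyclic P) ∨ (CondA 2 G ∧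
      ((∀ P : Sylow 2 G, IsDSQ P) ∨ ((∀ P : Sylow 2 G, ∀ u ∈ P, u ^ 2 = 1) ∧
        (¬ 8 ∣ Nat.card G ∨ ∀ u v : G, orderOf u = 2 → orderOf v = 2 → IsConj u v))))) := by
  rw [full_iff]
  constructor
  · intro h
    refine ⟨?_, ?_⟩
    · intro p hp hp2
      haveI : Fact p.Prime := ⟨hp⟩
      rcases h p hp with h1 | ⟨hA, hB, hC⟩ | ⟨h2, _⟩
      · left; exact h1
      · right; exact ⟨hA, hB, (condC_iff p hB).mp hC⟩
      · exact absurd h2 hp2
    · by_cases hcyc : ∀ P : Sylow 2 G, IsCyclic P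
      · left; exact hcyc
      · right
        rcases h 2 Nat.prime_two with h1 | ⟨hA, hBC⟩ | ⟨_, hA, hM⟩
        · exact absurd h1 hcyc
        · exact ⟨hA, (two_iff hcyc).mp (Or.inl hBC)⟩
        · exact ⟨hA, (two_iff hcyc).mp (Or.inr hM)⟩
  · rintro ⟨hodd, h2⟩ p hp
    haveI : Fact p.Prime := ⟨hp⟩
    by_cases hp2 : p = 2
    · subst hp2
      by_cases hcyc : ∀ P : Sylow 2 G, IsCyclic P
      · left; exact hcyc
      · right
        rcases h2 with h1 | ⟨hA, h1⟩
        · exact absurd h1 hcyc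
        · rcases (two_iff hcyc).mpr h1 with ⟨hB, hC⟩ | hM
          · left; exact ⟨hA, hB, hC⟩
          · right; exact ⟨rfl, hA, hM⟩
    · rcases hodd p hp hp2 with h1 | ⟨hA, hB, hO⟩
      · left; exact h1
      · right; left; exact ⟨hA, hB, (condC_iff p hB).mpr hO⟩

end Pool.Agent.Helper884.IC
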