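import Pool.Agent.Helper884.IC.Two8

set_option linter.unusedSectionVars false
set_option linter.style.haveILetI false
set_option linter.unusedVariables false

open scoped BigOperators Classical
open Representation

noncomputable section

namespace Pool.Agent.Helper884.IC

variable {G : Type} [Group G] [Fintype G]

/-- the three families of noncyclic Sylow subgroups -/
theorem tri (p : ℕ) [hp : Fact p.Prime] (hO : OneBig p G) (hnc : ¬ ∀ P : Sylow p G, IsCyclic P) :
    (∀ P : Sylow p G, Nat.card P = p ^ 2) ∨
    (∀ u v : G, u ≠ 1 → v ≠ 1 → IsPE p u → IsPE p v → IsConj u v) ∨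
    (∀ P : Sylow p G, ∃ u ∈ P, Nat.card (Subgroup.centralizer ({u} : Set G) ⊓ P : Subgroup G) = p ^ 2) := by
  have hf2 : 2 ≤ (Nat.card G).factorization p := by
    by_contra h
    apply hnc
    intro P
    have hPc : Nat.card P = p ^ (Nat.card G).factorization p := P.card_eq_multiplicity
    have : (Nat.card G).factorization p = 0 ∨ (Nat.card G).factorization p = 1 := by omega
    rcases this with h0 | h0
    · rw [h0, pow_zero] at hPc
      haveI : Subsingleton P := (Nat.card_eq_one_iff_unique.mp hPc).1
      exact isCyclic_of_subsingleton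
    · rw [h0, pow_one] at hPc
      exact isCyclic_of_prime_card hPc
  by_cases hf : (Nat.card G).factorization p = 2
  · left
    intro P
    rw [P.card_eq_multiplicity, hf]
  right
  by_cases hall : ∀ u : G, u ≠ 1 → IsPE p u → 3 ≤ vC p u
  · left
    intro u v hu hv hup hvp
    exact hO u v hu hv hup hvp ((big_iff p u).mpr (hall u hu hup)) ((big_iff p v).mpr (hall v hv hvp))
  · right
    push Not at hall
    obtain ⟨u0, hu01, hu0p, hu0v⟩ := hall
    intro P
    have hup : IsPGroup p (Subgroup.zpowers u0) := by
      obtain ⟨k, hk⟩ := hu0p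
      apply IsPGroup.of_card (n := k)
      rw [Nat.card_zpowers, hk]
    obtain ⟨P0, hP0⟩ := hup.exists_le_sylow
    obtain ⟨g, hg⟩ := MulAction.exists_smul_eq G P0 P
    set u := g * u0 * g⁻¹ with hu
    have huP : u ∈ P := by
      rw [← hg, Sylow.smul_def]
      have h1 : u0 ∈ (P0 : Subgroup G) := hP0 (Subgroup.mem_zpowers u0)
      exact Subgroup.smul_mem_pointwise_smul u0 (MulAut.conj g) (P0 : Subgroup G) h1
    have hconj : IsConj u0 u := isConj_iff.mpr ⟨g, rfl⟩
    have huv : vC p u ≤ 2 := by rw [← vC_conj p hconj]; omega
    have hu1 : u ≠ 1 := by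
      intro h; rw [h, isConj_one_left] at hconj; exact hu01 hconj
    refine ⟨u, huP, ?_⟩
    set S := Subgroup.centralizer ({u} : Set G) ⊓ (P : Subgroup G) with hS
    have hSp : Nat.card S ∣ p ^ (Nat.card G).factorization p := by
      rw [← P.card_eq_multiplicity]
      exact Subgroup.card_dvd_of_le inf_le_right
    have hSc : Nat.card S ∣ Nat.card (Subgroup.centralizer ({u} : Set G)) :=
      Subgroup.card_dvd_of_le inf_le_left
    obtain ⟨i, hi, hi'⟩ := (Nat.dvd_prime_pow hp.out).mp hSp
    have hi2 : i ≤ 2 := by
      rw [hi'] at hSc
      have := (hp.out.pow_dvd_iff_le_factorization (cent_ne u)).mp hSc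
      have h5 : vC p u = (Nat.card (Subgroup.centralizer ({u} : Set G))).factorization p := rfl
      omega
    rw [hi']
    have huS : u ∈ S := ⟨Subgroup.mem_centralizer_singleton_iff.mpr rfl, huP⟩
    have hdvd : p ∣ Nat.card G := by
      have := (hp.out.pow_dvd_iff_le_factorization (Nat.card_pos.ne' : Nat.card G ≠ 0)).mpr
        (show 1 ≤ (Nat.card G).factorization p by omega)
      rwa [pow_one] at this
    obtain ⟨z, hzP, hz1, hzp, hzc⟩ := exists_central p P hdvd
    have hzS : z ∈ S := ⟨Subgroup.mem_centralizer_singleton_iff.mpr (hzc u huP).symm, hzP⟩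
    have hi1 : i = 2 := by
      by_contra hne
      have hile : i ≤ 1 := by omega
      -- S is generated by z
      have hzS' : Subgroup.zpowers z = S := by
        apply Subgroup.eq_of_le_of_card_ge
        · rw [Subgroup.zpowers_le]; exact hzS
        · rw [hi', Nat.card_zpowers, orderOf_eq_prime hzp hz1]
          calc p ^ i ≤ p ^ 1 := Nat.pow_le_pow_right hp.out.pos hile
            _ = p := pow_one p
      rw [← hzS'] at huS
      obtain ⟨k, hk⟩ := nat_pow_of_mem huS
      have hcent : ∀ w ∈ P, w * u = u * w := by
        intro w hw
        rw [hk]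
        exact (Commute.pow_right (hzc w hw) k)
      have := vC_central p P u hcent
      omega
    rw [hi1]

lemma IsDSQ.of_equiv {P Q : Type} [Group P] [Group Q] (e : P ≃* Q) (h : IsDSQ P) : IsDSQ Q := by
  obtain ⟨x, y, m, hm, hx, hc, hy, hact⟩ := h
  refine ⟨e x, e y, m, hm, ?_, ?_, ?_, ?_⟩
  · rw [MulEquiv.orderOf_eq, hx]
  · rw [← Nat.card_congr e.toEquiv, hc]
  · rintro ⟨k, hk⟩
    apply hy
    refine ⟨k, ?_⟩
    apply e.injective
    simpa using hk
  · rcases hact with ⟨h1, h2⟩ | ⟨h0, h1, h2⟩
    · left
      refine ⟨?_, ?_⟩
      · rw [← map_inv, ← map_mul, ← map_mul, h1, map_inv]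
      · rcases h2 with h2 | h2
        · left; rw [← map_pow, h2, map_one]
        · right; rw [← map_pow, h2, map_pow]
    · right
      refine ⟨h0, ?_, ?_⟩
      · rw [← map_inv, ← map_mul, ← map_mul, h1, map_pow]
      · rw [← map_pow, h2, map_one]

/-- groups of prime power order -/
theorem pgroup_iff (p : ℕ) [hp : Fact p.Prime] (hG : IsPGroup p G) :
    HasIC G ↔ (IsCyclic G ∨ (p = 2 ∧ (IsDSQ G ∨ Nat.card G = 4))) := by
  have htop : ∀ P : Sylow p G, (P : Subgroup G) = ⊤ := by
    intro P
    have h1 : IsPGroup p (⊤ : Subgroup G) := hG.to_subgroup ⊤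
    exact (P.3 h1 le_top).symm
  have hcycP : ∀ P : Sylow p G, IsCyclic P → IsCyclic G := by
    intro P h
    have e : (P : Subgroup G) ≃* G := (MulEquiv.subgroupCongr (htop P)).trans Subgroup.topEquiv
    exact e.isCyclic.mp h
  have hord : ∀ s : G, IsPE p s := fun s => (IsPGroup.iff_orderOf.mp hG) s
  constructor
  · intro hIC
    by_cases hcyc : IsCyclic G
    · left; exact hcyc
    right
    have hnc : ¬ ∀ P : Sylow p G, IsCyclic P := by
      intro h
      obtain ⟨P⟩ : Nonempty (Sylow p G) := inferInstance
      exact hcyc (hcycP P (h P))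
    obtain ⟨hodd, h2⟩ := main_iff.mp hIC
    by_cases hp2 : p = 2
    · subst hp2
      refine ⟨rfl, ?_⟩
      obtain ⟨P⟩ : Nonempty (Sylow 2 G) := inferInstance
      have e : (P : Subgroup G) ≃* G := (MulEquiv.subgroupCongr (htop P)).trans Subgroup.topEquiv
      rcases h2 with h2 | ⟨_, hD | ⟨hE, hI⟩⟩
      · exact absurd h2 hnc
      · left
        exact IsDSQ.of_equiv e (hD P)
      · right
        have hE' : ∀ u : G, u * u = 1 := by
          intro u
          have := hE P u (by
            show u ∈ (P : Subgroup G)
            rw [htop P]; trivial)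
          rwa [pow_two] at this
        obtain ⟨n, hn⟩ := hG.exists_card_eq
        have hn2 : 2 ≤ n := by
          by_contra hlt
          apply hcyc
          have : n = 0 ∨ n = 1 := by omega
          rcases this with h0 | h0
          · rw [h0, pow_zero] at hn
            haveI : Subsingleton G := (Nat.card_eq_one_iff_unique.mp hn).1
            exact isCyclic_of_subsingleton
          · rw [h0, pow_one] at hn
            exact isCyclic_of_prime_card hn
        have hcomm : ∀ w u : G, w * u = u * w := by
          intro w u
          calc w * u = w * (w * u * (w * u)) * u := by rw [hE' (w * u)]; group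
            _ = (w * w) * (u * w) * (u * u) := by group
            _ = u * w := by rw [hE', hE']; group
        rcases hI with hI | hI
        · have : n = 2 := by
            by_contra hne
            apply hI
            rw [hn]
            exact (by norm_num : (8 : ℕ) = 2 ^ 3) ▸ pow_dvd_pow 2 (by omega : 3 ≤ n)
          rw [hn, this]
          norm_num
        · exfalso
          -- all nontrivial elements are equal
          have h1 : ∀ u v : G, u ≠ 1 → v ≠ 1 → u = v := by
            intro u v hu hv
            have ou : orderOf u = 2 := orderOf_eq_prime (by rw [pow_two]; exact hE' u) hu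
            have ov : orderOf v = 2 := orderOf_eq_prime (by rw [pow_two]; exact hE' v) hv
            obtain ⟨c, hc⟩ := isConj_iff.mp (hI u v ou ov)
            rw [← hc, hcomm c u]
            group
          apply hcyc
          by_cases hex : ∃ t : G, t ≠ 1
          · obtain ⟨t, ht⟩ := hex
            refine ⟨t, fun w => ?_⟩
            by_cases hw : w = 1
            · exact ⟨0, by simp [hw]⟩
            · exact ⟨1, by simp [h1 w t hw ht]⟩
          · push Not at hex
            haveI : Subsingleton G := ⟨fun a b => by rw [hex a, hex b]⟩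
            exact isCyclic_of_subsingleton
    · exfalso
      rcases hodd p hp.out hp2 with h | ⟨_, hB, _⟩
      · exact hnc h
      · obtain ⟨P⟩ : Nonempty (Sylow p G) := inferInstance
        have hdvd : p ∣ Nat.card G := by
          obtain ⟨n, hn⟩ := hG.exists_card_eq
          rw [hn]
          apply dvd_pow_self
          rintro rfl
          rw [pow_zero] at hn
          apply hcyc
          haveI : Subsingleton G := (Nat.card_eq_one_iff_unique.mp hn).1
          exact isCyclic_of_subsingleton
        obtain ⟨z, hzP, hz1, hzp, hzc⟩ := exists_central p P hdvd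
        have h3 : ¬ p ∣ 2 := fun h => hp2 ((Nat.prime_dvd_prime_iff_eq hp.out Nat.prime_two).mp h)
        obtain ⟨c, hc⟩ := isConj_iff.mp (hB z (hord z) 2 h3)
        have hcz := hzc c (by
          show c ∈ (P : Subgroup G)
          rw [htop P]; trivial)
        rw [hcz, mul_inv_cancel_right, pow_two] at hc
        exact hz1 (by simpa using hc)
  · intro h
    rw [main_iff]
    have hcycq : ∀ q : ℕ, q.Prime → q ≠ p → ∀ Q : Sylow q G, IsCyclic Q := by
      intro q hq hqp Q
      haveI : Fact q.Prime := ⟨hq⟩
      have h1 : ∀ w : Q, w = 1 := by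
        intro w
        obtain ⟨k, hk⟩ := IsPE.of_mem_pgroup Q.2 w.2
        obtain ⟨k', hk'⟩ := hord (w : G)
        rw [hk] at hk'
        have hk0 : k = 0 := by
          by_contra h0
          have h2 : q ∣ p ^ k' := by rw [← hk']; exact dvd_pow_self q h0
          exact hqp ((Nat.prime_dvd_prime_iff_eq hq hp.out).mp (hq.dvd_of_dvd_pow h2))
        rw [hk0, pow_zero, orderOf_eq_one_iff] at hk
        exact Subtype.ext hk
      haveI : Subsingleton Q := ⟨fun a b => by rw [h1 a, h1 b]⟩
      exact isCyclic_of_subsingleton
    rcases h with hcyc | ⟨rfl, h⟩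
    · have hsub : ∀ q : ℕ, ∀ Q : Sylow q G, IsCyclic Q := by
        intro q Q
        haveI := hcyc
        exact isCyclic_of_injective (Q : Subgroup G).subtype (Q : Subgroup G).subtype_injective
      exact ⟨fun q hq hq2 => Or.inl (hsub q), Or.inl (hsub 2)⟩
    · refine ⟨fun q hq hq2 => Or.inl (hcycq q hq hq2), ?_⟩
      by_cases hnc : ∀ P : Sylow 2 G, IsCyclic P
      · left; exact hnc
      right
      refine ⟨?_, ?_⟩
      · intro s hs1 hs2
        exfalso
        obtain ⟨k, hk⟩ := hord s
        apply hs2
        rw [hk]
        apply dvd_pow_self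
        rintro rfl
        rw [pow_zero, orderOf_eq_one_iff] at hk
        exact hs1 hk
      · rcases h with hD | h4
        · left
          intro P
          exact IsDSQ.of_equiv ((MulEquiv.subgroupCongr (htop P)).trans Subgroup.topEquiv).symm hD
        · right
          refine ⟨?_, Or.inl (by rw [h4]; norm_num)⟩
          intro P u hu
          by_contra hu2
          apply hnc
          have ho : orderOf u = 4 := by
            have h1 : orderOf u ∣ 2 ^ 2 := by
              have := orderOf_dvd_natCard u
              rw [h4] at this
              exact this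
            obtain ⟨i, hi, hi'⟩ := (Nat.dvd_prime_pow Nat.prime_two).mp h1
            have hp1 := pow_orderOf_eq_one u
            rw [hi'] at hp1
            interval_cases i
            · exfalso; apply hu2
              rw [pow_zero, pow_one] at hp1
              rw [hp1, one_pow]
            · exfalso; apply hu2
              rwa [pow_one] at hp1
            · rw [hi']; norm_num
          have hcG : IsCyclic G := isCyclic_of_orderOf_eq_card u (by rw [ho, h4])
          intro P'
          haveI := hcG
          exact isCyclic_of_injective (P' : Subgroup G).subtype (P' : Subgroup G).subtype_injective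

end Pool.Agent.Helper884.IC
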